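import Mathlib

/-!
# Functions of subgroups which are mean values
-/

set_option autoImplicit false
set_option linter.unusedSectionVars false

namespace Pool.Agent.Run7.h508.BR

open Classical in
/-- the sum of the values of `φ` on the subgroup `H` -/
noncomputable def tot {G V : Type} [Group G] [AddCommGroup V] (φ : G → V) (H : Subgroup G) : V :=
  ∑ᶠ g : G, if g ∈ H then φ g else 0

/-- `F H` is the mean value of `φ` on `H` -/
def IsMean {G V : Type} [Group G] [AddCommGroup V] (φ : G → V) (F : Subgroup G → V) : Prop :=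
  ∀ H : Subgroup G, Nat.card H • F H = tot φ H

section mean

variable {G V : Type} [Group G] [AddCommGroup V] [Module ℚ V]

open Classical in
lemma tot_eq [Fintype G] (φ : G → V) (H : Subgroup G) :
    tot φ H = ∑ g : G, if g ∈ H then φ g else 0 := by
  rw [tot, finsum_eq_sum_of_fintype]

lemma tot_conj [Finite G] (φ : G → V) (H : Subgroup G) (x : G) :
    tot (fun g => φ (x * g * x⁻¹)) H = tot φ (H.map (MulAut.conj x).toMonoidHom) := by
  classical
  have := Fintype.ofFinite G
  rw [tot_eq, tot_eq]
  refine Fintype.sum_equiv (MulAut.conj x).toEquiv _ _ fun g => ?_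
  have h1 : ((MulAut.conj x).toEquiv g) = x * g * x⁻¹ := rfl
  rw [h1]
  have h2 : x * g * x⁻¹ ∈ H.map (MulAut.conj x).toMonoidHom ↔ g ∈ H := by
    constructor
    · rintro ⟨y, hy, h⟩
      have h3 : x * y * x⁻¹ = x * g * x⁻¹ := h
      have h4 : y = g := by
        have := mul_right_cancel h3
        exact mul_left_cancel this
      rw [← h4]
      exact hy
    · intro h
      exact ⟨g, h, rfl⟩
  simp only [h2]

lemma smul_inj {n : ℕ} (hn : n ≠ 0) {a b : V} (h : n • a = n • b) : a = b := by
  have h1 : ((n : ℚ)⁻¹ * n) • a = ((n : ℚ)⁻¹ * n) • b := by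
    rw [mul_smul, mul_smul, Nat.cast_smul_eq_nsmul, Nat.cast_smul_eq_nsmul, h]
  rwa [inv_mul_cancel₀ (Nat.cast_ne_zero.mpr hn), one_smul, one_smul] at h1

theorem mean_conj [Finite G] {F : Subgroup G → V} {φ : G → V} (h : IsMean φ F)
    (hF : ∀ (x : G) (H : Subgroup G), F (H.map (MulAut.conj x).toMonoidHom) = F H) :
    ∃ φ' : G → V, IsMean φ' F ∧ ∀ x g, φ' (x * g * x⁻¹) = φ' g := by
  classical
  have := Fintype.ofFinite G
  have hG : (Fintype.card G : ℚ) ≠ 0 := Nat.cast_ne_zero.mpr Fintype.card_ne_zero
  refine ⟨fun g => (Fintype.card G : ℚ)⁻¹ • ∑ x : G, φ (x * g * x⁻¹), fun H => ?_, fun y g => ?_⟩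
  · rw [tot_eq]
    have h1 : ∀ g : G, (if g ∈ H then (Fintype.card G : ℚ)⁻¹ • ∑ x : G, φ (x * g * x⁻¹) else 0) =
        (Fintype.card G : ℚ)⁻¹ • ∑ x : G, (if g ∈ H then φ (x * g * x⁻¹) else 0) := by
      intro g
      split_ifs with hg
      · rfl
      · simp
    simp only [h1]
    rw [← Finset.smul_sum, Finset.sum_comm]
    have h2 : ∀ x : G, ∑ g : G, (if g ∈ H then φ (x * g * x⁻¹) else 0) = Nat.card H • F H := by
      intro x
      have h3 := tot_conj φ H x
      rw [tot_eq] at h3
      rw [h3, ← h, hF]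
      congr 1
      exact Nat.card_congr ((H.equivMapOfInjective _ (MulAut.conj x).injective).toEquiv).symm
    simp only [h2]
    rw [Finset.sum_const, Finset.card_univ, ← Nat.cast_smul_eq_nsmul ℚ (Fintype.card G), smul_smul,
      inv_mul_cancel₀ hG, one_smul]
  · dsimp only
    congr 1
    refine Fintype.sum_equiv (Equiv.mulRight y) _ _ fun x => ?_
    change _ = φ (x * y * g * (x * y)⁻¹)
    congr 1
    group

/-- the number of generators of the cyclic group generated by `g` -/
noncomputable def ngen (g : G) : ℕ := Nat.card {x : G // Subgroup.zpowers x = Subgroup.zpowers g}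

lemma ngen_ne_zero [Finite G] (g : G) : ngen g ≠ 0 := by
  have : Nonempty {x : G // Subgroup.zpowers x = Subgroup.zpowers g} := ⟨⟨g, rfl⟩⟩
  exact Nat.card_pos.ne'

open Classical in
lemma ngen_eq [Fintype G] (g : G) :
    ngen g = ∑ x : G, if Subgroup.zpowers x = Subgroup.zpowers g then 1 else 0 := by
  rw [ngen, Nat.card_eq_fintype_card, Fintype.card_subtype, Finset.card_filter]

theorem mean_zpowers [Finite G] {F : Subgroup G → V} {φ : G → V} (h : IsMean φ F)
    (hφ : ∀ x g, φ (x * g * x⁻¹) = φ g) :
    ∃ φ' : G → V, IsMean φ' F ∧ (∀ x g, φ' (x * g * x⁻¹) = φ' g) ∧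
      ∀ g g', Subgroup.zpowers g = Subgroup.zpowers g' → φ' g = φ' g' := by
  classical
  have := Fintype.ofFinite G
  refine ⟨fun g => (ngen g : ℚ)⁻¹ • ∑ x : G, if Subgroup.zpowers x = Subgroup.zpowers g then φ x
    else 0, fun H => ?_, fun y g => ?_, fun g g' hg => ?_⟩
  · rw [tot_eq, h, tot_eq]
    have h1 : ∀ g : G, (if g ∈ H then (ngen g : ℚ)⁻¹ • ∑ x : G,
        (if Subgroup.zpowers x = Subgroup.zpowers g then φ x else 0) else 0) =
        ∑ x : G, (if x ∈ H ∧ Subgroup.zpowers g = Subgroup.zpowers x then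
          (ngen x : ℚ)⁻¹ • φ x else 0) := by
      intro g
      split_ifs with hg
      · rw [Finset.smul_sum]
        refine Finset.sum_congr rfl fun x _ => ?_
        by_cases hx : Subgroup.zpowers x = Subgroup.zpowers g
        · have hxH : x ∈ H := by
            have h2 : x ∈ Subgroup.zpowers g := hx ▸ Subgroup.mem_zpowers x
            exact (Subgroup.zpowers_le.mpr hg) h2
          rw [if_pos hx, if_pos ⟨hxH, hx.symm⟩]
          congr 3
          unfold ngen
          rw [hx]
        · rw [if_neg hx, if_neg (fun h => hx h.2.symm), smul_zero]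
      · symm
        refine Finset.sum_eq_zero fun x _ => ?_
        rw [if_neg]
        rintro ⟨hx, h2⟩
        apply hg
        have h3 : g ∈ Subgroup.zpowers x := h2 ▸ Subgroup.mem_zpowers g
        exact (Subgroup.zpowers_le.mpr hx) h3
    simp only [h1]
    rw [Finset.sum_comm]
    refine Finset.sum_congr rfl fun x _ => ?_
    split_ifs with hx
    · have h2 : ∀ g : G, (if x ∈ H ∧ Subgroup.zpowers g = Subgroup.zpowers x then
          (ngen x : ℚ)⁻¹ • φ x else 0) = (if Subgroup.zpowers g = Subgroup.zpowers x then 1 else 0 : ℕ) •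
            ((ngen x : ℚ)⁻¹ • φ x) := by
        intro g
        by_cases hg : Subgroup.zpowers g = Subgroup.zpowers x
        · rw [if_pos ⟨hx, hg⟩, if_pos hg, one_smul]
        · rw [if_neg (fun h => hg h.2), if_neg hg, zero_smul]
      simp only [h2]
      rw [← Finset.sum_smul, ← ngen_eq, ← Nat.cast_smul_eq_nsmul ℚ (ngen x), smul_smul,
        mul_inv_cancel₀ (Nat.cast_ne_zero.mpr (ngen_ne_zero x)), one_smul]
    · symm
      refine Finset.sum_eq_zero fun g _ => ?_
      rw [if_neg (fun h => hx h.1)]
  · dsimp only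
    have h1 : ∀ x : G, Subgroup.zpowers (y * x * y⁻¹) = Subgroup.zpowers (y * g * y⁻¹) ↔
        Subgroup.zpowers x = Subgroup.zpowers g := by
      intro x
      have h2 : ∀ z : G, Subgroup.zpowers (y * z * y⁻¹) =
          (Subgroup.zpowers z).map (MulAut.conj y).toMonoidHom := by
        intro z
        rw [MonoidHom.map_zpowers]
        rfl
      rw [h2, h2]
      exact (Subgroup.map_injective (MulAut.conj y).injective).eq_iff
    have h3 : ngen (y * g * y⁻¹) = ngen g := by
      rw [ngen_eq, ngen_eq]
      refine (Fintype.sum_equiv (MulAut.conj y).toEquiv _ _ fun x => ?_).symm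
      change _ = if Subgroup.zpowers (y * x * y⁻¹) = _ then 1 else 0
      simp only [h1]
    rw [h3]
    congr 1
    refine (Fintype.sum_equiv (MulAut.conj y).toEquiv _ _ fun x => ?_).symm
    change _ = if Subgroup.zpowers (y * x * y⁻¹) = _ then φ (y * x * y⁻¹) else 0
    simp only [h1, hφ]
  · dsimp only
    unfold ngen
    rw [hg]

/-- the value of `φ` at an element `g` when `F` is constant on the subgroups of `⟨g⟩` -/
theorem mean_val [Finite G] {F : Subgroup G → V} {φ : G → V} (h : IsMean φ F)
    (hφ : ∀ g g', Subgroup.zpowers g = Subgroup.zpowers g' → φ g = φ g') {a : V} (g : G)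
    (ha : ∀ C : Subgroup G, C ≤ Subgroup.zpowers g → F C = a) : φ g = a := by
  classical
  have := Fintype.ofFinite G
  induction hn : Nat.card (Subgroup.zpowers g) using Nat.strong_induction_on generalizing g with
  | _ n ih =>
    have h1 := h (Subgroup.zpowers g)
    rw [ha _ le_rfl, tot_eq] at h1
    have h2 : ∀ x : G, (if x ∈ Subgroup.zpowers g then φ x else 0) =
        (if Subgroup.zpowers x = Subgroup.zpowers g then 1 else 0 : ℕ) • (φ g - a) +
        (if x ∈ Subgroup.zpowers g then 1 else 0 : ℕ) • a := by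
      intro x
      by_cases hx : x ∈ Subgroup.zpowers g
      · by_cases hx2 : Subgroup.zpowers x = Subgroup.zpowers g
        · rw [if_pos hx, if_pos hx, if_pos hx2, one_smul, one_smul, hφ x g hx2]
          abel
        · rw [if_pos hx, if_pos hx, if_neg hx2, one_smul, zero_smul, zero_add]
          have hlt : Subgroup.zpowers x < Subgroup.zpowers g :=
            lt_of_le_of_ne (Subgroup.zpowers_le.mpr hx) hx2
          refine ih (Nat.card (Subgroup.zpowers x)) ?_ x (fun C hC => ha C (hC.trans hlt.le)) rfl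
          rw [← hn]
          exact Set.ncard_lt_ncard hlt
      · have hx2 : Subgroup.zpowers x ≠ Subgroup.zpowers g := fun h => hx (h ▸ Subgroup.mem_zpowers x)
        rw [if_neg hx, if_neg hx, if_neg hx2, zero_smul, zero_smul, zero_add]
    simp only [h2] at h1
    rw [Finset.sum_add_distrib, ← Finset.sum_smul, ← Finset.sum_smul, ← ngen_eq] at h1
    have h3 : (∑ x : G, if x ∈ Subgroup.zpowers g then 1 else 0) = Nat.card (Subgroup.zpowers g) := by
      rw [Nat.card_eq_fintype_card, Fintype.card_subtype, Finset.card_filter]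
    rw [h3] at h1
    have h4 : ngen g • (φ g - a) = ngen g • (0 : V) := by
      rw [smul_zero]
      exact right_eq_add.mp h1
    exact sub_eq_zero.mp (smul_inj (ngen_ne_zero g) h4)

end mean

end Pool.Agent.Run7.h508.BR
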