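import Mathlib
import Pool.Agent.Run7.h508.BR.Mean

/-!
# Mean values on `(ℤ/l)³`
-/

set_option autoImplicit false
set_option linter.unusedSectionVars false

namespace Pool.Agent.Run7.h508.BR

/-- the elements of the coordinate axes -/
def Axis {l : ℕ} (a : Fin 3 → ZMod l) : Prop := ∃ i, ∀ j, j ≠ i → a j = 0

lemma cov3 : ∀ i j k : Fin 3, i ≠ j → i ≠ k → j ≠ k → ∀ x : Fin 3, x = i ∨ x = j ∨ x = k := by
  decide

section a3

variable {l : ℕ} [hl : Fact l.Prime] {V : Type} [AddCommGroup V] [Module ℚ V]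

lemma smul_mem' {W : AddSubgroup (Fin 3 → ZMod l)} {a : Fin 3 → ZMod l} (ha : a ∈ W) (t : ZMod l) :
    t • a ∈ W := by
  have h1 : t • a = t.val • a := by
    rw [← Nat.cast_smul_eq_nsmul (ZMod l) t.val, ZMod.natCast_zmod_val]
  rw [h1]
  exact W.nsmul_mem ha _

lemma relIndex_ker' (W : AddSubgroup (Fin 3 → ZMod l)) (f : (Fin 3 → ZMod l) →+ ZMod l)
    (hf : ∀ t, ∃ a ∈ W, f a = t) : (W ⊓ f.ker).relIndex W = l := by
  rw [AddSubgroup.inf_relIndex_left, AddSubgroup.relIndex_ker]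
  have h1 : W.map f = ⊤ := by
    rw [eq_top_iff]
    intro t _
    obtain ⟨a, ha, h⟩ := hf t
    exact ⟨a, ha, h⟩
  rw [h1, Nat.card_congr AddSubgroup.topEquiv.toEquiv, Nat.card_zmod]

open Classical in
theorem a3_aux (S : AddSubgroup (Fin 3 → ZMod l) → V) (ψ : (Fin 3 → ZMod l) → V)
    (hψ : ∀ W : AddSubgroup (Fin 3 → ZMod l), Nat.card W • S W = ∑ a, if a ∈ W then ψ a else 0)
    (hu : ∀ (t : ZMod l) (a), t ≠ 0 → ψ (t • a) = ψ a)
    (hS : ∀ W' W : AddSubgroup (Fin 3 → ZMod l), W' ≤ W → W'.relIndex W = l →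
      (∀ a ∈ W, Axis a → a ∈ W') → S W' = S W) (W : AddSubgroup (Fin 3 → ZMod l)) :
    S W = ψ 0 := by
  -- sum of the differences
  have hd : ∀ W : AddSubgroup (Fin 3 → ZMod l),
      Nat.card W • (S W - ψ 0) = ∑ a, if a ∈ W then ψ a - ψ 0 else 0 := by
    intro W
    have h1 : ∀ a : Fin 3 → ZMod l, (if a ∈ W then ψ a - ψ 0 else 0) =
        (if a ∈ W then ψ a else 0) - (if a ∈ W then 1 else 0 : ℕ) • ψ 0 := by
      intro a
      split_ifs <;> simp
    simp only [h1]
    rw [Finset.sum_sub_distrib, ← hψ, ← Finset.sum_smul, smul_sub]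
    congr 2
    rw [Nat.card_eq_fintype_card, Fintype.card_subtype, Finset.card_filter]
  have hcard : ∀ W : AddSubgroup (Fin 3 → ZMod l), Nat.card W ≠ 0 := fun W => Nat.card_pos.ne'
  -- lines
  have hline : ∀ a : Fin 3 → ZMod l, a ≠ 0 → ∀ W : AddSubgroup (Fin 3 → ZMod l), a ∈ W →
      (∀ b ∈ W, ∃ t : ZMod l, b = t • a) → S W = ψ 0 → ψ a = ψ 0 := by
    intro a ha W haW hW hSW
    have h1 := hd W
    rw [hSW, sub_self, smul_zero] at h1
    have h2 : ∀ b, (if b ∈ W then ψ b - ψ 0 else 0) =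
        (if b ∈ W ∧ b ≠ 0 then 1 else 0 : ℕ) • (ψ a - ψ 0) := by
      intro b
      by_cases hb : b ∈ W
      · by_cases hb0 : b = 0
        · rw [if_pos hb, if_neg (fun h => h.2 hb0), hb0, sub_self, zero_smul]
        · rw [if_pos hb, if_pos ⟨hb, hb0⟩, one_smul]
          obtain ⟨t, rfl⟩ := hW b hb
          rw [hu t a]
          rintro rfl
          exact hb0 (zero_smul _ _)
      · rw [if_neg hb, if_neg (fun h => hb h.1), zero_smul]
    simp only [h2] at h1
    rw [← Finset.sum_smul] at h1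
    have h3 : (∑ b : Fin 3 → ZMod l, if b ∈ W ∧ b ≠ 0 then 1 else 0) ≠ 0 := by
      rw [← Finset.card_filter]
      exact (Finset.card_pos.mpr ⟨a, Finset.mem_filter.mpr ⟨Finset.mem_univ _, haW, ha⟩⟩).ne'
    exact sub_eq_zero.mp (smul_inj h3 (by rw [← h1, smul_zero]))
  have hS0 : S ⊥ = ψ 0 := by
    have h1 := hψ ⊥
    have h2 : ∀ a : Fin 3 → ZMod l, (if a ∈ (⊥ : AddSubgroup (Fin 3 → ZMod l)) then ψ a else 0) =
        if a = 0 then ψ a else 0 := by
      intro a
      simp only [AddSubgroup.mem_bot]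
    simp only [h2] at h1
    rw [Finset.sum_ite_eq' Finset.univ (0 : Fin 3 → ZMod l) ψ, if_pos (Finset.mem_univ _)] at h1
    simpa using h1
  -- the elements which are not on an axis
  have hna : ∀ a : Fin 3 → ZMod l, ¬ Axis a → ψ a = ψ 0 := by
    intro a ha
    have ha0 : a ≠ 0 := by
      rintro rfl
      exact ha ⟨0, fun _ _ => rfl⟩
    obtain ⟨i, hi⟩ := Function.ne_iff.mp ha0
    have hi' : a i ≠ 0 := hi
    let W := AddSubgroup.zmultiples a
    have hW : ∀ b ∈ W, ∃ t : ZMod l, b = t • a := by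
      intro b hb
      obtain ⟨n, rfl⟩ := AddSubgroup.mem_zmultiples_iff.mp hb
      exact ⟨(n : ZMod l), by rw [Int.cast_smul_eq_zsmul]⟩
    have haW : a ∈ W := AddSubgroup.mem_zmultiples a
    refine hline a ha0 W haW hW ?_
    rw [← hS0]
    symm
    let f : (Fin 3 → ZMod l) →+ ZMod l := Pi.evalAddMonoidHom _ i
    have hbot : W ⊓ f.ker = ⊥ := by
      rw [eq_bot_iff]
      rintro b ⟨hb, hb2⟩
      obtain ⟨t, rfl⟩ := hW b hb
      have h3 : t * a i = 0 := hb2
      rcases mul_eq_zero.mp h3 with h | h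
      · rw [h, zero_smul]
        exact AddSubgroup.zero_mem _
      · exact absurd h hi'
    have h4 := relIndex_ker' W f (fun t => ⟨(t * (a i)⁻¹) • a, smul_mem' haW _, by
      change (t * (a i)⁻¹) * a i = t
      rw [mul_assoc, inv_mul_cancel₀ hi', mul_one]⟩)
    rw [hbot] at h4
    refine hS ⊥ W bot_le h4 ?_
    intro b hb hax
    obtain ⟨t, rfl⟩ := hW b hb
    by_cases ht : t = 0
    · rw [ht, zero_smul]
      exact AddSubgroup.zero_mem _
    · exfalso
      apply ha
      obtain ⟨j, hj⟩ := hax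
      refine ⟨j, fun k hk => ?_⟩
      have h5 : t * a k = 0 := hj k hk
      exact (mul_eq_zero.mp h5).resolve_left ht
  -- the elements of an axis
  have hax : ∀ i j k : Fin 3, i ≠ j → i ≠ k → j ≠ k → ∀ a : Fin 3 → ZMod l,
      (a j = 0 ∧ a k = 0) → a ≠ 0 → ψ a = ψ 0 := by
    intro i j k hij hik hjk a ha ha0
    have hcov : ∀ x : Fin 3, x = i ∨ x = j ∨ x = k := by
      exact cov3 i j k hij hik hjk
    let f : (Fin 3 → ZMod l) →+ ZMod l := Pi.evalAddMonoidHom _ j
    let g : (Fin 3 → ZMod l) →+ ZMod l := Pi.evalAddMonoidHom _ k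
    let W : AddSubgroup (Fin 3 → ZMod l) := (f - g).ker
    let W' := W ⊓ f.ker
    have hW : ∀ b, b ∈ W ↔ b j = b k := by
      intro b
      change b j - b k = 0 ↔ _
      exact sub_eq_zero
    have hW' : ∀ b, b ∈ W' ↔ b j = 0 ∧ b k = 0 := by
      intro b
      constructor
      · rintro ⟨h1, h2⟩
        have h3 : b j = 0 := h2
        have h4 := (hW b).mp h1
        exact ⟨h3, by rw [← h4, h3]⟩
      · rintro ⟨h1, h2⟩
        exact ⟨(hW b).mpr (by rw [h1, h2]), h1⟩
    have h1 : W'.relIndex W = l := by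
      refine relIndex_ker' W f fun t => ⟨fun _ => t, ?_, rfl⟩
      rw [hW]
    have haW' : a ∈ W' := (hW' a).mpr ha
    have hi' : a i ≠ 0 := by
      intro h
      apply ha0
      funext x
      rcases hcov x with rfl | rfl | rfl
      · exact h
      · exact ha.1
      · exact ha.2
    -- axis elements of `W`
    have h2 : ∀ b ∈ W, Axis b → b ∈ W' := by
      intro b hb ⟨x, hx⟩
      have h3 := (hW b).mp hb
      rw [hW']
      rcases hcov x with rfl | rfl | rfl
      · exact ⟨hx j hij.symm, hx k hik.symm⟩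
      · have h4 := hx k hjk.symm
        exact ⟨by rw [h3, h4], h4⟩
      · have h4 := hx j hjk
        exact ⟨h4, by rw [← h3, h4]⟩
    have h3 := hS W' W inf_le_left h1 h2
    have h4 : Nat.card W • (S W - ψ 0) = Nat.card W' • (S W' - ψ 0) := by
      rw [hd, hd]
      refine Finset.sum_congr rfl fun b _ => ?_
      by_cases hb : b ∈ W'
      · rw [if_pos hb, if_pos (show b ∈ W from hb.1)]
      · rw [if_neg hb]
        by_cases hb2 : b ∈ W
        · rw [if_pos hb2, hna b (fun h => hb (h2 b hb2 h)), sub_self]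
        · rw [if_neg hb2]
    have h5 : Nat.card W = l * Nat.card W' := by
      have h5 := AddSubgroup.relIndex_mul_relIndex ⊥ W' W bot_le inf_le_left
      rw [h1, AddSubgroup.relIndex_bot_left, AddSubgroup.relIndex_bot_left] at h5
      rw [← h5, mul_comm]
    rw [h5, mul_smul, h3, smul_comm] at h4
    have h6 : (l : ℚ) • (S W - ψ 0) = (1 : ℚ) • (S W - ψ 0) := by
      rw [one_smul, Nat.cast_smul_eq_nsmul]
      exact smul_inj (hcard W') h4
    have h7 : ((l : ℚ) - 1) • (S W - ψ 0) = 0 := by rw [sub_smul, h6, sub_self]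
    have h8 : ((l : ℚ) - 1) ≠ 0 := by
      have := hl.out.one_lt
      have h9 : (1 : ℚ) < l := by exact_mod_cast this
      linarith
    have h9 : S W = ψ 0 := sub_eq_zero.mp ((smul_eq_zero.mp h7).resolve_left h8)
    refine hline a ha0 W' haW' ?_ (by rw [h3, h9])
    intro b hb
    have h10 := (hW' b).mp hb
    refine ⟨b i * (a i)⁻¹, ?_⟩
    funext x
    change b x = b i * (a i)⁻¹ * a x
    rcases hcov x with rfl | rfl | rfl
    · rw [mul_assoc, inv_mul_cancel₀ hi', mul_one]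
    · rw [h10.1, ha.1, mul_zero]
    · rw [h10.2, ha.2, mul_zero]
  have hall : ∀ a, ψ a = ψ 0 := by
    intro a
    by_cases ha : Axis a
    · by_cases ha0 : a = 0
      · rw [ha0]
      obtain ⟨i, hi⟩ := ha
      fin_cases i
      · exact hax 0 1 2 (by decide) (by decide) (by decide) a ⟨hi 1 (by decide), hi 2 (by decide)⟩ ha0
      · exact hax 1 0 2 (by decide) (by decide) (by decide) a ⟨hi 0 (by decide), hi 2 (by decide)⟩ ha0
      · exact hax 2 0 1 (by decide) (by decide) (by decide) a ⟨hi 0 (by decide), hi 1 (by decide)⟩ ha0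
    · exact hna a ha
  have h1 := hd W
  have h2 : ∀ a, (if a ∈ W then ψ a - ψ 0 else 0) = 0 := by
    intro a
    rw [hall a, sub_self, ite_self]
  simp only [h2] at h1
  rw [Finset.sum_const_zero] at h1
  exact sub_eq_zero.mp (smul_inj (hcard W) (by rw [h1, smul_zero]))

open Classical in
theorem a3 (S : AddSubgroup (Fin 3 → ZMod l) → V) (ψ : (Fin 3 → ZMod l) → V)
    (hψ : ∀ W : AddSubgroup (Fin 3 → ZMod l), Nat.card W • S W = ∑ a, if a ∈ W then ψ a else 0)
    (hS : ∀ W' W : AddSubgroup (Fin 3 → ZMod l), W' ≤ W → W'.relIndex W = l →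
      (∀ a ∈ W, Axis a → a ∈ W') → S W' = S W) (W W₂ : AddSubgroup (Fin 3 → ZMod l)) :
    S W = S W₂ := by
  let ψ' : (Fin 3 → ZMod l) → V := fun a =>
    (Fintype.card (ZMod l)ˣ : ℚ)⁻¹ • ∑ t : (ZMod l)ˣ, ψ ((t : ZMod l) • a)
  have hc : (Fintype.card (ZMod l)ˣ : ℚ) ≠ 0 := Nat.cast_ne_zero.mpr Fintype.card_ne_zero
  have h1 : ∀ W : AddSubgroup (Fin 3 → ZMod l), Nat.card W • S W = ∑ a, if a ∈ W then ψ' a else 0 := by
    intro W
    have h2 : ∀ a : Fin 3 → ZMod l, (if a ∈ W then ψ' a else 0) =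
        (Fintype.card (ZMod l)ˣ : ℚ)⁻¹ • ∑ t : (ZMod l)ˣ,
          if (t : ZMod l) • a ∈ W then ψ ((t : ZMod l) • a) else 0 := by
      intro a
      have h3 : ∀ t : (ZMod l)ˣ, (t : ZMod l) • a ∈ W ↔ a ∈ W := by
        intro t
        constructor
        · intro h
          have h4 := smul_mem' h ((t⁻¹ : (ZMod l)ˣ) : ZMod l)
          rwa [smul_smul, Units.inv_mul, one_smul] at h4
        · intro h
          exact smul_mem' h _
      simp only [h3]
      by_cases ha : a ∈ W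
      · simp only [if_pos ha]
        rfl
      · simp only [if_neg ha, Finset.sum_const_zero, smul_zero]
    simp only [h2]
    rw [← Finset.smul_sum, Finset.sum_comm]
    have h5 : ∀ t : (ZMod l)ˣ, ∑ a : Fin 3 → ZMod l,
        (if (t : ZMod l) • a ∈ W then ψ ((t : ZMod l) • a) else 0) = Nat.card W • S W := by
      intro t
      rw [hψ W]
      refine Fintype.sum_bijective (fun a : Fin 3 → ZMod l => (t : ZMod l) • a) ?_ _ _ fun a => rfl
      constructor
      · intro a b h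
        have h6 : ((t⁻¹ : (ZMod l)ˣ) : ZMod l) • ((t : ZMod l) • a) =
          ((t⁻¹ : (ZMod l)ˣ) : ZMod l) • ((t : ZMod l) • b) := congrArg _ h
        rwa [smul_smul, smul_smul, Units.inv_mul, one_smul, one_smul] at h6
      · intro b
        refine ⟨((t⁻¹ : (ZMod l)ˣ) : ZMod l) • b, ?_⟩
        change (t : ZMod l) • (((t⁻¹ : (ZMod l)ˣ) : ZMod l) • b) = b
        rw [smul_smul, Units.mul_inv, one_smul]
    simp only [h5]
    rw [Finset.sum_const, Finset.card_univ, ← Nat.cast_smul_eq_nsmul ℚ (Fintype.card (ZMod l)ˣ),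
      smul_smul, inv_mul_cancel₀ hc, one_smul]
  have hu : ∀ (t : ZMod l) (a), t ≠ 0 → ψ' (t • a) = ψ' a := by
    intro t a ht
    change _ • _ = _ • _
    congr 1
    refine Fintype.sum_equiv (Equiv.mulRight (Units.mk0 t ht)) _ _ fun u => ?_
    rw [smul_smul]
    rfl
  rw [a3_aux S ψ' h1 hu hS W, a3_aux S ψ' h1 hu hS W₂]

end a3

end Pool.Agent.Run7.h508.BR
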