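import Mathlib
import Pool.Agent.K4H40.ST.AuxB
import Pool.Agent.K4H77.SL.Main

/-!
# Auxiliary cyclotomic characters of prime order
-/

set_option autoImplicit false
set_option linter.unusedSectionVars false

namespace Pool.Agent.Run7.h508.BR

open NumberField Polynomial Pool.Agent.K4H74.ST Pool.Agent.K4H77.SL Pool.Agent.K4H40.ST.Aux

lemma exists_prime_mem {R : Type} [CommRing R] {Q : Ideal R} (hQ : Q.IsPrime) {n : ℕ} (hn : n ≠ 0)
    (h : (n : R) ∈ Q) : ∃ p : ℕ, p.Prime ∧ p ∣ n ∧ (p : R) ∈ Q := by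
  induction n using Nat.strong_induction_on with
  | _ n ih =>
    have hn1 : n ≠ 1 := by
      rintro rfl
      rw [Nat.cast_one] at h
      exact hQ.ne_top ((Ideal.eq_top_iff_one _).2 h)
    have hp : n.minFac.Prime := Nat.minFac_prime hn1
    obtain ⟨m, hm⟩ := Nat.minFac_dvd n
    have hm0 : m ≠ 0 := by
      rintro rfl
      rw [mul_zero] at hm
      exact hn hm
    have hlt : m < n := by
      calc m < n.minFac * m := by
            have := hp.two_le
            have := Nat.pos_of_ne_zero hm0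
            nlinarith
        _ = n := hm.symm
    have hmem' : ((n.minFac : ℕ) : R) * (m : R) ∈ Q := by
      rw [← Nat.cast_mul, ← hm]
      exact h
    rcases hQ.mem_or_mem hmem' with h | h
    · exact ⟨_, hp, Nat.minFac_dvd n, h⟩
    · obtain ⟨p, h1, h2, h3⟩ := ih m hlt hm0 h
      exact ⟨p, h1, h2.trans ⟨n.minFac, by rw [mul_comm]; exact hm⟩, h3⟩

/-- the cyclotomic character on the decomposition groups -/
lemma chi_decomp {k M : Type} [Field k] [Field M] [NumberField M] [Algebra k M] {q : ℕ}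
    [Fact q.Prime] {ζ : M} (hζ : IsPrimitiveRoot ζ q) {p : ℕ} (hp : p.Prime) (hpq : p ≠ q)
    {Q : Ideal (𝓞 M)} (hQ : Q.IsMaximal) (hpQ : (p : 𝓞 M) ∈ Q) {g : M ≃ₐ[k] M}
    (hg : g ∈ decomp k Q) :
    ∃ j : ℕ, ((hζ.autToPow k g : (ZMod q)ˣ) : ZMod q) = (p : ZMod q) ^ j := by
  classical
  have hl : q.Prime := Fact.out
  have : Fact p.Prime := ⟨hp⟩
  let _ : Field (𝓞 M ⧸ Q) := Ideal.Quotient.field Q
  have hchar : CharP (𝓞 M ⧸ Q) p := by
    obtain ⟨c, hc⟩ := CharP.exists (𝓞 M ⧸ Q)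
    have h1 : ((p : ℕ) : 𝓞 M ⧸ Q) = 0 := by
      rw [← map_natCast (Ideal.Quotient.mk Q)]
      exact Ideal.Quotient.eq_zero_iff_mem.2 hpQ
    have h2 : c ∣ p := (CharP.cast_eq_zero_iff _ c p).1 h1
    have h3 : c ≠ 1 := CharP.char_ne_one (𝓞 M ⧸ Q) c
    have h4 : c = p := ((Nat.dvd_prime hp).1 h2).resolve_left h3
    rw [← h4]
    exact hc
  have hτ : Q ≤ Q.comap (gi g) := fun x hx => (hg x).mpr hx
  let φ : (𝓞 M ⧸ Q) →+* (𝓞 M ⧸ Q) := Ideal.quotientMap Q (gi g) hτ
  let z0 : 𝓞 M := ⟨ζ, hζ.isIntegral hl.pos⟩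
  have hz0 : z0 ^ q = 1 := by
    apply RingOfIntegers.ext
    exact hζ.pow_eq_one
  have hz01 : z0 ≠ 1 := by
    intro h
    have h1 := congrArg (fun t : 𝓞 M => (t : M)) h
    exact hζ.ne_one hl.one_lt h1
  have hlQ : (q : 𝓞 M) ∉ Q := notMem_of_coprime hQ.ne_top
    ((Nat.coprime_primes hp hl).2 hpq) hpQ
  have hz1 : Ideal.Quotient.mk Q z0 ≠ 1 := by
    intro h
    rw [← map_one (Ideal.Quotient.mk Q)] at h
    exact sub_one_notMem hz0 hz01 hlQ (Ideal.Quotient.eq.1 h)
  have hz : Ideal.Quotient.mk Q z0 ^ q = 1 := by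
    rw [← map_pow, hz0, map_one]
  have hc : φ (Ideal.Quotient.mk Q z0) =
      Ideal.Quotient.mk Q z0 ^ ((hζ.autToPow k g : (ZMod q)ˣ) : ZMod q).val := by
    have h1 : gi g z0 = z0 ^ ((hζ.autToPow k g : (ZMod q)ˣ) : ZMod q).val := by
      apply RingOfIntegers.ext
      exact (hζ.autToPow_spec k g).symm
    rw [← map_pow, ← h1]
    exact Ideal.quotientMap_mk
  obtain ⟨j, hj⟩ := char_eq p q hpq φ hz hz1 hc
  refine ⟨j, ?_⟩
  rw [← hj, ZMod.natCast_zmod_val]

lemma val_unit_eq {M : Type} [Field M] {q : ℕ} [Fact q.Prime] {ζ : M} (hζ : IsPrimitiveRoot ζ q)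
    {u v : (ZMod q)ˣ} (h : ζ ^ (u : ZMod q).val = ζ ^ (v : ZMod q).val) : u = v := by
  apply Units.ext
  apply ZMod.val_injective
  exact hζ.pow_inj (ZMod.val_lt _) (ZMod.val_lt _) h

set_option backward.isDefEq.respectTransparency false in
/-- the cyclotomic character is surjective on the Galois group over a field whose discriminant is
prime to `q` -/
lemma chi_surj {N M : Type} [Field N] [NumberField N] [Field M] [NumberField M] [Algebra N M]
    [IsGalois N M] {q : ℕ} [hq : Fact q.Prime] {ζ : M} (hζ : IsPrimitiveRoot ζ q)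
    (hd : ¬ q ∣ (discr N).natAbs) (u : (ZMod q)ˣ) : ∃ g : M ≃ₐ[N] M, g ζ = ζ ^ (u : ZMod q).val := by
  classical
  let i : N →ₐ[ℚ] M := IsScalarTower.toAlgHom ℚ N M
  let L : IntermediateField ℚ M := i.fieldRange
  let e : N ≃ₐ[ℚ] L := AlgEquiv.ofInjectiveField i
  have hLM : IsGalois L M := by
    refine IsGalois.of_equiv_equiv (F := N) (E := M) (f := e.toRingEquiv) (g := RingEquiv.refl M) ?_
    ext x
    rfl
  let K1 : IntermediateField ℚ M := IntermediateField.adjoin ℚ {ζ}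
  have hcyc : IsCyclotomicExtension {q} ℚ K1 := hζ.intermediateField_adjoin_isCyclotomicExtension ℚ
  have hK1 : IsGalois ℚ K1 := IsCyclotomicExtension.isGalois {q} ℚ K1
  have hcop : IsCoprime (discr K1) (discr L) := by
    rw [← discr_eq_discr_of_algEquiv N e, Int.isCoprime_iff_nat_coprime,
      IsCyclotomicExtension.Rat.natAbs_discr q K1]
    refine Nat.Coprime.coprime_div_left ?_ (Nat.prod_primeFactors_pow_totient_ediv_dvd hq.out.pos)
    exact Nat.Coprime.pow_left _ ((Nat.Prime.coprime_iff_not_dvd hq.out).mpr hd)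
  have hnorm : Normal ℚ K1 := hK1.to_normal
  have hdis := (linearDisjoint_of_isGalois_isCoprime_discr M K1 L hcop).inf_eq_bot
  have hsurj := IntermediateField.restrictRestrictAlgEquivMapHom_surjective K1 L hdis
  let ζ' : K1 := ⟨ζ, IntermediateField.mem_adjoin_simple_self ℚ ζ⟩
  have hζ' : IsPrimitiveRoot ζ' q :=
    IsPrimitiveRoot.of_map_of_injective (f := algebraMap K1 M) hζ (algebraMap K1 M).injective
  have hz := IsCyclotomicExtension.zeta_spec q ℚ K1
  obtain ⟨a, -, ha⟩ := hz.eq_pow_of_pow_eq_one hζ'.pow_eq_one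
  let σ : K1 ≃ₐ[ℚ] K1 := (IsCyclotomicExtension.autEquivPow K1
    (cyclotomic.irreducible_rat hq.out.pos)).symm u
  have hσ : σ (IsCyclotomicExtension.zeta q ℚ K1) =
      IsCyclotomicExtension.zeta q ℚ K1 ^ (u : ZMod q).val := by
    rw [← hz.autToPow_spec ℚ σ]
    have h1 : hz.autToPow ℚ σ = u := by
      have h2 := (IsCyclotomicExtension.autEquivPow K1
        (cyclotomic.irreducible_rat hq.out.pos)).apply_symm_apply u
      exact h2
    rw [h1]
  have hσ2 : σ ζ' = ζ' ^ (u : ZMod q).val := by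
    rw [← ha, map_pow, hσ, ← pow_mul, ← pow_mul, mul_comm]
  obtain ⟨g', hg'⟩ := hsurj σ
  let g : M ≃ₐ[N] M := AlgEquiv.ofRingEquiv (f := g'.toRingEquiv) (fun x => by
    exact g'.commutes (e x))
  refine ⟨g, ?_⟩
  have h3 := IntermediateField.restrictRestrictAlgEquivMapHom_apply K1 L g' ζ'
  rw [hg', hσ2] at h3
  exact h3.symm

/-- **auxiliary characters** -/
theorem aux_char (k N : Type) [Field k] [NumberField k] [Field N] [NumberField N] [Algebra k N]
    [IsGalois k N] (l : ℕ) [hl : Fact l.Prime] (s : ℕ) (hs : s ≠ 0) :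
    ∃ (M : Type) (_ : Field M) (_ : NumberField M) (_ : Algebra k M) (_ : Algebra N M)
      (_ : IsScalarTower k N M) (_ : IsGalois k M) (τ : (M ≃ₐ[k] M) →* Multiplicative (ZMod l)),
      (∀ (g : N ≃ₐ[k] N) (t : Multiplicative (ZMod l)), ∃ h : M ≃ₐ[k] M,
        AlgEquiv.restrictNormalHom N h = g ∧ τ h = t) ∧
      ∀ Q : Ideal (𝓞 M), Q.IsMaximal → (s : 𝓞 M) ∈ Q → ∀ g ∈ decomp k Q, τ g = 1 := by
  classical
  obtain ⟨q, hq, hqN, hdiv, hres⟩ := exists_l l hl.out.pos s.primeFactors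
    (fun p hp => Nat.prime_of_mem_primeFactors hp) ((discr N).natAbs + s)
  have hqf : Fact q.Prime := ⟨hq⟩
  have hd : ¬ q ∣ (discr N).natAbs := by
    intro h
    have h1 := Nat.le_of_dvd (Int.natAbs_pos.mpr (discr_ne_zero N)) h
    omega
  obtain ⟨M, i1, i2, i3, i4, i5, i6, hM⟩ := exists_ext_poly k N {cyclotomic q (𝓞 N)}
    (Set.finite_singleton _) (by rintro f rfl; exact cyclotomic.monic q _)
  obtain ⟨r, hr⟩ := hM _ rfl
  rw [map_cyclotomic] at hr
  have hr0 : r ≠ 0 := by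
    rintro rfl
    have h1 := congrArg natDegree hr
    rw [natDegree_cyclotomic, Multiset.map_zero, Multiset.prod_zero, natDegree_one,
      Nat.totient_prime hq] at h1
    have := hq.two_le
    omega
  obtain ⟨z, hz⟩ := Multiset.exists_mem_of_ne_zero hr0
  have hzr : (cyclotomic q (𝓞 M)).IsRoot z := by
    rw [IsRoot, hr, eval_multiset_prod, Multiset.map_map]
    apply Multiset.prod_eq_zero
    rw [Multiset.mem_map]
    exact ⟨z, hz, by simp⟩
  have : NeZero ((q : ℕ) : 𝓞 M) := ⟨by exact_mod_cast hq.ne_zero⟩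
  have hz2 : IsPrimitiveRoot z q := isRoot_cyclotomic_iff.mp hzr
  let ζ : M := z
  have hζ : IsPrimitiveRoot ζ q :=
    hz2.map_of_injective (f := algebraMap (𝓞 M) M) (RingOfIntegers.coe_injective)
  let χ : (M ≃ₐ[k] M) →* (ZMod q)ˣ := hζ.autToPow k
  let m := (q - 1) / l
  have hlq : l ∣ q - 1 := (Dvd.intro_left 2 rfl).trans hdiv
  have hlm : l * m = q - 1 := Nat.mul_div_cancel' hlq
  have hm0 : 0 < m := Nat.div_pos (Nat.le_of_dvd (Nat.sub_pos_of_lt hq.one_lt) hlq) hl.out.pos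
  let D : Subgroup (ZMod q)ˣ := (powMonoidHom m : (ZMod q)ˣ →* (ZMod q)ˣ).range
  have hD : Nat.card D = l := by
    rw [IsCyclic.card_powMonoidHom_range, Nat.card_eq_fintype_card, ZMod.card_units q, ← hlm,
      Nat.gcd_eq_right (Dvd.intro_left l rfl), Nat.mul_div_cancel _ hm0]
  have hZ : Nat.card (Multiplicative (ZMod l)) = l := by
    rw [Nat.card_congr Multiplicative.toAdd, Nat.card_zmod]
  let ε : D ≃* Multiplicative (ZMod l) := mulEquivOfPrimeCardEq hD hZ
  let π : (ZMod q)ˣ →* D := (powMonoidHom m : (ZMod q)ˣ →* (ZMod q)ˣ).rangeRestrict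
  let τ : (M ≃ₐ[k] M) →* Multiplicative (ZMod l) := (ε.toMonoidHom.comp π).comp χ
  have hfin : FiniteDimensional k M := Module.Finite.of_restrictScalars_finite ℚ k M
  have hNM : IsGalois N M := IsGalois.tower_top_of_isGalois k N M
  refine ⟨M, i1, i2, i3, i4, i5, i6, τ, ?_, ?_⟩
  · intro g t
    obtain ⟨h0, hh0⟩ := AlgEquiv.restrictNormalHom_surjective (F := k) (K₁ := N) M g
    obtain ⟨d, hd1⟩ := ε.surjective (t * (τ h0)⁻¹)
    obtain ⟨u, hu⟩ := (powMonoidHom m : (ZMod q)ˣ →* (ZMod q)ˣ).rangeRestrict_surjective d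
    obtain ⟨g1, hg1⟩ := chi_surj (N := N) hζ hd u
    refine ⟨g1.restrictScalars k * h0, ?_, ?_⟩
    · rw [map_mul, hh0]
      have h2 : AlgEquiv.restrictNormalHom N (g1.restrictScalars k) = 1 := by
        ext x
        apply (algebraMap N M).injective
        rw [res_apply]
        exact g1.commutes x
      rw [h2, one_mul]
    · rw [map_mul]
      have h3 : χ (g1.restrictScalars k) = u := by
        refine val_unit_eq hζ ?_
        exact (hζ.autToPow_spec k _).trans hg1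
      have h4 : τ (g1.restrictScalars k) = t * (τ h0)⁻¹ := by
        change ε (π (χ (g1.restrictScalars k))) = _
        rw [h3]
        change ε ((powMonoidHom m : (ZMod q)ˣ →* (ZMod q)ˣ).rangeRestrict u) = _
        rw [hu, hd1]
      rw [h4, inv_mul_cancel_right]
  · intro Q hQ hsQ g hg
    obtain ⟨p, hp, hps, hpQ⟩ := exists_prime_mem hQ.isPrime hs hsQ
    have hpq : p ≠ q := by
      rintro rfl
      have := Nat.le_of_dvd (Nat.pos_of_ne_zero hs) hps
      omega
    obtain ⟨j, hj⟩ := chi_decomp hζ hp hpq hQ hpQ hg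
    have h1 : π (χ g) = 1 := by
      apply Subtype.ext
      change (χ g) ^ m = 1
      apply Units.ext
      rw [Units.val_pow_eq_pow_val]
      change (((hζ.autToPow k g : (ZMod q)ˣ) : ZMod q)) ^ m = _
      rw [hj, ← pow_mul, mul_comm, pow_mul, hres p (Nat.mem_primeFactors.mpr ⟨hp, hps, hs⟩), one_pow,
        Units.val_one]
    change ε (π (χ g)) = 1
    rw [h1, map_one]

end Pool.Agent.Run7.h508.BR
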