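import Mathlib
import Pool.Agent.K4H34.NC.L2
import Pool.Agent.K4H74.ST.Inv
import Pool.Agent.Run7.h508.BR.Mean

/-!
# Functions of number fields with the mean value property
-/

set_option autoImplicit false
set_option linter.unusedSectionVars false

namespace Pool.Agent.Run7.h508.BR

open NumberField Pool.Agent.K4H74.ST Pool.Agent.K4H77.SL Pool.Agent.K4H34.NC

/-- everywhere unramified (at the finite primes) and completely split above `m` -/
def UnrSplit (m : ℕ) (K L : Type) [Field K] [Field L] [Algebra K L] : Prop :=
  ∀ P : Ideal (𝓞 L), P.IsMaximal →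
    (∀ g ∈ inertia K P, g = 1) ∧ ((m : 𝓞 L) ∈ P → ∀ g ∈ decomp K P, g = 1)

/-- a function on the number fields over `k` with the mean value property (which is equivalent to
the Brauer relations) -/
structure FieldFun (k : Type) [Field k] [NumberField k] (V : Type) [AddCommGroup V] where
  /-- the function -/
  f : ∀ (K : Type) [Field K] [NumberField K] [Algebra k K], V
  iso : ∀ (K K' : Type) [Field K] [NumberField K] [Algebra k K] [Field K'] [NumberField K']
    [Algebra k K'], (K ≃ₐ[k] K') → f K = f K'
  mean : ∀ (N : Type) [Field N] [NumberField N] [Algebra k N] [IsGalois k N],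
    ∃ φ : (N ≃ₐ[k] N) → V, IsMean φ (fun H => f (IntermediateField.fixedField H))

/-- the function does not change in the unramified split extensions of prime degree of totally
complex fields -/
def NoChange {k : Type} [Field k] [NumberField k] {V : Type} [AddCommGroup V] (A : FieldFun k V)
    (m : ℕ) : Prop :=
  ∀ (K L : Type) [Field K] [NumberField K] [Field L] [NumberField L] [Algebra k K] [Algebra K L]
    [Algebra k L] [IsScalarTower k K L] [IsGalois K L], IsTotallyComplex K →
    (Module.finrank K L).Prime → UnrSplit m K L → A.f K = A.f L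

section ur

variable {k : Type} [Field k] [NumberField k] {V : Type} [AddCommGroup V] (A : FieldFun k V)

theorem ur {m : ℕ} (hA : NoChange A m) (N : Type) [Field N] [NumberField N] [Algebra k N]
    [IsGalois k N] (W W' : Subgroup (N ≃ₐ[k] N)) (hle : W' ≤ W) (hn : (W'.subgroupOf W).Normal)
    (hp : (W'.relIndex W).Prime) (hcc : ∀ c ∈ CC k N, c ∉ W)
    (hin : ∀ Q : Ideal (𝓞 N), Q.IsMaximal → ∀ u ∈ W, u ∈ inertia k Q → u ∈ W')
    (hdec : ∀ Q : Ideal (𝓞 N), Q.IsMaximal → (m : 𝓞 N) ∈ Q → ∀ u ∈ W, u ∈ decomp k Q → u ∈ W') :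
    A.f (IntermediateField.fixedField W) = A.f (IntermediateField.fixedField W') := by
  classical
  have hfin : FiniteDimensional k N := Module.Finite.of_restrictScalars_finite ℚ k N
  let F := IntermediateField.fixedField W
  let ε : W ≃* (N ≃ₐ[F] N) := IntermediateField.subgroupEquivAlgEquiv W
  have hε : ∀ (w : W) (x : N), (ε w) x = (w : N ≃ₐ[k] N) x := fun w x => rfl
  have he : ∀ h : N ≃ₐ[F] N, (ε.symm h : N ≃ₐ[k] N) = h.restrictScalars k := by
    intro h
    obtain ⟨u, rfl⟩ := ε.surjective h
    rw [MulEquiv.symm_apply_apply]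
    ext x
    rfl
  let ρ : (N ≃ₐ[F] N) →* W ⧸ (W'.subgroupOf W) :=
    (QuotientGroup.mk' (W'.subgroupOf W)).comp ε.symm.toMonoidHom
  have hρs : Function.Surjective ρ :=
    (QuotientGroup.mk'_surjective _).comp ε.symm.surjective
  have hρ : ∀ h : N ≃ₐ[F] N, ρ h = 1 ↔ (ε.symm h : N ≃ₐ[k] N) ∈ W' := by
    intro h
    change ((ε.symm h : W) : W ⧸ (W'.subgroupOf W)) = 1 ↔ _
    rw [QuotientGroup.eq_one_iff]
    rfl
  let E : IntermediateField F N := IntermediateField.fixedField ρ.ker
  have hE : IsGalois F E := IsGalois.of_fixedField_normal_subgroup ρ.ker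
  have hFN : FiniteDimensional F N := Module.Finite.of_restrictScalars_finite ℚ F N
  let π : (N ≃ₐ[F] N) →* (E ≃ₐ[F] E) := AlgEquiv.restrictNormalHom E
  have hker : ∀ g : N ≃ₐ[F] N, ρ g = 1 → π g = 1 := by
    intro g h
    ext x
    have h2 := res_apply (L := E) g x
    change algebraMap E N (π g x) = _ at h2
    change ((π g x : E) : N) = (x : N)
    exact h2.trans (x.2 ⟨g, h⟩)
  have hgi : ∀ (h : N ≃ₐ[F] N) (x : 𝓞 N), gi (ε.symm h : N ≃ₐ[k] N) x = gi h x := by
    intro h x
    apply RingOfIntegers.ext
    rw [he]
    rfl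
  have h1 : A.f F = A.f E := by
    refine hA F E (fixed_complex W hcc) ?_ ?_
    · have h2 : Module.finrank F E = W'.relIndex W := by
        have h3 := IntermediateField.finrank_eq_fixingSubgroup_index N E
        rw [IntermediateField.fixingSubgroup_fixedField, Subgroup.index_ker] at h3
        rw [h3, MonoidHom.range_eq_top.mpr hρs, Nat.card_congr Subgroup.topEquiv.toEquiv]
        rfl
      rw [h2]
      exact hp
    · intro P hP
      refine ⟨fun g hg => ?_, fun hm g hg => ?_⟩
      · obtain ⟨h, Q, hhg, hQ, hQP, hhQ⟩ := lift_inertia (L := N) hP hg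
        rw [← hhg]
        apply hker
        rw [hρ]
        refine hin Q hQ _ (ε.symm h).2 (fun x => ?_)
        rw [hgi]
        exact hhQ x
      · obtain ⟨h, Q, hhg, hQ, hQP, hhQ⟩ := lift_decomp (N := N) hP hg
        have hmQ : (m : 𝓞 N) ∈ Q := by
          have h1 : algebraMap (𝓞 E) (𝓞 N) (m : 𝓞 E) ∈ Q := by
            rw [← Ideal.mem_comap, hQP]
            exact hm
          rwa [map_natCast] at h1
        rw [← hhg]
        apply hker
        rw [hρ]
        refine hdec Q hQ hmQ _ (ε.symm h).2 (fun x => ?_)
        rw [hgi]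
        exact hhQ x
  have h2 : ∀ x : N, x ∈ E ↔ x ∈ IntermediateField.fixedField W' := by
    intro x
    constructor
    · intro hx
      rw [IntermediateField.mem_fixedField_iff]
      intro g hg
      have h3 : ρ (ε ⟨g, hle hg⟩) = 1 := by
        rw [hρ, MulEquiv.symm_apply_apply]
        exact hg
      exact hx ⟨ε ⟨g, hle hg⟩, h3⟩
    · intro hx
      rw [IntermediateField.mem_fixedField_iff] at hx
      intro g
      have h3 := (hρ g).mp g.2
      have h4 := hx _ h3
      rw [he] at h4
      exact h4
  let e : E ≃ₐ[k] IntermediateField.fixedField W' :=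
    { toFun := fun x => ⟨(x : N), (h2 _).mp x.2⟩
      invFun := fun x => ⟨(x : N), (h2 _).mpr x.2⟩
      left_inv := fun x => rfl
      right_inv := fun x => rfl
      map_mul' := fun x y => rfl
      map_add' := fun x y => rfl
      commutes' := fun x => rfl }
  rw [h1, A.iso _ _ e]

/-- the value at the conjugate subgroup -/
lemma f_conj (N : Type) [Field N] [NumberField N] [Algebra k N] [IsGalois k N]
    (x : N ≃ₐ[k] N) (H : Subgroup (N ≃ₐ[k] N)) :
    A.f (IntermediateField.fixedField (H.map (MulAut.conj x).toMonoidHom)) =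
      A.f (IntermediateField.fixedField H) := by
  have h1 : ∀ y : N, y ∈ IntermediateField.fixedField H ↔
      x y ∈ IntermediateField.fixedField (H.map (MulAut.conj x).toMonoidHom) := by
    intro y
    rw [IntermediateField.mem_fixedField_iff, IntermediateField.mem_fixedField_iff]
    constructor
    · rintro h _ ⟨g, hg, rfl⟩
      change (x * g * x⁻¹) (x y) = x y
      have h2 : (x * g * x⁻¹) (x y) = x (g ((x⁻¹ * x) y)) := rfl
      rw [h2, inv_mul_cancel]
      change x (g y) = x y
      rw [h g hg]
    · intro h g hg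
      have h3 := h (x * g * x⁻¹) ⟨g, hg, rfl⟩
      have h2 : (x * g * x⁻¹) (x y) = x (g ((x⁻¹ * x) y)) := rfl
      rw [h2, inv_mul_cancel] at h3
      exact x.injective h3
  symm
  refine A.iso _ _ ?_
  exact
    { toFun := fun y => ⟨x (y : N), (h1 _).mp y.2⟩
      invFun := fun y => ⟨x.symm (y : N), (h1 _).mpr (by rw [AlgEquiv.apply_symm_apply]; exact y.2)⟩
      left_inv := fun y => Subtype.ext (x.symm_apply_apply _)
      right_inv := fun y => Subtype.ext (x.apply_symm_apply _)
      map_mul' := fun a b => Subtype.ext (map_mul x _ _)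
      map_add' := fun a b => Subtype.ext (map_add x _ _)
      commutes' := fun a => Subtype.ext (x.commutes a) }

/-- the value at the preimage of a subgroup -/
lemma f_comap (N M : Type) [Field N] [NumberField N] [Algebra k N] [IsGalois k N] [Field M]
    [NumberField M] [Algebra k M] [Algebra N M] [IsScalarTower k N M] [IsGalois k M]
    (H : Subgroup (N ≃ₐ[k] N)) :
    A.f (IntermediateField.fixedField
      (H.comap (AlgEquiv.restrictNormalHom N : (M ≃ₐ[k] M) →* (N ≃ₐ[k] N)))) =
      A.f (IntermediateField.fixedField H) := by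
  have hfin : FiniteDimensional k M := Module.Finite.of_restrictScalars_finite ℚ k M
  have hNM : IsGalois N M := IsGalois.tower_top_of_isGalois k N M
  have h1 : ∀ y : N, y ∈ IntermediateField.fixedField H ↔ algebraMap N M y ∈
      IntermediateField.fixedField
      (H.comap (AlgEquiv.restrictNormalHom N : (M ≃ₐ[k] M) →* (N ≃ₐ[k] N))) := by
    intro y
    rw [IntermediateField.mem_fixedField_iff, IntermediateField.mem_fixedField_iff]
    constructor
    · intro h g hg
      rw [← res_apply (L := N) g y, h _ hg]
    · intro h g hg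
      obtain ⟨g', rfl⟩ := AlgEquiv.restrictNormalHom_surjective (F := k) (K₁ := N) M g
      have h2 := h g' hg
      rw [← res_apply (L := N) g' y] at h2
      exact (algebraMap N M).injective h2
  have h2 : ∀ z : M, z ∈ IntermediateField.fixedField
      (H.comap (AlgEquiv.restrictNormalHom N : (M ≃ₐ[k] M) →* (N ≃ₐ[k] N))) →
      ∃ y : N, algebraMap N M y = z := by
    intro z hz
    rw [IntermediateField.mem_fixedField_iff] at hz
    have h3 : z ∈ (⊥ : IntermediateField N M) := by
      rw [IsGalois.mem_bot_iff_fixed]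
      intro g
      refine hz (g.restrictScalars k) ?_
      rw [Subgroup.mem_comap]
      have h4 : AlgEquiv.restrictNormalHom N (g.restrictScalars k) = 1 := by
        ext x
        apply (algebraMap N M).injective
        rw [res_apply]
        exact g.commutes x
      rw [h4]
      exact H.one_mem
    exact IntermediateField.mem_bot.mp h3
  symm
  let f : IntermediateField.fixedField H →ₐ[k] IntermediateField.fixedField
      (H.comap (AlgEquiv.restrictNormalHom N : (M ≃ₐ[k] M) →* (N ≃ₐ[k] N))) :=
    { toFun := fun y => ⟨algebraMap N M (y : N), (h1 _).mp y.2⟩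
      map_one' := Subtype.ext (map_one _)
      map_zero' := Subtype.ext (map_zero _)
      map_mul' := fun a b => Subtype.ext (map_mul _ _ _)
      map_add' := fun a b => Subtype.ext (map_add _ _ _)
      commutes' := fun a => Subtype.ext (IsScalarTower.algebraMap_apply k N M a).symm }
  refine A.iso _ _ (AlgEquiv.ofBijective f ⟨f.toRingHom.injective, fun z => ?_⟩)
  obtain ⟨y, hy⟩ := h2 z z.2
  refine ⟨⟨y, (h1 y).mpr ?_⟩, Subtype.ext hy⟩
  rw [hy]
  exact z.2

end ur

end Pool.Agent.Run7.h508.BR
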