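import Mathlib
import Pool.Agent.Run7.h508.BR.AuxC
import Pool.Agent.Run7.h508.BR.A3
import Pool.Agent.Run7.h508.BR.Fun

/-!
# Functions of number fields which do not change in unramified extensions: totally complex fields
-/

set_option autoImplicit false
set_option linter.unusedSectionVars false

namespace Pool.Agent.Run7.h508.BR

open NumberField Pool.Agent.K4H74.ST Pool.Agent.K4H77.SL Pool.Agent.K4H34.NC

section grp

variable {G : Type} [Group G] {l : ℕ} [hl : Fact l.Prime]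

/-- the subgroup of `H` which is the preimage of `W` -/
def pre {H : Subgroup G} (Λ : H →* Multiplicative (Fin 3 → ZMod l))
    (W : AddSubgroup (Fin 3 → ZMod l)) : Subgroup G :=
  ((AddSubgroup.toSubgroup W).comap Λ).map H.subtype

lemma mem_pre {H : Subgroup G} {Λ : H →* Multiplicative (Fin 3 → ZMod l)}
    {W : AddSubgroup (Fin 3 → ZMod l)} {g : G} :
    g ∈ pre Λ W ↔ ∃ h : g ∈ H, (Λ ⟨g, h⟩).toAdd ∈ W := by
  constructor
  · rintro ⟨x, hx, rfl⟩
    exact ⟨x.2, hx⟩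
  · rintro ⟨h, h1⟩
    exact ⟨⟨g, h⟩, h1, rfl⟩

lemma pre_relIndex {H : Subgroup G} {Λ : H →* Multiplicative (Fin 3 → ZMod l)}
    (hΛ : Function.Surjective Λ) (W' W : AddSubgroup (Fin 3 → ZMod l)) :
    (pre Λ W').relIndex (pre Λ W) = W'.relIndex W := by
  rw [pre, pre, Subgroup.relIndex_map_map_of_injective _ _ (Subgroup.subtype_injective H),
    Subgroup.relIndex_comap, Subgroup.map_comap_eq_self_of_surjective hΛ]
  rfl

lemma pre_card [Finite G] {H : Subgroup G} {Λ : H →* Multiplicative (Fin 3 → ZMod l)}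
    (hΛ : Function.Surjective Λ) (W : AddSubgroup (Fin 3 → ZMod l)) :
    Nat.card (pre Λ W) = Nat.card (pre Λ ⊥) * Nat.card W := by
  have h1 : pre Λ ⊥ ≤ pre Λ W := by
    intro g hg
    obtain ⟨h, h2⟩ := mem_pre.mp hg
    exact mem_pre.mpr ⟨h, (show (⊥ : AddSubgroup (Fin 3 → ZMod l)) ≤ W from bot_le) h2⟩
  have h2 := Subgroup.relIndex_mul_relIndex ⊥ (pre Λ ⊥) (pre Λ W) bot_le h1
  rw [pre_relIndex hΛ, Subgroup.relIndex_bot_left, Subgroup.relIndex_bot_left,
    AddSubgroup.relIndex_bot_left] at h2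
  exact h2.symm

lemma pre_normal {H : Subgroup G} {Λ : H →* Multiplicative (Fin 3 → ZMod l)}
    (W' W : AddSubgroup (Fin 3 → ZMod l)) : ((pre Λ W').subgroupOf (pre Λ W)).Normal := by
  refine ⟨fun n hn g => ?_⟩
  obtain ⟨h1, h2⟩ := mem_pre.mp (Subgroup.mem_subgroupOf.mp hn)
  obtain ⟨h3, h4⟩ := mem_pre.mp g.2
  rw [Subgroup.mem_subgroupOf, mem_pre]
  refine ⟨H.mul_mem (H.mul_mem h3 h1) (H.inv_mem h3), ?_⟩
  have h5 : (⟨((g * n * g⁻¹ : (pre Λ W)) : G), H.mul_mem (H.mul_mem h3 h1) (H.inv_mem h3)⟩ : H) =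
      ⟨(g : G), h3⟩ * ⟨(n : G), h1⟩ * ⟨(g : G), h3⟩⁻¹ := rfl
  have h6 : Λ ⟨((g * n * g⁻¹ : (pre Λ W)) : G), H.mul_mem (H.mul_mem h3 h1) (H.inv_mem h3)⟩ =
      Λ ⟨(n : G), h1⟩ := by
    rw [h5, map_mul, map_mul, map_inv, mul_comm (Λ ⟨(g : G), h3⟩), mul_assoc, mul_inv_cancel,
      mul_one]
  rw [h6]
  exact h2

open Classical in
lemma pre_mean {V : Type} [AddCommGroup V] [Module ℚ V] [Finite G] {F : Subgroup G → V} {φ : G → V}
    (h : IsMean φ F) {H : Subgroup G} {Λ : H →* Multiplicative (Fin 3 → ZMod l)}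
    (hΛ : Function.Surjective Λ) : ∃ ψ : (Fin 3 → ZMod l) → V,
      ∀ W : AddSubgroup (Fin 3 → ZMod l), Nat.card W • F (pre Λ W) =
        ∑ a, if a ∈ W then ψ a else 0 := by
  have := Fintype.ofFinite G
  let c : ℕ := Nat.card (pre Λ ⊥)
  have hc : c ≠ 0 := Nat.card_pos.ne'
  let P : G → (Fin 3 → ZMod l) → Prop := fun g a => ∃ h : g ∈ H, (Λ ⟨g, h⟩).toAdd = a
  refine ⟨fun a => (c : ℚ)⁻¹ • ∑ g : G, if P g a then φ g else 0, fun W => ?_⟩
  apply smul_inj hc
  rw [smul_smul, ← pre_card hΛ W, h, tot_eq]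
  have h1 : ∀ a : Fin 3 → ZMod l, (if a ∈ W then (c : ℚ)⁻¹ • ∑ g : G, (if P g a then φ g else 0)
      else 0) = (c : ℚ)⁻¹ • ∑ g : G, if a ∈ W ∧ P g a then φ g else 0 := by
    intro a
    by_cases ha : a ∈ W
    · simp only [ha, if_true, true_and]
    · simp only [ha, if_false, false_and, Finset.sum_const_zero, smul_zero]
  simp only [h1]
  rw [← Finset.smul_sum, Finset.sum_comm, ← Nat.cast_smul_eq_nsmul ℚ c, smul_smul,
    mul_inv_cancel₀ (Nat.cast_ne_zero.mpr hc), one_smul]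
  refine Finset.sum_congr rfl fun g _ => ?_
  by_cases hg : g ∈ H
  · have h2 : ∀ a, (a ∈ W ∧ P g a) ↔ (a = (Λ ⟨g, hg⟩).toAdd ∧ g ∈ pre Λ W) := by
      intro a
      constructor
      · rintro ⟨ha, h3, h4⟩
        refine ⟨h4.symm, mem_pre.mpr ⟨hg, ?_⟩⟩
        rw [h4]
        exact ha
      · rintro ⟨rfl, h3⟩
        obtain ⟨h4, h5⟩ := mem_pre.mp h3
        exact ⟨h5, hg, rfl⟩
    simp only [h2]
    by_cases hW : g ∈ pre Λ W
    · simp only [hW, and_true, if_true]
      rw [Finset.sum_ite_eq' Finset.univ, if_pos (Finset.mem_univ _)]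
    · simp only [hW, and_false, if_false, Finset.sum_const_zero]
  · have h2 : ∀ a, ¬ (a ∈ W ∧ P g a) := fun a h => hg h.2.1
    simp only [h2, if_false, Finset.sum_const_zero]
    rw [if_neg]
    intro h3
    exact hg (mem_pre.mp h3).1

end grp

section lem3

variable {k : Type} [Field k] [NumberField k] {V : Type} [AddCommGroup V] [Module ℚ V]
  (A : FieldFun k V)

lemma natCast_comap {N M : Type} [Field N] [NumberField N] [Field M] [NumberField M] [Algebra N M]
    {Q : Ideal (𝓞 M)} {n : ℕ} : (n : 𝓞 N) ∈ Q.comap (algebraMap (𝓞 N) (𝓞 M)) ↔ (n : 𝓞 M) ∈ Q := by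
  rw [Ideal.mem_comap, map_natCast]

lemma res_inertia {N M : Type} [Field N] [NumberField N] [Algebra k N] [IsGalois k N] [Field M]
    [NumberField M] [Algebra k M] [Algebra N M] [IsScalarTower k N M] {Q : Ideal (𝓞 M)}
    {g : M ≃ₐ[k] M} (hg : g ∈ inertia k Q) : AlgEquiv.restrictNormalHom N g ∈
      inertia k (Q.comap (algebraMap (𝓞 N) (𝓞 M))) := by
  intro x
  rw [Ideal.mem_comap, map_sub]
  have h1 : algebraMap (𝓞 N) (𝓞 M) (gi (AlgEquiv.restrictNormalHom N g) x) =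
      gi g (algebraMap (𝓞 N) (𝓞 M) x) := by
    apply RingOfIntegers.ext
    exact res_apply g (x : N)
  rw [h1]
  exact hg _

theorem lem3 {m : ℕ} (hm : m ≠ 0) (hA : NoChange A m) (N : Type) [Field N] [NumberField N]
    [Algebra k N] [IsGalois k N] (H : Subgroup (N ≃ₐ[k] N)) (hcc : ∀ c ∈ CC k N, c ∉ H) (l : ℕ)
    [hl : Fact l.Prime] (lam : H →* Multiplicative (ZMod l)) (hs : Function.Surjective lam) :
    A.f (IntermediateField.fixedField H) =
      A.f (IntermediateField.fixedField (lam.ker.map H.subtype)) := by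
  classical
  obtain ⟨r0, hr0, hram0⟩ := exists_ram k N
  obtain ⟨M1, i1, i2, i3, i4, i5, i6, τ1, hτ1, hd1⟩ := aux_char k N l (m * r0)
    (mul_ne_zero hm hr0)
  obtain ⟨r1, hr1, hram1⟩ := exists_ram k M1
  obtain ⟨M, j1, j2, j3, j4, j5, j6, τ2, hτ2, hd2⟩ := aux_char k M1 l (m * r0 * r1)
    (mul_ne_zero (mul_ne_zero hm hr0) hr1)
  let iNM : N →+* M := (algebraMap M1 M).comp (algebraMap N M1)
  let _ : Algebra N M := iNM.toAlgebra
  have hNM : ∀ x, algebraMap N M x = algebraMap M1 M (algebraMap N M1 x) := fun x => rfl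
  have hkNM : IsScalarTower k N M := by
    refine IsScalarTower.of_algebraMap_eq fun x => ?_
    rw [hNM, ← IsScalarTower.algebraMap_apply k N M1, ← IsScalarTower.algebraMap_apply k M1 M]
  have hfin : FiniteDimensional k M := Module.Finite.of_restrictScalars_finite ℚ k M
  let res : (M ≃ₐ[k] M) →* (N ≃ₐ[k] N) := AlgEquiv.restrictNormalHom N
  let res1 : (M ≃ₐ[k] M) →* (M1 ≃ₐ[k] M1) := AlgEquiv.restrictNormalHom M1
  have hres : ∀ g : M ≃ₐ[k] M, AlgEquiv.restrictNormalHom N (res1 g) = res g := by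
    intro g
    ext x
    apply (algebraMap N M).injective
    rw [res_apply, hNM, hNM]
    have h1 := res_apply (L := N) (res1 g) x
    change algebraMap M1 M (algebraMap N M1 (AlgEquiv.restrictNormalHom N (res1 g) x)) = _
    rw [h1, res_apply]
  let Ĥ : Subgroup (M ≃ₐ[k] M) := H.comap res
  let Λ : Ĥ →* Multiplicative (Fin 3 → ZMod l) := MonoidHom.mk'
    (fun g => Multiplicative.ofAdd ![(lam ⟨res g, g.2⟩).toAdd, (τ1 (res1 g)).toAdd, (τ2 g).toAdd])
    (fun a b => by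
      apply Multiplicative.toAdd.injective
      funext i
      have h1 : lam ⟨res ((a * b : Ĥ) : M ≃ₐ[k] M), (a * b).2⟩ =
          lam ⟨res a, a.2⟩ * lam ⟨res b, b.2⟩ := by
        rw [← map_mul]
        congr 1
        apply Subtype.ext
        exact map_mul res _ _
      have h2 : τ1 (res1 ((a * b : Ĥ) : M ≃ₐ[k] M)) = τ1 (res1 a) * τ1 (res1 b) := by
        rw [← map_mul, ← map_mul]
        rfl
      have h3 : τ2 ((a * b : Ĥ) : M ≃ₐ[k] M) = τ2 a * τ2 b := by
        rw [← map_mul]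
        rfl
      rw [h1, h2, h3]
      fin_cases i <;> rfl)
  have hΛ0 : ∀ g, (Λ g).toAdd 0 = (lam ⟨res g, g.2⟩).toAdd := fun g => rfl
  have hΛ1 : ∀ g, (Λ g).toAdd 1 = (τ1 (res1 g)).toAdd := fun g => rfl
  have hΛ2 : ∀ g, (Λ g).toAdd 2 = (τ2 g).toAdd := fun g => rfl
  have hΛ : Function.Surjective Λ := by
    intro a
    obtain ⟨h, hh⟩ := hs (Multiplicative.ofAdd (a.toAdd 0))
    obtain ⟨g1, hg1, hg1'⟩ := hτ1 (h : N ≃ₐ[k] N) (Multiplicative.ofAdd (a.toAdd 1))
    obtain ⟨g, hg, hg'⟩ := hτ2 g1 (Multiplicative.ofAdd (a.toAdd 2))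
    have h1 : res g = h := by
      rw [← hres]
      change AlgEquiv.restrictNormalHom N (AlgEquiv.restrictNormalHom M1 g) = h
      rw [hg, hg1]
    have h2 : g ∈ Ĥ := by
      change res g ∈ H
      rw [h1]
      exact h.2
    refine ⟨⟨g, h2⟩, ?_⟩
    apply Multiplicative.toAdd.injective
    funext i
    have h3 : lam ⟨res g, h2⟩ = Multiplicative.ofAdd (a.toAdd 0) := by
      rw [← hh]
      congr 1
      exact Subtype.ext h1
    have h4 : τ1 (res1 g) = Multiplicative.ofAdd (a.toAdd 1) := by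
      rw [← hg1', ← hg]
    fin_cases i
    · change (Λ ⟨g, h2⟩).toAdd 0 = a.toAdd 0
      rw [hΛ0, h3]
      rfl
    · change (Λ ⟨g, h2⟩).toAdd 1 = a.toAdd 1
      rw [hΛ1, h4]
      rfl
    · change (Λ ⟨g, h2⟩).toAdd 2 = a.toAdd 2
      rw [hΛ2, hg']
      rfl
  -- decomposition elements above `m`
  have hdecA : ∀ Q : Ideal (𝓞 M), Q.IsMaximal → (m : 𝓞 M) ∈ Q → ∀ u (hu : u ∈ Ĥ),
      u ∈ decomp k Q → Axis (Λ ⟨u, hu⟩).toAdd := by
    intro Q hQ hmQ u hu hd
    have h1 : ((m * r0 * r1 : ℕ) : 𝓞 M) ∈ Q := by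
      rw [Nat.cast_mul, Nat.cast_mul, mul_assoc]
      exact Q.mul_mem_right _ hmQ
    have h2 : ((m * r0 : ℕ) : 𝓞 M1) ∈ Q.comap (algebraMap (𝓞 M1) (𝓞 M)) := by
      rw [natCast_comap, Nat.cast_mul]
      exact Q.mul_mem_right _ hmQ
    have hQ1 : (Q.comap (algebraMap (𝓞 M1) (𝓞 M))).IsMaximal :=
      Ideal.isMaximal_comap_of_isIntegral_of_isMaximal Q
    have h3 : τ2 u = 1 := hd2 Q hQ h1 u hd
    have h4 : τ1 (res1 u) = 1 := by
      refine hd1 _ hQ1 h2 _ fun x => ?_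
      rw [Ideal.mem_comap, Ideal.mem_comap]
      have h5 : algebraMap (𝓞 M1) (𝓞 M) (gi (res1 u) x) = gi u (algebraMap (𝓞 M1) (𝓞 M) x) := by
        apply RingOfIntegers.ext
        exact res_apply u (x : M1)
      rw [h5]
      exact hd _
    refine ⟨0, fun j hj => ?_⟩
    fin_cases j
    · exact absurd rfl hj
    · change (τ1 (res1 u)).toAdd = 0
      rw [h4]
      rfl
    · change (τ2 u).toAdd = 0
      rw [h3]
      rfl
  -- inertia elements
  have hinA : ∀ Q : Ideal (𝓞 M), Q.IsMaximal → ∀ u (hu : u ∈ Ĥ),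
      u ∈ inertia k Q → Axis (Λ ⟨u, hu⟩).toAdd := by
    intro Q hQ u hu hin
    have hQ1 : (Q.comap (algebraMap (𝓞 M1) (𝓞 M))).IsMaximal :=
      Ideal.isMaximal_comap_of_isIntegral_of_isMaximal Q
    have h0 : res1 u ∈ inertia k (Q.comap (algebraMap (𝓞 M1) (𝓞 M))) := res_inertia hin
    by_cases h1 : ((m * r0 * r1 : ℕ) : 𝓞 M) ∈ Q
    · have h3 : τ2 u = 1 := hd2 Q hQ h1 u (inertia_sub Q hin)
      by_cases h2 : ((m * r0 : ℕ) : 𝓞 M) ∈ Q
      · have h4 : τ1 (res1 u) = 1 :=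
          hd1 _ hQ1 (natCast_comap.mpr h2) _ (inertia_sub _ h0)
        refine ⟨0, fun j hj => ?_⟩
        fin_cases j
        · exact absurd rfl hj
        · change (τ1 (res1 u)).toAdd = 0
          rw [h4]
          rfl
        · change (τ2 u).toAdd = 0
          rw [h3]
          rfl
      · have h4 : res u = 1 := by
          by_contra hne
          apply h2
          have h5 := hram0 _ ⟨res u, res_inertia hin, hne⟩
          rw [natCast_comap] at h5
          rw [Nat.cast_mul]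
          exact Q.mul_mem_left _ h5
        refine ⟨1, fun j hj => ?_⟩
        fin_cases j
        · change (lam ⟨res u, hu⟩).toAdd = 0
          have h5 : (⟨res u, hu⟩ : H) = 1 := Subtype.ext h4
          rw [h5, map_one]
          rfl
        · exact absurd rfl hj
        · change (τ2 u).toAdd = 0
          rw [h3]
          rfl
    · have h4 : res1 u = 1 := by
        by_contra hne
        apply h1
        have h5 := hram1 _ ⟨res1 u, h0, hne⟩
        rw [natCast_comap] at h5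
        rw [Nat.cast_mul]
        exact Q.mul_mem_left _ h5
      have h5 : res u = 1 := by rw [← hres, h4, map_one]
      refine ⟨2, fun j hj => ?_⟩
      fin_cases j
      · change (lam ⟨res u, hu⟩).toAdd = 0
        have h6 : (⟨res u, hu⟩ : H) = 1 := Subtype.ext h5
        rw [h6, map_one]
        rfl
      · change (τ1 (res1 u)).toAdd = 0
        rw [h4, map_one]
        rfl
      · exact absurd rfl hj
  obtain ⟨φ, hφ⟩ := A.mean M
  obtain ⟨ψ, hψ⟩ := pre_mean hφ hΛ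
  have key := a3 (fun W => A.f (IntermediateField.fixedField (pre Λ W))) ψ hψ (fun W' W hle hrel hax => by
    symm
    refine ur A hA M (pre Λ W) (pre Λ W') ?_ (pre_normal W' W) ?_ ?_ ?_ ?_
    · intro g hg
      obtain ⟨h1, h2⟩ := mem_pre.mp hg
      exact mem_pre.mpr ⟨h1, hle h2⟩
    · rw [pre_relIndex hΛ, hrel]
      exact hl.out
    · intro c hc hcW
      obtain ⟨h1, h2⟩ := mem_pre.mp hcW
      exact hcc _ (CC_res hc) h1
    · intro Q hQ u hu hin
      obtain ⟨h1, h2⟩ := mem_pre.mp hu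
      exact mem_pre.mpr ⟨h1, hax _ h2 (hinA Q hQ u h1 hin)⟩
    · intro Q hQ hmQ u hu hin
      obtain ⟨h1, h2⟩ := mem_pre.mp hu
      exact mem_pre.mpr ⟨h1, hax _ h2 (hdecA Q hQ hmQ u h1 hin)⟩)
    ⊤ (Pi.evalAddMonoidHom (fun _ : Fin 3 => ZMod l) 0).ker
  have h1 : pre Λ ⊤ = H.comap (AlgEquiv.restrictNormalHom N : (M ≃ₐ[k] M) →* (N ≃ₐ[k] N)) := by
    ext g
    rw [mem_pre]
    exact ⟨fun ⟨h, _⟩ => h, fun h => ⟨h, AddSubgroup.mem_top _⟩⟩
  have h2 : pre Λ (Pi.evalAddMonoidHom (fun _ : Fin 3 => ZMod l) 0).ker =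
      (lam.ker.map H.subtype).comap
        (AlgEquiv.restrictNormalHom N : (M ≃ₐ[k] M) →* (N ≃ₐ[k] N)) := by
    ext g
    rw [mem_pre]
    constructor
    · rintro ⟨h, h3⟩
      refine ⟨⟨res g, h⟩, ?_, rfl⟩
      have h4 : (lam ⟨res g, h⟩).toAdd = 0 := h3
      exact Multiplicative.toAdd.injective h4
    · rintro ⟨x, hx, hxg⟩
      have h3 : res g ∈ H := by
        have h4 : (x : N ≃ₐ[k] N) = res g := hxg
        rw [← h4]
        exact x.2
      refine ⟨h3, ?_⟩
      change (lam ⟨res g, h3⟩).toAdd = 0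
      have h5 : (⟨res g, h3⟩ : H) = x := Subtype.ext hxg.symm
      rw [h5]
      have h6 : lam x = 1 := hx
      rw [h6]
      rfl
  have key2 : A.f (IntermediateField.fixedField (pre Λ ⊤)) =
    A.f (IntermediateField.fixedField
      (pre Λ (Pi.evalAddMonoidHom (fun _ : Fin 3 => ZMod l) 0).ker)) := key
  rw [h1, h2, f_comap, f_comap] at key2
  exact key2

end lem3

end Pool.Agent.Run7.h508.BR
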