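import Mathlib
import Pool.Agent.Run7.h508.BR.Cx

/-!
# The function is constant on the totally complex fields
-/

set_option autoImplicit false
set_option linter.unusedSectionVars false

namespace Pool.Agent.Run7.h508.BR

open NumberField Pool.Agent.K4H74.ST Pool.Agent.K4H77.SL Pool.Agent.K4H34.NC

/-- a nontrivial finite cyclic group has a quotient of prime order -/
lemma exists_prime_quot {C : Type} [Group C] [Finite C] [hC : IsCyclic C] (h : Nat.card C ≠ 1) :
    ∃ (l : ℕ) (_ : Fact l.Prime) (lam : C →* Multiplicative (ZMod l)), Function.Surjective lam := by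
  classical
  let l := (Nat.card C).minFac
  have hl : Fact l.Prime := ⟨Nat.minFac_prime h⟩
  obtain ⟨m, hm⟩ := Nat.minFac_dvd (Nat.card C)
  have hm0 : 0 < m := by
    rcases Nat.eq_zero_or_pos m with h1 | h1
    · rw [h1, mul_zero] at hm
      exact absurd hm Nat.card_pos.ne'
    · exact h1
  let _ : CommGroup C := IsCyclic.commGroup
  let D : Subgroup C := (powMonoidHom m : C →* C).range
  have hD : Nat.card D = l := by
    rw [IsCyclic.card_powMonoidHom_range, hm, Nat.gcd_eq_right (Dvd.intro_left _ rfl),
      Nat.mul_div_cancel _ hm0]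
  have hZ : Nat.card (Multiplicative (ZMod l)) = l := by
    rw [Nat.card_congr Multiplicative.toAdd, Nat.card_zmod]
  let ε : D ≃* Multiplicative (ZMod l) := mulEquivOfPrimeCardEq hD hZ
  exact ⟨l, hl, ε.toMonoidHom.comp (powMonoidHom m : C →* C).rangeRestrict,
    ε.surjective.comp (MonoidHom.rangeRestrict_surjective _)⟩

section tc

variable {k : Type} [Field k] [NumberField k] {V : Type} [AddCommGroup V] [Module ℚ V]
  (A : FieldFun k V)

theorem cyc_all {m : ℕ} (hm : m ≠ 0) (hA : NoChange A m) (N : Type) [Field N] [NumberField N]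
    [Algebra k N] [IsGalois k N] (H : Subgroup (N ≃ₐ[k] N)) (hcc : ∀ c ∈ CC k N, c ∉ H)
    (hH : IsCyclic H) :
    A.f (IntermediateField.fixedField H) = A.f (IntermediateField.fixedField
      (⊥ : Subgroup (N ≃ₐ[k] N))) := by
  have hfin : FiniteDimensional k N := Module.Finite.of_restrictScalars_finite ℚ k N
  induction hn : Nat.card H using Nat.strong_induction_on generalizing H with
  | _ n ih =>
    by_cases h1 : Nat.card H = 1
    · rw [Subgroup.card_eq_one.mp h1]
    · obtain ⟨l, hl, lam, hlam⟩ := exists_prime_quot h1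
      rw [lem3 A hm hA N H hcc l lam hlam]
      have h2 : Nat.card lam.ker * l = Nat.card H := by
        have h3 := Subgroup.card_mul_index lam.ker
        rw [Subgroup.index_ker, MonoidHom.range_eq_top.mpr hlam,
          Nat.card_congr Subgroup.topEquiv.toEquiv, Nat.card_congr Multiplicative.toAdd,
          Nat.card_zmod] at h3
        exact h3
      have h4 : Nat.card (lam.ker.map H.subtype) = Nat.card lam.ker :=
        Nat.card_congr (lam.ker.equivMapOfInjective _ H.subtype_injective).toEquiv.symm
      have hle : lam.ker.map H.subtype ≤ H := Subgroup.map_subtype_le _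
      refine ih _ ?_ _ (fun c hc h => hcc c hc (hle h)) ?_ rfl
      · rw [← hn, h4, ← h2]
        have := hl.out.two_le
        have : 0 < Nat.card lam.ker := Nat.card_pos
        nlinarith
      · exact (lam.ker.equivMapOfInjective _ H.subtype_injective).isCyclic.mp inferInstance

/-- the normalized mean function -/
lemma exists_norm (N : Type) [Field N] [NumberField N] [Algebra k N] [IsGalois k N] :
    ∃ φ : (N ≃ₐ[k] N) → V, IsMean φ (fun H => A.f (IntermediateField.fixedField H)) ∧
      (∀ x g, φ (x * g * x⁻¹) = φ g) ∧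
      ∀ g g', Subgroup.zpowers g = Subgroup.zpowers g' → φ g = φ g' := by
  have hfin : FiniteDimensional k N := Module.Finite.of_restrictScalars_finite ℚ k N
  obtain ⟨φ, hφ⟩ := A.mean N
  obtain ⟨φ', h1, h2⟩ := mean_conj hφ (fun x H => f_conj A N x H)
  exact mean_zpowers h1 h2

theorem noCC_all {m : ℕ} (hm : m ≠ 0) (hA : NoChange A m) (N : Type) [Field N] [NumberField N]
    [Algebra k N] [IsGalois k N] (H : Subgroup (N ≃ₐ[k] N)) (hcc : ∀ c ∈ CC k N, c ∉ H) :
    A.f (IntermediateField.fixedField H) = A.f (IntermediateField.fixedField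
      (⊥ : Subgroup (N ≃ₐ[k] N))) := by
  classical
  have hfin : FiniteDimensional k N := Module.Finite.of_restrictScalars_finite ℚ k N
  have := Fintype.ofFinite (N ≃ₐ[k] N)
  obtain ⟨φ, h1, h2, h3⟩ := exists_norm A N
  let a := A.f (IntermediateField.fixedField (⊥ : Subgroup (N ≃ₐ[k] N)))
  have h4 : ∀ g ∈ H, φ g = a := by
    intro g hg
    refine mean_val h1 h3 g fun C hC => ?_
    have hle : C ≤ H := hC.trans (Subgroup.zpowers_le.mpr hg)
    refine cyc_all A hm hA N C (fun c hc h => hcc c hc (hle h)) ?_
    have h5 : IsCyclic (Subgroup.zpowers g) := inferInstance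
    exact isCyclic_of_injective (Subgroup.inclusion hC) (Subgroup.inclusion_injective hC)
  have h5 := h1 H
  rw [tot_eq] at h5
  have h6 : ∀ g, (if g ∈ H then φ g else 0) = (if g ∈ H then 1 else 0 : ℕ) • a := by
    intro g
    by_cases hg : g ∈ H
    · rw [if_pos hg, if_pos hg, one_smul, h4 g hg]
    · rw [if_neg hg, if_neg hg, zero_smul]
  simp only [h6] at h5
  rw [← Finset.sum_smul] at h5
  have h7 : (∑ g : (N ≃ₐ[k] N), if g ∈ H then 1 else 0) = Nat.card H := by
    rw [Nat.card_eq_fintype_card, Fintype.card_subtype, Finset.card_filter]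
  rw [h7] at h5
  exact smul_inj Nat.card_pos.ne' h5

/-- a field as a fixed field -/
lemma f_fixed (N : Type) [Field N] [NumberField N] [Algebra k N] [IsGalois k N] (K : Type)
    [Field K] [NumberField K] [Algebra k K] [Algebra K N] [IsScalarTower k K N] :
    A.f K = A.f (IntermediateField.fixedField
      (IsScalarTower.toAlgHom k K N).fieldRange.fixingSubgroup) := by
  have hfin : FiniteDimensional k N := Module.Finite.of_restrictScalars_finite ℚ k N
  rw [IsGalois.fixedField_fixingSubgroup]
  exact A.iso _ _ (AlgEquiv.ofInjectiveField (IsScalarTower.toAlgHom k K N))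

/-- the fixing subgroup of a totally complex field contains no complex conjugation -/
lemma noCC_of_complex (N : Type) [Field N] [NumberField N] [Algebra k N] (K : Type)
    [Field K] [NumberField K] [Algebra k K] [Algebra K N] [IsScalarTower k K N]
    (hK : IsTotallyComplex K) :
    ∀ c ∈ CC k N, c ∉ (IsScalarTower.toAlgHom k K N).fieldRange.fixingSubgroup := by
  intro c ⟨φ, hφ⟩ hc
  rw [IntermediateField.mem_fixingSubgroup_iff] at hc
  have h1 : ComplexEmbedding.IsReal (φ.comp (algebraMap K N)) := by
    ext x
    have h2 := hc (algebraMap K N x) ⟨x, rfl⟩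
    have h3 := hφ.eq (algebraMap K N x)
    rw [h2] at h3
    change star (φ (algebraMap K N x)) = φ (algebraMap K N x)
    exact h3.symm
  have h2 : (InfinitePlace.mk (φ.comp (algebraMap K N))).IsReal := ⟨_, h1, rfl⟩
  exact absurd (hK.isComplex _) (InfinitePlace.not_isComplex_iff_isReal.mpr h2)

end tc

end Pool.Agent.Run7.h508.BR
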