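import Mathlib
import Pool.Agent.Run7.h508.BR.Tc

/-!
# The number of real places, and all number fields
-/

set_option autoImplicit false
set_option linter.unusedSectionVars false

namespace Pool.Agent.Run7.h508.BR

open NumberField NumberField.ComplexEmbedding Pool.Agent.K4H74.ST Pool.Agent.K4H77.SL
  Pool.Agent.K4H34.NC

/-- a common Galois extension -/
lemma exists_common (k K K' : Type) [Field k] [NumberField k] [Field K] [NumberField K]
    [Field K'] [NumberField K'] [Algebra k K] [Algebra k K'] :
    ∃ (N : Type) (_ : Field N) (_ : NumberField N) (_ : Algebra k N) (_ : Algebra K N)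
      (_ : Algebra K' N) (_ : IsScalarTower k K N) (_ : IsScalarTower k K' N), IsGalois k N := by
  classical
  have hK : FiniteDimensional k K := Module.Finite.of_restrictScalars_finite ℚ k K
  have hK' : FiniteDimensional k K' := Module.Finite.of_restrictScalars_finite ℚ k K'
  let Ω := AlgebraicClosure k
  let i : K →ₐ[k] Ω := IsAlgClosed.lift
  let i' : K' →ₐ[k] Ω := IsAlgClosed.lift
  let E : IntermediateField k Ω := i.fieldRange ⊔ i'.fieldRange
  have hi : FiniteDimensional k i.fieldRange := by
    exact LinearEquiv.finiteDimensional (AlgEquiv.ofInjectiveField i).toLinearEquiv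
  have hi' : FiniteDimensional k i'.fieldRange := by
    exact LinearEquiv.finiteDimensional (AlgEquiv.ofInjectiveField i').toLinearEquiv
  have hE : FiniteDimensional k E := IntermediateField.finiteDimensional_sup _ _
  let N := IntermediateField.normalClosure k E Ω
  have hEN : E ≤ N := IntermediateField.le_normalClosure E
  have hN1 : Normal k N := normalClosure.normal k E Ω
  have hN2 : FiniteDimensional k N := normalClosure.is_finiteDimensional k E Ω
  have hN3 : NumberField N := by
    have : CharZero N := charZero_of_injective_algebraMap (algebraMap k N).injective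
    exact { to_charZero := this
            to_finiteDimensional := by
              have := FiniteDimensional.trans ℚ k N
              exact this }
  let f : K →ₐ[k] N := i.codRestrict N.toSubalgebra
    (fun x => hEN ((le_sup_left : i.fieldRange ≤ E) ⟨x, rfl⟩))
  let f' : K' →ₐ[k] N := i'.codRestrict N.toSubalgebra
    (fun x => hEN ((le_sup_right : i'.fieldRange ≤ E) ⟨x, rfl⟩))
  let a1 : Algebra K N := f.toRingHom.toAlgebra
  let a2 : Algebra K' N := f'.toRingHom.toAlgebra
  exact ⟨N, inferInstance, hN3, inferInstance, a1, a2,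
    IsScalarTower.of_algebraMap_eq fun x => (f.commutes x).symm,
    IsScalarTower.of_algebraMap_eq fun x => (f'.commutes x).symm, ⟨⟩⟩

section all

variable {k : Type} [Field k] [NumberField k] {V : Type} [AddCommGroup V] [Module ℚ V]
  (A : FieldFun k V)

/-- **The function is constant on the totally complex fields.** -/
theorem complex_const {m : ℕ} (hm : m ≠ 0) (hA : NoChange A m) (K K' : Type) [Field K]
    [NumberField K] [Field K'] [NumberField K'] [Algebra k K] [Algebra k K']
    (hK : IsTotallyComplex K) (hK' : IsTotallyComplex K') : A.f K = A.f K' := by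
  obtain ⟨N, i1, i2, i3, i4, i5, i6, i7, i8⟩ := exists_common k K K'
  rw [f_fixed A N K, f_fixed A N K', noCC_all A hm hA N _ (noCC_of_complex N K hK),
    noCC_all A hm hA N _ (noCC_of_complex N K' hK')]

end all

section real

variable {k : Type} [Field k] [NumberField k]

lemma isConj_unique {N : Type} [Field N] [Algebra k N] {ψ : N →+* ℂ} {g h : N ≃ₐ[k] N}
    (hg : IsConj ψ g) (hh : IsConj ψ h) : g = h := by
  ext x
  apply ψ.injective
  rw [hg.eq, hh.eq]

/-- the number of extensions of an embedding -/
lemma card_ext (F N : Type) [Field F] [NumberField F] [Field N] [NumberField N] [Algebra F N]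
    (χ : F →+* ℂ) : Nat.card {ψ : N →+* ℂ // ψ.comp (algebraMap F N) = χ} = Module.finrank F N := by
  have hfin : FiniteDimensional F N := Module.Finite.of_restrictScalars_finite ℚ F N
  let _ : Algebra F ℂ := χ.toAlgebra
  have h1 : Fintype.card (N →ₐ[F] ℂ) = Module.finrank F N := AlgHom.card F N ℂ
  rw [← h1, ← Nat.card_eq_fintype_card]
  refine Nat.card_congr
    { toFun := fun ψ => { ψ.1 with commutes' := fun x => RingHom.congr_fun ψ.2 x }
      invFun := fun f => ⟨f.toRingHom, RingHom.ext fun x => f.commutes x⟩
      left_inv := fun ψ => rfl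
      right_inv := fun f => rfl }

lemma isReal_iff_exists {N : Type} [Field N] [NumberField N] [Algebra k N] [IsGalois k N]
    (H : Subgroup (N ≃ₐ[k] N)) (ψ : N →+* ℂ) :
    IsReal (ψ.comp (algebraMap (IntermediateField.fixedField H) N)) ↔ ∃ g ∈ H, IsConj ψ g := by
  have hfin : FiniteDimensional k N := Module.Finite.of_restrictScalars_finite ℚ k N
  let F := IntermediateField.fixedField H
  constructor
  · intro h
    obtain ⟨c, hc⟩ := exists_conj (K := F) (φ := ψ) h
    let e : H ≃* (N ≃ₐ[F] N) := IntermediateField.subgroupEquivAlgEquiv H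
    refine ⟨((e.symm c : H) : N ≃ₐ[k] N), (e.symm c).2, ?_⟩
    ext x
    have h3 := hc.eq x
    have h4 : ((e.symm c : H) : N ≃ₐ[k] N) x = c x := by
      have h5 : ∀ h : H, (e h) x = (h : N ≃ₐ[k] N) x := fun h => rfl
      rw [← h5, MulEquiv.apply_symm_apply]
    change star (ψ x) = ψ (((e.symm c : H) : N ≃ₐ[k] N) x)
    rw [h4, h3]
  · rintro ⟨g, hg, hψ⟩
    ext x
    have h1 := hψ.eq (x : N)
    have h2 : g (x : N) = x := (IntermediateField.mem_fixedField_iff H (x : N)).mp x.2 g hg
    rw [h2] at h1
    change star (ψ (x : N)) = ψ (x : N)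
    exact h1.symm

open Classical in
lemma real_mean (N : Type) [Field N] [NumberField N] [Algebra k N] [IsGalois k N] :
    IsMean (fun g : N ≃ₐ[k] N => (Nat.card {ψ : N →+* ℂ // IsConj ψ g} : ℚ))
      (fun H => (InfinitePlace.nrRealPlaces (IntermediateField.fixedField H) : ℚ)) := by
  intro H
  have hfin : FiniteDimensional k N := Module.Finite.of_restrictScalars_finite ℚ k N
  have := Fintype.ofFinite (N ≃ₐ[k] N)
  let F := IntermediateField.fixedField H
  rw [tot_eq]
  -- both sides count the embeddings of `N` which are real on `F`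
  have h1 : Nat.card {ψ : N →+* ℂ // IsReal (ψ.comp (algebraMap F N))} =
      ∑ g : (N ≃ₐ[k] N), if g ∈ H then Nat.card {ψ : N →+* ℂ // IsConj ψ g} else 0 := by
    have e : {ψ : N →+* ℂ // IsReal (ψ.comp (algebraMap F N))} ≃
        (Σ g : (N ≃ₐ[k] N), {ψ : N →+* ℂ // g ∈ H ∧ IsConj ψ g}) :=
      { toFun := fun ψ => ⟨((isReal_iff_exists H ψ.1).mp ψ.2).choose,
          ⟨ψ.1, ((isReal_iff_exists H ψ.1).mp ψ.2).choose_spec⟩⟩
        invFun := fun x => ⟨x.2.1, (isReal_iff_exists H x.2.1).mpr ⟨x.1, x.2.2⟩⟩
        left_inv := fun ψ => rfl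
        right_inv := by
          rintro ⟨g, ψ, hg, hψ⟩
          have h2 : IsReal (ψ.comp (algebraMap F N)) :=
            (isReal_iff_exists H ψ).mpr ⟨g, hg, hψ⟩
          have h3 : ((isReal_iff_exists H ψ).mp h2).choose = g :=
            isConj_unique ((isReal_iff_exists H ψ).mp h2).choose_spec.2 hψ
          dsimp only
          generalize_proofs p1 p2
          have h4 : p1.choose = g := isConj_unique p1.choose_spec.2 hψ
          refine Sigma.ext h4 ?_
          dsimp only
          congr 1
          · funext x
            rw [h4]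
          · exact proof_irrel_heq _ _ }
    rw [Nat.card_congr e, Nat.card_sigma]
    refine Finset.sum_congr rfl fun g _ => ?_
    by_cases hg : g ∈ H
    · rw [if_pos hg]
      exact Nat.card_congr (Equiv.subtypeEquivRight fun ψ => by simp [hg])
    · rw [if_neg hg]
      have : IsEmpty {ψ : N →+* ℂ // g ∈ H ∧ IsConj ψ g} := ⟨fun x => hg x.2.1⟩
      exact Nat.card_of_isEmpty
  have h2 : Nat.card {ψ : N →+* ℂ // IsReal (ψ.comp (algebraMap F N))} =
      InfinitePlace.nrRealPlaces F * Nat.card H := by
    have e : {ψ : N →+* ℂ // IsReal (ψ.comp (algebraMap F N))} ≃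
        (Σ χ : {χ : F →+* ℂ // IsReal χ}, {ψ : N →+* ℂ // ψ.comp (algebraMap F N) = χ.1}) :=
      { toFun := fun ψ => ⟨⟨ψ.1.comp (algebraMap F N), ψ.2⟩, ⟨ψ.1, rfl⟩⟩
        invFun := fun x => ⟨x.2.1, by rw [x.2.2]; exact x.1.2⟩
        left_inv := fun ψ => rfl
        right_inv := by
          rintro ⟨⟨χ, hχ⟩, ψ, hψ⟩
          dsimp only at hψ
          subst hψ
          rfl }
    rw [Nat.card_congr e, Nat.card_sigma]
    simp only [card_ext]
    rw [Finset.sum_const, Finset.card_univ, InfinitePlace.card_real_embeddings,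
      IntermediateField.finrank_fixedField_eq_card, smul_eq_mul]
  rw [h1] at h2
  have h3 := congrArg (fun n : ℕ => (n : ℚ)) h2
  push_cast at h3
  rw [nsmul_eq_mul, mul_comm]
  rw [← h3]

end real

end Pool.Agent.Run7.h508.BR
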