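import Mathlib
import Pool.Agent.Run7.h508.BR.Real
import Pool.Agent.K4H74.ST.Ext

/-!
# The base field `ℚ`: the function is a combination of a constant and the number of real places
-/

set_option autoImplicit false
set_option linter.unusedSectionVars false

namespace Pool.Agent.Run7.h508.BR

open NumberField NumberField.ComplexEmbedding Pool.Agent.K4H74.ST Pool.Agent.K4H77.SL
  Pool.Agent.K4H34.NC

lemma nrReal_congr {K K' : Type} [Field K] [NumberField K] [Field K'] [NumberField K']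
    (e : K ≃+* K') : InfinitePlace.nrRealPlaces K = InfinitePlace.nrRealPlaces K' := by
  classical
  rw [← InfinitePlace.card_real_embeddings, ← InfinitePlace.card_real_embeddings]
  refine Fintype.card_congr
    { toFun := fun φ => ⟨φ.1.comp (e.symm : K' →+* K), ?_⟩
      invFun := fun φ => ⟨φ.1.comp (e : K →+* K'), ?_⟩
      left_inv := fun φ => Subtype.ext (RingHom.ext fun x => congrArg φ.1 (e.symm_apply_apply x))
      right_inv := fun φ => Subtype.ext (RingHom.ext fun x => congrArg φ.1 (e.apply_symm_apply x)) }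
  · ext x
    exact RingHom.congr_fun φ.2 (e.symm x)
  · ext x
    exact RingHom.congr_fun φ.2 (e x)

/-- the number of real places as a function of number fields -/
noncomputable def realFun (k : Type) [Field k] [NumberField k] : FieldFun k ℚ where
  f := fun K _ _ _ => (InfinitePlace.nrRealPlaces K : ℚ)
  iso := fun K K' _ _ _ _ _ _ e => by
    rw [nrReal_congr e.toRingEquiv]
  mean := fun N _ _ _ _ => ⟨_, real_mean N⟩

section grp

lemma two_unique {C : Type} [Group C] [Finite C] [hC : IsCyclic C] {c d : C} (hc : c * c = 1)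
    (hc1 : c ≠ 1) (hd : d * d = 1) (hd1 : d ≠ 1) : c = d := by
  classical
  have := Fintype.ofFinite C
  by_contra hne
  have h1 := IsCyclic.card_pow_eq_one_le (α := C) (n := 2) (by norm_num)
  have h2 : ({1, c, d} : Finset C) ⊆ Finset.univ.filter fun a : C => a ^ 2 = 1 := by
    intro x hx
    simp only [Finset.mem_insert, Finset.mem_singleton] at hx
    rw [Finset.mem_filter]
    refine ⟨Finset.mem_univ _, ?_⟩
    rcases hx with rfl | rfl | rfl
    · exact one_pow 2
    · rw [sq, hc]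
    · rw [sq, hd]
  have h3 := (Finset.card_le_card h2).trans h1
  rw [Finset.card_insert_of_notMem, Finset.card_insert_of_notMem, Finset.card_singleton] at h3
  · omega
  · rw [Finset.mem_singleton]
    exact hne
  · rw [Finset.mem_insert, Finset.mem_singleton]
    rintro (h | h)
    · exact hc1 h.symm
    · exact hd1 h.symm

end grp

section q1

variable {V : Type} [AddCommGroup V] [Module ℚ V] (A : FieldFun ℚ V)

lemma isConj_ne_one {k N : Type} [Field k] [Field N] [NumberField N] [Algebra k N] {j : N}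
    (hj : j * j = -1) {c : N ≃ₐ[k] N} (hc : c ∈ CC k N) : c ≠ 1 := by
  rintro rfl
  obtain ⟨φ, hφ⟩ := hc
  have h1 := hφ.eq j
  have h2 : φ j * φ j = -1 := by rw [← map_mul, hj, map_neg, map_one]
  have h3 : star (φ j) = φ j := h1.symm
  have h4 : (φ j).im = 0 := Complex.conj_eq_iff_im.mp h3
  have h5 := congrArg Complex.re h2
  rw [Complex.mul_re, h4, mul_zero, sub_zero, Complex.neg_re, Complex.one_re] at h5
  nlinarith [mul_self_nonneg (φ j).re]

/-- the complex conjugations of a Galois extension of `ℚ` are conjugate -/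
lemma CC_one_class (N : Type) [Field N] [NumberField N] [IsGalois ℚ N] {c d : N ≃ₐ[ℚ] N}
    (hc : c ∈ CC ℚ N) (hd : d ∈ CC ℚ N) : ∃ x : N ≃ₐ[ℚ] N, d = x * c * x⁻¹ := by
  obtain ⟨φ, hφ⟩ := hc
  obtain ⟨ψ, hψ⟩ := hd
  obtain ⟨σ, hσ⟩ := ComplexEmbedding.exists_comp_symm_eq_of_comp_eq (k := ℚ) φ ψ
    (Subsingleton.elim _ _)
  have h1 : IsConj (φ.comp (σ.symm : N →+* N)) (σ * c * σ⁻¹) := by
    have h2 := hφ.comp σ.symm
    have h3 : (σ.symm)⁻¹ * c * σ.symm = σ * c * σ⁻¹ := rfl
    rw [h3] at h2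
    exact h2
  refine ⟨σ, isConj_unique hψ ?_⟩
  rw [← hσ]
  exact h1

open Classical in
theorem q1 {m : ℕ} (hm : m ≠ 0) (hA : NoChange A m) (L N : Type) [Field L] [NumberField L]
    [IsGalois ℚ L] [Field N] [NumberField N] [IsGalois ℚ N] [Algebra L N] {j : L}
    (hj : j * j = -1)
    (hcent : ∀ c ∈ CC ℚ N, ∀ g : N ≃ₐ[ℚ] N, g * c = c * g →
      AlgEquiv.restrictNormalHom L g = 1 ∨
        AlgEquiv.restrictNormalHom L g = AlgEquiv.restrictNormalHom L c) :
    ∃ Φ : V, ∀ J : Subgroup (N ≃ₐ[ℚ] N),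
      (∀ g : N ≃ₐ[ℚ] N, AlgEquiv.restrictNormalHom L g = 1 → g ∈ J) →
      Nat.card J • (A.f (IntermediateField.fixedField J) -
        A.f (IntermediateField.fixedField (⊥ : Subgroup (N ≃ₐ[ℚ] N)))) =
      Nat.card {c : N ≃ₐ[ℚ] N // c ∈ CC ℚ N ∧ c ∈ J} • Φ := by
  have := Fintype.ofFinite (N ≃ₐ[ℚ] N)
  obtain ⟨φ, h1, h2, h3⟩ := exists_norm A N
  set a := A.f (IntermediateField.fixedField (⊥ : Subgroup (N ≃ₐ[ℚ] N))) with ha
  have hj2 : algebraMap L N j * algebraMap L N j = -1 := by rw [← map_mul, hj, map_neg, map_one]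
  obtain ⟨φ0⟩ : Nonempty (N →+* ℂ) := inferInstance
  obtain ⟨c1, hc1⟩ := exists_conj (K := ℚ) (φ := φ0)
    (Subsingleton.elim (α := ℚ →+* ℂ) _ _)
  have hc1' : c1 ∈ CC ℚ N := ⟨φ0, hc1⟩
  let Φc : (N ≃ₐ[ℚ] N) → V := fun c => ∑ g : N ≃ₐ[ℚ] N,
    if c ∈ Subgroup.zpowers g then φ g - a else 0
  have hΦ : ∀ c ∈ CC ℚ N, Φc c = Φc c1 := by
    intro c hc
    obtain ⟨x, rfl⟩ := CC_one_class N hc1' hc
    refine (Fintype.sum_equiv (MulAut.conj x).toEquiv _ _ fun g => ?_).symm
    change _ = if x * c1 * x⁻¹ ∈ Subgroup.zpowers (x * g * x⁻¹) then φ (x * g * x⁻¹) - a else 0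
    rw [h2]
    have h4 : x * c1 * x⁻¹ ∈ Subgroup.zpowers (x * g * x⁻¹) ↔ c1 ∈ Subgroup.zpowers g := by
      have h5 : Subgroup.zpowers (x * g * x⁻¹) =
          (Subgroup.zpowers g).map (MulAut.conj x).toMonoidHom := by
        rw [MonoidHom.map_zpowers]
        rfl
      rw [h5]
      constructor
      · rintro ⟨y, hy, h⟩
        have h6 : x * y * x⁻¹ = x * c1 * x⁻¹ := h
        have h7 : y = c1 := mul_left_cancel (mul_right_cancel h6)
        rw [← h7]
        exact hy
      · intro h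
        exact ⟨c1, h, rfl⟩
    simp only [h4]
  refine ⟨Φc c1, fun J hJ => ?_⟩
  -- the key: for each `g`
  have key : ∀ g : N ≃ₐ[ℚ] N, (if g ∈ J then φ g - a else 0) =
      ∑ c : N ≃ₐ[ℚ] N, if (c ∈ CC ℚ N ∧ c ∈ J) then
        (if c ∈ Subgroup.zpowers g then φ g - a else 0) else 0 := by
    intro g
    by_cases hex : ∃ c ∈ CC ℚ N, c ∈ Subgroup.zpowers g
    · obtain ⟨c, hc, hcg⟩ := hex
      have huniq : ∀ d ∈ CC ℚ N, d ∈ Subgroup.zpowers g → d = c := by
        intro d hd hdg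
        have hsq : ∀ e ∈ CC ℚ N, e * e = 1 := fun e he => by
          obtain ⟨ψ, hψ⟩ := he
          exact isConj_sq hψ
        have h4 : (⟨d, hdg⟩ : Subgroup.zpowers g) = ⟨c, hcg⟩ := by
          refine two_unique (Subtype.ext (hsq d hd)) (fun h => ?_) (Subtype.ext (hsq c hc))
            (fun h => ?_)
          · exact isConj_ne_one hj2 hd (congrArg (fun z : Subgroup.zpowers g => (z : N ≃ₐ[ℚ] N)) h)
          · exact isConj_ne_one hj2 hc (congrArg (fun z : Subgroup.zpowers g => (z : N ≃ₐ[ℚ] N)) h)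
        exact congrArg (fun z : Subgroup.zpowers g => (z : N ≃ₐ[ℚ] N)) h4
      have hgJ : g ∈ J ↔ c ∈ J := by
        have hcomm : g * c = c * g := by
          obtain ⟨n, rfl⟩ := Subgroup.mem_zpowers_iff.mp hcg
          exact (Commute.refl g).zpow_right n
        have hres : AlgEquiv.restrictNormalHom L g = AlgEquiv.restrictNormalHom L c := by
          rcases hcent c hc g hcomm with h | h
          · exfalso
            have h5 : (AlgEquiv.restrictNormalHom L c : L ≃ₐ[ℚ] L) = 1 := by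
              obtain ⟨n, rfl⟩ := Subgroup.mem_zpowers_iff.mp hcg
              rw [map_zpow, h, one_zpow]
            exact isConj_ne_one hj (CC_res hc) h5
          · exact h
        have h6 : g * c⁻¹ ∈ J := by
          apply hJ
          rw [map_mul, map_inv, hres, mul_inv_cancel]
        constructor
        · intro h
          have h7 := J.mul_mem (J.inv_mem h6) h
          have h8 : (g * c⁻¹)⁻¹ * g = c := by group
          rwa [h8] at h7
        · intro h
          have h7 := J.mul_mem h6 h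
          rwa [inv_mul_cancel_right] at h7
      rw [Finset.sum_eq_single c]
      · rw [if_pos hcg]
        simp only [hc, true_and, hgJ]
      · intro d _ hd
        by_cases h4 : d ∈ CC ℚ N ∧ d ∈ J
        · rw [if_pos h4, if_neg (fun h => hd (huniq d h4.1 h))]
        · rw [if_neg h4]
      · intro h
        exact absurd (Finset.mem_univ _) h
    · have h4 : φ g = a := by
        refine mean_val h1 h3 g fun C hC => ?_
        exact noCC_all A hm hA N C (fun c hc h => hex ⟨c, hc, hC h⟩)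
      rw [h4, sub_self, ite_self]
      symm
      refine Finset.sum_eq_zero fun c _ => ?_
      simp only [ite_self]
  have h5 : Nat.card J • (A.f (IntermediateField.fixedField J) - a) =
      ∑ g : N ≃ₐ[ℚ] N, if g ∈ J then φ g - a else 0 := by
    have h6 : ∀ g : N ≃ₐ[ℚ] N, (if g ∈ J then φ g - a else 0) =
        (if g ∈ J then φ g else 0) - (if g ∈ J then 1 else 0 : ℕ) • a := by
      intro g
      split_ifs <;> simp
    simp only [h6]
    rw [Finset.sum_sub_distrib, ← Finset.sum_smul, smul_sub]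
    have h7 := h1 J
    rw [tot_eq] at h7
    rw [← h7]
    congr 2
    rw [Nat.card_eq_fintype_card, Fintype.card_subtype, Finset.card_filter]
  rw [h5]
  simp only [key]
  rw [Finset.sum_comm]
  have h8 : ∀ c : N ≃ₐ[ℚ] N, ∑ g : N ≃ₐ[ℚ] N, (if (c ∈ CC ℚ N ∧ c ∈ J) then
        (if c ∈ Subgroup.zpowers g then φ g - a else 0) else 0) =
      (if (c ∈ CC ℚ N ∧ c ∈ J) then 1 else 0 : ℕ) • Φc c1 := by
    intro c
    by_cases h : c ∈ CC ℚ N ∧ c ∈ J
    · simp only [if_pos h, one_smul]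
      exact hΦ c h.1
    · simp only [if_neg h, zero_smul, Finset.sum_const_zero]
  simp only [h8]
  rw [← Finset.sum_smul, Nat.card_eq_fintype_card, Fintype.card_subtype, Finset.card_filter]

end q1

section main

variable {V : Type} [AddCommGroup V] [Module ℚ V] (A : FieldFun ℚ V)

lemma realFun_noChange (k : Type) [Field k] [NumberField k] (m : ℕ) : NoChange (realFun k) m := by
  intro K L _ _ _ _ _ _ _ _ _ hK _ _
  have hL : IsTotallyComplex L := isTotallyComplex_of_algebra K L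
  change (InfinitePlace.nrRealPlaces K : ℚ) = InfinitePlace.nrRealPlaces L
  rw [nrRealPlaces_eq_zero_iff.mpr hK, nrRealPlaces_eq_zero_iff.mpr hL]

/-- **The main theorem over `ℚ`.** -/
theorem real_formula {m : ℕ} (hm : m ≠ 0) (hA : NoChange A m) (K₀ K : Type) [Field K₀]
    [NumberField K₀] [Field K] [NumberField K] (hK₀ : IsTotallyComplex K₀) :
    A.f K = A.f K₀ + InfinitePlace.nrRealPlaces K • (A.f ℚ - A.f K₀) := by
  classical
  obtain ⟨N1, i1, i2, i3, i4, i5, i6, i7, i8⟩ := exists_common ℚ K₀ K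
  obtain rfl : i3 = DivisionRing.toRatAlgebra := Subsingleton.elim _ _
  obtain ⟨L, j1, j2, j3, j4, j5, j6, hL⟩ := exists_ext ℚ N1 {-1}
  obtain rfl : j3 = DivisionRing.toRatAlgebra := Subsingleton.elim _ _
  obtain ⟨j, hj⟩ := hL (-1) (Finset.mem_singleton_self _)
  rw [map_neg, map_one] at hj
  obtain ⟨N, k1, k2, k3, k4, k5, k6, -, hN⟩ := exists_comm ℚ L
  obtain rfl : k3 = DivisionRing.toRatAlgebra := Subsingleton.elim _ _
  let f0 : K₀ →+* N := (algebraMap L N).comp ((algebraMap N1 L).comp (algebraMap K₀ N1))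
  let f : K →+* N := (algebraMap L N).comp ((algebraMap N1 L).comp (algebraMap K N1))
  let _ : Algebra K₀ N := f0.toAlgebra
  let _ : Algebra K N := f.toAlgebra
  let J : Subgroup (N ≃ₐ[ℚ] N) := (IsScalarTower.toAlgHom ℚ K N).fieldRange.fixingSubgroup
  have hJ : ∀ g : N ≃ₐ[ℚ] N, AlgEquiv.restrictNormalHom L g = 1 → g ∈ J := by
    intro g hg
    rw [IntermediateField.mem_fixingSubgroup_iff]
    rintro _ ⟨x, rfl⟩
    change g (algebraMap L N (algebraMap N1 L (algebraMap K N1 x))) =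
      algebraMap L N (algebraMap N1 L (algebraMap K N1 x))
    rw [← res_apply, hg]
    rfl
  have ha0 : A.f K₀ = A.f (IntermediateField.fixedField (⊥ : Subgroup (N ≃ₐ[ℚ] N))) := by
    rw [f_fixed A N K₀]
    exact noCC_all A hm hA N _ (noCC_of_complex N K₀ hK₀)
  have hr0 : ((realFun ℚ).f (IntermediateField.fixedField (⊥ : Subgroup (N ≃ₐ[ℚ] N))) : ℚ) = 0 := by
    refine ((noCC_all (realFun ℚ) hm (realFun_noChange ℚ m) N _
      (noCC_of_complex N K₀ hK₀)).symm.trans (f_fixed (realFun ℚ) N K₀).symm).trans ?_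
    change (InfinitePlace.nrRealPlaces K₀ : ℚ) = 0
    rw [nrRealPlaces_eq_zero_iff.mpr hK₀, Nat.cast_zero]
  have hfJ : A.f (IntermediateField.fixedField J) = A.f K := (f_fixed A N K).symm
  have hrJ : (realFun ℚ).f (IntermediateField.fixedField J) = InfinitePlace.nrRealPlaces K :=
    (f_fixed (realFun ℚ) N K).symm
  have etop : ℚ ≃ₐ[ℚ] IntermediateField.fixedField (⊤ : Subgroup (N ≃ₐ[ℚ] N)) := by
    rw [IsGalois.fixedField_top]
    exact (IntermediateField.botEquiv ℚ N).symm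
  have hfT : A.f (IntermediateField.fixedField (⊤ : Subgroup (N ≃ₐ[ℚ] N))) = A.f ℚ :=
    (A.iso _ _ etop).symm
  have hrT : (realFun ℚ).f (IntermediateField.fixedField (⊤ : Subgroup (N ≃ₐ[ℚ] N))) = 1 := by
    rw [← (realFun ℚ).iso _ _ etop]
    change (InfinitePlace.nrRealPlaces ℚ : ℚ) = 1
    rw [InfinitePlace.nrRealPlaces_eq_one_of_finrank_eq_one (Module.finrank_self ℚ), Nat.cast_one]
  obtain ⟨Φ, hΦ⟩ := q1 A hm hA L N hj hN
  obtain ⟨Ψ, hΨ⟩ := q1 (realFun ℚ) hm (realFun_noChange ℚ m) L N hj hN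
  have h1 := hΦ J hJ
  have h2 := hΦ ⊤ (fun g _ => Subgroup.mem_top g)
  have h3 := hΨ J hJ
  have h4 := hΨ ⊤ (fun g _ => Subgroup.mem_top g)
  rw [hfJ, ← ha0] at h1
  rw [hfT, ← ha0] at h2
  rw [hrJ, hr0, sub_zero] at h3
  rw [hrT, hr0, sub_zero] at h4
  set nJ := Nat.card {c : N ≃ₐ[ℚ] N // c ∈ CC ℚ N ∧ c ∈ J}
  set nT := Nat.card {c : N ≃ₐ[ℚ] N // c ∈ CC ℚ N ∧ c ∈ (⊤ : Subgroup (N ≃ₐ[ℚ] N))}
  set gJ := Nat.card J
  set gT := Nat.card (⊤ : Subgroup (N ≃ₐ[ℚ] N))
  have hgJ : gJ ≠ 0 := Nat.card_pos.ne'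
  have hgT : gT ≠ 0 := Nat.card_pos.ne'
  rw [nsmul_eq_mul, nsmul_eq_mul] at h3 h4
  rw [mul_one] at h4
  have hnT : (nT : ℚ) ≠ 0 := by
    intro h
    rw [h, zero_mul] at h4
    exact hgT (by exact_mod_cast h4)
  have hΨ0 : Ψ = gT / nT := by
    field_simp
    linarith
  -- the relation
  have h5 : Φ = Ψ • (A.f ℚ - A.f K₀) := by
    have h6 : (nT : ℚ) • Φ = (gT : ℚ) • (A.f ℚ - A.f K₀) := by
      rw [Nat.cast_smul_eq_nsmul, Nat.cast_smul_eq_nsmul]
      exact h2.symm
    rw [hΨ0, div_eq_inv_mul, mul_smul, ← h6, smul_smul, inv_mul_cancel₀ hnT, one_smul]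
  have h6 : gJ • (A.f K - A.f K₀) = gJ • (InfinitePlace.nrRealPlaces K • (A.f ℚ - A.f K₀)) := by
    rw [h1, h5, ← Nat.cast_smul_eq_nsmul ℚ nJ, smul_smul, ← h3,
      ← Nat.cast_smul_eq_nsmul ℚ (InfinitePlace.nrRealPlaces K), ← Nat.cast_smul_eq_nsmul ℚ gJ,
      smul_smul]
  rw [← smul_inj hgJ h6]
  abel

end main

end Pool.Agent.Run7.h508.BR
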