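import Mathlib
import Pool.Agent.Run7.h508.BR.Rat

/-!
# All number fields over an arbitrary base field
-/

set_option autoImplicit false
set_option linter.unusedSectionVars false

namespace Pool.Agent.Run7.h508.BR

open NumberField NumberField.ComplexEmbedding Pool.Agent.K4H74.ST Pool.Agent.K4H77.SL
  Pool.Agent.K4H34.NC

/-- a common Galois extension of a finite family -/
lemma exists_common_fin (k : Type) [Field k] [NumberField k] {ι : Type} [Finite ι] (K : ι → Type)
    [∀ i, Field (K i)] [∀ i, NumberField (K i)] [∀ i, Algebra k (K i)] :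
    ∃ (N : Type) (_ : Field N) (_ : NumberField N) (_ : Algebra k N), IsGalois k N ∧
      ∀ i, Nonempty (K i →ₐ[k] N) := by
  classical
  have hK : ∀ i, FiniteDimensional k (K i) := fun i =>
    Module.Finite.of_restrictScalars_finite ℚ k (K i)
  let Ω := AlgebraicClosure k
  let f : ∀ i, K i →ₐ[k] Ω := fun i => IsAlgClosed.lift
  let E : IntermediateField k Ω := ⨆ i, (f i).fieldRange
  have hi : ∀ i, FiniteDimensional k (f i).fieldRange := fun i =>
    LinearEquiv.finiteDimensional (AlgEquiv.ofInjectiveField (f i)).toLinearEquiv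
  have hE : FiniteDimensional k E := IntermediateField.finiteDimensional_iSup_of_finite
  let N := IntermediateField.normalClosure k E Ω
  have hEN : E ≤ N := IntermediateField.le_normalClosure E
  have hN1 : Normal k N := normalClosure.normal k E Ω
  have hN2 : FiniteDimensional k N := normalClosure.is_finiteDimensional k E Ω
  have hN3 : NumberField N := by
    have : CharZero N := charZero_of_injective_algebraMap (algebraMap k N).injective
    exact { to_charZero := this
            to_finiteDimensional := by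
              have := FiniteDimensional.trans ℚ k N
              exact this }
  refine ⟨N, inferInstance, hN3, inferInstance, ⟨⟩, fun i => ⟨?_⟩⟩
  exact (f i).codRestrict N.toSubalgebra
    (fun x => hEN ((le_iSup (fun i => (f i).fieldRange) i) ⟨x, rfl⟩))

section base

variable {k : Type} [Field k] [NumberField k]

/-- the number of real embeddings over an embedding of the base field -/
noncomputable def realAbove {k : Type} [Field k] (v : k →+* ℂ) (K : Type) [Field K] [Algebra k K] :
    ℕ := Nat.card {χ : K →+* ℂ // IsReal χ ∧ χ.comp (algebraMap k K) = v}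

/-- the number of embeddings over `v` with complex conjugation `g` -/
noncomputable def nV (v : k →+* ℂ) {N : Type} [Field N] [Algebra k N] (g : N ≃ₐ[k] N) : ℕ :=
  Nat.card {ψ : N →+* ℂ // IsConj ψ g ∧ ψ.comp (algebraMap k N) = v}

lemma realAbove_iso (v : k →+* ℂ) (K K' : Type) [Field K] [Field K'] [Algebra k K] [Algebra k K']
    (e : K ≃ₐ[k] K') : realAbove v K = realAbove v K' := by
  refine Nat.card_congr
    { toFun := fun φ => ⟨φ.1.comp ((e.symm : K' ≃ₐ[k] K) : K' →+* K), ?_, ?_⟩
      invFun := fun φ => ⟨φ.1.comp (e : K →+* K'), ?_, ?_⟩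
      left_inv := fun φ => Subtype.ext (RingHom.ext fun x => congrArg φ.1 (e.symm_apply_apply x))
      right_inv := fun φ => Subtype.ext (RingHom.ext fun x => congrArg φ.1 (e.apply_symm_apply x)) }
  · ext x
    exact RingHom.congr_fun φ.2.1 (e.symm x)
  · refine Eq.trans ?_ φ.2.2
    ext x
    exact congrArg φ.1 (e.symm.commutes x)
  · ext x
    exact RingHom.congr_fun φ.2.1 (e x)
  · refine Eq.trans ?_ φ.2.2
    ext x
    exact congrArg φ.1 (e.commutes x)

open Classical in
lemma real_mean_v (v : k →+* ℂ) (N : Type) [Field N] [NumberField N] [Algebra k N] [IsGalois k N] :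
    IsMean (fun g : N ≃ₐ[k] N => (nV v g : ℚ))
      (fun H => (realAbove v (IntermediateField.fixedField H) : ℚ)) := by
  intro H
  have hfin : FiniteDimensional k N := Module.Finite.of_restrictScalars_finite ℚ k N
  have := Fintype.ofFinite (N ≃ₐ[k] N)
  let F := IntermediateField.fixedField H
  rw [tot_eq]
  have hres : ∀ ψ : N →+* ℂ, (ψ.comp (algebraMap F N)).comp (algebraMap k F) =
      ψ.comp (algebraMap k N) := by
    intro ψ
    ext x
    rfl
  have h1 : Nat.card {ψ : N →+* ℂ // IsReal (ψ.comp (algebraMap F N)) ∧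
      ψ.comp (algebraMap k N) = v} =
      ∑ g : (N ≃ₐ[k] N), if g ∈ H then nV v g else 0 := by
    have e : {ψ : N →+* ℂ // IsReal (ψ.comp (algebraMap F N)) ∧ ψ.comp (algebraMap k N) = v} ≃
        (Σ g : (N ≃ₐ[k] N), {ψ : N →+* ℂ // g ∈ H ∧ IsConj ψ g ∧ ψ.comp (algebraMap k N) = v}) :=
      { toFun := fun ψ => ⟨((isReal_iff_exists H ψ.1).mp ψ.2.1).choose,
          ⟨ψ.1, ((isReal_iff_exists H ψ.1).mp ψ.2.1).choose_spec.1,
            ((isReal_iff_exists H ψ.1).mp ψ.2.1).choose_spec.2, ψ.2.2⟩⟩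
        invFun := fun x => ⟨x.2.1, (isReal_iff_exists H x.2.1).mpr ⟨x.1, x.2.2.1, x.2.2.2.1⟩,
          x.2.2.2.2⟩
        left_inv := fun ψ => rfl
        right_inv := by
          rintro ⟨g, ψ, hg, hψ, hv⟩
          have h2 : IsReal (ψ.comp (algebraMap F N)) :=
            (isReal_iff_exists H ψ).mpr ⟨g, hg, hψ⟩
          dsimp only
          generalize_proofs p1 p2
          have h4 : p1.choose = g := isConj_unique p1.choose_spec.2 hψ
          refine Sigma.ext h4 ?_
          dsimp only
          congr 1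
          · funext x
            rw [h4]
          · exact proof_irrel_heq _ _ }
    rw [Nat.card_congr e, Nat.card_sigma]
    refine Finset.sum_congr rfl fun g _ => ?_
    by_cases hg : g ∈ H
    · rw [if_pos hg]
      exact Nat.card_congr (Equiv.subtypeEquivRight fun ψ => by simp [hg])
    · rw [if_neg hg]
      have : IsEmpty {ψ : N →+* ℂ // g ∈ H ∧ IsConj ψ g ∧ ψ.comp (algebraMap k N) = v} :=
        ⟨fun x => hg x.2.1⟩
      exact Nat.card_of_isEmpty
  have h2 : Nat.card {ψ : N →+* ℂ // IsReal (ψ.comp (algebraMap F N)) ∧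
      ψ.comp (algebraMap k N) = v} = realAbove v F * Nat.card H := by
    have e : {ψ : N →+* ℂ // IsReal (ψ.comp (algebraMap F N)) ∧ ψ.comp (algebraMap k N) = v} ≃
        (Σ χ : {χ : F →+* ℂ // IsReal χ ∧ χ.comp (algebraMap k F) = v},
          {ψ : N →+* ℂ // ψ.comp (algebraMap F N) = χ.1}) :=
      { toFun := fun ψ => ⟨⟨ψ.1.comp (algebraMap F N), ψ.2.1, by rw [hres]; exact ψ.2.2⟩,
          ⟨ψ.1, rfl⟩⟩
        invFun := fun x => ⟨x.2.1, by rw [x.2.2]; exact x.1.2.1, by
          rw [← hres, x.2.2]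
          exact x.1.2.2⟩
        left_inv := fun ψ => rfl
        right_inv := by
          rintro ⟨⟨χ, hχ, hv⟩, ψ, hψ⟩
          dsimp only at hψ
          subst hψ
          rfl }
    rw [Nat.card_congr e, Nat.card_sigma]
    simp only [card_ext]
    rw [Finset.sum_const, Finset.card_univ, IntermediateField.finrank_fixedField_eq_card,
      smul_eq_mul, realAbove]
    congr 1
    exact Nat.card_eq_fintype_card.symm
  rw [h1] at h2
  have h3 := congrArg (fun n : ℕ => (n : ℚ)) h2
  push_cast at h3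
  rw [nsmul_eq_mul, mul_comm]
  rw [← h3]

/-- the number of real places above `v` as a function of number fields -/
noncomputable def realFunV (v : k →+* ℂ) : FieldFun k ℚ where
  f := fun K _ _ _ => (realAbove v K : ℚ)
  iso := fun K K' _ _ _ _ _ _ e => by
    rw [realAbove_iso v K K' e]
  mean := fun N _ _ _ _ => ⟨_, real_mean_v v N⟩

end base

section q1

variable {k : Type} [Field k] [NumberField k] {V : Type} [AddCommGroup V] [Module ℚ V]
  (A : FieldFun k V)

open Classical in
theorem q1k {m : ℕ} (hm : m ≠ 0) (hA : NoChange A m) (L N : Type) [Field L] [NumberField L]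
    [Algebra k L] [IsGalois k L] [Field N] [NumberField N] [Algebra k N] [IsGalois k N]
    [Algebra L N] [IsScalarTower k L N] {j : L} (hj : j * j = -1)
    (hcent : ∀ c ∈ CC k N, ∀ g : N ≃ₐ[k] N, g * c = c * g →
      AlgEquiv.restrictNormalHom L g = 1 ∨
        AlgEquiv.restrictNormalHom L g = AlgEquiv.restrictNormalHom L c) [Fintype (N ≃ₐ[k] N)] :
    ∃ Φ : (N ≃ₐ[k] N) → V, (∀ x c, Φ (x * c * x⁻¹) = Φ c) ∧ ∀ J : Subgroup (N ≃ₐ[k] N),
      (∀ g : N ≃ₐ[k] N, AlgEquiv.restrictNormalHom L g = 1 → g ∈ J) →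
      Nat.card J • (A.f (IntermediateField.fixedField J) -
        A.f (IntermediateField.fixedField (⊥ : Subgroup (N ≃ₐ[k] N)))) =
      ∑ c : N ≃ₐ[k] N, if c ∈ CC k N ∧ c ∈ J then Φ c else 0 := by
  obtain ⟨φ, h1, h2, h3⟩ := exists_norm A N
  set a := A.f (IntermediateField.fixedField (⊥ : Subgroup (N ≃ₐ[k] N))) with ha
  have hj2 : algebraMap L N j * algebraMap L N j = -1 := by rw [← map_mul, hj, map_neg, map_one]
  let Φc : (N ≃ₐ[k] N) → V := fun c => ∑ g : N ≃ₐ[k] N,
    if c ∈ Subgroup.zpowers g then φ g - a else 0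
  have hΦ : ∀ x c, Φc (x * c * x⁻¹) = Φc c := by
    intro x c1
    refine (Fintype.sum_equiv (MulAut.conj x).toEquiv _ _ fun g => ?_).symm
    change _ = if x * c1 * x⁻¹ ∈ Subgroup.zpowers (x * g * x⁻¹) then φ (x * g * x⁻¹) - a else 0
    rw [h2]
    have h4 : x * c1 * x⁻¹ ∈ Subgroup.zpowers (x * g * x⁻¹) ↔ c1 ∈ Subgroup.zpowers g := by
      have h5 : Subgroup.zpowers (x * g * x⁻¹) =
          (Subgroup.zpowers g).map (MulAut.conj x).toMonoidHom := by
        rw [MonoidHom.map_zpowers]
        rfl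
      rw [h5]
      constructor
      · rintro ⟨y, hy, h⟩
        have h6 : x * y * x⁻¹ = x * c1 * x⁻¹ := h
        have h7 : y = c1 := mul_left_cancel (mul_right_cancel h6)
        rw [← h7]
        exact hy
      · intro h
        exact ⟨c1, h, rfl⟩
    simp only [h4]
  refine ⟨Φc, hΦ, fun J hJ => ?_⟩
  -- the key: for each `g`
  have key : ∀ g : N ≃ₐ[k] N, (if g ∈ J then φ g - a else 0) =
      ∑ c : N ≃ₐ[k] N, if (c ∈ CC k N ∧ c ∈ J) then
        (if c ∈ Subgroup.zpowers g then φ g - a else 0) else 0 := by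
    intro g
    by_cases hex : ∃ c ∈ CC k N, c ∈ Subgroup.zpowers g
    · obtain ⟨c, hc, hcg⟩ := hex
      have huniq : ∀ d ∈ CC k N, d ∈ Subgroup.zpowers g → d = c := by
        intro d hd hdg
        have hsq : ∀ e ∈ CC k N, e * e = 1 := fun e he => by
          obtain ⟨ψ, hψ⟩ := he
          exact isConj_sq hψ
        have h4 : (⟨d, hdg⟩ : Subgroup.zpowers g) = ⟨c, hcg⟩ := by
          refine two_unique (Subtype.ext (hsq d hd)) (fun h => ?_) (Subtype.ext (hsq c hc))
            (fun h => ?_)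
          · exact isConj_ne_one hj2 hd (congrArg (fun z : Subgroup.zpowers g => (z : N ≃ₐ[k] N)) h)
          · exact isConj_ne_one hj2 hc (congrArg (fun z : Subgroup.zpowers g => (z : N ≃ₐ[k] N)) h)
        exact congrArg (fun z : Subgroup.zpowers g => (z : N ≃ₐ[k] N)) h4
      have hgJ : g ∈ J ↔ c ∈ J := by
        have hcomm : g * c = c * g := by
          obtain ⟨n, rfl⟩ := Subgroup.mem_zpowers_iff.mp hcg
          exact (Commute.refl g).zpow_right n
        have hres : AlgEquiv.restrictNormalHom L g = AlgEquiv.restrictNormalHom L c := by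
          rcases hcent c hc g hcomm with h | h
          · exfalso
            have h5 : (AlgEquiv.restrictNormalHom L c : L ≃ₐ[k] L) = 1 := by
              obtain ⟨n, rfl⟩ := Subgroup.mem_zpowers_iff.mp hcg
              rw [map_zpow, h, one_zpow]
            exact isConj_ne_one hj (CC_res hc) h5
          · exact h
        have h6 : g * c⁻¹ ∈ J := by
          apply hJ
          rw [map_mul, map_inv, hres, mul_inv_cancel]
        constructor
        · intro h
          have h7 := J.mul_mem (J.inv_mem h6) h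
          have h8 : (g * c⁻¹)⁻¹ * g = c := by group
          rwa [h8] at h7
        · intro h
          have h7 := J.mul_mem h6 h
          rwa [inv_mul_cancel_right] at h7
      rw [Finset.sum_eq_single c]
      · rw [if_pos hcg]
        simp only [hc, true_and, hgJ]
      · intro d _ hd
        by_cases h4 : d ∈ CC k N ∧ d ∈ J
        · rw [if_pos h4, if_neg (fun h => hd (huniq d h4.1 h))]
        · rw [if_neg h4]
      · intro h
        exact absurd (Finset.mem_univ _) h
    · have h4 : φ g = a := by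
        refine mean_val h1 h3 g fun C hC => ?_
        exact noCC_all A hm hA N C (fun c hc h => hex ⟨c, hc, hC h⟩)
      rw [h4, sub_self, ite_self]
      symm
      refine Finset.sum_eq_zero fun c _ => ?_
      simp only [ite_self]
  have h5 : Nat.card J • (A.f (IntermediateField.fixedField J) - a) =
      ∑ g : N ≃ₐ[k] N, if g ∈ J then φ g - a else 0 := by
    have h6 : ∀ g : N ≃ₐ[k] N, (if g ∈ J then φ g - a else 0) =
        (if g ∈ J then φ g else 0) - (if g ∈ J then 1 else 0 : ℕ) • a := by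
      intro g
      split_ifs <;> simp
    simp only [h6]
    rw [Finset.sum_sub_distrib, ← Finset.sum_smul, smul_sub]
    have h7 := h1 J
    rw [tot_eq] at h7
    rw [← h7]
    congr 2
    rw [Nat.card_eq_fintype_card, Fintype.card_subtype, Finset.card_filter]
  rw [h5]
  simp only [key]
  rw [Finset.sum_comm]
  refine Finset.sum_congr rfl fun c _ => ?_
  by_cases h : c ∈ CC k N ∧ c ∈ J
  · simp only [if_pos h]
    rfl
  · simp only [if_neg h, Finset.sum_const_zero]

end q1

section main

variable {k : Type} [Field k] [NumberField k] {V : Type} [AddCommGroup V] [Module ℚ V]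
  (A : FieldFun k V)

/-- two complex conjugations over the same real embedding of `k` are conjugate -/
lemma conj_of_over {N : Type} [Field N] [NumberField N] [Algebra k N] [IsGalois k N]
    {ψ ψ' : N →+* ℂ} {c d : N ≃ₐ[k] N} (hc : IsConj ψ c) (hd : IsConj ψ' d)
    (h : ψ.comp (algebraMap k N) = ψ'.comp (algebraMap k N)) :
    ∃ x : N ≃ₐ[k] N, d = x * c * x⁻¹ := by
  obtain ⟨σ, hσ⟩ := ComplexEmbedding.exists_comp_symm_eq_of_comp_eq (k := k) ψ ψ' h
  have h1 : IsConj (ψ.comp (σ.symm : N →+* N)) (σ * c * σ⁻¹) := by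
    have h2 := hc.comp σ.symm
    have h3 : (σ.symm)⁻¹ * c * σ.symm = σ * c * σ⁻¹ := rfl
    rw [h3] at h2
    exact h2
  refine ⟨σ, isConj_unique hd ?_⟩
  rw [← hσ]
  exact h1

lemma nV_conj (v : k →+* ℂ) {N : Type} [Field N] [Algebra k N] (x c : N ≃ₐ[k] N) :
    nV v (x * c * x⁻¹) = nV v c := by
  refine Nat.card_congr
    { toFun := fun ψ => ⟨ψ.1.comp ((x : N ≃ₐ[k] N) : N →+* N), ?_, ?_⟩
      invFun := fun ψ => ⟨ψ.1.comp ((x⁻¹ : N ≃ₐ[k] N) : N →+* N), ?_, ?_⟩
      left_inv := fun ψ => Subtype.ext (RingHom.ext fun y => congrArg ψ.1 (x.apply_symm_apply y))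
      right_inv := fun ψ => Subtype.ext (RingHom.ext fun y => congrArg ψ.1 (x.symm_apply_apply y)) }
  · have h2 := ψ.2.1.comp x
    have h3 : x⁻¹ * (x * c * x⁻¹) * x = c := by group
    rw [h3] at h2
    exact h2
  · refine Eq.trans ?_ ψ.2.2
    ext y
    exact congrArg ψ.1 (x.commutes y)
  · have h2 := ψ.2.1.comp x⁻¹
    have h3 : x⁻¹⁻¹ * c * x⁻¹ = x * c * x⁻¹ := by group
    rw [h3] at h2
    exact h2
  · refine Eq.trans ?_ ψ.2.2
    ext y
    exact congrArg ψ.1 (x⁻¹.commutes y)

/-- **The main theorem over an arbitrary base field.** -/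
theorem real_formula_base {m : ℕ} (hm : m ≠ 0) (hA : NoChange A m) (K₀ : Type) [Field K₀]
    [NumberField K₀] [Algebra k K₀] (hK₀ : IsTotallyComplex K₀) {ι : Type} [Fintype ι]
    (K : ι → Type) [∀ i, Field (K i)] [∀ i, NumberField (K i)] [∀ i, Algebra k (K i)] (t : ι → ℚ)
    (ht : ∀ v : k →+* ℂ, ∑ i, t i * (realAbove v (K i) : ℚ) = 0) :
    ∑ i, t i • (A.f (K i) - A.f K₀) = 0 := by
  classical
  let KK : Option ι → Type := fun i => match i with
    | none => K₀
    | some i => K i
  let _ : ∀ i, Field (KK i) := fun i => match i with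
    | none => (inferInstance : Field K₀)
    | some i => (inferInstance : Field (K i))
  have _ : ∀ i, NumberField (KK i) := fun i => match i with
    | none => (inferInstance : NumberField K₀)
    | some i => (inferInstance : NumberField (K i))
  let _ : ∀ i, Algebra k (KK i) := fun i => match i with
    | none => (inferInstance : Algebra k K₀)
    | some i => (inferInstance : Algebra k (K i))
  obtain ⟨N1, i1, i2, i3, i8, hN1⟩ := exists_common_fin k KK
  obtain ⟨f0⟩ : Nonempty (K₀ →ₐ[k] N1) := hN1 none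
  have hf : ∀ i, Nonempty (K i →ₐ[k] N1) := fun i => hN1 (some i)
  let f : ∀ i, K i →ₐ[k] N1 := fun i => (hf i).some
  obtain ⟨L, j1, j2, j3, j4, j5, j6, hL⟩ := exists_ext k N1 {-1}
  obtain ⟨j, hj⟩ := hL (-1) (Finset.mem_singleton_self _)
  rw [map_neg, map_one] at hj
  obtain ⟨N, k1, k2, k3, k4, k5, k6, -, hN⟩ := exists_comm k L
  have := Fintype.ofFinite (N ≃ₐ[k] N)
  have hfin : FiniteDimensional k N := Module.Finite.of_restrictScalars_finite ℚ k N
  have hadd : ∀ (E : Type) [Field E] [NumberField E] [Algebra k E] (g : E →ₐ[k] N1),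
      ∃ J : Subgroup (N ≃ₐ[k] N),
        (∀ g : N ≃ₐ[k] N, AlgEquiv.restrictNormalHom L g = 1 → g ∈ J) ∧
        A.f E = A.f (IntermediateField.fixedField J) ∧
        (∀ v : k →+* ℂ, realAbove v E = realAbove v (IntermediateField.fixedField J)) ∧
        (IsTotallyComplex E → ∀ c ∈ CC k N, c ∉ J) := by
    intro E _ _ _ g
    let gE : E →+* N := (algebraMap L N).comp ((algebraMap N1 L).comp (g : E →+* N1))
    let _ : Algebra E N := gE.toAlgebra
    have hg : ∀ x, algebraMap E N x = algebraMap L N (algebraMap N1 L (g x)) := fun x => rfl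
    have ht : IsScalarTower k E N := by
      refine IsScalarTower.of_algebraMap_eq fun x => ?_
      rw [hg, AlgHom.commutes, ← IsScalarTower.algebraMap_apply k N1 L,
        ← IsScalarTower.algebraMap_apply k L N]
    let J : Subgroup (N ≃ₐ[k] N) := (IsScalarTower.toAlgHom k E N).fieldRange.fixingSubgroup
    refine ⟨J, ?_, f_fixed A N E, fun v => ?_, fun hE => noCC_of_complex N E hE⟩
    · intro g' hg'
      rw [IntermediateField.mem_fixingSubgroup_iff]
      rintro _ ⟨x, rfl⟩
      change g' (algebraMap L N (algebraMap N1 L (g x))) = algebraMap L N (algebraMap N1 L (g x))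
      rw [← res_apply, hg']
      rfl
    · have h1 := f_fixed (realFunV v) N E
      have h2 : (realAbove v E : ℚ) = realAbove v (IntermediateField.fixedField J) := h1
      exact_mod_cast h2
  obtain ⟨J0, hJ0, hA0, -, hcc0⟩ := hadd K₀ f0
  have ha0 : A.f K₀ = A.f (IntermediateField.fixedField (⊥ : Subgroup (N ≃ₐ[k] N))) := by
    rw [hA0]
    exact noCC_all A hm hA N _ (hcc0 hK₀)
  choose J hJ hAJ hrJ _ using fun i => hadd (K i) (f i)
  obtain ⟨Φ, hΦc, hΦ⟩ := q1k A hm hA L N hj hN
  -- the coefficients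
  let T : (N ≃ₐ[k] N) → ℚ := fun c => ∑ i, if c ∈ J i then t i * (Nat.card (J i) : ℚ)⁻¹ else 0
  have hcard : ∀ i, (Nat.card (J i) : ℚ) ≠ 0 := fun i => by exact_mod_cast Nat.card_pos.ne'
  have h1 : ∑ i, t i • (A.f (K i) - A.f K₀) = ∑ c : N ≃ₐ[k] N,
      if c ∈ CC k N then T c • Φ c else 0 := by
    have h2 : ∀ i, t i • (A.f (K i) - A.f K₀) = ∑ c : N ≃ₐ[k] N,
        if c ∈ CC k N then (if c ∈ J i then t i * (Nat.card (J i) : ℚ)⁻¹ else 0) • Φ c else 0 := by
      intro i
      have h3 := hΦ (J i) (hJ i)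
      rw [← hAJ i, ← ha0, ← Nat.cast_smul_eq_nsmul ℚ] at h3
      have h4 : A.f (K i) - A.f K₀ = (Nat.card (J i) : ℚ)⁻¹ •
          ∑ c : N ≃ₐ[k] N, if c ∈ CC k N ∧ c ∈ J i then Φ c else 0 := by
        rw [← h3, smul_smul, inv_mul_cancel₀ (hcard i), one_smul]
      rw [h4, smul_smul, Finset.smul_sum]
      refine Finset.sum_congr rfl fun c _ => ?_
      by_cases hc : c ∈ CC k N
      · by_cases hcJ : c ∈ J i
        · rw [if_pos ⟨hc, hcJ⟩, if_pos hc, if_pos hcJ]
        · rw [if_neg (fun h => hcJ h.2), if_pos hc, if_neg hcJ, zero_smul, smul_zero]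
      · rw [if_neg (fun h => hc h.1), if_neg hc, smul_zero]
    simp only [h2]
    rw [Finset.sum_comm]
    refine Finset.sum_congr rfl fun c _ => ?_
    by_cases hc : c ∈ CC k N
    · simp only [if_pos hc]
      rw [← Finset.sum_smul]
    · simp only [if_neg hc, Finset.sum_const_zero]
  rw [h1]
  -- the sum over a class
  let cls : (N ≃ₐ[k] N) → (N ≃ₐ[k] N) → Prop := fun c d => ∃ x : N ≃ₐ[k] N, d = x * c * x⁻¹
  have hsymm : ∀ c d, cls c d → cls d c := by
    rintro c d ⟨x, rfl⟩
    exact ⟨x⁻¹, by group⟩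
  have htrans : ∀ c d e, cls c d → cls d e → cls c e := by
    rintro c d e ⟨x, rfl⟩ ⟨y, rfl⟩
    exact ⟨y * x, by group⟩
  have hTcls : ∀ d ∈ CC k N, ∑ c : N ≃ₐ[k] N, (if cls c d then T c else 0) = 0 := by
    rintro d ⟨ψ, hψ⟩
    let v : k →+* ℂ := ψ.comp (algebraMap k N)
    have hv : nV v d ≠ 0 := by
      have : Nonempty {ψ : N →+* ℂ // IsConj ψ d ∧ ψ.comp (algebraMap k N) = v} :=
        ⟨⟨ψ, hψ, rfl⟩⟩
      exact Nat.card_pos.ne'
    have h2 : ∀ c : N ≃ₐ[k] N, (nV v c : ℚ) = if cls c d then (nV v d : ℚ) else 0 := by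
      intro c
      by_cases hc : cls c d
      · rw [if_pos hc]
        obtain ⟨x, rfl⟩ := hc
        rw [nV_conj]
      · rw [if_neg hc]
        have : IsEmpty {ψ : N →+* ℂ // IsConj ψ c ∧ ψ.comp (algebraMap k N) = v} :=
          ⟨fun ψ' => hc (conj_of_over ψ'.2.1 hψ ψ'.2.2)⟩
        rw [nV, Nat.card_of_isEmpty, Nat.cast_zero]
    have h3 : ∑ c : N ≃ₐ[k] N, T c * (nV v c : ℚ) = 0 := by
      rw [← ht v]
      have h4 : ∀ c : N ≃ₐ[k] N, T c * (nV v c : ℚ) =
          ∑ i, (if c ∈ J i then t i * (Nat.card (J i) : ℚ)⁻¹ else 0) * (nV v c : ℚ) := by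
        intro c
        rw [Finset.sum_mul]
      simp only [h4]
      rw [Finset.sum_comm]
      refine Finset.sum_congr rfl fun i _ => ?_
      have h5 := real_mean_v v N (J i)
      rw [tot_eq] at h5
      have h6 : Nat.card (J i) • (realAbove v (IntermediateField.fixedField (J i)) : ℚ) =
          ∑ c : N ≃ₐ[k] N, if c ∈ J i then (nV v c : ℚ) else 0 := h5
      rw [← hrJ i v, nsmul_eq_mul] at h6
      have h7 : (realAbove v (K i) : ℚ) = (Nat.card (J i) : ℚ)⁻¹ *
          ∑ c : N ≃ₐ[k] N, if c ∈ J i then (nV v c : ℚ) else 0 := by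
        rw [← h6, inv_mul_cancel_left₀ (hcard i)]
      rw [h7, Finset.mul_sum, Finset.mul_sum]
      refine Finset.sum_congr rfl fun c _ => ?_
      by_cases hc : c ∈ J i
      · rw [if_pos hc, if_pos hc]
        ring
      · rw [if_neg hc, if_neg hc]
        ring
    have h3' : ∑ c : N ≃ₐ[k] N, T c * (if cls c d then (nV v d : ℚ) else 0) = 0 := by
      refine Eq.trans ?_ h3
      exact Finset.sum_congr rfl fun c _ => by rw [h2 c]
    have h8 : (∑ c : N ≃ₐ[k] N, (if cls c d then T c else 0)) * (nV v d : ℚ) = 0 := by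
      refine Eq.trans ?_ h3'
      rw [Finset.sum_mul]
      refine Finset.sum_congr rfl fun c _ => ?_
      split_ifs <;> simp
    exact (mul_eq_zero.mp h8).resolve_right (by exact_mod_cast hv)
  let sz : (N ≃ₐ[k] N) → ℕ := fun c => Nat.card {d : N ≃ₐ[k] N // cls c d}
  have hsz : ∀ c, sz c ≠ 0 := by
    intro c
    have : Nonempty {d : N ≃ₐ[k] N // cls c d} := ⟨⟨c, 1, by group⟩⟩
    exact Nat.card_pos.ne'
  have hsz2 : ∀ c d, cls c d → sz c = sz d := by
    intro c d h
    refine Nat.card_congr (Equiv.subtypeEquivRight fun e => ?_)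
    exact ⟨fun h1 => htrans d c e (hsymm c d h) h1, fun h1 => htrans c d e h h1⟩
  have hCC : ∀ c d, cls c d → (c ∈ CC k N ↔ d ∈ CC k N) := by
    rintro c d ⟨x, rfl⟩
    constructor
    · intro h
      have h2 := CC_conj h x⁻¹
      rwa [inv_inv] at h2
    · intro h
      have h2 := CC_conj h x
      have h3 : x⁻¹ * (x * c * x⁻¹) * x = c := by group
      rwa [h3] at h2
  have hΦ2 : ∀ c d, cls c d → Φ c = Φ d := by
    rintro c d ⟨x, rfl⟩
    exact (hΦc x c).symm
  have h9 : ∀ c : N ≃ₐ[k] N, (if c ∈ CC k N then T c • Φ c else 0) =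
      ∑ d : N ≃ₐ[k] N, if d ∈ CC k N then
        (if cls c d then T c else 0) • ((sz d : ℚ)⁻¹ • Φ d) else 0 := by
    intro c
    by_cases hc : c ∈ CC k N
    · rw [if_pos hc]
      have h10 : ∀ d : N ≃ₐ[k] N, (if d ∈ CC k N then
          (if cls c d then T c else 0) • ((sz d : ℚ)⁻¹ • Φ d) else 0) =
          (if cls c d then 1 else 0 : ℕ) • (T c • ((sz c : ℚ)⁻¹ • Φ c)) := by
        intro d
        by_cases h : cls c d
        · rw [if_pos ((hCC c d h).mp hc), if_pos h, if_pos h, one_smul, hsz2 c d h, hΦ2 c d h]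
        · rw [if_neg h, if_neg h, zero_smul, zero_smul, ite_self]
      simp only [h10]
      rw [← Finset.sum_smul]
      have h11 : (∑ d : N ≃ₐ[k] N, if cls c d then 1 else 0) = sz c := by
        change _ = Nat.card {d : N ≃ₐ[k] N // cls c d}
        rw [Nat.card_eq_fintype_card, Fintype.card_subtype, Finset.card_filter]
      rw [h11, ← Nat.cast_smul_eq_nsmul ℚ (sz c), smul_comm, smul_smul (sz c : ℚ),
        mul_inv_cancel₀ (by exact_mod_cast hsz c), one_smul]
    · rw [if_neg hc]
      symm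
      refine Finset.sum_eq_zero fun d _ => ?_
      by_cases h : cls c d
      · rw [if_neg (fun h2 => hc ((hCC c d h).mpr h2))]
      · rw [if_neg h, zero_smul, ite_self]
  rw [Finset.sum_congr rfl (fun c _ => h9 c), Finset.sum_comm]
  refine Finset.sum_eq_zero fun d _ => ?_
  by_cases hd : d ∈ CC k N
  · simp only [if_pos hd]
    rw [← Finset.sum_smul, hTcls d hd, zero_smul]
  · simp only [if_neg hd, Finset.sum_const_zero]

end main

end Pool.Agent.Run7.h508.BR
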