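import Mathlib
import Pool.Agent.Run7.h508.BR.Base

/-!
# Meromorphic continuation of powers as a `ℚ`-subspace
-/

set_option autoImplicit false
set_option linter.unusedSectionVars false

namespace Pool.Agent.Run7.h508.BR

open NumberField

/-- the exponential of `lam` on the half-plane `Re s > 2` has a meromorphic continuation to `ℂ` of
order `r` at `s = 1` -/
def Cont (lam : ℂ → ℂ) (r : ℤ) : Prop :=
  ∃ Z : ℂ → ℂ, MeromorphicOn Z Set.univ ∧ (∀ s : ℂ, 2 < s.re → Z s = Complex.exp (lam s)) ∧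
    meromorphicOrderAt Z 1 = r

lemma Cont.zero : Cont 0 0 := by
  refine ⟨fun _ => 1, MeromorphicOn.const 1, fun s _ => by simp, ?_⟩
  have h1 : MeromorphicAt (fun _ : ℂ => (1 : ℂ)) 1 := MeromorphicAt.const 1 1
  rw [meromorphicOrderAt_eq_int_iff h1]
  exact ⟨fun _ => 1, analyticAt_const, one_ne_zero, by simp⟩

lemma Cont.add {l l' : ℂ → ℂ} {r r' : ℤ} (h : Cont l r) (h' : Cont l' r') :
    Cont (l + l') (r + r') := by
  obtain ⟨Z, h1, h2, h3⟩ := h
  obtain ⟨Z', h1', h2', h3'⟩ := h'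
  refine ⟨Z * Z', h1.mul h1', fun s hs => ?_, ?_⟩
  · rw [Pi.mul_apply, h2 s hs, h2' s hs, Pi.add_apply, Complex.exp_add]
  · rw [meromorphicOrderAt_mul (h1 1 trivial) (h1' 1 trivial), h3, h3']
    push_cast
    rfl

lemma Cont.neg {l : ℂ → ℂ} {r : ℤ} (h : Cont l r) : Cont (-l) (-r) := by
  obtain ⟨Z, h1, h2, h3⟩ := h
  refine ⟨Z⁻¹, h1.inv, fun s hs => ?_, ?_⟩
  · rw [Pi.inv_apply, h2 s hs, Pi.neg_apply, Complex.exp_neg]
  · rw [meromorphicOrderAt_inv, h3]
    rfl

lemma Cont.nsmul {l : ℂ → ℂ} {r : ℤ} (h : Cont l r) (n : ℕ) : Cont (n • l) (n * r) := by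
  induction n with
  | zero =>
    rw [zero_smul, Nat.cast_zero, zero_mul]
    exact Cont.zero
  | succ n ih =>
    have h1 := ih.add h
    have h2 : (n + 1) • l = n • l + l := succ_nsmul l n
    have h3 : ((n + 1 : ℕ) : ℤ) * r = n * r + r := by push_cast; ring
    rw [h2, h3]
    exact h1

lemma Cont.zsmul {l : ℂ → ℂ} {r : ℤ} (h : Cont l r) (n : ℤ) : Cont (n • l) (n * r) := by
  rcases Int.eq_nat_or_neg n with ⟨m, rfl | rfl⟩
  · have h1 := h.nsmul m
    rwa [← natCast_zsmul] at h1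
  · have h1 := (h.nsmul m).neg
    rw [neg_smul, natCast_zsmul, neg_mul]
    exact h1

/-- some power has a meromorphic continuation, with order `r` at `s = 1` -/
def WCont (lam : ℂ → ℂ) (r : ℚ) : Prop :=
  ∃ n : ℕ, 0 < n ∧ ∃ m : ℤ, (m : ℚ) = n * r ∧ Cont (n • lam) m

/-- the pairs with the property `WCont` -/
def contSub : Submodule ℚ ((ℂ → ℂ) × ℚ) where
  carrier := {v | WCont v.1 v.2}
  zero_mem' := ⟨1, one_pos, 0, by simp, by
    rw [Prod.fst_zero, smul_zero]
    exact Cont.zero⟩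
  add_mem' := by
    rintro ⟨l, r⟩ ⟨l', r'⟩ ⟨n, hn, m, hm, h⟩ ⟨n', hn', m', hm', h'⟩
    refine ⟨n * n', Nat.mul_pos hn hn', n' * m + n * m', ?_, ?_⟩
    · push_cast
      rw [hm, hm']
      change (n' : ℚ) * (n * r) + n * (n' * r') = (n : ℚ) * n' * (r + r')
      ring
    · have h1 := (h.nsmul n').add (h'.nsmul n)
      have h2 : (n * n') • (l + l') = n' • n • l + n • n' • l' := by
        rw [smul_add, mul_comm n n', mul_smul, mul_comm n' n, mul_smul]
      change Cont ((n * n') • (l + l')) _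
      rw [h2]
      exact h1
  smul_mem' := by
    rintro q ⟨l, r⟩ ⟨n, hn, m, hm, h⟩
    refine ⟨n * q.den, Nat.mul_pos hn q.den_pos, q.num * m, ?_, ?_⟩
    · push_cast
      rw [hm]
      change (q.num : ℚ) * (n * r) = (n : ℚ) * q.den * (q * r)
      have h1 : (q.den : ℚ) * q = q.num := by rw [mul_comm]; exact Rat.mul_den_eq_num q
      calc (q.num : ℚ) * (n * r) = (q.den * q) * (n * r) := by rw [h1]
        _ = _ := by ring
    · have h1 := h.zsmul q.num
      have h2 : (n * q.den) • (q • l) = q.num • n • l := by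
        have h3 : (q.den : ℚ) * q = q.num := by rw [mul_comm]; exact Rat.mul_den_eq_num q
        rw [← Int.cast_smul_eq_zsmul ℚ q.num, ← Nat.cast_smul_eq_nsmul ℚ (n * q.den),
          ← Nat.cast_smul_eq_nsmul ℚ n, smul_smul, smul_smul, ← h3]
        congr 1
        push_cast
        ring
      change Cont ((n * q.den) • (q • l)) _
      rw [h2]
      exact h1

lemma mem_contSub {v : (ℂ → ℂ) × ℚ} : v ∈ contSub ↔ WCont v.1 v.2 := Iff.rfl

/-- if the function itself has a meromorphic continuation, its order is `r` -/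
theorem WCont.order {lam : ℂ → ℂ} {r : ℤ} (h : WCont lam r) {Λ : ℂ → ℂ}
    (hΛ : MeromorphicOn Λ Set.univ) (h1 : ∀ s : ℂ, 2 < s.re → Λ s = Complex.exp (lam s)) :
    meromorphicOrderAt Λ 1 = r := by
  obtain ⟨n, hn, m, hm, Z, hZ, hZ1, hZ2⟩ := h
  have hm' : m = n * r := by exact_mod_cast hm
  have hpow : MeromorphicOn (Λ ^ n) Set.univ := hΛ.pow n
  let D : ℂ → ℂ := Λ ^ n - Z
  have hD : MeromorphicOn D Set.univ := hpow.sub hZ
  have h3 : meromorphicOrderAt D 3 = ⊤ := by
    rw [meromorphicOrderAt_eq_top_iff]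
    have h4 : ∀ᶠ z in nhds (3 : ℂ), 2 < z.re := by
      have h5 : IsOpen {z : ℂ | 2 < z.re} := isOpen_lt continuous_const Complex.continuous_re
      exact h5.mem_nhds (by norm_num)
    refine (h4.filter_mono nhdsWithin_le_nhds).mono fun z hz => ?_
    change Λ z ^ n - Z z = 0
    rw [h1 z hz, hZ1 z hz, ← Complex.exp_nat_mul, Pi.smul_apply, nsmul_eq_mul, sub_self]
  have h4 : meromorphicOrderAt D 1 = ⊤ := by
    by_contra hne
    exact (hD.meromorphicOrderAt_ne_top_of_isPreconnected isPreconnected_univ (Set.mem_univ 1)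
      (Set.mem_univ 3) hne) h3
  rw [meromorphicOrderAt_eq_top_iff] at h4
  have h5 : Λ ^ n =ᶠ[nhdsWithin 1 {1}ᶜ] Z := by
    filter_upwards [h4] with z hz
    exact sub_eq_zero.mp hz
  have h6 : meromorphicOrderAt (Λ ^ n) 1 = m := by
    rw [meromorphicOrderAt_congr h5, hZ2]
  rw [meromorphicOrderAt_pow (hΛ 1 trivial), hm'] at h6
  cases h7 : meromorphicOrderAt Λ 1 with
  | top =>
    rw [h7] at h6
    exfalso
    have h8 : ((n : ℤ) : WithTop ℤ) * ⊤ = ⊤ := WithTop.mul_top (by exact_mod_cast hn.ne')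
    have h9 : (n : WithTop ℤ) * ⊤ = ⊤ := h8
    rw [h9] at h6
    exact WithTop.top_ne_coe h6
  | coe a =>
    rw [h7] at h6
    have h8 : (n : ℤ) * a = n * r := by exact_mod_cast h6
    have h9 : a = r := mul_left_cancel₀ (by exact_mod_cast hn.ne') h8
    rw [h9]

section comb

variable {k : Type} [Field k] [NumberField k]

/-- the pair of two functions -/
noncomputable def FieldFun.pair {V V' : Type} [AddCommGroup V] [AddCommGroup V'] [Module ℚ V]
    [Module ℚ V']
    (A : FieldFun k V) (B : FieldFun k V') : FieldFun k (V × V') where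
  f := fun K _ _ _ => (A.f K, B.f K)
  iso := fun K K' _ _ _ _ _ _ e => by rw [A.iso K K' e, B.iso K K' e]
  mean := fun N _ _ _ _ => by
    classical
    have hfin : FiniteDimensional k N := Module.Finite.of_restrictScalars_finite ℚ k N
    have := Fintype.ofFinite (N ≃ₐ[k] N)
    obtain ⟨φ, hφ⟩ := A.mean N
    obtain ⟨ψ, hψ⟩ := B.mean N
    refine ⟨fun g => (φ g, ψ g), fun H => ?_⟩
    have h1 := hφ H
    have h2 := hψ H
    rw [tot_eq] at h1 h2 ⊢
    apply Prod.ext
    · rw [Prod.smul_fst, h1, Prod.fst_sum]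
      refine Finset.sum_congr rfl fun g _ => ?_
      split_ifs <;> rfl
    · rw [Prod.smul_snd, h2, Prod.snd_sum]
      refine Finset.sum_congr rfl fun g _ => ?_
      split_ifs <;> rfl

/-- composition with a homomorphism -/
noncomputable def FieldFun.comp {V V' : Type} [AddCommGroup V] [AddCommGroup V'] [Module ℚ V]
    [Module ℚ V']
    (A : FieldFun k V) (f : V →+ V') : FieldFun k V' where
  f := fun K _ _ _ => f (A.f K)
  iso := fun K K' _ _ _ _ _ _ e => by rw [A.iso K K' e]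
  mean := fun N _ _ _ _ => by
    classical
    have hfin : FiniteDimensional k N := Module.Finite.of_restrictScalars_finite ℚ k N
    have := Fintype.ofFinite (N ≃ₐ[k] N)
    obtain ⟨φ, hφ⟩ := A.mean N
    refine ⟨fun g => f (φ g), fun H => ?_⟩
    have h1 := hφ H
    rw [tot_eq] at h1 ⊢
    rw [← map_nsmul, h1, map_sum]
    refine Finset.sum_congr rfl fun g _ => ?_
    split_ifs
    · rfl
    · exact map_zero f

end comb

end Pool.Agent.Run7.h508.BR
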