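import Mathlib
import Pool.Agent.Run7.h508.BR.Cont

/-!
# Vanishing over all number fields
-/

set_option autoImplicit false
set_option linter.unusedSectionVars false

namespace Pool.Agent.Run7.h508.BR

open NumberField NumberField.ComplexEmbedding

section zero

variable {k : Type} [Field k] [NumberField k] {V : Type} [AddCommGroup V] [Module ℚ V]
  (A : FieldFun k V)

lemma realAbove_notReal {v : k →+* ℂ} (hv : ¬ IsReal v) (K : Type) [Field K] [Algebra k K] :
    realAbove v K = 0 := by
  have : IsEmpty {χ : K →+* ℂ // IsReal χ ∧ χ.comp (algebraMap k K) = v} := by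
    refine ⟨fun χ => hv ?_⟩
    rw [← χ.2.2]
    ext x
    exact RingHom.congr_fun χ.2.1 (algebraMap k K x)
  exact Nat.card_of_isEmpty

/-- the value over all fields in terms of special fields -/
theorem zero_of_real {m : ℕ} (hm : m ≠ 0) (hA : NoChange A m) (K₀ : Type) [Field K₀]
    [NumberField K₀] [Algebra k K₀] (hK₀ : IsTotallyComplex K₀) (h0 : A.f K₀ = 0)
    (hreal : ∀ v : k →+* ℂ, IsReal v → ∃ (E : Type) (_ : Field E) (_ : NumberField E)
      (_ : Algebra k E), 0 < realAbove v E ∧ (∀ v', v' ≠ v → realAbove v' E = 0) ∧ A.f E = 0)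
    (K : Type) [Field K] [NumberField K] [Algebra k K] : A.f K = 0 := by
  classical
  choose E e1 e2 e3 he1 he2 he3 using hreal
  let ι := Option {v : k →+* ℂ // IsReal v}
  let KK : ι → Type := fun i => match i with
    | none => K
    | some v => E v.1 v.2
  let _ : ∀ i, Field (KK i) := fun i => match i with
    | none => (inferInstance : Field K)
    | some v => e1 v.1 v.2
  have _ : ∀ i, NumberField (KK i) := fun i => match i with
    | none => (inferInstance : NumberField K)
    | some v => e2 v.1 v.2
  let _ : ∀ i, Algebra k (KK i) := fun i => match i with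
    | none => (inferInstance : Algebra k K)
    | some v => e3 v.1 v.2
  let t : ι → ℚ := fun i => match i with
    | none => 1
    | some v => -((realAbove v.1 K : ℚ) / (realAbove v.1 (KK (some v)) : ℚ))
  have key := real_formula_base A hm hA K₀ hK₀ KK t (fun v => by
    rw [Fintype.sum_option]
    have hn : t none = 1 := rfl
    have hr : realAbove v (KK none) = realAbove v K := rfl
    rw [hn, hr, one_mul]
    by_cases hv : IsReal v
    · rw [Finset.sum_eq_single (⟨v, hv⟩ : {v : k →+* ℂ // IsReal v})]
      · have h1 : (realAbove v (KK (some ⟨v, hv⟩)) : ℚ) ≠ 0 := by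
          exact_mod_cast (he1 v hv).ne'
        change (realAbove v K : ℚ) + -((realAbove v K : ℚ) /
          (realAbove v (KK (some ⟨v, hv⟩)) : ℚ)) * (realAbove v (KK (some ⟨v, hv⟩)) : ℚ) = 0
        rw [neg_mul, div_mul_cancel₀ _ h1, add_neg_cancel]
      · intro w _ hw
        have h2 : realAbove v (KK (some w)) = 0 := he2 w.1 w.2 v (fun h => hw (Subtype.ext h.symm))
        rw [h2, Nat.cast_zero, mul_zero]
      · intro h
        exact absurd (Finset.mem_univ _) h
    · rw [realAbove_notReal hv, Nat.cast_zero, zero_add]
      refine Finset.sum_eq_zero fun w _ => ?_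
      rw [realAbove_notReal hv, Nat.cast_zero, mul_zero])
  rw [Fintype.sum_option] at key
  have hz : ∑ w : {v : k →+* ℂ // IsReal v}, t (some w) • (A.f (KK (some w)) - A.f K₀) = 0 := by
    refine Finset.sum_eq_zero fun w _ => ?_
    have h2 : A.f (KK (some w)) = 0 := he3 w.1 w.2
    rw [h2, h0, sub_zero, smul_zero]
  rw [hz, add_zero, h0, sub_zero] at key
  have hn : t none = 1 := rfl
  rw [hn, one_smul] at key
  exact key

end zero

end Pool.Agent.Run7.h508.BR
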