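import Mathlib
import Pool.Agent.W289.SL.Crit
import Pool.Agent.Run7.h508.BR.Zero

/-!
# The kernel of Leopoldt's map as a function of number fields
-/

set_option autoImplicit false
set_option linter.unusedSectionVars false

namespace Pool.Agent.Run7.h508.BR

open NumberField TensorProduct Pool.Agent.W289.SL

section dim

variable {G : Type} [Group G] {Ω : Type} [Field Ω] [CharZero Ω] {X : Type} [AddCommGroup X]
  [Module Ω X] (ρ : G → X →ₗ[Ω] X)

/-- the fixed vectors -/
def fixS (H : Subgroup G) : Submodule Ω X where
  carrier := {v | ∀ h ∈ H, ρ h v = v}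
  zero_mem' := fun h _ => map_zero _
  add_mem' := fun {a b} ha hb h hh => by
    rw [map_add, ha h hh, hb h hh]
  smul_mem' := fun c a ha h hh => by
    rw [map_smul, ha h hh]

open Classical in
/-- the dimension of the space of fixed vectors is a mean value -/
theorem dim_mean [Finite G] [FiniteDimensional Ω X] (hρ : ∀ g h v, ρ (g * h) v = ρ g (ρ h v)) :
    IsMean (fun g : G => LinearMap.trace Ω X (ρ g))
      (fun H => (Module.finrank Ω (fixS ρ H) : Ω)) := by
  intro H
  have := Fintype.ofFinite G
  change Nat.card H • (Module.finrank Ω (fixS ρ H) : Ω) = _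
  rw [tot_eq]
  have hc : (Nat.card H : Ω) ≠ 0 := by exact_mod_cast Nat.card_pos.ne'
  let A : X →ₗ[Ω] X :=
    (Nat.card H : Ω)⁻¹ • ∑ g : G, if g ∈ H then ρ g else 0
  have hA : ∀ v, A v = (Nat.card H : Ω)⁻¹ • ∑ g : G, if g ∈ H then ρ g v else 0 := by
    intro v
    rw [LinearMap.smul_apply, LinearMap.sum_apply]
    congr 1
    refine Finset.sum_congr rfl fun g _ => ?_
    split_ifs <;> rfl
  have hproj : LinearMap.IsProj (fixS ρ H) A := by
    refine ⟨fun v => fun h hh => ?_, fun v hv => ?_⟩
    · rw [hA, map_smul, map_sum]
      congr 1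
      refine Fintype.sum_equiv (Equiv.mulLeft h) _ _ fun g => ?_
      change _ = if h * g ∈ H then ρ (h * g) v else 0
      have h1 : h * g ∈ H ↔ g ∈ H := by
        constructor
        · intro h2
          have h3 := H.mul_mem (H.inv_mem hh) h2
          rwa [inv_mul_cancel_left] at h3
        · exact H.mul_mem hh
      simp only [h1]
      split_ifs
      · rw [hρ]
      · rw [map_zero]
    · rw [hA]
      have h1 : ∀ g : G, (if g ∈ H then ρ g v else 0) = (if g ∈ H then 1 else 0 : ℕ) • v := by
        intro g
        by_cases hg : g ∈ H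
        · rw [if_pos hg, if_pos hg, one_smul, hv g hg]
        · rw [if_neg hg, if_neg hg, zero_smul]
      simp only [h1]
      rw [← Finset.sum_smul, ← Finset.card_filter, ← Nat.cast_smul_eq_nsmul Ω, smul_smul]
      have h2 : (Finset.univ.filter fun g : G => g ∈ H).card = Nat.card H := by
        rw [Nat.card_eq_fintype_card, Fintype.card_subtype]
      rw [h2, inv_mul_cancel₀ hc, one_smul]
  have h1 := hproj.trace
  have h2 : LinearMap.trace Ω X A = (Nat.card H : Ω)⁻¹ * ∑ g : G,
      if g ∈ H then LinearMap.trace Ω X (ρ g) else 0 := by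
    rw [map_smul, map_sum, smul_eq_mul]
    congr 1
    refine Finset.sum_congr rfl fun g _ => ?_
    split_ifs
    · rfl
    · exact map_zero _
  rw [h2] at h1
  rw [nsmul_eq_mul, ← h1, mul_inv_cancel_left₀ hc]

end dim

section leo

variable {p : ℕ} [Fact p.Prime] {L : ℂ_[p] → ℂ_[p]} (hL : IsIwasawaLog p L)

/-- the kernel of Leopoldt's map -/
noncomputable def lker (K : Type) [Field K] [NumberField K] : Submodule ℂ_[p] (UM p K) :=
  ⨅ σ : K →+* ℂ_[p], LinearMap.ker (logLin hL σ)

lemma mem_lker {K : Type} [Field K] [NumberField K] {x : UM p K} :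
    x ∈ lker hL K ↔ ∀ σ : K →+* ℂ_[p], logLin hL σ x = 0 := by
  rw [lker, Submodule.mem_iInf]
  rfl

lemma logLin_act {K : Type} [Field K] [NumberField K] (f : K →+* K) (σ : K →+* ℂ_[p])
    (x : UM p K) : logLin hL σ (actLin p f x) = logLin hL (σ.comp f) x := by
  induction x using TensorProduct.induction_on with
  | zero => simp
  | tmul c u => rw [actLin_tmul, logLin_tmul, logLin_tmul]; rfl
  | add a b ha hb => rw [map_add, map_add, map_add, ha, hb]

lemma act_comp {K : Type} [Field K] [NumberField K] (f g : K →+* K) (x : UM p K) :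
    actLin p (f.comp g) x = actLin p f (actLin p g x) := by
  induction x using TensorProduct.induction_on with
  | zero => simp
  | tmul c u => rw [actLin_tmul, actLin_tmul, actLin_tmul, unitHom_comp]
  | add a b ha hb => rw [map_add, map_add, map_add, ha, hb]

variable (p) in
/-- the inclusion of the units, linearly extended -/
noncomputable def incLin (K H : Type) [Field K] [NumberField K] [Field H] [NumberField H]
    [Algebra K H] : UM p K →ₗ[ℂ_[p]] UM p H :=
  LinearMap.baseChange ℂ_[p] (unitInc K H).toIntLinearMap

section inc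

variable {K H : Type} [Field K] [NumberField K] [Field H] [NumberField H] [Algebra K H]

lemma incLin_tmul (c : ℂ_[p]) (u : Additive (𝓞 K)ˣ) :
    incLin p K H (c ⊗ₜ u) = c ⊗ₜ unitInc K H u := rfl

lemma incLin_inj : Function.Injective (incLin p K H) := by
  have : Module.Flat ℤ ℂ_[p] := inferInstance
  exact Module.Flat.lTensor_preserves_injective_linearMap (M := ℂ_[p])
    (unitInc K H).toIntLinearMap unitInc_injective

lemma logLin_inc (σ : H →+* ℂ_[p]) (x : UM p K) :
    logLin hL σ (incLin p K H x) = logLin hL (σ.comp (algebraMap K H)) x := by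
  induction x using TensorProduct.induction_on with
  | zero => simp
  | tmul c u => rw [incLin_tmul, logLin_tmul, logLin_tmul]; rfl
  | add a b ha hb => rw [map_add, map_add, map_add, ha, hb]

lemma inc_mem {x : UM p K} (hx : x ∈ lker hL K) : incLin p K H x ∈ lker hL H := by
  rw [mem_lker] at hx ⊢
  intro σ
  rw [logLin_inc, hx]

variable (K H) in
/-- the norm of units -/
noncomputable def nrm : Additive (𝓞 H)ˣ →+ Additive (𝓞 K)ˣ :=
  MonoidHom.toAdditive (Units.map (RingOfIntegers.norm K))

lemma inc_nrm [IsGalois K H] (u : Additive (𝓞 H)ˣ) :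
    unitInc K H (nrm K H u) = ∑ g : (H ≃ₐ[K] H), unitHom (g : H →+* H) u := by
  have hfin : FiniteDimensional K H := Module.Finite.of_restrictScalars_finite ℚ K H
  apply Additive.toMul.injective
  apply Units.ext
  apply RingOfIntegers.ext
  rw [unitInc_apply]
  have h1 : ((Additive.toMul (∑ g : (H ≃ₐ[K] H), unitHom (g : H →+* H) u) : (𝓞 H)ˣ) : 𝓞 H) =
      ∏ g : (H ≃ₐ[K] H), ((Additive.toMul (unitHom (g : H →+* H) u) : (𝓞 H)ˣ) : 𝓞 H) := by
    rw [toMul_sum, Units.coe_prod]
  rw [h1]
  have h2 : ((∏ g : (H ≃ₐ[K] H), ((Additive.toMul (unitHom (g : H →+* H) u) : (𝓞 H)ˣ) : 𝓞 H) :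
      𝓞 H) : H) = ∏ g : (H ≃ₐ[K] H), g (((Additive.toMul u : (𝓞 H)ˣ) : 𝓞 H) : H) := by
    change algebraMap (𝓞 H) H (∏ g : (H ≃ₐ[K] H), _) = _
    rw [map_prod]
    rfl
  rw [h2, ← Algebra.norm_eq_prod_automorphisms]
  rfl

variable (p K H) in
/-- the norm, linearly extended -/
noncomputable def nrmLin : UM p H →ₗ[ℂ_[p]] UM p K :=
  LinearMap.baseChange ℂ_[p] (nrm K H).toIntLinearMap

lemma inc_nrmLin [IsGalois K H] (x : UM p H) :
    incLin p K H (nrmLin p K H x) = ∑ g : (H ≃ₐ[K] H), actLin p (g : H →+* H) x := by
  induction x using TensorProduct.induction_on with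
  | zero => simp
  | tmul c u =>
    change c ⊗ₜ unitInc K H (nrm K H u) = ∑ g : (H ≃ₐ[K] H), c ⊗ₜ[ℤ] unitHom (g : H →+* H) u
    rw [inc_nrm, TensorProduct.tmul_sum]
  | add a b ha hb =>
    rw [map_add, map_add, ha, hb, ← Finset.sum_add_distrib]
    exact Finset.sum_congr rfl fun g _ => (map_add _ _ _).symm

end inc

instance finite_UM (K : Type) [Field K] [NumberField K] : Module.Finite ℂ_[p] (UM p K) := by
  have : Module.Finite ℤ (Additive (𝓞 K)ˣ) := inferInstance
  exact inferInstance

/-- the dimension of the kernel of Leopoldt's map -/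
noncomputable def leo (K : Type) [Field K] [NumberField K] : ℕ :=
  Module.finrank ℂ_[p] (lker hL K)

lemma leo_mono (K H : Type) [Field K] [NumberField K] [Field H] [NumberField H] [Algebra K H] :
    leo hL K ≤ leo hL H := by
  let f : lker hL K →ₗ[ℂ_[p]] lker hL H :=
    ((incLin p K H).comp (lker hL K).subtype).codRestrict _ fun x => inc_mem hL x.2
  refine LinearMap.finrank_le_finrank_of_injective (f := f) ?_
  intro a b hab
  apply Subtype.ext
  apply incLin_inj (H := H)
  exact congrArg Subtype.val hab

lemma leo_iso (K H : Type) [Field K] [NumberField K] [Field H] [NumberField H] (e : K ≃+* H) :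
    leo hL K = leo hL H := by
  apply le_antisymm
  · let _ : Algebra K H := (e : K →+* H).toAlgebra
    exact leo_mono hL K H
  · let _ : Algebra H K := (e.symm : H →+* K).toAlgebra
    exact leo_mono hL H K

section gal

variable {k : Type} [Field k] [NumberField k] (N : Type) [Field N] [NumberField N] [Algebra k N]

/-- the action on the kernel -/
noncomputable def lact (g : N ≃ₐ[k] N) : lker hL N →ₗ[ℂ_[p]] lker hL N :=
  (actLin p (g : N →+* N)).restrict fun x hx => by
    rw [mem_lker] at hx ⊢
    intro σ
    rw [logLin_act, hx]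

lemma lact_mul (g h : N ≃ₐ[k] N) (v : lker hL N) :
    lact hL N (g * h) v = lact hL N g (lact hL N h v) := by
  apply Subtype.ext
  exact act_comp (g : N →+* N) (h : N →+* N) (v : UM p N)

lemma leo_fixed [IsGalois k N] (H : Subgroup (N ≃ₐ[k] N)) :
    leo hL (IntermediateField.fixedField H) = Module.finrank ℂ_[p] (fixS (lact hL N) H) := by
  have hfin : FiniteDimensional k N := Module.Finite.of_restrictScalars_finite ℚ k N
  let F := IntermediateField.fixedField H
  have hFN : FiniteDimensional F N := Module.Finite.of_restrictScalars_finite ℚ F N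
  have hres : ∀ g : N ≃ₐ[F] N, g.restrictScalars k ∈ H := by
    intro g
    have h1 : g.restrictScalars k ∈ F.fixingSubgroup := by
      rw [IntermediateField.mem_fixingSubgroup_iff]
      intro x hx
      exact g.commutes ⟨x, hx⟩
    rwa [IntermediateField.fixingSubgroup_fixedField] at h1
  let f : lker hL F →ₗ[ℂ_[p]] fixS (lact hL N) H :=
    LinearMap.codRestrict _ (((incLin p F N).comp (lker hL F).subtype).codRestrict (lker hL N)
      fun x => inc_mem hL x.2) (fun x h hh => by
        apply Subtype.ext
        change actLin p (h : N →+* N) (incLin p F N (x : UM p F)) = incLin p F N (x : UM p F)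
        induction (x : UM p F) using TensorProduct.induction_on with
        | zero => simp
        | tmul c u =>
          rw [incLin_tmul, actLin_tmul]
          congr 1
          apply Additive.toMul.injective
          apply Units.ext
          apply RingOfIntegers.ext
          rw [unitHom_apply, unitInc_apply]
          exact (IntermediateField.mem_fixedField_iff H _).mp
            (((Additive.toMul u : (𝓞 F)ˣ) : 𝓞 F) : F).2 h hh
        | add a b ha hb => rw [map_add, map_add, ha, hb])
  have hbij : Function.Bijective f := by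
    constructor
    · intro a b hab
      apply Subtype.ext
      apply incLin_inj (H := N)
      exact congrArg (fun z : fixS (lact hL N) H => ((z : lker hL N) : UM p N)) hab
    · intro y
      have hy : ∀ g : N ≃ₐ[F] N, actLin p (g : N →+* N) ((y : lker hL N) : UM p N) =
          ((y : lker hL N) : UM p N) := by
        intro g
        exact congrArg Subtype.val (y.2 _ (hres g))
      have hc : (Nat.card (N ≃ₐ[F] N) : ℂ_[p]) ≠ 0 := by exact_mod_cast Nat.card_pos.ne'
      let x : UM p F := (Nat.card (N ≃ₐ[F] N) : ℂ_[p])⁻¹ • nrmLin p F N ((y : lker hL N) : UM p N)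
      have hx : incLin p F N x = ((y : lker hL N) : UM p N) := by
        change incLin p F N (_ • _) = _
        rw [map_smul, inc_nrmLin, Finset.sum_congr rfl fun g _ => hy g, Finset.sum_const,
          Finset.card_univ, ← Nat.card_eq_fintype_card, ← Nat.cast_smul_eq_nsmul ℂ_[p], smul_smul,
          inv_mul_cancel₀ hc, one_smul]
      have hx2 : x ∈ lker hL F := by
        rw [mem_lker]
        intro τ
        let _ : Algebra F ℂ_[p] := τ.toAlgebra
        let σ : N →ₐ[F] ℂ_[p] := IsAlgClosed.lift
        have h1 : (σ : N →+* ℂ_[p]).comp (algebraMap F N) = τ := by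
          ext z
          exact σ.commutes z
        rw [← h1, ← logLin_inc, hx]
        exact (mem_lker hL).mp (y : lker hL N).2 _
      refine ⟨⟨x, hx2⟩, ?_⟩
      apply Subtype.ext
      apply Subtype.ext
      exact hx
  exact (LinearEquiv.ofBijective f hbij).finrank_eq

end gal

/-- the Leopoldt defect as a function of number fields -/
noncomputable def leoFun (k : Type) [Field k] [NumberField k] : FieldFun k ℂ_[p] where
  f := fun K _ _ _ => (leo hL K : ℂ_[p])
  iso := fun K K' _ _ _ _ _ _ e => by rw [leo_iso hL K K' e.toRingEquiv]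
  mean := fun N _ _ _ _ => by
    classical
    have hfin : FiniteDimensional k N := Module.Finite.of_restrictScalars_finite ℚ k N
    refine ⟨fun g => LinearMap.trace ℂ_[p] _ (lact hL N g), fun H => ?_⟩
    have h1 := dim_mean (lact hL N) (lact_mul hL N) H
    change Nat.card H • (leo hL (IntermediateField.fixedField H) : ℂ_[p]) = _
    rw [leo_fixed hL N H]
    exact h1

/-- no defect if there are finitely many units -/
lemma leo_zero (K : Type) [Field K] [NumberField K] (h : Units.rank K = 0) : leo hL K = 0 := by
  have h1 : ∀ x : UM p K, x = 0 := by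
    intro x
    induction x using TensorProduct.induction_on with
    | zero => rfl
    | tmul c u =>
      have h2 : Module.finrank ℤ (Additive (𝓞 K)ˣ) = 0 := by rw [Units.finrank_eq, h]
      have h3 : ∃ n : ℕ, 0 < n ∧ n • u = 0 := by
        by_contra hne
        push Not at hne
        have h4 : LinearIndependent ℤ (fun _ : Fin 1 => u) := by
          rw [Fintype.linearIndependent_iff]
          intro g hg i
          rw [Fin.sum_univ_one] at hg
          rcases Int.eq_nat_or_neg (g 0) with ⟨n, hn | hn⟩
          · rcases Nat.eq_zero_or_pos n with h5 | h5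
            · rw [Subsingleton.elim i 0, hn, h5]
              rfl
            · exfalso
              apply hne n h5
              rw [hn, natCast_zsmul] at hg
              exact hg
          · rcases Nat.eq_zero_or_pos n with h5 | h5
            · rw [Subsingleton.elim i 0, hn, h5]
              rfl
            · exfalso
              apply hne n h5
              rw [hn, neg_smul, natCast_zsmul, neg_eq_zero] at hg
              exact hg
        have h5 := h4.fintype_card_le_finrank
        rw [h2, Fintype.card_fin] at h5
        omega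
      obtain ⟨n, hn, hnu⟩ := h3
      have hn0 : (n : ℂ_[p]) ≠ 0 := by exact_mod_cast hn.ne'
      have h4 : c = n • ((n : ℂ_[p])⁻¹ * c) := by
        rw [nsmul_eq_mul, ← mul_assoc, mul_inv_cancel₀ hn0, one_mul]
      rw [h4, TensorProduct.smul_tmul, hnu, TensorProduct.tmul_zero]
    | add a b ha hb => rw [ha, hb, add_zero]
  have h2 : Subsingleton (UM p K) := ⟨fun a b => by rw [h1 a, h1 b]⟩
  exact Module.finrank_zero_of_subsingleton

end leo

end Pool.Agent.Run7.h508.BR
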