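import Mathlib
import Pool.Agent.Run7.h508.BR.Leo

/-!
# Functors on number fields with Galois descent, of arbitrary dimension, over a field of
characteristic zero
-/

set_option autoImplicit false
set_option linter.unusedSectionVars false

namespace Pool.Agent.Run7.h508.BR

open NumberField

/-- A functor on the number fields which contain `k`, with values in the vector spaces over `F`
(of any dimension), with Galois descent: the vectors fixed by `Gal(N/K)` come from `K`. -/
structure DescFun (F : Type) [Field F] (k : Type) [Field k] [NumberField k] where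
  /-- the vector space of `K` -/
  M : ∀ (K : Type) [Field K] [NumberField K] [Algebra k K], Type
  [grp : ∀ (K : Type) [Field K] [NumberField K] [Algebra k K], AddCommGroup (M K)]
  [mod : ∀ (K : Type) [Field K] [NumberField K] [Algebra k K], Module F (M K)]
  /-- the map of an embedding -/
  map : ∀ {K L : Type} [Field K] [NumberField K] [Algebra k K] [Field L] [NumberField L]
    [Algebra k L], (K →ₐ[k] L) → (M K →ₗ[F] M L)
  map_id : ∀ (K : Type) [Field K] [NumberField K] [Algebra k K] (x : M K),
    map (AlgHom.id k K) x = x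
  map_comp : ∀ {K L N : Type} [Field K] [NumberField K] [Algebra k K] [Field L] [NumberField L]
    [Algebra k L] [Field N] [NumberField N] [Algebra k N] (g : L →ₐ[k] N) (f : K →ₐ[k] L) (x : M K),
    map (g.comp f) x = map g (map f x)
  inj : ∀ {K L : Type} [Field K] [NumberField K] [Algebra k K] [Field L] [NumberField L]
    [Algebra k L] (f : K →ₐ[k] L), Function.Injective (map f)
  descent : ∀ (K N : Type) [Field K] [NumberField K] [Algebra k K] [Field N] [NumberField N]
    [Algebra k N] [Algebra K N] [IsScalarTower k K N] [IsGalois K N] (x : M N),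
    (∀ g : N ≃ₐ[K] N, map ((g : N →ₐ[K] N).restrictScalars k) x = x) →
      ∃ y : M K, map (IsScalarTower.toAlgHom k K N) y = x

attribute [instance] DescFun.grp DescFun.mod

section fin

variable {F : Type} [Field F] [CharZero F] {k : Type} [Field k] [NumberField k] (D : DescFun F k)

/-- the dimension -/
noncomputable def DescFun.rank (K : Type) [Field K] [NumberField K] [Algebra k K] : ℕ :=
  Module.finrank F (D.M K)

lemma DescFun.map_symm (K K' : Type) [Field K] [NumberField K] [Algebra k K] [Field K']
    [NumberField K'] [Algebra k K'] (e : K ≃ₐ[k] K') (x : D.M K') :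
    D.map (e : K →ₐ[k] K') (D.map (e.symm : K' →ₐ[k] K) x) = x := by
  rw [← D.map_comp]
  have h2 : (e : K →ₐ[k] K').comp (e.symm : K' →ₐ[k] K) = AlgHom.id k K' := by
    ext y
    exact e.apply_symm_apply y
  rw [h2, D.map_id]

lemma DescFun.rank_iso (K K' : Type) [Field K] [NumberField K] [Algebra k K] [Field K']
    [NumberField K'] [Algebra k K'] (e : K ≃ₐ[k] K') : D.rank K = D.rank K' := by
  have h2 : Function.Bijective (D.map (e : K →ₐ[k] K')) :=
    ⟨D.inj _, fun x => ⟨_, D.map_symm K K' e x⟩⟩
  exact (LinearEquiv.ofBijective _ h2).finrank_eq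

/-- the action of the Galois group -/
noncomputable def DescFun.act (N : Type) [Field N] [NumberField N] [Algebra k N]
    (g : N ≃ₐ[k] N) : D.M N →ₗ[F] D.M N := D.map (g : N →ₐ[k] N)

lemma DescFun.act_mul (N : Type) [Field N] [NumberField N] [Algebra k N]
    (g h : N ≃ₐ[k] N) (x : D.M N) : D.act N (g * h) x = D.act N g (D.act N h x) := by
  rw [DescFun.act, DescFun.act, DescFun.act, ← D.map_comp]
  rfl

/-- the vectors which come from a subfield -/
noncomputable def DescFun.fixMap (N : Type) [Field N] [NumberField N] [Algebra k N]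
    [IsGalois k N] (H : Subgroup (N ≃ₐ[k] N)) :
    D.M (IntermediateField.fixedField H) →ₗ[F] fixS (D.act N) H :=
  (D.map (IntermediateField.fixedField H).val).codRestrict _ fun x h hh => by
    change D.map (h : N →ₐ[k] N) (D.map (IntermediateField.fixedField H).val x) =
      D.map (IntermediateField.fixedField H).val x
    rw [← D.map_comp]
    have h2 : (h : N →ₐ[k] N).comp (IntermediateField.fixedField H).val =
        (IntermediateField.fixedField H).val := by
      ext y
      exact (IntermediateField.mem_fixedField_iff H (y : N)).mp y.2 h hh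
    rw [h2]

lemma DescFun.fixMap_bijective (N : Type) [Field N] [NumberField N] [Algebra k N]
    [IsGalois k N] (H : Subgroup (N ≃ₐ[k] N)) : Function.Bijective (D.fixMap N H) := by
  let E := IntermediateField.fixedField H
  have hres : ∀ g : N ≃ₐ[E] N, g.restrictScalars k ∈ H := by
    intro g
    have hfin : FiniteDimensional k N := Module.Finite.of_restrictScalars_finite ℚ k N
    have h1 : g.restrictScalars k ∈ E.fixingSubgroup := by
      rw [IntermediateField.mem_fixingSubgroup_iff]
      intro x hx
      exact g.commutes ⟨x, hx⟩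
    rwa [IntermediateField.fixingSubgroup_fixedField] at h1
  constructor
  · intro a b hab
    exact D.inj _ (congrArg Subtype.val hab)
  · intro y
    obtain ⟨x, hx⟩ := D.descent E N (y : D.M N) (fun g => y.2 _ (hres g))
    exact ⟨x, Subtype.ext hx⟩

/-- the rank as a function of number fields -/
noncomputable def DescFun.toFun
    (hfd : ∀ (K : Type) [Field K] [NumberField K] [Algebra k K], FiniteDimensional F (D.M K)) :
    FieldFun k F where
  f := fun K _ _ _ => (D.rank K : F)
  iso := fun K K' _ _ _ _ _ _ e => by rw [D.rank_iso K K' e]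
  mean := fun N _ _ _ _ => by
    classical
    have hfin : FiniteDimensional k N := Module.Finite.of_restrictScalars_finite ℚ k N
    have := hfd N
    refine ⟨fun g => LinearMap.trace F _ (D.act N g), fun H => ?_⟩
    have h1 := dim_mean (D.act N) (D.act_mul N) H
    change Nat.card H • (Module.finrank F (D.M (IntermediateField.fixedField H)) : F) = _
    rw [(LinearEquiv.ofBijective _ (D.fixMap_bijective N H)).finrank_eq]
    exact h1

end fin

section gen

variable {F : Type} [Field F] [CharZero F] {k : Type} [Field k] [NumberField k] (D : DescFun F k)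
  {N₀ : Type} [Field N₀] [NumberField N₀] [Algebra k N₀] (x : D.M N₀)

/-- the span of the conjugates of `x` -/
noncomputable def DescFun.conj (M : Type) [Field M] [NumberField M] [Algebra k M] :
    Submodule F (D.M M) := Submodule.span F (Set.range fun g : N₀ →ₐ[k] M => D.map g x)

lemma DescFun.conj_fin (M : Type) [Field M] [NumberField M] [Algebra k M] :
    FiniteDimensional F (D.conj x M) := by
  have h1 : FiniteDimensional k N₀ := Module.Finite.of_restrictScalars_finite ℚ k N₀
  have h2 : Finite (N₀ →ₐ[k] M) := inferInstance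
  exact FiniteDimensional.span_of_finite F (Set.finite_range _)

lemma DescFun.conj_le {M M' : Type} [Field M] [NumberField M] [Algebra k M] [Field M']
    [NumberField M'] [Algebra k M'] (a : M →ₐ[k] M') {y : D.M M} (hy : y ∈ D.conj x M) :
    D.map a y ∈ D.conj x M' := by
  have h1 : (D.conj x M).map (D.map a) ≤ D.conj x M' := by
    rw [DescFun.conj, Submodule.map_span, Submodule.span_le]
    rintro _ ⟨_, ⟨g, rfl⟩, rfl⟩
    refine Submodule.subset_span ⟨a.comp g, ?_⟩
    exact D.map_comp a g x
  exact h1 ⟨y, hy, rfl⟩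

lemma DescFun.conj_ge {M M' : Type} [Field M] [NumberField M] [Algebra k M] [IsGalois k M]
    [Field M'] [NumberField M'] [Algebra k M'] [IsGalois k M'] (hM : Nonempty (N₀ →ₐ[k] M))
    (a : M →ₐ[k] M') {y : D.M M} (hy : D.map a y ∈ D.conj x M') : y ∈ D.conj x M := by
  have h1 : D.conj x M' ≤ (D.conj x M).map (D.map a) := by
    rw [DescFun.conj, Submodule.span_le]
    rintro _ ⟨g, rfl⟩
    obtain ⟨j⟩ := hM
    let _ : Algebra M M' := a.toAlgebra
    have hMM : IsScalarTower k M M' := IsScalarTower.of_algebraMap_eq fun z => (a.commutes z).symm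
    let _ : Algebra N₀ M' := (a.comp j).toAlgebra
    have hNM : IsScalarTower k N₀ M' :=
      IsScalarTower.of_algebraMap_eq fun z => ((a.comp j).commutes z).symm
    let σ : M' →ₐ[k] M' := g.liftNormal M'
    have hσ : ∀ z : N₀, σ (a (j z)) = g z := fun z => g.liftNormal_commutes M' z
    let τ : M →ₐ[k] M := σ.restrictNormal M
    have hτ : ∀ z : M, a (τ z) = σ (a z) := fun z => σ.restrictNormal_commutes M z
    refine ⟨D.map (τ.comp j) x, Submodule.subset_span ⟨τ.comp j, rfl⟩, ?_⟩
    rw [← D.map_comp]
    have h2 : a.comp (τ.comp j) = g := by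
      ext z
      change a (τ (j z)) = g z
      rw [hτ, hσ]
    rw [h2]
  obtain ⟨z, hz, hzy⟩ := h1 hy
  rwa [← D.inj a hzy]

/-- membership does not depend on the extension -/
lemma DescFun.conj_iff {K M M' : Type} [Field K] [NumberField K] [Algebra k K] [Field M]
    [NumberField M] [Algebra k M] [IsGalois k M] [Field M'] [NumberField M'] [Algebra k M']
    [IsGalois k M'] (hM' : Nonempty (N₀ →ₐ[k] M')) (f : K →ₐ[k] M)
    (f' : K →ₐ[k] M') {y : D.M K} (hy : D.map f y ∈ D.conj x M) : D.map f' y ∈ D.conj x M' := by
  obtain ⟨N, i1, i2, i3, i4, i5, i6, i7, i8⟩ := exists_common k M M'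
  let a : M →ₐ[k] N := IsScalarTower.toAlgHom k M N
  let b : M' →ₐ[k] N := IsScalarTower.toAlgHom k M' N
  let _ : Algebra K N := (a.comp f).toAlgebra
  have hKN : IsScalarTower k K N :=
    IsScalarTower.of_algebraMap_eq fun z => ((a.comp f).commutes z).symm
  let σ : N →ₐ[k] N := (b.comp f').liftNormal N
  have hσ : ∀ z : K, σ (a (f z)) = b (f' z) := fun z => (b.comp f').liftNormal_commutes N z
  refine D.conj_ge x hM' b ?_
  have h2 : D.map b (D.map f' y) = D.map σ (D.map a (D.map f y)) := by
    rw [← D.map_comp, ← D.map_comp, ← D.map_comp]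
    have h3 : b.comp f' = σ.comp (a.comp f) := by
      ext z
      exact (hσ z).symm
    rw [h3]
    rfl
  rw [h2]
  exact D.conj_le x σ (D.conj_le x a hy)

/-- the subspace generated by `x` -/
noncomputable def DescFun.genS (K : Type) [Field K] [NumberField K] [Algebra k K] :
    Submodule F (D.M K) where
  carrier := {y | ∀ (M : Type) [Field M] [NumberField M] [Algebra k M] [IsGalois k M]
    (f : K →ₐ[k] M), Nonempty (N₀ →ₐ[k] M) → D.map f y ∈ D.conj x M}
  zero_mem' := by
    intro M _ _ _ _ f _
    rw [map_zero]
    exact Submodule.zero_mem _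
  add_mem' := by
    intro a b ha hb M _ _ _ _ f h
    rw [map_add]
    exact Submodule.add_mem _ (ha M f h) (hb M f h)
  smul_mem' := by
    intro c a ha M _ _ _ _ f h
    rw [map_smul]
    exact Submodule.smul_mem _ c (ha M f h)

/-- a common Galois extension -/
lemma exists_gal (k K N₀ : Type) [Field k] [NumberField k] [Field K] [NumberField K] [Algebra k K]
    [Field N₀] [NumberField N₀] [Algebra k N₀] :
    ∃ (M : Type) (_ : Field M) (_ : NumberField M) (_ : Algebra k M) (_ : IsGalois k M),
      Nonempty (K →ₐ[k] M) ∧ Nonempty (N₀ →ₐ[k] M) := by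
  obtain ⟨N, i1, i2, i3, i4, i5, i6, i7, i8⟩ := exists_common k K N₀
  exact ⟨N, i1, i2, i3, i8, ⟨IsScalarTower.toAlgHom k K N⟩, ⟨IsScalarTower.toAlgHom k N₀ N⟩⟩

lemma DescFun.genS_of {K M : Type} [Field K] [NumberField K] [Algebra k K] [Field M]
    [NumberField M] [Algebra k M] [IsGalois k M] (f : K →ₐ[k] M)
    {y : D.M K} (hy : D.map f y ∈ D.conj x M) : y ∈ D.genS x K := by
  intro M' _ _ _ _ f' hM'
  exact D.conj_iff x hM' f f' hy

lemma DescFun.genS_comap {K L : Type} [Field K] [NumberField K] [Algebra k K] [Field L]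
    [NumberField L] [Algebra k L] (f : K →ₐ[k] L) (y : D.M K) :
    D.map f y ∈ D.genS x L ↔ y ∈ D.genS x K := by
  obtain ⟨M, i1, i2, i3, i4, ⟨g⟩, hN⟩ := exists_gal k L N₀
  constructor
  · intro h
    have h1 := h M g hN
    rw [← D.map_comp] at h1
    exact D.genS_of x (g.comp f) h1
  · intro h
    have h1 := h M (g.comp f) hN
    rw [D.map_comp] at h1
    exact D.genS_of x g h1

lemma DescFun.self_mem : x ∈ D.genS x N₀ := by
  intro M _ _ _ _ f _
  exact Submodule.subset_span ⟨f, rfl⟩

/-- the functor generated by `x` -/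
noncomputable def DescFun.gen : DescFun F k where
  M := fun K _ _ _ => D.genS x K
  grp := fun K _ _ _ => inferInstance
  mod := fun K _ _ _ => inferInstance
  map := fun {K L} _ _ _ _ _ _ f =>
    (D.map f).restrict fun y hy => (D.genS_comap x f y).mpr hy
  map_id := fun K _ _ _ y => Subtype.ext (D.map_id K y.1)
  map_comp := fun {K L N} _ _ _ _ _ _ _ _ _ g f y => Subtype.ext (D.map_comp g f y.1)
  inj := fun {K L} _ _ _ _ _ _ f a b hab =>
    Subtype.ext (D.inj f (congrArg Subtype.val hab))
  descent := fun K N _ _ _ _ _ _ _ _ _ y hy => by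
    obtain ⟨z, hz⟩ := D.descent K N y.1 (fun g => congrArg Subtype.val (hy g))
    refine ⟨⟨z, ?_⟩, Subtype.ext hz⟩
    rw [← D.genS_comap x (IsScalarTower.toAlgHom k K N) z, hz]
    exact y.2

lemma DescFun.gen_fin (K : Type) [Field K] [NumberField K] [Algebra k K] :
    FiniteDimensional F ((D.gen x).M K) := by
  obtain ⟨M, i1, i2, i3, i4, ⟨g⟩, hN⟩ := exists_gal k K N₀
  have := D.conj_fin x M
  let f : D.genS x K →ₗ[F] D.conj x M := (D.map g).restrict fun y hy => hy M g hN
  refine FiniteDimensional.of_injective f fun a b hab => ?_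
  exact Subtype.ext (D.inj g (congrArg Subtype.val hab))

lemma DescFun.gen_surj {K L : Type} [Field K] [NumberField K] [Algebra k K] [Field L]
    [NumberField L] [Algebra k L] (f : K →ₐ[k] L) (h : Function.Surjective (D.map f)) :
    Function.Surjective ((D.gen x).map f) := by
  intro y
  obtain ⟨z, hz⟩ := h y.1
  refine ⟨⟨z, ?_⟩, Subtype.ext hz⟩
  rw [← D.genS_comap x f z, hz]
  exact y.2

end gen

section main

variable {F : Type} [Field F] [CharZero F] {k : Type} [Field k] [NumberField k] (D : DescFun F k)

/-- no growth in the unramified split extensions of prime degree of totally complex fields -/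
def NoGrow (D : DescFun F k) (m : ℕ) : Prop :=
  ∀ (K L : Type) [Field K] [NumberField K] [Field L] [NumberField L] [Algebra k K] [Algebra K L]
    [Algebra k L] [IsScalarTower k K L] [IsGalois K L], IsTotallyComplex K →
    (Module.finrank K L).Prime → UnrSplit m K L →
    Function.Surjective (D.map (IsScalarTower.toAlgHom k K L))

lemma noChange_gen {m : ℕ} (h : NoGrow D m) {N₀ : Type} [Field N₀] [NumberField N₀] [Algebra k N₀]
    (x : D.M N₀) : NoChange ((D.gen x).toFun (D.gen_fin x)) m := by
  intro K L _ _ _ _ _ _ _ _ _ hK hp hu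
  have h1 := D.gen_surj x _ (h K L hK hp hu)
  have h2 := (LinearEquiv.ofBijective _ ⟨(D.gen x).inj _, h1⟩).finrank_eq
  change (((D.gen x).rank K : ℕ) : F) = ((D.gen x).rank L : ℕ)
  rw [DescFun.rank, DescFun.rank, h2]

/-- **No growth in the unramified case implies no growth.** -/
theorem noGrow {m : ℕ} (hm : m ≠ 0) (h : NoGrow D m) (K L : Type) [Field K] [NumberField K]
    [Field L] [NumberField L] [Algebra k K] [Algebra k L] (hK : IsTotallyComplex K)
    (hL : IsTotallyComplex L) (f : K →ₐ[k] L) : Function.Surjective (D.map f) := by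
  intro x
  have h1 := complex_const ((D.gen x).toFun (D.gen_fin x)) hm (noChange_gen D h x) K L hK hL
  have h2 : (D.gen x).rank K = (D.gen x).rank L := Nat.cast_injective h1
  have hKf := D.gen_fin x K
  have hLf := D.gen_fin x L
  have h3 : Function.Surjective ((D.gen x).map f) := by
    rw [← LinearMap.range_eq_top]
    refine Submodule.eq_top_of_finrank_eq ?_
    rw [LinearMap.finrank_range_of_inj ((D.gen x).inj f)]
    exact h2
  obtain ⟨z, hz⟩ := h3 ⟨x, D.self_mem x⟩
  exact ⟨z.1, congrArg Subtype.val hz⟩

lemma complex_above {K L : Type} [Field K] [NumberField K] [Field L] [NumberField L] [Algebra K L]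
    (hK : IsTotallyComplex K) : IsTotallyComplex L := by
  refine ⟨fun v => ?_⟩
  by_contra h
  rw [InfinitePlace.not_isComplex_iff_isReal] at h
  obtain ⟨φ, hφ, -⟩ := h
  have h2 : ComplexEmbedding.IsReal (φ.comp (algebraMap K L)) := hφ.comp _
  have h3 := hK.isComplex (InfinitePlace.mk (φ.comp (algebraMap K L)))
  rw [← InfinitePlace.not_isReal_iff_isComplex] at h3
  exact h3 ⟨_, h2, rfl⟩

/-- **Vanishing.** -/
theorem vanish {m : ℕ} (hm : m ≠ 0) (h : NoGrow D m) (K₀ : Type) [Field K₀] [NumberField K₀]
    [Algebra k K₀] (hK₀ : IsTotallyComplex K₀) (h0 : ∀ x : D.M K₀, x = 0) (K : Type) [Field K]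
    [NumberField K] [Algebra k K] (x : D.M K) : x = 0 := by
  obtain ⟨N, i1, i2, i3, i4, i5, i6, i7, i8⟩ := exists_common k K₀ K
  have hN : IsTotallyComplex N := complex_above hK₀
  obtain ⟨y, hy⟩ := noGrow D hm h K₀ N hK₀ hN (IsScalarTower.toAlgHom k K₀ N)
    (D.map (IsScalarTower.toAlgHom k K N) x)
  apply D.inj (IsScalarTower.toAlgHom k K N)
  rw [← hy, h0 y, map_zero, map_zero]

end main

end Pool.Agent.Run7.h508.BR
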