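import Mathlib
import Pool.Agent.Run7.h508.BR.DF

/-!
# Kernels and cokernels of morphisms of functors with Galois descent
-/

set_option autoImplicit false
set_option linter.unusedSectionVars false

namespace Pool.Agent.Run7.h508.BR

open NumberField

variable {F : Type} [Field F] [CharZero F] {k : Type} [Field k] [NumberField k]

/-- a natural linear map -/
structure DescMor (A B : DescFun F k) where
  /-- the map of `K` -/
  app : ∀ (K : Type) [Field K] [NumberField K] [Algebra k K], A.M K →ₗ[F] B.M K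
  nat : ∀ {K L : Type} [Field K] [NumberField K] [Algebra k K] [Field L] [NumberField L]
    [Algebra k L] (f : K →ₐ[k] L) (x : A.M K), app L (A.map f x) = B.map f (app K x)

section avg

variable (D : DescFun F k) (K N : Type) [Field K] [NumberField K] [Algebra k K] [Field N]
  [NumberField N] [Algebra k N] [Algebra K N] [IsScalarTower k K N] [IsGalois K N]

/-- the action of an automorphism over `K` -/
noncomputable def DescFun.gal (g : N ≃ₐ[K] N) : D.M N →ₗ[F] D.M N :=
  D.map ((g : N →ₐ[K] N).restrictScalars k)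

open Classical in
lemma DescFun.avg (x : D.M N) [Fintype (N ≃ₐ[K] N)] : ∃ y : D.M K,
    D.map (IsScalarTower.toAlgHom k K N) y =
      (Fintype.card (N ≃ₐ[K] N) : F)⁻¹ • ∑ g : N ≃ₐ[K] N, D.gal K N g x := by
  refine D.descent K N _ fun h => ?_
  rw [map_smul, map_sum]
  congr 1
  refine Fintype.sum_equiv (Equiv.mulLeft h) _ _ fun g => ?_
  rw [DescFun.gal, ← D.map_comp]
  rfl

lemma DescFun.gal_base (g : N ≃ₐ[K] N) (y : D.M K) :
    D.gal K N g (D.map (IsScalarTower.toAlgHom k K N) y) =
      D.map (IsScalarTower.toAlgHom k K N) y := by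
  rw [DescFun.gal, ← D.map_comp]
  have h : ((g : N →ₐ[K] N).restrictScalars k).comp (IsScalarTower.toAlgHom k K N) =
      IsScalarTower.toAlgHom k K N := by
    ext z
    exact g.commutes z
  rw [h]

open Classical in
lemma DescFun.avg_const (x : D.M N) [Fintype (N ≃ₐ[K] N)] (h : ∀ g, D.gal K N g x = x) :
    (Fintype.card (N ≃ₐ[K] N) : F)⁻¹ • ∑ g : N ≃ₐ[K] N, D.gal K N g x = x := by
  have hc : (Fintype.card (N ≃ₐ[K] N) : F) ≠ 0 := Nat.cast_ne_zero.mpr Fintype.card_ne_zero
  rw [Finset.sum_congr rfl fun g _ => h g, Finset.sum_const, Finset.card_univ,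
    ← Nat.cast_smul_eq_nsmul F, smul_smul, inv_mul_cancel₀ hc, one_smul]

end avg

variable {A B : DescFun F k} (φ : DescMor A B)

/-- the kernel -/
noncomputable def DescMor.ker : DescFun F k where
  M := fun K _ _ _ => LinearMap.ker (φ.app K)
  grp := fun K _ _ _ => inferInstance
  mod := fun K _ _ _ => inferInstance
  map := fun {K L} _ _ _ _ _ _ f => (A.map f).restrict fun y hy => by
    rw [LinearMap.mem_ker] at hy ⊢
    rw [φ.nat, hy, map_zero]
  map_id := fun K _ _ _ y => Subtype.ext (A.map_id K y.1)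
  map_comp := fun {K L N} _ _ _ _ _ _ _ _ _ g f y => Subtype.ext (A.map_comp g f y.1)
  inj := fun {K L} _ _ _ _ _ _ f a b hab =>
    Subtype.ext (A.inj f (congrArg Subtype.val hab))
  descent := fun K N _ _ _ _ _ _ _ _ _ y hy => by
    obtain ⟨z, hz⟩ := A.descent K N y.1 (fun g => congrArg Subtype.val (hy g))
    refine ⟨⟨z, ?_⟩, Subtype.ext hz⟩
    rw [LinearMap.mem_ker]
    apply B.inj (IsScalarTower.toAlgHom k K N)
    rw [← φ.nat, hz, map_zero]
    exact y.2

lemma DescMor.gal_nat (K N : Type) [Field K] [NumberField K] [Algebra k K] [Field N]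
    [NumberField N] [Algebra k N] [Algebra K N] [IsScalarTower k K N] (g : N ≃ₐ[K] N) (x : A.M N) :
    φ.app N (A.gal K N g x) = B.gal K N g (φ.app N x) := φ.nat _ x

open Classical in
/-- an element of `B(K)` which comes from `A` over a larger field comes from `A(K)` -/
lemma DescMor.range_of {K L : Type} [Field K] [NumberField K] [Algebra k K] [Field L]
    [NumberField L] [Algebra k L] (f : K →ₐ[k] L) {y : B.M K}
    (h : B.map f y ∈ LinearMap.range (φ.app L)) : y ∈ LinearMap.range (φ.app K) := by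
  obtain ⟨a, ha⟩ := h
  obtain ⟨N, i1, i2, i3, i4, ⟨g⟩, -⟩ := exists_gal k L L
  let _ : Algebra K N := (g.comp f).toAlgebra
  have hKN : IsScalarTower k K N :=
    IsScalarTower.of_algebraMap_eq fun z => ((g.comp f).commutes z).symm
  have hG : IsGalois K N := IsGalois.tower_top_of_isGalois k K N
  have hfin : FiniteDimensional K N := Module.Finite.of_restrictScalars_finite ℚ K N
  have := Fintype.ofFinite (N ≃ₐ[K] N)
  have hι : g.comp f = IsScalarTower.toAlgHom k K N := rfl
  have h1 : B.map (IsScalarTower.toAlgHom k K N) y = φ.app N (A.map g a) := by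
    rw [φ.nat, ha, ← B.map_comp, hι]
  obtain ⟨a₀, ha₀⟩ := A.avg K N (A.map g a)
  refine ⟨a₀, B.inj (IsScalarTower.toAlgHom k K N) ?_⟩
  rw [← φ.nat, ha₀, map_smul, map_sum, Finset.sum_congr rfl fun g' _ => φ.gal_nat K N g' _,
    ← h1]
  exact B.avg_const K N _ fun g' => B.gal_base K N g' y

open Classical in
/-- the cokernel -/
noncomputable def DescMor.coker : DescFun F k where
  M := fun K _ _ _ => B.M K ⧸ LinearMap.range (φ.app K)
  grp := fun K _ _ _ => inferInstance
  mod := fun K _ _ _ => inferInstance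
  map := fun {K L} _ _ _ _ _ _ f => Submodule.mapQ _ _ (B.map f) (by
    rintro _ ⟨a, rfl⟩
    exact ⟨A.map f a, φ.nat f a⟩)
  map_id := fun K _ _ _ y => by
    obtain ⟨y, rfl⟩ := Submodule.Quotient.mk_surjective _ y
    rw [Submodule.mapQ_apply, B.map_id]
  map_comp := fun {K L N} _ _ _ _ _ _ _ _ _ g f y => by
    obtain ⟨y, rfl⟩ := Submodule.Quotient.mk_surjective _ y
    rw [Submodule.mapQ_apply, Submodule.mapQ_apply, Submodule.mapQ_apply, B.map_comp]
  inj := fun {K L} _ _ _ _ _ _ f => by
    rw [injective_iff_map_eq_zero]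
    intro y hy
    obtain ⟨y, rfl⟩ := Submodule.Quotient.mk_surjective _ y
    rw [Submodule.mapQ_apply, Submodule.Quotient.mk_eq_zero] at hy
    rw [Submodule.Quotient.mk_eq_zero]
    exact φ.range_of f hy
  descent := fun K N _ _ _ _ _ _ _ _ _ y hy => by
    obtain ⟨y, rfl⟩ := Submodule.Quotient.mk_surjective _ y
    have hfin : FiniteDimensional K N := Module.Finite.of_restrictScalars_finite ℚ K N
    have := Fintype.ofFinite (N ≃ₐ[K] N)
    obtain ⟨z, hz⟩ := B.avg K N y
    refine ⟨Submodule.Quotient.mk z, ?_⟩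
    rw [Submodule.mapQ_apply, hz, Submodule.Quotient.eq]
    have hc : (Fintype.card (N ≃ₐ[K] N) : F) ≠ 0 := Nat.cast_ne_zero.mpr Fintype.card_ne_zero
    have h1 : (Fintype.card (N ≃ₐ[K] N) : F)⁻¹ • ∑ g : N ≃ₐ[K] N, B.gal K N g y - y =
        (Fintype.card (N ≃ₐ[K] N) : F)⁻¹ • ∑ g : N ≃ₐ[K] N, (B.gal K N g y - y) := by
      rw [Finset.sum_sub_distrib, Finset.sum_const, Finset.card_univ, smul_sub,
        ← Nat.cast_smul_eq_nsmul F (Fintype.card (N ≃ₐ[K] N)) y, smul_smul, inv_mul_cancel₀ hc,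
        one_smul]
    rw [h1]
    refine Submodule.smul_mem _ _ (Submodule.sum_mem _ fun g _ => ?_)
    have h2 := hy g
    rw [Submodule.mapQ_apply, Submodule.Quotient.eq] at h2
    exact h2

section main

/-- **The growth of the kernel and of the cokernel.** -/
theorem DescMor.noGrow_ker {m : ℕ} (hm : m ≠ 0)
    (h : ∀ (K L : Type) [Field K] [NumberField K] [Field L] [NumberField L] [Algebra k K]
      [Algebra K L] [Algebra k L] [IsScalarTower k K L] [IsGalois K L], IsTotallyComplex K →
      (Module.finrank K L).Prime → UnrSplit m K L →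
      ∀ x : A.M L, φ.app L x = 0 → ∃ y : A.M K, φ.app K y = 0 ∧
        A.map (IsScalarTower.toAlgHom k K L) y = x)
    (K L : Type) [Field K] [NumberField K] [Field L] [NumberField L] [Algebra k K] [Algebra k L]
    (hK : IsTotallyComplex K) (f : K →ₐ[k] L) (x : A.M L) (hx : φ.app L x = 0) :
    ∃ y : A.M K, φ.app K y = 0 ∧ A.map f y = x := by
  have hL : IsTotallyComplex L := by
    let _ : Algebra K L := f.toAlgebra
    exact complex_above hK
  have h1 : NoGrow φ.ker m := by
    intro K L _ _ _ _ _ _ _ _ _ hK hp hu x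
    obtain ⟨y, hy, hyx⟩ := h K L hK hp hu x.1 x.2
    exact ⟨⟨y, hy⟩, Subtype.ext hyx⟩
  obtain ⟨y, hy⟩ := noGrow φ.ker hm h1 K L hK hL f ⟨x, hx⟩
  exact ⟨y.1, y.2, congrArg Subtype.val hy⟩

theorem DescMor.noGrow_coker {m : ℕ} (hm : m ≠ 0)
    (h : ∀ (K L : Type) [Field K] [NumberField K] [Field L] [NumberField L] [Algebra k K]
      [Algebra K L] [Algebra k L] [IsScalarTower k K L] [IsGalois K L], IsTotallyComplex K →
      (Module.finrank K L).Prime → UnrSplit m K L →
      ∀ x : B.M L, ∃ (y : B.M K) (z : A.M L), x = B.map (IsScalarTower.toAlgHom k K L) y + φ.app L z)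
    (K L : Type) [Field K] [NumberField K] [Field L] [NumberField L] [Algebra k K] [Algebra k L]
    (hK : IsTotallyComplex K) (f : K →ₐ[k] L) (x : B.M L) :
    ∃ (y : B.M K) (z : A.M L), x = B.map f y + φ.app L z := by
  have hL : IsTotallyComplex L := by
    let _ : Algebra K L := f.toAlgebra
    exact complex_above hK
  have h1 : NoGrow φ.coker m := by
    intro K L _ _ _ _ _ _ _ _ _ hK hp hu x
    obtain ⟨x, rfl⟩ := Submodule.Quotient.mk_surjective _ x
    obtain ⟨y, z, hyz⟩ := h K L hK hp hu x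
    refine ⟨Submodule.Quotient.mk y, ?_⟩
    change Submodule.Quotient.mk (B.map (IsScalarTower.toAlgHom k K L) y) = _
    rw [Submodule.Quotient.eq, hyz, sub_add_cancel_left]
    exact Submodule.neg_mem _ ⟨z, rfl⟩
  obtain ⟨y, hy⟩ := noGrow φ.coker hm h1 K L hK hL f (Submodule.Quotient.mk x)
  obtain ⟨y, rfl⟩ := Submodule.Quotient.mk_surjective _ y
  have hy' : Submodule.Quotient.mk (B.map f y) = (Submodule.Quotient.mk x :
    B.M L ⧸ LinearMap.range (φ.app L)) := hy
  rw [Submodule.Quotient.eq] at hy'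
  obtain ⟨z, hz⟩ := hy'
  refine ⟨y, -z, ?_⟩
  rw [map_neg, hz]
  abel

end main

end Pool.Agent.Run7.h508.BR
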