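import Mathlib
import Pool.Agent.W253.LF.Crit
import Pool.Agent.Run7.h508.BR.Leo

/-!
# Leopoldt's conjecture and the kernel of Leopoldt's map
-/

set_option autoImplicit false
set_option linter.unusedSectionVars false

namespace Pool.Agent.Run7.h508.BR

open NumberField TensorProduct Pool.Agent.W289.SL Pool.Agent.W254.LF

section leo2

variable {p : ℕ} [Fact p.Prime] {L : ℂ_[p] → ℂ_[p]} (hL : IsIwasawaLog p L)

lemma lker_eq_bot {K : Type} [Field K] [NumberField K] (h : leo hL K = 0) : lker hL K = ⊥ := by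
  rw [leo] at h
  exact Submodule.finrank_eq_zero.mp h

/-- multiplicatively independent units are independent in the tensor product -/
lemma indep_tmul {K : Type} [Field K] [NumberField K] {r : ℕ} {e : Fin r → Additive (𝓞 K)ˣ}
    (he : LinearIndependent ℤ e) {c : Fin r → ℂ_[p]} (h : ∑ i, c i ⊗ₜ[ℤ] e i = 0) : c = 0 := by
  classical
  let f : (Fin r → ℤ) →ₗ[ℤ] Additive (𝓞 K)ˣ := Fintype.linearCombination ℤ e
  have hf : Function.Injective f := by
    rw [← LinearMap.ker_eq_bot, LinearMap.ker_eq_bot']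
    intro a ha
    funext i
    exact Fintype.linearIndependent_iff.mp he a ha i
  have : Module.Flat ℤ ℂ_[p] := inferInstance
  have hinj : Function.Injective (LinearMap.baseChange ℂ_[p] f) :=
    Module.Flat.lTensor_preserves_injective_linearMap (M := ℂ_[p]) f hf
  have hy : ∑ i, c i ⊗ₜ[ℤ] (Pi.single i (1 : ℤ) : Fin r → ℤ) = 0 := by
    apply hinj
    rw [map_zero, map_sum, ← h]
    refine Finset.sum_congr rfl fun i _ => ?_
    rw [LinearMap.baseChange_tmul]
    congr 1
    change Fintype.linearCombination ℤ e (Pi.single i 1) = e i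
    rw [Fintype.linearCombination_apply_single, one_smul]
  funext j
  let g : ℂ_[p] ⊗[ℤ] (Fin r → ℤ) →ₗ[ℂ_[p]] ℂ_[p] ⊗[ℤ] ℤ :=
    LinearMap.baseChange ℂ_[p] (LinearMap.proj j)
  have h1 := congrArg (fun y => TensorProduct.rid ℤ ℂ_[p] (g y)) hy
  simp only [map_sum, map_zero] at h1
  have h2 : ∀ i, TensorProduct.rid ℤ ℂ_[p] (g (c i ⊗ₜ[ℤ] (Pi.single i (1 : ℤ) : Fin r → ℤ))) =
      if i = j then c i else 0 := by
    intro i
    change TensorProduct.rid ℤ ℂ_[p] (c i ⊗ₜ[ℤ] ((Pi.single i (1 : ℤ) : Fin r → ℤ) j)) = _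
    rw [TensorProduct.rid_tmul, Pi.single_apply]
    by_cases hij : i = j
    · rw [if_pos hij, if_pos hij.symm, one_smul]
    · rw [if_neg hij, if_neg (fun h => hij h.symm), zero_smul]
  rw [Finset.sum_congr rfl fun i _ => h2 i, Finset.sum_ite_eq' Finset.univ j,
    if_pos (Finset.mem_univ _)] at h1
  exact h1

include hL in
theorem leopoldtAt_of {K : Type} [Field K] [NumberField K] (h : leo hL K = 0) :
    LeopoldtAt K p := by
  obtain ⟨e, he⟩ := exists_linearIndependent_of_le_finrank (R := ℤ) (M := Additive (𝓞 K)ˣ)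
    (n := Units.rank K) (by rw [Units.finrank_eq])
  refine Pool.Agent.W253.LF.t_CRIT K p L hL (Units.rank K) (fun i => (e i).toMul) le_rfl
    fun c hc => ?_
  have hx : ∑ i, c i ⊗ₜ[ℤ] e i ∈ lker hL K := by
    rw [mem_lker]
    intro σ
    rw [map_sum, ← hc σ]
    refine Finset.sum_congr rfl fun i _ => ?_
    rw [logLin_tmul]
  rw [lker_eq_bot hL h, Submodule.mem_bot] at hx
  exact indep_tmul he hx

/-- the main theorem with integral coefficients -/
theorem real_formula_int {k : Type} [Field k] [NumberField k] {V : Type} [AddCommGroup V]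
    [Module ℚ V] (A : FieldFun k V) {m : ℕ} (hm : m ≠ 0) (hA : NoChange A m) (K₀ : Type) [Field K₀]
    [NumberField K₀] [Algebra k K₀] (hK₀ : IsTotallyComplex K₀) {ι : Type} [Fintype ι]
    (K : ι → Type) [∀ i, Field (K i)] [∀ i, NumberField (K i)] [∀ i, Algebra k (K i)] (t : ι → ℤ)
    (ht : ∀ v : k →+* ℂ, ∑ i, t i * (realAbove v (K i) : ℤ) = 0) :
    ∑ i, t i • (A.f (K i) - A.f K₀) = 0 := by
  have key := real_formula_base A hm hA K₀ hK₀ K (fun i => (t i : ℚ)) (fun v => by
    have h1 := congrArg (fun z : ℤ => (z : ℚ)) (ht v)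
    push_cast at h1
    exact h1)
  rw [← key]
  refine Finset.sum_congr rfl fun i _ => ?_
  rw [Int.cast_smul_eq_zsmul ℚ]

lemma real_formula_nat {k : Type} [Field k] [NumberField k] {V : Type} [Field V] [CharZero V]
    (A : FieldFun k V) {m : ℕ} (hm : m ≠ 0) (hA : NoChange A m) (K₀ : Type) [Field K₀]
    [NumberField K₀] [Algebra k K₀] (hK₀ : IsTotallyComplex K₀) {ι : Type} [Fintype ι]
    (K : ι → Type) [∀ i, Field (K i)] [∀ i, NumberField (K i)] [∀ i, Algebra k (K i)] (t : ι → ℤ)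
    (ht : ∀ v : k →+* ℂ, ∑ i, t i * (realAbove v (K i) : ℤ) = 0)
    (d : ι → ℕ) (d₀ : ℕ) (h : ∀ i, A.f (K i) = d i) (h₀ : A.f K₀ = d₀) :
    ∑ i, t i * ((d i : ℤ) - d₀) = 0 := by
  have key := real_formula_int A hm hA K₀ hK₀ K t ht
  have h1 : ∑ i, t i • (A.f (K i) - A.f K₀) = ((∑ i, t i * ((d i : ℤ) - d₀) : ℤ) : V) := by
    push_cast
    refine Finset.sum_congr rfl fun i _ => ?_
    rw [h, h₀, zsmul_eq_mul]
  rw [h1] at key
  exact_mod_cast key

/-- a totally complex field without Leopoldt defect -/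
lemma exists_gauss : ∃ (K : Type) (_ : Field K) (_ : NumberField K), IsTotallyComplex K ∧
    Units.rank K = 0 := by
  have h0 : NeZero ((4 : ℕ) : ℚ) := ⟨by norm_num⟩
  have h1 : IsCyclotomicExtension {4} ℚ (CyclotomicField 4 ℚ) :=
    CyclotomicField.isCyclotomicExtension 4 ℚ
  have hnf : NumberField (CyclotomicField 4 ℚ) := IsCyclotomicExtension.numberField {4} ℚ _
  refine ⟨CyclotomicField 4 ℚ, inferInstance, hnf, ?_, ?_⟩
  · exact IsCyclotomicExtension.Rat.isTotallyComplex (n := 4) (CyclotomicField 4 ℚ) (by norm_num)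
  · have h2 := IsCyclotomicExtension.Rat.nrRealPlaces_eq_zero (n := 4) (CyclotomicField 4 ℚ)
      (by norm_num)
    have h3 := IsCyclotomicExtension.Rat.nrComplexPlaces_eq_totient_div_two 4
      (CyclotomicField 4 ℚ)
    have h4 := InfinitePlace.card_eq_nrRealPlaces_add_nrComplexPlaces (CyclotomicField 4 ℚ)
    have h5 : Nat.totient 4 / 2 = 1 := by decide
    rw [h2, h3, h5, zero_add] at h4
    rw [Units.rank, h4]

end leo2

end Pool.Agent.Run7.h508.BR
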