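import Mathlib
import Pool.Agent.Run7.h508.BR.Leo

/-!
# Functors on number fields with Galois descent
-/

set_option autoImplicit false
set_option linter.unusedSectionVars false

namespace Pool.Agent.Run7.h508.BR

open NumberField

/-- A functor on the number fields which contain `k`, with values in the finite-dimensional vector
spaces over `ℚ`, with Galois descent: the vectors fixed by `Gal(N/K)` come from `K`. Examples: the
groups of rational points of an abelian variety over `k`, the Néron-Severi groups, the rational
Chow groups or `K`-groups of a variety over `k` (if they are finite-dimensional), tensored with `ℚ`. -/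
structure RankFunctor (k : Type) [Field k] [NumberField k] where
  /-- the vector space of `K` -/
  M : ∀ (K : Type) [Field K] [NumberField K] [Algebra k K], Type
  [grp : ∀ (K : Type) [Field K] [NumberField K] [Algebra k K], AddCommGroup (M K)]
  [mod : ∀ (K : Type) [Field K] [NumberField K] [Algebra k K], Module ℚ (M K)]
  fin : ∀ (K : Type) [Field K] [NumberField K] [Algebra k K], FiniteDimensional ℚ (M K)
  /-- the map of an embedding -/
  map : ∀ {K L : Type} [Field K] [NumberField K] [Algebra k K] [Field L] [NumberField L]
    [Algebra k L], (K →ₐ[k] L) → (M K →ₗ[ℚ] M L)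
  map_id : ∀ (K : Type) [Field K] [NumberField K] [Algebra k K] (x : M K),
    map (AlgHom.id k K) x = x
  map_comp : ∀ {K L N : Type} [Field K] [NumberField K] [Algebra k K] [Field L] [NumberField L]
    [Algebra k L] [Field N] [NumberField N] [Algebra k N] (g : L →ₐ[k] N) (f : K →ₐ[k] L) (x : M K),
    map (g.comp f) x = map g (map f x)
  inj : ∀ {K L : Type} [Field K] [NumberField K] [Algebra k K] [Field L] [NumberField L]
    [Algebra k L] (f : K →ₐ[k] L), Function.Injective (map f)
  descent : ∀ (K N : Type) [Field K] [NumberField K] [Algebra k K] [Field N] [NumberField N]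
    [Algebra k N] [Algebra K N] [IsScalarTower k K N] [IsGalois K N] (x : M N),
    (∀ g : N ≃ₐ[K] N, map ((g : N →ₐ[K] N).restrictScalars k) x = x) →
      ∃ y : M K, map (IsScalarTower.toAlgHom k K N) y = x

attribute [instance] RankFunctor.grp RankFunctor.mod RankFunctor.fin

section

variable {k : Type} [Field k] [NumberField k] (D : RankFunctor k)

/-- the dimension -/
noncomputable def RankFunctor.rank (K : Type) [Field K] [NumberField K] [Algebra k K] : ℕ :=
  Module.finrank ℚ (D.M K)

lemma RankFunctor.rank_iso (K K' : Type) [Field K] [NumberField K] [Algebra k K] [Field K']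
    [NumberField K'] [Algebra k K'] (e : K ≃ₐ[k] K') : D.rank K = D.rank K' := by
  have h1 : ∀ x, D.map (e : K →ₐ[k] K') (D.map (e.symm : K' →ₐ[k] K) x) = x := by
    intro x
    rw [← D.map_comp]
    have h2 : (e : K →ₐ[k] K').comp (e.symm : K' →ₐ[k] K) = AlgHom.id k K' := by
      ext y
      exact e.apply_symm_apply y
    rw [h2, D.map_id]
  have h2 : Function.Bijective (D.map (e : K →ₐ[k] K')) :=
    ⟨D.inj _, fun x => ⟨_, h1 x⟩⟩
  exact (LinearEquiv.ofBijective _ h2).finrank_eq

/-- the action of the Galois group -/
noncomputable def RankFunctor.act (N : Type) [Field N] [NumberField N] [Algebra k N]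
    (g : N ≃ₐ[k] N) : D.M N →ₗ[ℚ] D.M N := D.map (g : N →ₐ[k] N)

lemma RankFunctor.act_mul (N : Type) [Field N] [NumberField N] [Algebra k N]
    (g h : N ≃ₐ[k] N) (x : D.M N) : D.act N (g * h) x = D.act N g (D.act N h x) := by
  rw [RankFunctor.act, RankFunctor.act, RankFunctor.act, ← D.map_comp]
  rfl

/-- the vectors which come from a subfield -/
noncomputable def RankFunctor.fixMap (N : Type) [Field N] [NumberField N] [Algebra k N]
    [IsGalois k N] (H : Subgroup (N ≃ₐ[k] N)) :
    D.M (IntermediateField.fixedField H) →ₗ[ℚ] fixS (D.act N) H :=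
  (D.map (IntermediateField.fixedField H).val).codRestrict _ fun x h hh => by
    change D.map (h : N →ₐ[k] N) (D.map (IntermediateField.fixedField H).val x) =
      D.map (IntermediateField.fixedField H).val x
    rw [← D.map_comp]
    have h2 : (h : N →ₐ[k] N).comp (IntermediateField.fixedField H).val =
        (IntermediateField.fixedField H).val := by
      ext y
      exact (IntermediateField.mem_fixedField_iff H (y : N)).mp y.2 h hh
    rw [h2]

lemma RankFunctor.fixMap_bijective (N : Type) [Field N] [NumberField N] [Algebra k N]
    [IsGalois k N] (H : Subgroup (N ≃ₐ[k] N)) : Function.Bijective (D.fixMap N H) := by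
  let F := IntermediateField.fixedField H
  have hres : ∀ g : N ≃ₐ[F] N, g.restrictScalars k ∈ H := by
    intro g
    have hfin : FiniteDimensional k N := Module.Finite.of_restrictScalars_finite ℚ k N
    have h1 : g.restrictScalars k ∈ F.fixingSubgroup := by
      rw [IntermediateField.mem_fixingSubgroup_iff]
      intro x hx
      exact g.commutes ⟨x, hx⟩
    rwa [IntermediateField.fixingSubgroup_fixedField] at h1
  constructor
  · intro a b hab
    exact D.inj _ (congrArg Subtype.val hab)
  · intro y
    obtain ⟨x, hx⟩ := D.descent F N (y : D.M N) (fun g => y.2 _ (hres g))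
    exact ⟨x, Subtype.ext hx⟩

/-- the rank as a function of number fields -/
noncomputable def RankFunctor.toFun : FieldFun k ℚ where
  f := fun K _ _ _ => (D.rank K : ℚ)
  iso := fun K K' _ _ _ _ _ _ e => by rw [D.rank_iso K K' e]
  mean := fun N _ _ _ _ => by
    classical
    have hfin : FiniteDimensional k N := Module.Finite.of_restrictScalars_finite ℚ k N
    refine ⟨fun g => LinearMap.trace ℚ _ (D.act N g), fun H => ?_⟩
    have h1 := dim_mean (D.act N) (D.act_mul N) H
    change Nat.card H • (Module.finrank ℚ (D.M (IntermediateField.fixedField H)) : ℚ) = _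
    rw [(LinearEquiv.ofBijective _ (D.fixMap_bijective N H)).finrank_eq]
    exact h1

end

end Pool.Agent.Run7.h508.BR
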