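import Mathlib
import Pool.Agent.K4H74.SC.Sum
import Pool.Agent.Run7.h508.BR.Real

/-!
# Weighted sums over the prime powers as functions of number fields
-/

set_option autoImplicit false
set_option linter.unusedSectionVars false

namespace Pool.Agent.Run7.h508.BR

open NumberField Ideal Pool.Agent.K4H74.ST Pool.Agent.K4H74.SC IsDedekindDomain Pool.Agent.R389
open scoped Pointwise Topology

section fib

variable {K F L : Type} [Field K] [NumberField K] [Field F] [NumberField F] [Field L]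
  [NumberField L] [Algebra K F] [Algebra F L] [Algebra K L] [IsScalarTower K F L] [IsGalois K L]
  [IsGalois F L]

/-- the sum over a fibre -/
lemma fibre_sum (χ : (L ≃ₐ[F] L) → ℂ) (s : ℂ) (b : HeightOneSpectrum (𝓞 K) × ℕ+) :
    HasSum (fun c : {x // idx (F := F) K x = b} => logTerm F L χ s c.1)
      (logTerm K L (indChar K F L χ) s b) := by
  classical
  obtain ⟨p, n⟩ := b
  have hpp := p.isPrime
  let D : Finset (Ideal (𝓞 F)) := (pr_finite F p.ne_bot).toFinset.filter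
    fun q => q.inertiaDeg (𝓞 K) ∣ (n : ℕ)
  have hD : ∀ q ∈ D, q.IsPrime ∧ q.LiesOver p.asIdeal ∧ q ≠ ⊥ ∧ q.inertiaDeg (𝓞 K) ∣ (n : ℕ) := by
    intro q hq
    rw [Finset.mem_filter, Set.Finite.mem_toFinset] at hq
    obtain ⟨⟨e1, e2⟩, e3⟩ := hq
    exact ⟨e1, e2, Ideal.ne_bot_of_liesOver_of_ne_bot p.ne_bot q, e3⟩
  let T : D ≃ {x // idx (F := F) K x = (p, n)} :=
    { toFun := fun q => ⟨(⟨q.1, (hD q.1 q.2).1, (hD q.1 q.2).2.2.1⟩,
        ⟨n / q.1.inertiaDeg (𝓞 K), by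
          have := (hD q.1 q.2).1
          exact Nat.div_pos (Nat.le_of_dvd n.2 (hD q.1 q.2).2.2.2) (deg_pos q.1)⟩), by
          have h2 := (hD q.1 q.2).2.1
          refine Prod.ext ?_ ?_
          · apply HeightOneSpectrum.ext
            exact (Ideal.over_def q.1 p.asIdeal).symm
          · apply PNat.eq
            exact Nat.mul_div_cancel' (hD q.1 q.2).2.2.2⟩
      invFun := fun x => ⟨x.1.1.asIdeal, by
          have hx1 := congrArg (fun y => y.1.asIdeal) x.2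
          have hx2 := congrArg (fun y => (y.2 : ℕ)) x.2
          rw [Finset.mem_filter, Set.Finite.mem_toFinset]
          refine ⟨⟨x.1.1.isPrime, ⟨hx1.symm⟩⟩, ?_⟩
          exact ⟨x.1.2, hx2.symm⟩⟩
      left_inv := fun q => rfl
      right_inv := fun x => by
          apply Subtype.ext
          refine Prod.ext rfl ?_
          apply PNat.eq
          have hx2 : x.1.1.asIdeal.inertiaDeg (𝓞 K) * (x.1.2 : ℕ) = n :=
            congrArg (fun y => (y.2 : ℕ)) x.2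
          have := x.1.1.isPrime
          change (n : ℕ) / x.1.1.asIdeal.inertiaDeg (𝓞 K) = x.1.2
          rw [← hx2]
          exact Nat.mul_div_cancel_left _ (deg_pos _) }
  rw [← Equiv.hasSum_iff T]
  have h2 : logTerm K L (indChar K F L χ) s (p, n)
      = ∑ q : D, ((fun c : {x // idx (F := F) K x = (p, n)} => logTerm F L χ s c.1) ∘ T) q := by
    have h3 := frobMean_ind (K := K) (F := F) (L := L) (χ := χ) p.ne_bot (n := (n : ℕ)) n.pos
    change frobMean K L (indChar K F L χ) p.asIdeal (n : ℕ) / _ = _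
    rw [h3, ← Finset.sum_filter]
    change (∑ q ∈ D, _) / _ = _
    rw [Finset.sum_div, ← Finset.sum_coe_sort]
    refine Finset.sum_congr rfl fun q _ => ?_
    obtain ⟨q, hq⟩ := q
    obtain ⟨e1, e2, e3, e4⟩ := hD q hq
    change ((q.inertiaDeg (𝓞 K) : ℂ) * frobMean F L χ q ((n : ℕ) / q.inertiaDeg (𝓞 K)))
      / ((n : ℕ) * (absNorm p.asIdeal : ℂ) ^ (((n : ℕ) : ℂ) * s))
      = frobMean F L χ q ((n : ℕ) / q.inertiaDeg (𝓞 K)) / ((((n : ℕ) / q.inertiaDeg (𝓞 K) : ℕ) : ℂ) *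
        (absNorm q : ℂ) ^ ((((n : ℕ) / q.inertiaDeg (𝓞 K) : ℕ) : ℂ) * s))
    obtain ⟨m, hm⟩ := e4
    have hd0 : q.inertiaDeg (𝓞 K) ≠ 0 := (deg_pos q).ne'
    have hm' : (n : ℕ) / q.inertiaDeg (𝓞 K) = m := by
      rw [hm]; exact Nat.mul_div_cancel_left _ (deg_pos q)
    have hm0 : (m : ℂ) ≠ 0 := by
      intro h0
      have : m = 0 := by exact_mod_cast h0
      rw [this, mul_zero] at hm
      exact n.2.ne' hm
    rw [hm', hm]
    have h3 : (absNorm q : ℂ) ^ ((m : ℂ) * s)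
        = (absNorm p.asIdeal : ℂ) ^ (((q.inertiaDeg (𝓞 K) * m : ℕ) : ℂ) * s) := by
      rw [← Ideal.absNorm_pow_inertiaDeg p.asIdeal q]
      push_cast
      rw [mul_assoc, Complex.natCast_cpow_natCast_mul]
    rw [h3]
    push_cast
    have hd1 : (q.inertiaDeg (𝓞 K) : ℂ) ≠ 0 := by exact_mod_cast hd0
    rw [mul_assoc, mul_div_mul_left _ _ hd1]
  rw [h2]
  exact hasSum_fintype _

/-- **weighted induction** -/
theorem hasSum_ind_w {χ : (L ≃ₐ[F] L) → ℂ} {s l : ℂ} (a : HeightOneSpectrum (𝓞 K) × ℕ+ → ℂ)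
    (hl : HasSum (fun x => a (idx K x) * logTerm F L χ s x) l) :
    HasSum (fun b => a b * logTerm K L (indChar K F L χ) s b) l := by
  let e := Equiv.sigmaFiberEquiv (idx (F := F) K)
  have h1 : HasSum ((fun x => a (idx K x) * logTerm F L χ s x) ∘ e) l :=
    (Equiv.hasSum_iff e).mpr hl
  refine h1.sigma fun b => ?_
  have h2 := (fibre_sum (K := K) χ s b).mul_left (a b)
  have h3 : (fun c : {x // idx (F := F) K x = b} => a b * logTerm F L χ s c.1) =
      fun c => ((fun x => a (idx K x) * logTerm F L χ s x) ∘ e) ⟨b, c⟩ := by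
    funext c
    change _ = a (idx K c.1) * logTerm F L χ s c.1
    rw [c.2]
  rw [h3] at h2
  exact h2

end fib

section terms

variable {K L : Type} [Field K] [NumberField K] [Field L] [NumberField L] [Algebra K L]
  [IsGalois K L]

lemma frobMean_one {p : Ideal (𝓞 K)} (hp : p ≠ ⊥) [p.IsPrime] (n : ℕ) :
    frobMean K L (fun _ => 1) p n = 1 := by
  classical
  have hft : Fintype (L ≃ₐ[K] L) := Fintype.ofFinite _
  have h0 : ((frobSet K L p n).ncard : ℂ) ≠ 0 := by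
    rw [ncard_frob hp n]
    push_cast
    exact mul_ne_zero (by exact_mod_cast pr_ne) (by exact_mod_cast ram_ne (K := K))
  rw [frobMean]
  have h1 : (∑ᶠ x ∈ frobSet K L p n, (fun _ => (1 : ℂ)) x.2) = (frobSet K L p n).ncard := by
    rw [frobSet_eq hp n, finsum_mem_coe_finset, Finset.sum_const, nsmul_eq_mul, mul_one,
      Set.ncard_coe_finset]
  rw [h1, div_self h0]

lemma logTerm_one (s : ℂ) (x : HeightOneSpectrum (𝓞 K) × ℕ+) :
    logTerm K L (fun _ => 1) s x =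
      1 / ((x.2 : ℕ) * (absNorm x.1.asIdeal : ℂ) ^ (((x.2 : ℕ) : ℂ) * s)) := by
  have := x.1.isPrime
  rw [logTerm, frobMean_one x.1.ne_bot]

open Classical in
/-- the mean over the Frobenius elements is a linear functional -/
lemma frobMean_repr [Fintype (L ≃ₐ[K] L)] {p : Ideal (𝓞 K)} (hp : p ≠ ⊥) [p.IsPrime] (n : ℕ) :
    ∃ c : (L ≃ₐ[K] L) → ℂ, ∀ χ : (L ≃ₐ[K] L) → ℂ, frobMean K L χ p n = ∑ g, χ g * c g := by
  refine ⟨fun g => (∑ P ∈ (pr_finite L hp).toFinset, if Fr P (absNorm p ^ n) g then 1 else 0) /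
    (frobSet K L p n).ncard, fun χ => ?_⟩
  rw [frobMean, sum_frobSet hp n (fun x => χ x.2), Finset.sum_comm, Finset.sum_div]
  refine Finset.sum_congr rfl fun g _ => ?_
  rw [mul_div_assoc', Finset.mul_sum]
  congr 1
  refine Finset.sum_congr rfl fun P _ => ?_
  split_ifs <;> simp

/-- summability of the weighted terms -/
lemma summable_w (χ : (L ≃ₐ[K] L) → ℂ) (a : HeightOneSpectrum (𝓞 K) × ℕ+ → ℂ)
    (ha : ∀ x, ‖a x‖ ≤ (absNorm x.1.asIdeal : ℝ) ^ (x.2 : ℕ)) {s : ℂ} (hs : 2 < s.re) :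
    Summable (fun x => a x * logTerm K L χ s x) := by
  obtain ⟨C, hC, hb⟩ := frobMean_bound χ
  have h1 : Summable (logTerm K L (fun _ => 1) (s - 1)) :=
    logTerm_summable _ (by rw [Complex.sub_re, Complex.one_re]; linarith)
  refine Summable.of_norm_bounded (h1.norm.mul_left C) fun x => ?_
  rw [logTerm_one, logTerm, norm_mul, norm_div, norm_div, norm_one, norm_mul, norm_mul,
    Complex.norm_natCast]
  have hN : (2 : ℝ) ≤ (absNorm x.1.asIdeal : ℕ) := by exact_mod_cast two_le_absNorm x.1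
  have hN0 : (0 : ℝ) < (absNorm x.1.asIdeal : ℕ) := by linarith
  have h5 : ∀ t : ℂ, ‖(absNorm x.1.asIdeal : ℂ) ^ (((x.2 : ℕ) : ℂ) * t)‖
      = ((absNorm x.1.asIdeal : ℕ) : ℝ) ^ ((x.2 : ℕ) * t.re) := by
    intro t
    have h6 := Complex.norm_cpow_eq_rpow_re_of_pos hN0 (((x.2 : ℕ) : ℂ) * t)
    have h7 : (((x.2 : ℕ) : ℂ) * t).re = (x.2 : ℕ) * t.re := by
      rw [Complex.mul_re, Complex.natCast_re, Complex.natCast_im, zero_mul, sub_zero]
    rw [h7] at h6
    exact_mod_cast h6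
  rw [h5, h5, Complex.sub_re, Complex.one_re]
  have hn1 : (0 : ℝ) < (x.2 : ℕ) := by exact_mod_cast x.2.pos
  have h8 : ∀ t : ℝ, (0 : ℝ) < ((absNorm x.1.asIdeal : ℕ) : ℝ) ^ t := fun t =>
    Real.rpow_pos_of_pos hN0 _
  have h9 : ((absNorm x.1.asIdeal : ℕ) : ℝ) ^ ((x.2 : ℕ) * s.re) =
      ((absNorm x.1.asIdeal : ℕ) : ℝ) ^ ((x.2 : ℕ) * (s.re - 1)) *
        (absNorm x.1.asIdeal : ℝ) ^ (x.2 : ℕ) := by
    rw [← Real.rpow_natCast, ← Real.rpow_add hN0]
    congr 1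
    ring
  rw [h9]
  have h10 : (0 : ℝ) < (absNorm x.1.asIdeal : ℝ) ^ (x.2 : ℕ) := pow_pos hN0 _
  calc ‖a x‖ * (‖frobMean K L χ x.1.asIdeal (x.2 : ℕ)‖ / ((x.2 : ℕ) *
        (((absNorm x.1.asIdeal : ℕ) : ℝ) ^ ((x.2 : ℕ) * (s.re - 1)) *
        (absNorm x.1.asIdeal : ℝ) ^ (x.2 : ℕ))))
      ≤ (absNorm x.1.asIdeal : ℝ) ^ (x.2 : ℕ) * (C / ((x.2 : ℕ) *
        (((absNorm x.1.asIdeal : ℕ) : ℝ) ^ ((x.2 : ℕ) * (s.re - 1)) *
        (absNorm x.1.asIdeal : ℝ) ^ (x.2 : ℕ)))) := by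
        refine mul_le_mul (ha x) ?_ ?_ h10.le
        · refine div_le_div_of_nonneg_right (hb x.1 x.2) ?_
          have := h8 ((x.2 : ℕ) * (s.re - 1))
          positivity
        · have := h8 ((x.2 : ℕ) * (s.re - 1))
          positivity
    _ = C * (1 / ((x.2 : ℕ) * ((absNorm x.1.asIdeal : ℕ) : ℝ) ^ ((x.2 : ℕ) * (s.re - 1)))) := by
        have := h8 ((x.2 : ℕ) * (s.re - 1))
        field_simp

end terms

end Pool.Agent.Run7.h508.BR
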