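import Mathlib
import Pool.Agent.Run7.h508.BR.LF

/-!
# The logarithm of the L-function as a function of number fields
-/

set_option autoImplicit false
set_option linter.unusedSectionVars false

namespace Pool.Agent.Run7.h508.BR

open NumberField Ideal Pool.Agent.K4H74.ST Pool.Agent.K4H74.SC IsDedekindDomain Pool.Agent.R389
open scoped Pointwise Topology

/-- the term of a prime power -/
noncomputable def tm {K : Type} [Field K] [NumberField K] (a : HeightOneSpectrum (𝓞 K) × ℕ+ → ℂ)
    (s : ℂ) (x : HeightOneSpectrum (𝓞 K) × ℕ+) : ℂ :=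
  a x / ((x.2 : ℕ) * (absNorm x.1.asIdeal : ℂ) ^ (((x.2 : ℕ) : ℂ) * s))

/-- the sum over the prime powers of `K`, with weights which come from `k` -/
noncomputable def Lam {k : Type} [Field k] [NumberField k]
    (a : HeightOneSpectrum (𝓞 k) × ℕ+ → ℂ) (K : Type) [Field K] [NumberField K] [Algebra k K]
    (s : ℂ) : ℂ := ∑' x : HeightOneSpectrum (𝓞 K) × ℕ+, tm (fun x => a (idx k x)) s x

section lfun

variable {k : Type} [Field k] [NumberField k] (a : HeightOneSpectrum (𝓞 k) × ℕ+ → ℂ)

lemma bound_idx (ha : ∀ x, ‖a x‖ ≤ (absNorm x.1.asIdeal : ℝ) ^ (x.2 : ℕ)) {K : Type} [Field K]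
    [NumberField K] [Algebra k K] (x : HeightOneSpectrum (𝓞 K) × ℕ+) :
    ‖a (idx k x)‖ ≤ (absNorm x.1.asIdeal : ℝ) ^ (x.2 : ℕ) := by
  refine (ha _).trans ?_
  have := x.1.isPrime
  have h1 : (x.1.asIdeal).LiesOver (belowP k x.1).asIdeal := ⟨rfl⟩
  have := (belowP k x.1).isPrime
  have h2 := Ideal.absNorm_pow_inertiaDeg (belowP k x.1).asIdeal x.1.asIdeal
  change (absNorm (belowP k x.1).asIdeal : ℝ) ^ (x.1.asIdeal.inertiaDeg (𝓞 k) * (x.2 : ℕ)) ≤ _
  rw [pow_mul, ← h2]
  push_cast
  exact le_rfl

/-- the sum in terms of a Galois extension -/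
lemma lam_eq (ha : ∀ x, ‖a x‖ ≤ (absNorm x.1.asIdeal : ℝ) ^ (x.2 : ℕ)) (K N : Type) [Field K]
    [NumberField K] [Algebra k K] [Field N] [NumberField N] [Algebra k N] [Algebra K N]
    [IsScalarTower k K N] [IsGalois k N] {s : ℂ} (hs : 2 < s.re) :
    Lam a K s = ∑' b, a b * logTerm k N (indChar k K N (fun _ => 1)) s b := by
  have hfin : FiniteDimensional k N := Module.Finite.of_restrictScalars_finite ℚ k N
  have hKN : IsGalois K N := IsGalois.tower_top_of_isGalois k K N
  have h1 : ∀ x : HeightOneSpectrum (𝓞 K) × ℕ+, tm (fun x => a (idx k x)) s x =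
      a (idx k x) * logTerm K N (fun _ => 1) s x := by
    intro x
    rw [logTerm_one, tm, mul_one_div]
  rw [Lam]
  simp only [h1]
  have h2 := summable_w (K := K) (L := N) (fun _ => 1) (fun x => a (idx k x)) (bound_idx a ha) hs
  exact (hasSum_ind_w (K := k) a h2.hasSum).tsum_eq.symm

/-- the indicator of a conjugacy class, with multiplicity -/
noncomputable def cl {G : Type} [Group G] (h g : G) : ℂ := Nat.card {x : G // x * h * x⁻¹ = g}

lemma ind_cl {G : Type} [Group G] [Fintype G] (H : Subgroup G) [DecidablePred (· ∈ H)] (g : G) :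
    (Nat.card H : ℂ) * ind H (fun _ => (1 : ℂ)) g = ∑ h : G, if h ∈ H then cl h g else 0 := by
  classical
  rw [ind, ← mul_assoc, mul_inv_cancel₀ (by exact_mod_cast Nat.card_pos.ne'), one_mul,
    finsum_eq_sum_of_fintype]
  have h1 : ∀ h : G, (if h ∈ H then cl h g else 0) =
      ∑ x : G, if h ∈ H ∧ x * h * x⁻¹ = g then (1 : ℂ) else 0 := by
    intro h
    by_cases hh : h ∈ H
    · rw [if_pos hh, cl, Nat.card_eq_fintype_card, Fintype.card_subtype, Finset.card_filter]
      push_cast
      refine Finset.sum_congr rfl fun x _ => ?_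
      simp only [hh, true_and]
    · simp only [hh, false_and, if_false, Finset.sum_const_zero]
  simp only [h1]
  rw [Finset.sum_comm]
  refine Finset.sum_congr rfl fun x _ => ?_
  rw [Finset.sum_eq_single (x⁻¹ * g * x)]
  · have h2 : x * (x⁻¹ * g * x) * x⁻¹ = g := by group
    unfold Pool.Agent.R389.ext
    by_cases h3 : x⁻¹ * g * x ∈ H
    · rw [dif_pos h3, if_pos ⟨h3, h2⟩]
    · rw [dif_neg h3, if_neg (fun h => h3 h.1)]
  · intro h _ hne
    rw [if_neg]
    rintro ⟨-, h2⟩
    apply hne
    rw [← h2]
    group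
  · intro h
    exact absurd (Finset.mem_univ _) h

open Classical in
/-- **the mean value property** -/
theorem lam_mean (ha : ∀ x, ‖a x‖ ≤ (absNorm x.1.asIdeal : ℝ) ^ (x.2 : ℕ)) (N : Type) [Field N]
    [NumberField N] [Algebra k N] [IsGalois k N] :
    IsMean (fun h : N ≃ₐ[k] N => fun s : ℂ => if 2 < s.re then
        ∑' b, a b * logTerm k N (cl h) s b else 0)
      (fun H => fun s => if 2 < s.re then Lam a (IntermediateField.fixedField H) s else 0) := by
  intro H
  have hfin : FiniteDimensional k N := Module.Finite.of_restrictScalars_finite ℚ k N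
  have := Fintype.ofFinite (N ≃ₐ[k] N)
  rw [tot_eq]
  funext s
  rw [Finset.sum_apply]
  have hF : IsScalarTower k (IntermediateField.fixedField H) N := inferInstance
  by_cases hs : 2 < s.re
  · have h1 : (Nat.card H • fun s : ℂ => if 2 < s.re then
        Lam a (IntermediateField.fixedField H) s else 0) s =
        (Nat.card H : ℂ) * Lam a (IntermediateField.fixedField H) s := by
      rw [Pi.smul_apply, if_pos hs, nsmul_eq_mul]
    rw [h1, lam_eq a ha (IntermediateField.fixedField H) N hs, ← tsum_mul_left]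
    have h2 : ∀ g : N ≃ₐ[k] N, (if g ∈ H then (fun s : ℂ => if 2 < s.re then
        ∑' b, a b * logTerm k N (cl g) s b else 0) else 0) s =
        ∑' b, a b * (if g ∈ H then logTerm k N (cl g) s b else 0) := by
      intro g
      by_cases hg : g ∈ H
      · simp only [if_pos hg, if_pos hs]
      · simp only [if_neg hg, mul_zero, tsum_zero, Pi.zero_apply]
    simp only [h2]
    rw [← Summable.tsum_finsetSum]
    · congr 1
      funext b
      rw [← mul_assoc, mul_comm (Nat.card H : ℂ), mul_assoc, ← Finset.mul_sum]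
      congr 1
      -- the linear functional
      have := b.1.isPrime
      obtain ⟨c, hc⟩ := frobMean_repr (K := k) (L := N) b.1.ne_bot (b.2 : ℕ)
      have h3 : indChar k (IntermediateField.fixedField H) N (fun _ => 1) =
          ind H (fun _ => (1 : ℂ)) := (ind_fixed H (fun _ => 1)).symm
      rw [h3, logTerm, hc, mul_div_assoc', Finset.mul_sum]
      have h4 : ∀ g : N ≃ₐ[k] N, (if g ∈ H then logTerm k N (cl g) s b else 0) =
          (∑ x : N ≃ₐ[k] N, (if g ∈ H then cl g x else 0) * c x) /
          ((b.2 : ℕ) * (absNorm b.1.asIdeal : ℂ) ^ (((b.2 : ℕ) : ℂ) * s)) := by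
        intro g
        by_cases hg : g ∈ H
        · simp only [if_pos hg]
          rw [logTerm, hc]
        · simp only [if_neg hg, zero_mul, Finset.sum_const_zero, zero_div]
      simp only [h4]
      rw [← Finset.sum_div, Finset.sum_comm]
      congr 1
      refine Finset.sum_congr rfl fun x _ => ?_
      rw [← mul_assoc, ind_cl H x, Finset.sum_mul]
    · intro g _
      by_cases hg : g ∈ H
      · simp only [if_pos hg]
        exact summable_w _ a ha hs
      · simp only [if_neg hg, mul_zero]
        exact summable_zero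
  · have h1 : (Nat.card H • fun s : ℂ => if 2 < s.re then
        Lam a (IntermediateField.fixedField H) s else 0) s = 0 := by
      rw [Pi.smul_apply, if_neg hs, smul_zero]
    rw [h1]
    symm
    refine Finset.sum_eq_zero fun g _ => ?_
    by_cases hg : g ∈ H
    · simp only [if_pos hg, if_neg hs]
    · simp only [if_neg hg, Pi.zero_apply]

/-- induced characters and isomorphisms -/
lemma indChar_iso (K K' N : Type) [Field K] [Field K'] [Field N] [Algebra k K] [Algebra k K']
    [Algebra k N] [Algebra K N] [Algebra K' N] [IsScalarTower k K N] [IsScalarTower k K' N]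
    (e : K ≃ₐ[k] K') (he : ∀ x : K, algebraMap K' N (e x) = algebraMap K N x) :
    indChar k K' N (fun _ => 1) = indChar k K N (fun _ => 1) := by
  funext g
  let E : (N ≃ₐ[K] N) ≃ (N ≃ₐ[K'] N) :=
    { toFun := fun h => AlgEquiv.ofRingEquiv (f := h.toRingEquiv) (fun x => by
        obtain ⟨y, rfl⟩ := e.surjective x
        rw [he]
        exact h.commutes y)
      invFun := fun h => AlgEquiv.ofRingEquiv (f := h.toRingEquiv) (fun x => by
        rw [← he]
        exact h.commutes (e x))
      left_inv := fun h => by ext x; rfl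
      right_inv := fun h => by ext x; rfl }
  rw [indChar, indChar, Nat.card_congr E]
  congr 1
  refine finsum_congr fun x => ?_
  rw [← finsum_comp_equiv E]
  refine finsum_congr fun h => ?_
  rfl

theorem lam_iso (ha : ∀ x, ‖a x‖ ≤ (absNorm x.1.asIdeal : ℝ) ^ (x.2 : ℕ)) (K K' : Type) [Field K]
    [NumberField K] [Algebra k K] [Field K'] [NumberField K'] [Algebra k K'] (e : K ≃ₐ[k] K')
    {s : ℂ} (hs : 2 < s.re) : Lam a K s = Lam a K' s := by
  obtain ⟨N, i1, i2, i3, i4, i5, i6, i7, i8⟩ := exists_common k K K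
  let f : K' →+* N := (algebraMap K N).comp (e.symm : K' →+* K)
  let _ : Algebra K' N := f.toAlgebra
  have hf : ∀ x, algebraMap K' N x = algebraMap K N (e.symm x) := fun x => rfl
  have ht : IsScalarTower k K' N := by
    refine IsScalarTower.of_algebraMap_eq fun x => ?_
    rw [hf, AlgEquiv.commutes, ← IsScalarTower.algebraMap_apply k K N]
  rw [lam_eq a ha K N hs, lam_eq a ha K' N hs, indChar_iso K K' N e (fun x => by
    rw [hf, AlgEquiv.symm_apply_apply])]

open Classical in
/-- the logarithms of the L-functions as a function of number fields -/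
noncomputable def lfun (ha : ∀ x, ‖a x‖ ≤ (absNorm x.1.asIdeal : ℝ) ^ (x.2 : ℕ)) :
    FieldFun k (ℂ → ℂ) where
  f := fun K _ _ _ => fun s => if 2 < s.re then Lam a K s else 0
  iso := fun K K' _ _ _ _ _ _ e => by
    funext s
    by_cases hs : 2 < s.re
    · simp only [if_pos hs]
      exact lam_iso a ha K K' e hs
    · simp only [if_neg hs]
  mean := fun N _ _ _ _ => ⟨_, lam_mean a ha N⟩

end lfun

end Pool.Agent.Run7.h508.BR
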