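import Mathlib
import Pool.Agent.Run7.h508.BR.LFun
import Pool.Agent.Run7.h508.BR.Base

/-!
# L-functions with general weights as functions of number fields
-/

set_option autoImplicit false
set_option linter.unusedSectionVars false

namespace Pool.Agent.Run7.h508.BR

open NumberField Ideal Pool.Agent.K4H74.ST Pool.Agent.K4H74.SC IsDedekindDomain Pool.Agent.R389
open scoped Pointwise Topology

/-- summability of the weighted terms -/
lemma summable_g {K L : Type} [Field K] [NumberField K] [Field L] [NumberField L] [Algebra K L]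
    [IsGalois K L] {C b : ℝ} (χ : (L ≃ₐ[K] L) → ℂ) (a : HeightOneSpectrum (𝓞 K) × ℕ+ → ℂ)
    (ha : ∀ x, ‖a x‖ ≤ C * (absNorm x.1.asIdeal : ℝ) ^ (b * (x.2 : ℕ))) {s : ℂ}
    (hs : b + 1 < s.re) : Summable (fun x => a x * logTerm K L χ s x) := by
  obtain ⟨C', hC', hb⟩ := frobMean_bound χ
  have h1 : Summable (logTerm K L (fun _ => 1) (s - b)) :=
    logTerm_summable _ (by rw [Complex.sub_re, Complex.ofReal_re]; linarith)
  refine Summable.of_norm_bounded (h1.norm.mul_left (C * C')) fun x => ?_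
  rw [logTerm_one, logTerm, norm_mul, norm_div, norm_div, norm_one, norm_mul, norm_mul,
    Complex.norm_natCast]
  have hN : (2 : ℝ) ≤ (absNorm x.1.asIdeal : ℕ) := by exact_mod_cast two_le_absNorm x.1
  have hN0 : (0 : ℝ) < (absNorm x.1.asIdeal : ℕ) := by linarith
  have h5 : ∀ t : ℂ, ‖(absNorm x.1.asIdeal : ℂ) ^ (((x.2 : ℕ) : ℂ) * t)‖
      = ((absNorm x.1.asIdeal : ℕ) : ℝ) ^ ((x.2 : ℕ) * t.re) := by
    intro t
    have h6 := Complex.norm_cpow_eq_rpow_re_of_pos hN0 (((x.2 : ℕ) : ℂ) * t)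
    have h7 : (((x.2 : ℕ) : ℂ) * t).re = (x.2 : ℕ) * t.re := by
      rw [Complex.mul_re, Complex.natCast_re, Complex.natCast_im, zero_mul, sub_zero]
    rw [h7] at h6
    exact_mod_cast h6
  rw [h5, h5, Complex.sub_re, Complex.ofReal_re]
  have hn1 : (0 : ℝ) < (x.2 : ℕ) := by exact_mod_cast x.2.pos
  have h8 : ∀ t : ℝ, (0 : ℝ) < ((absNorm x.1.asIdeal : ℕ) : ℝ) ^ t := fun t =>
    Real.rpow_pos_of_pos hN0 _
  have h9 : ((absNorm x.1.asIdeal : ℕ) : ℝ) ^ ((x.2 : ℕ) * s.re) =
      ((absNorm x.1.asIdeal : ℕ) : ℝ) ^ ((x.2 : ℕ) * (s.re - b)) *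
        (absNorm x.1.asIdeal : ℝ) ^ (b * (x.2 : ℕ)) := by
    rw [← Real.rpow_add hN0]
    congr 1
    ring
  rw [h9]
  have h10 : (0 : ℝ) < (absNorm x.1.asIdeal : ℝ) ^ (b * (x.2 : ℕ)) := h8 _
  have hC : 0 ≤ C := by
    have h11 := (norm_nonneg _).trans (ha x)
    exact nonneg_of_mul_nonneg_left h11 h10
  calc ‖a x‖ * (‖frobMean K L χ x.1.asIdeal (x.2 : ℕ)‖ / ((x.2 : ℕ) *
        (((absNorm x.1.asIdeal : ℕ) : ℝ) ^ ((x.2 : ℕ) * (s.re - b)) *
        (absNorm x.1.asIdeal : ℝ) ^ (b * (x.2 : ℕ)))))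
      ≤ (C * (absNorm x.1.asIdeal : ℝ) ^ (b * (x.2 : ℕ))) * (C' / ((x.2 : ℕ) *
        (((absNorm x.1.asIdeal : ℕ) : ℝ) ^ ((x.2 : ℕ) * (s.re - b)) *
        (absNorm x.1.asIdeal : ℝ) ^ (b * (x.2 : ℕ))))) := by
        refine mul_le_mul (ha x) ?_ ?_ (mul_nonneg hC h10.le)
        · refine div_le_div_of_nonneg_right (hb x.1 x.2) ?_
          have := h8 ((x.2 : ℕ) * (s.re - b))
          positivity
        · have := h8 ((x.2 : ℕ) * (s.re - b))
          positivity
    _ = C * C' * (1 / ((x.2 : ℕ) * ((absNorm x.1.asIdeal : ℕ) : ℝ) ^ ((x.2 : ℕ) * (s.re - b)))) := by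
        have := h8 ((x.2 : ℕ) * (s.re - b))
        field_simp

section gfun

variable {k : Type} [Field k] [NumberField k] (a : HeightOneSpectrum (𝓞 k) × ℕ+ → ℂ)
  {C b : ℝ}

lemma bound_idx_g (ha : ∀ x, ‖a x‖ ≤ C * (absNorm x.1.asIdeal : ℝ) ^ (b * (x.2 : ℕ))) {K : Type} [Field K]
    [NumberField K] [Algebra k K] (x : HeightOneSpectrum (𝓞 K) × ℕ+) :
    ‖a (idx k x)‖ ≤ C * (absNorm x.1.asIdeal : ℝ) ^ (b * (x.2 : ℕ)) := by
  refine (ha _).trans ?_
  have := x.1.isPrime
  have h1 : (x.1.asIdeal).LiesOver (belowP k x.1).asIdeal := ⟨rfl⟩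
  have := (belowP k x.1).isPrime
  have h2 := Ideal.absNorm_pow_inertiaDeg (belowP k x.1).asIdeal x.1.asIdeal
  change C * (absNorm (belowP k x.1).asIdeal : ℝ) ^
    (b * ((x.1.asIdeal.inertiaDeg (𝓞 k) * (x.2 : ℕ) : ℕ) : ℝ)) ≤ _
  have h3 : (0 : ℝ) ≤ (absNorm (belowP k x.1).asIdeal : ℝ) := Nat.cast_nonneg _
  have h4 : b * ((x.1.asIdeal.inertiaDeg (𝓞 k) * (x.2 : ℕ) : ℕ) : ℝ) =
      (x.1.asIdeal.inertiaDeg (𝓞 k) : ℝ) * (b * (x.2 : ℕ)) := by
    push_cast
    ring
  rw [h4, Real.rpow_mul h3, Real.rpow_natCast, ← h2]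
  push_cast
  exact le_rfl

/-- the sum in terms of a Galois extension -/
lemma lam_eq_g (ha : ∀ x, ‖a x‖ ≤ C * (absNorm x.1.asIdeal : ℝ) ^ (b * (x.2 : ℕ))) (K N : Type) [Field K]
    [NumberField K] [Algebra k K] [Field N] [NumberField N] [Algebra k N] [Algebra K N]
    [IsScalarTower k K N] [IsGalois k N] {s : ℂ} (hs : b + 1 < s.re) :
    Lam a K s = ∑' b, a b * logTerm k N (indChar k K N (fun _ => 1)) s b := by
  have hfin : FiniteDimensional k N := Module.Finite.of_restrictScalars_finite ℚ k N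
  have hKN : IsGalois K N := IsGalois.tower_top_of_isGalois k K N
  have h1 : ∀ x : HeightOneSpectrum (𝓞 K) × ℕ+, tm (fun x => a (idx k x)) s x =
      a (idx k x) * logTerm K N (fun _ => 1) s x := by
    intro x
    rw [logTerm_one, tm, mul_one_div]
  rw [Lam]
  simp only [h1]
  have h2 := summable_g (K := K) (L := N) (fun _ => 1) (fun x => a (idx k x)) (bound_idx_g a ha) hs
  exact (hasSum_ind_w (K := k) a h2.hasSum).tsum_eq.symm

open Classical in
/-- **the mean value property** -/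
theorem lam_mean_g (ha : ∀ x, ‖a x‖ ≤ C * (absNorm x.1.asIdeal : ℝ) ^ (b * (x.2 : ℕ))) (N : Type) [Field N]
    [NumberField N] [Algebra k N] [IsGalois k N] :
    IsMean (fun h : N ≃ₐ[k] N => fun s : ℂ => if b + 1 < s.re then
        ∑' b, a b * logTerm k N (cl h) s b else 0)
      (fun H => fun s => if b + 1 < s.re then Lam a (IntermediateField.fixedField H) s else 0) := by
  intro H
  have hfin : FiniteDimensional k N := Module.Finite.of_restrictScalars_finite ℚ k N
  have := Fintype.ofFinite (N ≃ₐ[k] N)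
  rw [tot_eq]
  funext s
  rw [Finset.sum_apply]
  have hF : IsScalarTower k (IntermediateField.fixedField H) N := inferInstance
  by_cases hs : b + 1 < s.re
  · have h1 : (Nat.card H • fun s : ℂ => if b + 1 < s.re then
        Lam a (IntermediateField.fixedField H) s else 0) s =
        (Nat.card H : ℂ) * Lam a (IntermediateField.fixedField H) s := by
      rw [Pi.smul_apply, if_pos hs, nsmul_eq_mul]
    rw [h1, lam_eq_g a ha (IntermediateField.fixedField H) N hs, ← tsum_mul_left]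
    have h2 : ∀ g : N ≃ₐ[k] N, (if g ∈ H then (fun s : ℂ => if b + 1 < s.re then
        ∑' b, a b * logTerm k N (cl g) s b else 0) else 0) s =
        ∑' b, a b * (if g ∈ H then logTerm k N (cl g) s b else 0) := by
      intro g
      by_cases hg : g ∈ H
      · simp only [if_pos hg, if_pos hs]
      · simp only [if_neg hg, mul_zero, tsum_zero, Pi.zero_apply]
    simp only [h2]
    rw [← Summable.tsum_finsetSum]
    · congr 1
      funext b
      rw [← mul_assoc, mul_comm (Nat.card H : ℂ), mul_assoc, ← Finset.mul_sum]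
      congr 1
      -- the linear functional
      have := b.1.isPrime
      obtain ⟨c, hc⟩ := frobMean_repr (K := k) (L := N) b.1.ne_bot (b.2 : ℕ)
      have h3 : indChar k (IntermediateField.fixedField H) N (fun _ => 1) =
          ind H (fun _ => (1 : ℂ)) := (ind_fixed H (fun _ => 1)).symm
      rw [h3, logTerm, hc, mul_div_assoc', Finset.mul_sum]
      have h4 : ∀ g : N ≃ₐ[k] N, (if g ∈ H then logTerm k N (cl g) s b else 0) =
          (∑ x : N ≃ₐ[k] N, (if g ∈ H then cl g x else 0) * c x) /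
          ((b.2 : ℕ) * (absNorm b.1.asIdeal : ℂ) ^ (((b.2 : ℕ) : ℂ) * s)) := by
        intro g
        by_cases hg : g ∈ H
        · simp only [if_pos hg]
          rw [logTerm, hc]
        · simp only [if_neg hg, zero_mul, Finset.sum_const_zero, zero_div]
      simp only [h4]
      rw [← Finset.sum_div, Finset.sum_comm]
      congr 1
      refine Finset.sum_congr rfl fun x _ => ?_
      rw [← mul_assoc, ind_cl H x, Finset.sum_mul]
    · intro g _
      by_cases hg : g ∈ H
      · simp only [if_pos hg]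
        exact summable_g _ a ha hs
      · simp only [if_neg hg, mul_zero]
        exact summable_zero
  · have h1 : (Nat.card H • fun s : ℂ => if b + 1 < s.re then
        Lam a (IntermediateField.fixedField H) s else 0) s = 0 := by
      rw [Pi.smul_apply, if_neg hs, smul_zero]
    rw [h1]
    symm
    refine Finset.sum_eq_zero fun g _ => ?_
    by_cases hg : g ∈ H
    · simp only [if_pos hg, if_neg hs]
    · simp only [if_neg hg, Pi.zero_apply]

theorem lam_iso_g (ha : ∀ x, ‖a x‖ ≤ C * (absNorm x.1.asIdeal : ℝ) ^ (b * (x.2 : ℕ))) (K K' : Type) [Field K]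
    [NumberField K] [Algebra k K] [Field K'] [NumberField K'] [Algebra k K'] (e : K ≃ₐ[k] K')
    {s : ℂ} (hs : b + 1 < s.re) : Lam a K s = Lam a K' s := by
  obtain ⟨N, i1, i2, i3, i4, i5, i6, i7, i8⟩ := exists_common k K K
  let f : K' →+* N := (algebraMap K N).comp (e.symm : K' →+* K)
  let _ : Algebra K' N := f.toAlgebra
  have hf : ∀ x, algebraMap K' N x = algebraMap K N (e.symm x) := fun x => rfl
  have ht : IsScalarTower k K' N := by
    refine IsScalarTower.of_algebraMap_eq fun x => ?_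
    rw [hf, AlgEquiv.commutes, ← IsScalarTower.algebraMap_apply k K N]
  rw [lam_eq_g a ha K N hs, lam_eq_g a ha K' N hs, indChar_iso K K' N e (fun x => by
    rw [hf, AlgEquiv.symm_apply_apply])]

open Classical in
/-- the logarithms of the L-functions as a function of number fields -/
noncomputable def gfun (ha : ∀ x, ‖a x‖ ≤ C * (absNorm x.1.asIdeal : ℝ) ^ (b * (x.2 : ℕ))) :
    FieldFun k (ℂ → ℂ) where
  f := fun K _ _ _ => fun s => if b + 1 < s.re then Lam a K s else 0
  iso := fun K K' _ _ _ _ _ _ e => by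
    funext s
    by_cases hs : b + 1 < s.re
    · simp only [if_pos hs]
      exact lam_iso_g a ha K K' e hs
    · simp only [if_neg hs]
  mean := fun N _ _ _ _ => ⟨_, lam_mean_g a ha N⟩

end gfun

end Pool.Agent.Run7.h508.BR
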