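import Mathlib
import Pool.Agent.Run7.h508.BR.LG
import Pool.Agent.Run7.h508.BR.Cont
import Pool.Agent.Run7.h508.BR.Desc

/-!
# Sums over primes as functions of number fields
-/

set_option autoImplicit false
set_option linter.unusedSectionVars false

namespace Pool.Agent.Run7.h508.BR

open NumberField Ideal Pool.Agent.K4H74.ST Pool.Agent.K4H74.SC IsDedekindDomain Pool.Agent.R389
open scoped Pointwise Topology

section piV

variable {k : Type} [Field k] [NumberField k]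

/-- a family of functions -/
noncomputable def FieldFun.piV {J V : Type} [AddCommGroup V] (A : J → FieldFun k V) :
    FieldFun k (J → V) where
  f := fun K _ _ _ => fun j => (A j).f K
  iso := fun K K' _ _ _ _ _ _ e => by
    funext j
    rw [(A j).iso K K' e]
  mean := fun N _ _ _ _ => by
    classical
    have hfin : FiniteDimensional k N := Module.Finite.of_restrictScalars_finite ℚ k N
    have := Fintype.ofFinite (N ≃ₐ[k] N)
    choose φ hφ using fun j => (A j).mean N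
    refine ⟨fun g j => φ j g, fun H => ?_⟩
    rw [tot, finsum_eq_sum_of_fintype]
    funext j
    have h1 := hφ j H
    rw [tot, finsum_eq_sum_of_fintype] at h1
    rw [Finset.sum_apply]
    change Nat.card H • (A j).f (IntermediateField.fixedField H) = _
    rw [h1]
    refine Finset.sum_congr rfl fun g _ => ?_
    split_ifs <;> rfl

end piV

section psi

variable {k : Type} [Field k] [NumberField k] (a : HeightOneSpectrum (𝓞 k) × ℕ+ → ℂ)

open Classical in
/-- the term of a prime power -/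
noncomputable def psiTerm (K : Type) [Field K] [NumberField K] [Algebra k K] (T : ℝ)
    (x : HeightOneSpectrum (𝓞 K) × ℕ+) : ℂ :=
  if (absNorm x.1.asIdeal : ℝ) ^ (x.2 : ℕ) ≤ T then
    a (idx k x) * (Real.log (absNorm x.1.asIdeal) : ℂ) else 0

/-- the sum over the prime powers -/
noncomputable def Psi (K : Type) [Field K] [NumberField K] [Algebra k K] (T : ℝ) : ℂ :=
  ∑' x : HeightOneSpectrum (𝓞 K) × ℕ+, psiTerm a K T x

open Classical in
/-- the weights -/
noncomputable def wT (T : ℝ) (y : HeightOneSpectrum (𝓞 k) × ℕ+) : ℂ :=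
  if (absNorm y.1.asIdeal : ℝ) ^ (y.2 : ℕ) ≤ T then
    a y * ((y.2 : ℕ) : ℂ) * (Real.log (absNorm y.1.asIdeal) : ℂ) *
      (absNorm y.1.asIdeal : ℂ) ^ ((y.2 : ℕ) * 4) else 0

lemma norm_below {K : Type} [Field K] [NumberField K] [Algebra k K]
    (x : HeightOneSpectrum (𝓞 K) × ℕ+) :
    absNorm (belowP k x.1).asIdeal ^ (x.1.asIdeal.inertiaDeg (𝓞 k)) = absNorm x.1.asIdeal := by
  have := x.1.isPrime
  have h1 : (x.1.asIdeal).LiesOver (belowP k x.1).asIdeal := ⟨rfl⟩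
  have := (belowP k x.1).isPrime
  rw [← Ideal.absNorm_pow_inertiaDeg (belowP k x.1).asIdeal x.1.asIdeal]

lemma idx_pow {K : Type} [Field K] [NumberField K] [Algebra k K]
    (x : HeightOneSpectrum (𝓞 K) × ℕ+) :
    absNorm (idx k x).1.asIdeal ^ ((idx k x).2 : ℕ) = absNorm x.1.asIdeal ^ (x.2 : ℕ) := by
  change absNorm (belowP k x.1).asIdeal ^ (x.1.asIdeal.inertiaDeg (𝓞 k) * (x.2 : ℕ)) = _
  rw [pow_mul, norm_below]

lemma tm_wT (K : Type) [Field K] [NumberField K] [Algebra k K] (T : ℝ)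
    (x : HeightOneSpectrum (𝓞 K) × ℕ+) :
    tm (fun x => wT a T (idx k x)) 4 x = psiTerm a K T x := by
  have h1 := idx_pow (k := k) x
  have h2 : ((absNorm (idx k x).1.asIdeal : ℝ)) ^ ((idx k x).2 : ℕ) =
      (absNorm x.1.asIdeal : ℝ) ^ (x.2 : ℕ) := by exact_mod_cast h1
  rw [tm, wT, psiTerm, h2]
  by_cases h : (absNorm x.1.asIdeal : ℝ) ^ (x.2 : ℕ) ≤ T
  · rw [if_pos h, if_pos h]
    have h3 : (absNorm (idx k x).1.asIdeal : ℂ) ^ (((idx k x).2 : ℕ) * 4) =
        (absNorm x.1.asIdeal : ℂ) ^ ((x.2 : ℕ) * 4) := by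
      rw [pow_mul, pow_mul]
      have h4 : (absNorm (idx k x).1.asIdeal : ℂ) ^ ((idx k x).2 : ℕ) =
        (absNorm x.1.asIdeal : ℂ) ^ (x.2 : ℕ) := by exact_mod_cast h1
      rw [h4]
    have h5 : (absNorm x.1.asIdeal : ℂ) ^ (((x.2 : ℕ) : ℂ) * 4) =
        (absNorm x.1.asIdeal : ℂ) ^ ((x.2 : ℕ) * 4) := by
      rw [← Complex.cpow_natCast]
      congr 1
      push_cast
      ring
    have h6 : (((idx k x).2 : ℕ) : ℂ) * (Real.log (absNorm (idx k x).1.asIdeal) : ℂ) =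
        ((x.2 : ℕ) : ℂ) * (Real.log (absNorm x.1.asIdeal) : ℂ) := by
      have h7 : (((idx k x).2 : ℕ) : ℝ) * Real.log (absNorm (idx k x).1.asIdeal) =
        ((x.2 : ℕ) : ℝ) * Real.log (absNorm x.1.asIdeal) := by
        rw [← Real.log_pow, ← Real.log_pow, h2]
      exact_mod_cast congrArg (fun z : ℝ => (z : ℂ)) h7
    have hN : (absNorm x.1.asIdeal : ℂ) ≠ 0 := by
      have := two_le_absNorm x.1
      exact_mod_cast (by omega : absNorm x.1.asIdeal ≠ 0)
    have hn : ((x.2 : ℕ) : ℂ) ≠ 0 := by exact_mod_cast x.2.pos.ne'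
    rw [h3, h5, mul_assoc (a (idx k x)), h6]
    field_simp
  · rw [if_neg h, if_neg h, zero_div]

lemma wT_bound {C : ℝ} (ha : ∀ y, ‖a y‖ ≤ C) (T : ℝ) (y : HeightOneSpectrum (𝓞 k) × ℕ+) :
    ‖wT a T y‖ ≤ (C * |T| ^ 6) * (absNorm y.1.asIdeal : ℝ) ^ ((0 : ℝ) * (y.2 : ℕ)) := by
  have hC : 0 ≤ C := (norm_nonneg _).trans (ha y)
  rw [zero_mul, Real.rpow_zero, mul_one, wT]
  by_cases h : (absNorm y.1.asIdeal : ℝ) ^ (y.2 : ℕ) ≤ T
  · rw [if_pos h]
    have h2 : (2 : ℝ) ≤ absNorm y.1.asIdeal := by exact_mod_cast two_le_absNorm y.1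
    have h1 : (1 : ℝ) ≤ absNorm y.1.asIdeal := by linarith
    have h0 : (0 : ℝ) < absNorm y.1.asIdeal := by linarith
    have hp : (1 : ℝ) ≤ (absNorm y.1.asIdeal : ℝ) ^ (y.2 : ℕ) := one_le_pow₀ h1
    have hT : 0 ≤ T := by linarith
    rw [abs_of_nonneg hT]
    have e1 : ((y.2 : ℕ) : ℝ) ≤ T := by
      have e2 : (y.2 : ℕ) < 2 ^ (y.2 : ℕ) := Nat.lt_two_pow_self
      have e3 : ((y.2 : ℕ) : ℝ) ≤ 2 ^ (y.2 : ℕ) := by exact_mod_cast e2.le
      exact e3.trans ((pow_le_pow_left₀ (by norm_num) h2 _).trans h)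
    have e4 : (absNorm y.1.asIdeal : ℝ) ≤ (absNorm y.1.asIdeal : ℝ) ^ (y.2 : ℕ) :=
      le_self_pow₀ h1 y.2.pos.ne'
    have e5 : |Real.log (absNorm y.1.asIdeal)| ≤ T := by
      rw [abs_of_nonneg (Real.log_nonneg h1)]
      have := Real.log_le_sub_one_of_pos h0
      linarith
    rw [norm_mul, norm_mul, norm_mul, Complex.norm_natCast, norm_pow, Complex.norm_natCast,
      Complex.norm_real, Real.norm_eq_abs, pow_mul]
    have e6 : ((absNorm y.1.asIdeal : ℝ) ^ (y.2 : ℕ)) ^ 4 ≤ T ^ 4 :=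
      pow_le_pow_left₀ (by positivity) h 4
    calc ‖a y‖ * ((y.2 : ℕ) : ℝ) * |Real.log (absNorm y.1.asIdeal)| *
        ((absNorm y.1.asIdeal : ℝ) ^ (y.2 : ℕ)) ^ 4 ≤ C * T * T * T ^ 4 := by
          have := ha y
          gcongr
      _ = C * T ^ 6 := by ring
  · rw [if_neg h, norm_zero]
    positivity

variable {C : ℝ} (ha : ∀ y, ‖a y‖ ≤ C)

/-- the value at `4` -/
def ev4 : (ℂ → ℂ) →+ ℂ where
  toFun := fun F => F 4
  map_zero' := rfl
  map_add' := fun _ _ => rfl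

/-- the sums over the prime powers as a function of number fields -/
noncomputable def psiFun : FieldFun k (ℝ → ℂ) :=
  FieldFun.piV fun T => (gfun (wT a T) (wT_bound a ha T)).comp ev4

lemma psiFun_f (K : Type) [Field K] [NumberField K] [Algebra k K] :
    (psiFun a ha).f K = Psi a K := by
  funext T
  change (if (0 : ℝ) + 1 < (4 : ℂ).re then Lam (wT a T) K 4 else 0) = _
  have h4 : (0 : ℝ) + 1 < (4 : ℂ).re := by
    have : (4 : ℂ).re = 4 := rfl
    rw [this]
    norm_num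
  rw [if_pos h4, Lam, Psi]
  exact tsum_congr fun x => tm_wT a K T x

include ha in
lemma psi_summable (K : Type) [Field K] [NumberField K] [Algebra k K] (T : ℝ) :
    Summable (psiTerm a K T) := by
  have h4 : (0 : ℝ) + 1 < (4 : ℂ).re := by
    have : (4 : ℂ).re = 4 := rfl
    rw [this]
    norm_num
  have h2 := summable_g (K := K) (L := K) (fun _ => 1) (fun x => wT a T (idx k x))
    (bound_idx_g (wT a T) (wT_bound a ha T)) h4
  refine h2.congr fun x => ?_
  rw [← tm_wT, logTerm_one, tm, mul_one_div]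

open Classical in
/-- the sum over the primes -/
noncomputable def PrimeSum (K : Type) [Field K] [NumberField K] [Algebra k K] (T : ℝ) : ℂ :=
  ∑' w : HeightOneSpectrum (𝓞 K), if (absNorm w.asIdeal : ℝ) ≤ T then
    a (idx k (w, 1)) * (Real.log (absNorm w.asIdeal) : ℂ) else 0

/-- the constant `2 ^ (-3/4)` -/
noncomputable def rh : ℝ := (2 : ℝ) ^ (-(3 / 4) : ℝ)

lemma rh_pos : 0 < rh := Real.rpow_pos_of_pos (by norm_num) _

lemma rh_lt : rh < 1 := Real.rpow_lt_one_of_one_lt_of_neg (by norm_num) (by norm_num)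

lemma log_tail {x T : ℝ} (hx : 2 ≤ x) {n : ℕ} (hn : 2 ≤ n) (h : x ^ n ≤ T) :
    Real.log x ≤ T ^ ((3 / 4) : ℝ) * ((4 * x ^ (-(5 / 4) : ℝ)) * (rh ^ n / rh ^ 2)) := by
  have hx0 : 0 < x := by linarith
  have h1 : Real.log x ≤ x ^ ((1 / 4) : ℝ) / (1 / 4) :=
    Real.log_le_rpow_div hx0.le (by norm_num)
  set y : ℝ := x ^ (-(3 / 4) : ℝ) with hy
  have hy0 : 0 < y := Real.rpow_pos_of_pos hx0 _
  have hyr : y ≤ rh := Real.rpow_le_rpow_of_nonpos (by norm_num) hx (by norm_num)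
  have hT : 0 < T := lt_of_lt_of_le (pow_pos hx0 n) h
  have h2 : (x ^ n) ^ ((3 / 4) : ℝ) ≤ T ^ ((3 / 4) : ℝ) :=
    Real.rpow_le_rpow (pow_nonneg hx0.le _) h (by norm_num)
  have h3 : (x ^ n) ^ ((3 / 4) : ℝ) * y ^ n = 1 := by
    rw [hy, ← Real.rpow_natCast x, ← Real.rpow_natCast (x ^ (-(3 / 4) : ℝ)), ← Real.rpow_mul hx0.le,
      ← Real.rpow_mul hx0.le, ← Real.rpow_add hx0]
    have : (n : ℝ) * (3 / 4) + -(3 / 4) * (n : ℝ) = 0 := by ring
    rw [this, Real.rpow_zero]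
  have h4 : 1 ≤ T ^ ((3 / 4) : ℝ) * y ^ n := by
    rw [← h3]
    exact mul_le_mul_of_nonneg_right h2 (pow_nonneg hy0.le _)
  have h5 : y ^ n ≤ y ^ 2 * (rh ^ n / rh ^ 2) := by
    obtain ⟨m, rfl⟩ := Nat.exists_eq_add_of_le hn
    rw [pow_add, pow_add, mul_div_cancel_left₀ _ (pow_pos rh_pos 2).ne']
    exact mul_le_mul_of_nonneg_left (pow_le_pow_left₀ hy0.le hyr m) (pow_nonneg hy0.le _)
  have h6 : x ^ ((1 / 4) : ℝ) * y ^ 2 = x ^ (-(5 / 4) : ℝ) := by
    rw [hy, ← Real.rpow_natCast (x ^ (-(3 / 4) : ℝ)), ← Real.rpow_mul hx0.le, ← Real.rpow_add hx0]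
    congr 1
    norm_num
  have hT0 : 0 ≤ T ^ ((3 / 4) : ℝ) := Real.rpow_nonneg hT.le _
  have hx1 : 0 ≤ x ^ ((1 / 4) : ℝ) := Real.rpow_nonneg hx0.le _
  calc Real.log x ≤ 4 * x ^ ((1 / 4) : ℝ) := by
        rw [div_div_eq_mul_div, div_one] at h1
        linarith
    _ ≤ 4 * x ^ ((1 / 4) : ℝ) * (T ^ ((3 / 4) : ℝ) * y ^ n) :=
        le_mul_of_one_le_right (by positivity) h4
    _ ≤ 4 * x ^ ((1 / 4) : ℝ) * (T ^ ((3 / 4) : ℝ) * (y ^ 2 * (rh ^ n / rh ^ 2))) := by
        gcongr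
    _ = T ^ ((3 / 4) : ℝ) * ((4 * (x ^ ((1 / 4) : ℝ) * y ^ 2)) * (rh ^ n / rh ^ 2)) := by ring
    _ = _ := by rw [h6]

lemma tail_summable (K : Type) [Field K] [NumberField K] :
    Summable (fun x : HeightOneSpectrum (𝓞 K) × ℕ+ =>
      (4 * (absNorm x.1.asIdeal : ℝ) ^ (-(5 / 4) : ℝ)) * (rh ^ (x.2 : ℕ) / rh ^ 2)) := by
  have h1 : Summable (fun q : HeightOneSpectrum (𝓞 K) =>
      (4 * (absNorm q.asIdeal : ℝ) ^ (-(5 / 4) : ℝ))) :=
    (summable_absNorm (by norm_num)).mul_left 4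
  have h2 : Summable (fun n : ℕ+ => rh ^ (n : ℕ) / rh ^ 2) := by
    have h3 : Summable (fun n : ℕ => rh ^ n) :=
      summable_geometric_of_lt_one rh_pos.le rh_lt
    exact (h3.comp_injective PNat.coe_injective).div_const _
  exact h1.mul_of_nonneg h2
    (fun q => mul_nonneg (by norm_num) (Real.rpow_nonneg (Nat.cast_nonneg _) _))
    (fun n => div_nonneg (pow_nonneg rh_pos.le _) (pow_nonneg rh_pos.le _))

include ha in
open Classical in
theorem psi_sub (K : Type) [Field K] [NumberField K] [Algebra k K] :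
    ∃ B : ℝ, ∀ T : ℝ, 0 < T → ‖Psi a K T - PrimeSum a K T‖ ≤ T ^ ((3 / 4) : ℝ) * B := by
  let g : HeightOneSpectrum (𝓞 K) × ℕ+ → ℝ := fun x =>
      (4 * (absNorm x.1.asIdeal : ℝ) ^ (-(5 / 4) : ℝ)) * (rh ^ (x.2 : ℕ) / rh ^ 2)
  have hg : Summable g := tail_summable K
  refine ⟨C * ∑' x, g x, fun T hT => ?_⟩
  have hs := psi_summable a ha K T
  let f1 : HeightOneSpectrum (𝓞 K) × ℕ+ → ℂ := fun x => if x.2 = 1 then psiTerm a K T x else 0
  let f2 : HeightOneSpectrum (𝓞 K) × ℕ+ → ℂ := fun x => if x.2 = 1 then 0 else psiTerm a K T x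
  have hf1 : Summable f1 := by
    refine Summable.of_norm_bounded hs.norm fun x => ?_
    by_cases hx : x.2 = 1
    · simp only [f1, if_pos hx]
      exact le_rfl
    · simp only [f1, if_neg hx, norm_zero]
      exact norm_nonneg _
  have hf2 : Summable f2 := by
    refine Summable.of_norm_bounded hs.norm fun x => ?_
    by_cases hx : x.2 = 1
    · simp only [f2, if_pos hx, norm_zero]
      exact norm_nonneg _
    · simp only [f2, if_neg hx]
      exact le_rfl
  have h1 : Psi a K T = ∑' x, f1 x + ∑' x, f2 x := by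
    rw [← hf1.tsum_add hf2, Psi]
    refine tsum_congr fun x => ?_
    by_cases hx : x.2 = 1
    · simp only [f1, f2, if_pos hx, add_zero]
    · simp only [f1, f2, if_neg hx, zero_add]
  have h2 : ∑' x, f1 x = PrimeSum a K T := by
    have hinj : Function.Injective (fun w : HeightOneSpectrum (𝓞 K) => (w, (1 : ℕ+))) :=
      fun w w' h => congrArg Prod.fst h
    have h3 := hinj.tsum_eq (f := f1) (by
      intro x hx
      rw [Function.mem_support] at hx
      refine ⟨x.1, ?_⟩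
      have : x.2 = 1 := by
        by_contra hne
        exact hx (if_neg hne)
      exact Prod.ext rfl this.symm)
    rw [← h3, PrimeSum]
    refine tsum_congr fun w => ?_
    simp only [f1, if_pos, psiTerm, PNat.one_coe, pow_one]
  rw [h1, h2, add_sub_cancel_left]
  have hC : ∀ x : HeightOneSpectrum (𝓞 K) × ℕ+, ‖f2 x‖ ≤ T ^ ((3 / 4) : ℝ) * (C * g x) := by
    intro x
    have hC0 : 0 ≤ C := (norm_nonneg _).trans (ha (idx k x))
    have hg0 : 0 ≤ g x := mul_nonneg (mul_nonneg (by norm_num) (Real.rpow_nonneg (Nat.cast_nonneg _) _))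
      (div_nonneg (pow_nonneg rh_pos.le _) (pow_nonneg rh_pos.le _))
    by_cases hx : x.2 = 1
    · simp only [f2, if_pos hx, norm_zero]
      have := Real.rpow_nonneg hT.le ((3 / 4) : ℝ)
      positivity
    · simp only [f2, if_neg hx, psiTerm]
      by_cases hN : (absNorm x.1.asIdeal : ℝ) ^ (x.2 : ℕ) ≤ T
      · rw [if_pos hN, norm_mul, Complex.norm_real, Real.norm_eq_abs]
        have h2 : (2 : ℝ) ≤ absNorm x.1.asIdeal := by exact_mod_cast two_le_absNorm x.1
        have hn : 2 ≤ (x.2 : ℕ) := by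
          have h3 := x.2.pos
          have h4 : (x.2 : ℕ) ≠ 1 := fun h => hx (PNat.eq h)
          omega
        rw [abs_of_nonneg (Real.log_nonneg (by linarith))]
        have h5 := log_tail h2 hn hN
        calc ‖a (idx k x)‖ * Real.log (absNorm x.1.asIdeal) ≤ C * (T ^ ((3 / 4) : ℝ) * g x) :=
              mul_le_mul (ha _) h5 (Real.log_nonneg (by linarith)) hC0
          _ = _ := by ring
      · rw [if_neg hN, norm_zero]
        have := Real.rpow_nonneg hT.le ((3 / 4) : ℝ)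
        positivity
  have h6 := tsum_of_norm_bounded ((hg.mul_left C).mul_left (T ^ ((3 / 4) : ℝ))).hasSum hC
  rw [tsum_mul_left, tsum_mul_left] at h6
  exact h6

include ha in
theorem psi_tendsto (K : Type) [Field K] [NumberField K] [Algebra k K] :
    Filter.Tendsto (fun T : ℝ => Psi a K T / T - PrimeSum a K T / T) Filter.atTop (𝓝 0) := by
  obtain ⟨B, hB⟩ := psi_sub a ha K
  rw [tendsto_zero_iff_norm_tendsto_zero]
  have h1 : Filter.Tendsto (fun T : ℝ => B * T ^ (-(1 / 4) : ℝ)) Filter.atTop (𝓝 (B * 0)) :=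
    (tendsto_rpow_neg_atTop (by norm_num)).const_mul B
  rw [mul_zero] at h1
  refine squeeze_zero' (Filter.Eventually.of_forall fun T => norm_nonneg _) ?_ h1
  filter_upwards [Filter.eventually_gt_atTop (0 : ℝ)] with T hT
  rw [← sub_div, norm_div, Complex.norm_real, Real.norm_eq_abs, abs_of_pos hT, div_le_iff₀ hT]
  refine (hB T hT).trans (le_of_eq ?_)
  have h2 : T ^ ((3 / 4) : ℝ) = T ^ (-(1 / 4) : ℝ) * T := by
    rw [← Real.rpow_add_one hT.ne']
    congr 1
    norm_num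
  rw [h2]
  ring

end psi

section tauber

/-- the pairs of a function and the limit of its means -/
noncomputable def tSub : Submodule ℚ ((ℝ → ℂ) × ℚ) where
  carrier := {v | Filter.Tendsto (fun T : ℝ => v.1 T / T) Filter.atTop (𝓝 (v.2 : ℂ))}
  zero_mem' := by
    change Filter.Tendsto (fun T : ℝ => (0 : ℂ) / T) Filter.atTop (𝓝 ((0 : ℚ) : ℂ))
    simp
  add_mem' := fun {v w} hv hw => by
    have h1 := Filter.Tendsto.add (Set.mem_ofPred_eq ▸ hv) (Set.mem_ofPred_eq ▸ hw)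
    change Filter.Tendsto (fun T : ℝ => (v.1 T + w.1 T) / (T : ℂ)) Filter.atTop
      (𝓝 ((v.2 + w.2 : ℚ) : ℂ))
    simp only [add_div]
    push_cast
    exact h1
  smul_mem' := fun c {v} hv => by
    have h1 : Filter.Tendsto (fun T : ℝ => (c : ℂ) * (v.1 T / T)) Filter.atTop
      (𝓝 ((c : ℂ) * (v.2 : ℂ))) := Filter.Tendsto.const_mul (c : ℂ) hv
    change Filter.Tendsto (fun T : ℝ => (c • v.1 T) / (T : ℂ)) Filter.atTop
      (𝓝 ((c * v.2 : ℚ) : ℂ))
    push_cast
    refine h1.congr fun T => ?_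
    rw [Rat.smul_def, mul_div_assoc]

lemma mem_tSub {v : (ℝ → ℂ) × ℚ} :
    v ∈ tSub ↔ Filter.Tendsto (fun T : ℝ => v.1 T / T) Filter.atTop (𝓝 (v.2 : ℂ)) := Iff.rfl

end tauber

end Pool.Agent.Run7.h508.BR
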