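import Mathlib
import Pool.Agent.Run7.h508.BR.DFM

/-!
# Representations of the absolute Galois group as functors with Galois descent
-/

set_option autoImplicit false
set_option linter.unusedSectionVars false

namespace Pool.Agent.Run7.h508.BR

open NumberField

section gm

variable {F : Type} [Field F] [CharZero F] {k : Type} [Field k] [NumberField k] {Ω : Type}
  [Field Ω] [Algebra k Ω] [IsAlgClosed Ω] [Algebra.IsAlgebraic k Ω] {V : Type} [AddCommGroup V]
  [Module F V] (ρ : Representation F (Ω ≃ₐ[k] Ω) V)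

/-- embeddings extend -/
lemma exists_extend {K L : Type} [Field K] [NumberField K] [Algebra k K] [Field L] [NumberField L]
    [Algebra k L] (f : K →ₐ[k] L) (i : K →ₐ[k] Ω) : ∃ j : L →ₐ[k] Ω, j.comp f = i := by
  let _ : Algebra K L := f.toAlgebra
  let _ : Algebra K Ω := i.toAlgebra
  have h1 : IsScalarTower k K L := IsScalarTower.of_algebraMap_eq fun z => (f.commutes z).symm
  have h2 : IsScalarTower k K Ω := IsScalarTower.of_algebraMap_eq fun z => (i.commutes z).symm
  have hfin : FiniteDimensional K L := Module.Finite.of_restrictScalars_finite ℚ K L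
  let j : L →ₐ[K] Ω := IsAlgClosed.lift
  refine ⟨j.restrictScalars k, ?_⟩
  ext x
  exact j.commutes x

/-- two embeddings differ by an automorphism -/
lemma exists_aut {K : Type} [Field K] [NumberField K] [Algebra k K] (j i : K →ₐ[k] Ω) :
    ∃ σ : Ω ≃ₐ[k] Ω, (σ : Ω →ₐ[k] Ω).comp j = i := by
  let _ : Algebra K Ω := j.toAlgebra
  have h2 : IsScalarTower k K Ω := IsScalarTower.of_algebraMap_eq fun z => (j.commutes z).symm
  have hn : Normal k Ω := normal_iff.mpr fun x =>
    ⟨Algebra.IsIntegral.isIntegral x, IsAlgClosed.splits _⟩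
  let s : Ω →ₐ[k] Ω := i.liftNormal Ω
  have hs : ∀ z : K, s (j z) = i z := fun z => i.liftNormal_commutes Ω z
  refine ⟨AlgEquiv.ofBijective s (AlgHom.normal_bijective k Ω Ω s), ?_⟩
  ext x
  exact hs x

/-- the equivariant functions on the embeddings of `K` -/
noncomputable def eqv (K : Type) [Field K] [NumberField K] [Algebra k K] :
    Submodule F ((K →ₐ[k] Ω) → V) where
  carrier := {φ | ∀ (σ : Ω ≃ₐ[k] Ω) (i : K →ₐ[k] Ω),
    φ ((σ : Ω →ₐ[k] Ω).comp i) = ρ σ (φ i)}
  zero_mem' := fun σ i => by simp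
  add_mem' := fun {a b} ha hb σ i => by
    rw [Pi.add_apply, Pi.add_apply, ha, hb, map_add]
  smul_mem' := fun c a ha σ i => by
    rw [Pi.smul_apply, Pi.smul_apply, ha, map_smul]

lemma mem_eqv {K : Type} [Field K] [NumberField K] [Algebra k K] {φ : (K →ₐ[k] Ω) → V} :
    φ ∈ eqv ρ K ↔ ∀ (σ : Ω ≃ₐ[k] Ω) (i : K →ₐ[k] Ω),
      φ ((σ : Ω →ₐ[k] Ω).comp i) = ρ σ (φ i) := Iff.rfl

/-- the restriction of equivariant functions -/
noncomputable def eqvMap {K L : Type} [Field K] [NumberField K] [Algebra k K] [Field L]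
    [NumberField L] [Algebra k L] (f : K →ₐ[k] L) : eqv ρ K →ₗ[F] eqv ρ L where
  toFun := fun φ => ⟨fun j => φ.1 (j.comp f), fun σ j => φ.2 σ (j.comp f)⟩
  map_add' := fun a b => rfl
  map_smul' := fun c a => rfl

lemma eqvMap_apply {K L : Type} [Field K] [NumberField K] [Algebra k K] [Field L]
    [NumberField L] [Algebra k L] (f : K →ₐ[k] L) (φ : eqv ρ K) (j : L →ₐ[k] Ω) :
    (eqvMap ρ f φ).1 j = φ.1 (j.comp f) := rfl

/-- the functor of a representation -/
noncomputable def gmFun : DescFun F k where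
  M := fun K _ _ _ => eqv ρ K
  grp := fun K _ _ _ => inferInstance
  mod := fun K _ _ _ => inferInstance
  map := fun f => eqvMap ρ f
  map_id := fun K _ _ _ x => rfl
  map_comp := fun g f x => rfl
  inj := fun {K L} _ _ _ _ _ _ f a b hab => by
    apply Subtype.ext
    funext i
    obtain ⟨j, hj⟩ := exists_extend f i
    have h1 := congrFun (congrArg Subtype.val hab) j
    change a.1 (j.comp f) = b.1 (j.comp f) at h1
    rwa [hj] at h1
  descent := fun K N _ _ _ _ _ _ _ _ _ x hx => by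
    have hext : ∀ i : K →ₐ[k] Ω, ∃ j : N →ₐ[k] Ω, j.comp (IsScalarTower.toAlgHom k K N) = i :=
      fun i => exists_extend _ i
    choose e he using hext
    -- independence of the extension
    have key : ∀ j j' : N →ₐ[k] Ω, j.comp (IsScalarTower.toAlgHom k K N) =
        j'.comp (IsScalarTower.toAlgHom k K N) → x.1 j = x.1 j' := by
      intro j j' h
      let i : K →ₐ[k] Ω := j.comp (IsScalarTower.toAlgHom k K N)
      let _ : Algebra K Ω := i.toAlgebra
      let _ : Algebra N Ω := j.toAlgebra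
      have hK : IsScalarTower K N Ω := IsScalarTower.of_algebraMap_eq fun z => rfl
      let J' : N →ₐ[K] Ω :=
        { j' with
          commutes' := fun z => by
            have h2 := DFunLike.congr_fun h z
            exact h2.symm }
      let g : N ≃ₐ[K] N := J'.restrictNormal' N
      have hg : ∀ z : N, j (g z) = j' z := fun z => J'.restrictNormal_commutes N z
      have h3 := congrFun (congrArg Subtype.val (hx g)) j
      have h4 : j.comp ((g : N →ₐ[K] N).restrictScalars k) = j' := by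
        ext z
        exact hg z
      have h5 : x.1 (j.comp ((g : N →ₐ[K] N).restrictScalars k)) = x.1 j := h3
      rw [h4] at h5
      exact h5.symm
    refine ⟨⟨fun i => x.1 (e i), fun σ i => ?_⟩, ?_⟩
    · rw [← x.2 σ (e i)]
      apply key
      rw [he, AlgHom.comp_assoc, he]
    · apply Subtype.ext
      funext j
      apply key
      rw [he]

/-- the vector `v` is fixed by the automorphisms which fix the image of `j` -/
def Fixed {K : Type} [Field K] [Algebra k K] (j : K →ₐ[k] Ω) (v : V) : Prop :=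
  ∀ σ : Ω ≃ₐ[k] Ω, (∀ x : K, σ (j x) = j x) → ρ σ v = v

lemma fixed_eval {K : Type} [Field K] [NumberField K] [Algebra k K] (φ : eqv ρ K)
    (j : K →ₐ[k] Ω) : Fixed ρ j (φ.1 j) := by
  intro σ hσ
  have h1 : (σ : Ω →ₐ[k] Ω).comp j = j := by
    ext x
    exact hσ x
  rw [← φ.2 σ j, h1]

lemma exists_eqv {K : Type} [Field K] [NumberField K] [Algebra k K] {j : K →ₐ[k] Ω} {v : V}
    (hv : Fixed ρ j v) : ∃ φ : eqv ρ K, φ.1 j = v := by
  choose s hs using fun i : K →ₐ[k] Ω => exists_aut j i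
  have key : ∀ (σ τ : Ω ≃ₐ[k] Ω), (σ : Ω →ₐ[k] Ω).comp j = (τ : Ω →ₐ[k] Ω).comp j →
      ρ σ v = ρ τ v := by
    intro σ τ h
    have h1 : ρ (τ⁻¹ * σ) v = v := by
      apply hv
      intro x
      have h2 : σ (j x) = τ (j x) := DFunLike.congr_fun h x
      change τ⁻¹ (σ (j x)) = j x
      rw [h2]
      exact τ.symm_apply_apply (j x)
    calc ρ σ v = ρ (τ * (τ⁻¹ * σ)) v := by rw [mul_inv_cancel_left]
      _ = ρ τ (ρ (τ⁻¹ * σ) v) := by rw [map_mul]; rfl
      _ = ρ τ v := by rw [h1]
  refine ⟨⟨fun i => ρ (s i) v, fun σ i => ?_⟩, ?_⟩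
  · have h1 : ρ σ (ρ (s i) v) = ρ (σ * s i) v := by rw [map_mul]; rfl
    rw [h1]
    apply key
    rw [hs]
    ext x
    have h2 : (s i) (j x) = i x := DFunLike.congr_fun (hs i) x
    change σ (i x) = σ ((s i) (j x))
    rw [h2]
  · have h1 := key (s j) 1 (by
      rw [hs]
      ext x
      rfl)
    change ρ (s j) v = v
    rw [h1, map_one]
    rfl

lemma eqv_ext {K : Type} [Field K] [NumberField K] [Algebra k K] {φ ψ : eqv ρ K}
    (j : K →ₐ[k] Ω) (h : φ.1 j = ψ.1 j) : φ = ψ := by
  apply Subtype.ext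
  funext i
  obtain ⟨σ, rfl⟩ := exists_aut j i
  rw [φ.2, ψ.2, h]

/-- no growth in the unramified case, for representations -/
def GNoGrow (m : ℕ) : Prop :=
  ∀ (K L : Type) [Field K] [NumberField K] [Field L] [NumberField L] [Algebra k K] [Algebra K L]
    [Algebra k L] [IsScalarTower k K L] [IsGalois K L], IsTotallyComplex K →
    (Module.finrank K L).Prime → UnrSplit m K L → ∀ (j : L →ₐ[k] Ω) (v : V),
    Fixed ρ j v → Fixed ρ (j.comp (IsScalarTower.toAlgHom k K L)) v

lemma noGrow_gm {m : ℕ} (h : GNoGrow ρ m) : NoGrow (gmFun ρ) m := by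
  intro K L _ _ _ _ _ _ _ _ _ hK hp hu x
  obtain ⟨j, -⟩ := exists_extend (Ω := Ω) (Algebra.ofId k L) (Algebra.ofId k Ω)
  obtain ⟨y, hy⟩ := exists_eqv ρ (h K L hK hp hu j (x.1 j) (fixed_eval ρ x j))
  exact ⟨y, eqv_ext ρ j hy⟩

/-- **No growth in the unramified case implies no growth.** -/
theorem gm_noGrow {m : ℕ} (hm : m ≠ 0) (h : GNoGrow ρ m) (K L : Type) [Field K] [NumberField K]
    [Field L] [NumberField L] [Algebra k K] [Algebra k L] (hK : IsTotallyComplex K)
    (f : K →ₐ[k] L) (j : L →ₐ[k] Ω) (v : V) (hv : Fixed ρ j v) : Fixed ρ (j.comp f) v := by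
  have hL : IsTotallyComplex L := by
    let _ : Algebra K L := f.toAlgebra
    exact complex_above hK
  obtain ⟨x, hx⟩ := exists_eqv ρ hv
  obtain ⟨y, hy⟩ := noGrow (gmFun ρ) hm (noGrow_gm ρ h) K L hK hL f x
  have h1 : y.1 (j.comp f) = v := by
    rw [← hx, ← hy]
    rfl
  rw [← h1]
  exact fixed_eval ρ y (j.comp f)

/-- **Vanishing.** -/
theorem gm_vanish {m : ℕ} (hm : m ≠ 0) (hk : IsTotallyComplex k)
    (hd : ∀ v : V, ∃ (K : Type) (_ : Field K) (_ : NumberField K) (_ : Algebra k K)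
      (j : K →ₐ[k] Ω), Fixed ρ j v)
    (h0 : ∀ v : V, (∀ σ, ρ σ v = v) → v = 0) (h : GNoGrow ρ m) (v : V) : v = 0 := by
  obtain ⟨K, i1, i2, i3, j, hj⟩ := hd v
  refine h0 v fun σ => ?_
  have hk' : Algebra.IsAlgebraic k k := inferInstance
  refine gm_noGrow ρ hm h k K hk (Algebra.ofId k K) j v hj σ fun x => ?_
  have h1 : (j.comp (Algebra.ofId k K)) x = algebraMap k Ω x := (j.comp (Algebra.ofId k K)).commutes x
  rw [h1, σ.commutes]

end gm

end Pool.Agent.Run7.h508.BR
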