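import Mathlib
import Pool.Agent.Run7.h508.BR.GM

/-!
# Finite-dimensionality of functors with Galois descent
-/

set_option autoImplicit false
set_option linter.unusedSectionVars false

namespace Pool.Agent.Run7.h508.BR

open NumberField

section lin

variable {F : Type} [Field F] {V W : Type} [AddCommGroup V] [Module F V] [AddCommGroup W]
  [Module F W]

/-- the sequences which span a finite-dimensional space -/
def frS (F V : Type) [Field F] [AddCommGroup V] [Module F V] : Submodule F (ℕ → V) where
  carrier := {s | (Submodule.span F (Set.range s)).FG}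
  zero_mem' := by
    have h : Submodule.span F (Set.range (0 : ℕ → V)) = ⊥ := by
      rw [Submodule.span_eq_bot]
      rintro _ ⟨n, rfl⟩
      rfl
    change (Submodule.span F (Set.range (0 : ℕ → V))).FG
    rw [h]
    exact Submodule.fg_bot
  add_mem' := by
    intro a b ha hb
    have h1 : ((Submodule.span F (Set.range a)) ⊔ (Submodule.span F (Set.range b))).FG :=
      Submodule.FG.sup ha hb
    refine Submodule.FG.of_le h1 ?_
    rw [Submodule.span_le]
    rintro _ ⟨n, rfl⟩
    exact Submodule.add_mem_sup (Submodule.subset_span ⟨n, rfl⟩) (Submodule.subset_span ⟨n, rfl⟩)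
  smul_mem' := by
    intro c a ha
    refine Submodule.FG.of_le ha ?_
    rw [Submodule.span_le]
    rintro _ ⟨n, rfl⟩
    exact Submodule.smul_mem _ c (Submodule.subset_span ⟨n, rfl⟩)

lemma mem_frS {s : ℕ → V} : s ∈ frS F V ↔ (Submodule.span F (Set.range s)).FG := Iff.rfl

lemma span_comp (f : V →ₗ[F] W) (s : ℕ → V) :
    Submodule.span F (Set.range fun n => f (s n)) = (Submodule.span F (Set.range s)).map f := by
  rw [Submodule.map_span, ← Set.range_comp]
  rfl

lemma frS_map (f : V →ₗ[F] W) {s : ℕ → V} (hs : s ∈ frS F V) : (fun n => f (s n)) ∈ frS F W := by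
  rw [mem_frS, span_comp]
  exact Submodule.FG.map f hs

lemma frS_of_map {f : V →ₗ[F] W} (hf : Function.Injective f) {s : ℕ → V}
    (hs : (fun n => f (s n)) ∈ frS F W) : s ∈ frS F V := by
  rw [mem_frS, span_comp] at hs
  exact Submodule.fg_of_fg_map_injective f hf hs

lemma fin_of_frS (h : ∀ s : ℕ → V, s ∈ frS F V) : FiniteDimensional F V := by
  by_contra hV
  let b := Module.Free.chooseBasis F V
  have hinf : Infinite (Module.Free.ChooseBasisIndex F V) := by
    by_contra hne
    rw [not_infinite_iff_finite] at hne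
    exact hV (Module.Finite.of_basis b)
  let e : ℕ ↪ Module.Free.ChooseBasisIndex F V := Infinite.natEmbedding _
  have h1 : LinearIndependent F (fun n => b (e n)) := b.linearIndependent.comp e e.injective
  have h2 := h (fun n => b (e n))
  rw [mem_frS] at h2
  have h3 : Module.Finite F (Submodule.span F (Set.range fun n => b (e n))) :=
    Module.Finite.iff_fg.mpr h2
  have h4 := (linearIndependent_span h1).finite
  exact not_finite ℕ

lemma frS_of_fin [hV : FiniteDimensional F V] (s : ℕ → V) : s ∈ frS F V := by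
  rw [mem_frS]
  exact IsNoetherian.noetherian _

end lin

section fin

variable {F : Type} [Field F] [CharZero F] {k : Type} [Field k] [NumberField k] (D : DescFun F k)

/-- the sequences -/
noncomputable def DescFun.seq : DescFun F k where
  M := fun K _ _ _ => ℕ → D.M K
  grp := fun K _ _ _ => inferInstance
  mod := fun K _ _ _ => inferInstance
  map := fun f => LinearMap.compLeft (D.map f) ℕ
  map_id := fun K _ _ _ x => funext fun n => D.map_id K (x n)
  map_comp := fun g f x => funext fun n => D.map_comp g f (x n)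
  inj := fun f a b hab => funext fun n => D.inj f (congrFun hab n)
  descent := fun K N _ _ _ _ _ _ _ _ _ x hx => by
    choose y hy using fun n => D.descent K N (x n) (fun g => congrFun (hx g) n)
    exact ⟨y, funext hy⟩

/-- the sequences of finite rank -/
noncomputable def DescFun.fr : DescFun F k where
  M := fun K _ _ _ => frS F (D.M K)
  grp := fun K _ _ _ => inferInstance
  mod := fun K _ _ _ => inferInstance
  map := fun f => (LinearMap.compLeft (D.map f) ℕ).restrict fun s hs => frS_map (D.map f) hs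
  map_id := fun K _ _ _ x => Subtype.ext (funext fun n => D.map_id K (x.1 n))
  map_comp := fun g f x => Subtype.ext (funext fun n => D.map_comp g f (x.1 n))
  inj := fun f a b hab => Subtype.ext (funext fun n =>
    D.inj f (congrFun (congrArg Subtype.val hab) n))
  descent := fun K N _ _ _ _ _ _ _ _ _ x hx => by
    choose y hy using fun n => D.descent K N (x.1 n)
      (fun g => congrFun (congrArg Subtype.val (hx g)) n)
    refine ⟨⟨y, frS_of_map (D.inj (IsScalarTower.toAlgHom k K N)) ?_⟩, Subtype.ext (funext hy)⟩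
    have h1 : (fun n => D.map (IsScalarTower.toAlgHom k K N) (y n)) = x.1 := funext hy
    rw [h1]
    exact x.2

/-- the inclusion -/
noncomputable def DescFun.frInc : DescMor D.fr D.seq where
  app := fun K _ _ _ => (frS F (D.M K)).subtype
  nat := fun f x => rfl

/-- finite growth in the unramified case -/
def FinGrow (D : DescFun F k) (m : ℕ) : Prop :=
  ∀ (K L : Type) [Field K] [NumberField K] [Field L] [NumberField L] [Algebra k K] [Algebra K L]
    [Algebra k L] [IsScalarTower k K L] [IsGalois K L], IsTotallyComplex K →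
    (Module.finrank K L).Prime → UnrSplit m K L → ∃ W : Submodule F (D.M L), W.FG ∧
      LinearMap.range (D.map (IsScalarTower.toAlgHom k K L)) ⊔ W = ⊤

/-- **Finite growth in the unramified case implies finite growth.** -/
theorem finGrow {m : ℕ} (hm : m ≠ 0) (h : FinGrow D m) (K L : Type) [Field K] [NumberField K]
    [Field L] [NumberField L] [Algebra k K] [Algebra k L] (hK : IsTotallyComplex K)
    (f : K →ₐ[k] L) (x : ℕ → D.M L) : ∃ (y : ℕ → D.M K) (z : ℕ → D.M L), z ∈ frS F (D.M L) ∧
      x = (fun n => D.map f (y n)) + z := by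
  obtain ⟨y, z, hyz⟩ := D.frInc.noGrow_coker hm (fun K L _ _ _ _ _ _ _ _ _ hK hp hu x => by
    obtain ⟨W, hW, hWt⟩ := h K L hK hp hu
    have h1 : ∀ n, ∃ (a : D.M K) (w : D.M L), w ∈ W ∧
        D.map (IsScalarTower.toAlgHom k K L) a + w = x n := by
      intro n
      have h2 : x n ∈ LinearMap.range (D.map (IsScalarTower.toAlgHom k K L)) ⊔ W := by
        rw [hWt]
        trivial
      obtain ⟨b, ⟨a, rfl⟩, w, hw, hsum⟩ := Submodule.mem_sup.mp h2
      exact ⟨a, w, hw, hsum⟩
    choose a w hw hsum using h1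
    refine ⟨a, ⟨w, Submodule.FG.of_le hW ?_⟩, ?_⟩
    · rw [Submodule.span_le]
      rintro _ ⟨n, rfl⟩
      exact hw n
    · funext n
      exact (hsum n).symm) K L hK f x
  exact ⟨y, z.1, z.2, hyz⟩

end fin

section gm

variable {F : Type} [Field F] [CharZero F] {k : Type} [Field k] [NumberField k] {Ω : Type}
  [Field Ω] [Algebra k Ω] [IsAlgClosed Ω] [Algebra.IsAlgebraic k Ω] {V : Type} [AddCommGroup V]
  [Module F V] (ρ : Representation F (Ω ≃ₐ[k] Ω) V)

/-- the vectors fixed by the automorphisms which fix the image of `j` -/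
def fixSub {K : Type} [Field K] [Algebra k K] (j : K →ₐ[k] Ω) : Submodule F V where
  carrier := {v | Fixed ρ j v}
  zero_mem' := fun σ _ => map_zero _
  add_mem' := fun {a b} ha hb σ h => by rw [map_add, ha σ h, hb σ h]
  smul_mem' := fun c a ha σ h => by rw [map_smul, ha σ h]

/-- the evaluation -/
noncomputable def evE {K : Type} [Field K] [NumberField K] [Algebra k K] (j : K →ₐ[k] Ω) :
    eqv ρ K ≃ₗ[F] fixSub ρ j :=
  LinearEquiv.ofBijective
    ({ toFun := fun φ => ⟨φ.1 j, fixed_eval ρ φ j⟩
       map_add' := fun _ _ => rfl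
       map_smul' := fun _ _ => rfl } : eqv ρ K →ₗ[F] fixSub ρ j)
    ⟨fun a b hab => eqv_ext ρ j (congrArg Subtype.val hab), fun v => by
      obtain ⟨φ, hφ⟩ := exists_eqv ρ v.2
      exact ⟨φ, Subtype.ext hφ⟩⟩

lemma evE_apply {K : Type} [Field K] [NumberField K] [Algebra k K] (j : K →ₐ[k] Ω)
    (φ : eqv ρ K) : (evE ρ j φ).1 = φ.1 j := rfl

/-- finite growth in the unramified case, for representations -/
def GFinGrow (m : ℕ) : Prop :=
  ∀ (K L : Type) [Field K] [NumberField K] [Field L] [NumberField L] [Algebra k K] [Algebra K L]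
    [Algebra k L] [IsScalarTower k K L] [IsGalois K L], IsTotallyComplex K →
    (Module.finrank K L).Prime → UnrSplit m K L → ∀ j : L →ₐ[k] Ω,
    ∃ W : Submodule F V, W.FG ∧
      fixSub ρ j ≤ fixSub ρ (j.comp (IsScalarTower.toAlgHom k K L)) ⊔ W

lemma finGrow_gm {m : ℕ} (h : GFinGrow ρ m) : FinGrow (gmFun ρ) m := by
  intro K L _ _ _ _ _ _ _ _ _ hK hp hu
  obtain ⟨j, -⟩ := exists_extend (Ω := Ω) (Algebra.ofId k L) (Algebra.ofId k Ω)
  obtain ⟨W, hW, hle⟩ := h K L hK hp hu j
  let ι := IsScalarTower.toAlgHom k K L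
  -- the part of `W` in the fixed space
  have hle' : fixSub ρ (j.comp ι) ≤ fixSub ρ j := by
    intro v hv σ hσ
    exact hv σ fun x => hσ (ι x)
  let W' : Submodule F (fixSub ρ j) := (W ⊓ fixSub ρ j).comap (fixSub ρ j).subtype
  have hW' : W'.FG := by
    have h1 : (W ⊓ fixSub ρ j).FG := Submodule.FG.of_le hW inf_le_left
    refine Submodule.fg_of_fg_map_injective (fixSub ρ j).subtype Subtype.val_injective ?_
    rw [Submodule.map_comap_subtype, inf_comm, inf_assoc, inf_idem]
    exact h1
  refine ⟨W'.map (evE ρ j).symm.toLinearMap, Submodule.FG.map _ hW', ?_⟩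
  rw [eq_top_iff]
  intro x _
  obtain ⟨a, ha, w, hw, hsum⟩ := Submodule.mem_sup.mp (hle (fixed_eval ρ x j : x.1 j ∈ fixSub ρ j))
  have hwj : w ∈ fixSub ρ j := by
    have h1 : w = x.1 j - a := by rw [← hsum, add_sub_cancel_left]
    rw [h1]
    exact Submodule.sub_mem _ (fixed_eval ρ x j) (hle' ha)
  obtain ⟨y, hy⟩ := exists_eqv ρ (j := j.comp ι) (v := a) ha
  refine Submodule.mem_sup.mpr ⟨eqvMap ρ ι y, ⟨y, rfl⟩, (evE ρ j).symm ⟨w, hwj⟩,
    ⟨⟨w, hwj⟩, ⟨hw, hwj⟩, rfl⟩, ?_⟩
  apply eqv_ext ρ j
  have h2 : ((evE ρ j).symm ⟨w, hwj⟩).1 j = w := by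
    rw [← evE_apply, LinearEquiv.apply_symm_apply]
  change y.1 (j.comp ι) + ((evE ρ j).symm ⟨w, hwj⟩).1 j = x.1 j
  rw [h2, hy, hsum]

/-- **Finite-dimensionality.** -/
theorem gm_finite {m : ℕ} (hm : m ≠ 0) (h : GFinGrow ρ m) (K L : Type) [Field K] [NumberField K]
    [Field L] [NumberField L] [Algebra k K] [Algebra k L] (hK : IsTotallyComplex K)
    (f : K →ₐ[k] L) (j : L →ₐ[k] Ω) (hfin : FiniteDimensional F (fixSub ρ (j.comp f))) :
    FiniteDimensional F (fixSub ρ j) := by
  have h0 : FiniteDimensional F (eqv ρ K) :=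
    Module.Finite.equiv (evE ρ (j.comp f)).symm
  have h1 : FiniteDimensional F (eqv ρ L) := by
    refine fin_of_frS fun x => ?_
    obtain ⟨y, z, hz, hyz⟩ := finGrow (gmFun ρ) hm (finGrow_gm ρ h) K L hK f x
    rw [hyz]
    refine Submodule.add_mem _ ?_ hz
    have h2 : FiniteDimensional F ((gmFun ρ).M K) := h0
    exact frS_map _ (frS_of_fin y)
  exact Module.Finite.equiv (evE ρ j)

end gm

end Pool.Agent.Run7.h508.BR
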