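import Mathlib
import Pool.Agent.Run7.h508.BR.LFun

/-!
# Points over finite fields
-/

set_option autoImplicit false
set_option linter.unusedSectionVars false

namespace Pool.Agent.Run7.h508.BR

open NumberField Ideal IsDedekindDomain Polynomial WeierstrassCurve Pool.Agent.K4H74.SC

/-- the number of affine points with coordinates `z = z ^ Q` -/
noncomputable def cnt {R Ω : Type} [CommRing R] [Field Ω] (φ : R →+* Ω) (W : WeierstrassCurve R)
    (Q : ℕ) : ℕ :=
  Nat.card {z : Ω × Ω // z.1 ^ Q = z.1 ∧ z.2 ^ Q = z.2 ∧ (W.map φ).toAffine.Equation z.1 z.2}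

lemma root_lift {Ω Ω' : Type} [Field Ω] [IsAlgClosed Ω] [Field Ω'] (j : Ω →+* Ω') {Q : ℕ}
    (hQ : 2 ≤ Q) {y : Ω'} (hy : y ^ Q = y) : ∃ x : Ω, j x = y ∧ x ^ Q = x := by
  classical
  let P : Polynomial Ω := X ^ Q - X
  have hdeg : P.natDegree = Q := by
    change (X ^ Q - X : Polynomial Ω).natDegree = Q
    rw [natDegree_sub_eq_left_of_natDegree_lt, natDegree_X_pow]
    rw [natDegree_X, natDegree_X_pow]
    omega
  have hP0 : P ≠ 0 := by
    intro h
    rw [h, natDegree_zero] at hdeg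
    omega
  have hs : P.Splits := IsAlgClosed.splits P
  have h1 : (P.map j).roots = P.roots.map j := hs.roots_map j
  have h2 : y ∈ (P.map j).roots := by
    rw [mem_roots ((Polynomial.map_ne_zero_iff j.injective).mpr hP0), IsRoot.def]
    simp [P, hy]
  rw [h1, Multiset.mem_map] at h2
  obtain ⟨x, hx, hxy⟩ := h2
  refine ⟨x, hxy, ?_⟩
  rw [mem_roots hP0, IsRoot.def] at hx
  simpa [P, sub_eq_zero] using hx

lemma cnt_lift {R Ω Ω' : Type} [CommRing R] [Field Ω] [IsAlgClosed Ω] [Field Ω'] (φ : R →+* Ω)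
    (φ' : R →+* Ω') (j : Ω →+* Ω') (hj : j.comp φ = φ') (W : WeierstrassCurve R) {Q : ℕ}
    (hQ : 2 ≤ Q) : cnt φ W Q = cnt φ' W Q := by
  have hmap : (W.map φ).map j = W.map φ' := by rw [WeierstrassCurve.map_map, hj]
  have heq : ∀ x y : Ω, (W.map φ').toAffine.Equation (j x) (j y) ↔
      (W.map φ).toAffine.Equation x y := by
    intro x y
    rw [← hmap]
    exact (W.map φ).toAffine.map_equation j.injective x y
  refine Nat.card_congr (Equiv.ofBijective
    (fun z => ⟨(j z.1.1, j z.1.2), by rw [← map_pow, z.2.1], by rw [← map_pow, z.2.2.1],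
      (heq _ _).mpr z.2.2.2⟩) ⟨?_, ?_⟩)
  · intro a b h
    apply Subtype.ext
    have h1 := congrArg (fun z => z.1) h
    exact Prod.ext (j.injective (congrArg Prod.fst h1)) (j.injective (congrArg Prod.snd h1))
  · rintro ⟨⟨x, y⟩, hx, hy, he⟩
    obtain ⟨x', rfl, hx'⟩ := root_lift j hQ hx
    obtain ⟨y', rfl, hy'⟩ := root_lift j hQ hy
    exact ⟨⟨(x', y'), hx', hy', (heq _ _).mp he⟩, rfl⟩

/-- at most two points with given `x` -/
lemma cnt_le {R Ω : Type} [CommRing R] [Field Ω] (φ : R →+* Ω) (W : WeierstrassCurve R) {Q : ℕ}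
    (hQ : 2 ≤ Q) : cnt φ W Q ≤ 2 * Q := by
  classical
  let P : Polynomial Ω := X ^ Q - X
  have hdeg : P.natDegree = Q := by
    change (X ^ Q - X : Polynomial Ω).natDegree = Q
    rw [natDegree_sub_eq_left_of_natDegree_lt, natDegree_X_pow]
    rw [natDegree_X, natDegree_X_pow]
    omega
  have hP0 : P ≠ 0 := by
    intro h
    rw [h, natDegree_zero] at hdeg
    omega
  have hroot : ∀ x : Ω, x ^ Q = x → x ∈ P.roots.toFinset := by
    intro x hx
    rw [Multiset.mem_toFinset, mem_roots hP0, IsRoot.def]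
    simp [P, hx]
  let S : Set (Ω × Ω) := {z | z.1 ^ Q = z.1 ∧ z.2 ^ Q = z.2 ∧
    (W.map φ).toAffine.Equation z.1 z.2}
  have hS : S.Finite := by
    refine (P.roots.toFinset ×ˢ P.roots.toFinset).finite_toSet.subset ?_
    rintro ⟨x, y⟩ ⟨hx, hy, -⟩
    rw [Finset.mem_coe, Finset.mem_product]
    exact ⟨hroot x hx, hroot y hy⟩
  have h1 : cnt φ W Q = hS.toFinset.card := by
    rw [cnt, ← Set.ncard_eq_toFinset_card S hS]
    rfl
  rw [h1]
  have h2 : (hS.toFinset.image Prod.fst).card ≤ Q := by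
    calc (hS.toFinset.image Prod.fst).card ≤ P.roots.toFinset.card := by
          refine Finset.card_le_card fun x hx => ?_
          obtain ⟨z, hz, rfl⟩ := Finset.mem_image.mp hx
          rw [Set.Finite.mem_toFinset] at hz
          exact hroot _ hz.1
      _ ≤ Multiset.card P.roots := Multiset.toFinset_card_le _
      _ ≤ P.natDegree := P.card_roots'
      _ = Q := hdeg
  refine (Finset.card_le_mul_card_image hS.toFinset 2 fun x _ => ?_).trans
    (Nat.mul_le_mul_left 2 h2)
  -- the quadratic equation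
  let q : Polynomial Ω := X ^ 2 + C ((W.map φ).a₁ * x + (W.map φ).a₃) * X -
    C (x ^ 3 + (W.map φ).a₂ * x ^ 2 + (W.map φ).a₄ * x + (W.map φ).a₆)
  have hq : q.natDegree = 2 := by
    change (X ^ 2 + C ((W.map φ).a₁ * x + (W.map φ).a₃) * X -
      C (x ^ 3 + (W.map φ).a₂ * x ^ 2 + (W.map φ).a₄ * x + (W.map φ).a₆) : Polynomial Ω).natDegree = 2
    compute_degree!
  have hq0 : q ≠ 0 := by
    intro h
    rw [h, natDegree_zero] at hq
    omega
  calc (hS.toFinset.filter fun z => z.1 = x).card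
      ≤ (q.roots.toFinset.image fun y => (x, y)).card := by
        refine Finset.card_le_card fun z hz => ?_
        rw [Finset.mem_filter, Set.Finite.mem_toFinset] at hz
        obtain ⟨⟨-, -, h3⟩, h4⟩ := hz
        obtain ⟨x', y⟩ := z
        change x' = x at h4
        subst h4
        rw [Finset.mem_image]
        refine ⟨y, ?_, rfl⟩
        rw [Multiset.mem_toFinset, mem_roots hq0, IsRoot.def]
        rw [Affine.equation_iff] at h3
        have h5 : q.eval y = y ^ 2 + ((W.map φ).a₁ * x' + (W.map φ).a₃) * y -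
            (x' ^ 3 + (W.map φ).a₂ * x' ^ 2 + (W.map φ).a₄ * x' + (W.map φ).a₆) := by
          simp [q]
        rw [h5]
        change y ^ 2 + (W.map φ).a₁ * x' * y + (W.map φ).a₃ * y = _ at h3
        linear_combination h3
    _ ≤ q.roots.toFinset.card := Finset.card_image_le
    _ ≤ Multiset.card q.roots := Multiset.toFinset_card_le _
    _ ≤ q.natDegree := q.card_roots'
    _ = 2 := hq

section nf

variable {K : Type} [Field K] [NumberField K]

/-- the reduction to the algebraic closure of the residue field -/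
noncomputable def redMap (v : HeightOneSpectrum (𝓞 K)) :
    𝓞 K →+* AlgebraicClosure v.asIdeal.ResidueField :=
  algebraMap (𝓞 K) (AlgebraicClosure v.asIdeal.ResidueField)

/-- the number of affine points of the reduction of `W` modulo `v` over the extension of degree `n`
of the residue field -/
noncomputable def affCount (W : WeierstrassCurve (𝓞 K)) (v : HeightOneSpectrum (𝓞 K)) (n : ℕ) : ℕ :=
  cnt (redMap v) W (absNorm v.asIdeal ^ n)

open Classical in
/-- the traces of the powers of Frobenius: `q ^ n - #(affine points)` at the primes which do not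
divide the discriminant -/
noncomputable def wE (W : WeierstrassCurve (𝓞 K)) (x : HeightOneSpectrum (𝓞 K) × ℕ+) : ℂ :=
  if W.Δ ∈ x.1.asIdeal then 0 else
    (absNorm x.1.asIdeal : ℂ) ^ (x.2 : ℕ) - affCount W x.1 x.2

lemma two_le_pow (v : HeightOneSpectrum (𝓞 K)) {n : ℕ} (hn : 0 < n) :
    2 ≤ absNorm v.asIdeal ^ n :=
  (two_le_absNorm v).trans (Nat.le_self_pow hn.ne' _)

lemma wE_bound (W : WeierstrassCurve (𝓞 K)) (x : HeightOneSpectrum (𝓞 K) × ℕ+) :
    ‖wE W x‖ ≤ (absNorm x.1.asIdeal : ℝ) ^ (x.2 : ℕ) := by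
  classical
  rw [wE]
  split_ifs with h
  · rw [norm_zero]
    positivity
  · have h1 := cnt_le (redMap x.1) W (two_le_pow x.1 x.2.pos)
    have h2 : ((absNorm x.1.asIdeal : ℂ) ^ (x.2 : ℕ) - affCount W x.1 x.2) =
        (((absNorm x.1.asIdeal : ℝ) ^ (x.2 : ℕ) - affCount W x.1 x.2 : ℝ) : ℂ) := by
      push_cast
      rfl
    rw [h2, Complex.norm_real, Real.norm_eq_abs, abs_le]
    have h3 : (affCount W x.1 x.2 : ℝ) ≤ 2 * (absNorm x.1.asIdeal : ℝ) ^ (x.2 : ℕ) := by
      exact_mod_cast h1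
    have h4 : (0 : ℝ) ≤ affCount W x.1 x.2 := Nat.cast_nonneg _
    constructor <;> linarith

variable {k : Type} [Field k] [NumberField k] [Algebra k K]

/-- **base change** -/
theorem wE_base (W : WeierstrassCurve (𝓞 k)) (x : HeightOneSpectrum (𝓞 K) × ℕ+) :
    wE (W.map (algebraMap (𝓞 k) (𝓞 K))) x = wE W (idx k x) := by
  classical
  obtain ⟨w, n⟩ := x
  let v : HeightOneSpectrum (𝓞 k) := belowP k w
  have hw := w.isPrime
  have hv := v.isPrime
  have hlies : w.asIdeal.LiesOver v.asIdeal := ⟨rfl⟩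
  have h1 : (W.map (algebraMap (𝓞 k) (𝓞 K))).Δ ∈ w.asIdeal ↔ W.Δ ∈ v.asIdeal := by
    rw [WeierstrassCurve.map_Δ]
    rfl
  have hQ : absNorm w.asIdeal ^ (n : ℕ) =
      absNorm v.asIdeal ^ (w.asIdeal.inertiaDeg (𝓞 k) * (n : ℕ)) := by
    rw [pow_mul, Ideal.absNorm_pow_inertiaDeg v.asIdeal w.asIdeal]
  have h2 : affCount (W.map (algebraMap (𝓞 k) (𝓞 K))) w n =
      affCount W v (w.asIdeal.inertiaDeg (𝓞 k) * (n : ℕ)) := by
    rw [affCount, affCount, ← hQ]
    have h3 : cnt (redMap w) (W.map (algebraMap (𝓞 k) (𝓞 K))) (absNorm w.asIdeal ^ (n : ℕ)) =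
        cnt ((redMap w).comp (algebraMap (𝓞 k) (𝓞 K))) W (absNorm w.asIdeal ^ (n : ℕ)) := by
      rw [cnt, cnt, WeierstrassCurve.map_map]
    rw [h3]
    symm
    let i : v.asIdeal.ResidueField →+* w.asIdeal.ResidueField :=
      Ideal.ResidueField.map v.asIdeal w.asIdeal (algebraMap (𝓞 k) (𝓞 K)) rfl
    let i2 : v.asIdeal.ResidueField →+* AlgebraicClosure w.asIdeal.ResidueField :=
      (algebraMap w.asIdeal.ResidueField (AlgebraicClosure w.asIdeal.ResidueField)).comp i
    let _ : Algebra v.asIdeal.ResidueField (AlgebraicClosure w.asIdeal.ResidueField) :=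
      i2.toAlgebra
    let j : AlgebraicClosure v.asIdeal.ResidueField →ₐ[v.asIdeal.ResidueField]
      AlgebraicClosure w.asIdeal.ResidueField := IsAlgClosed.lift
    refine cnt_lift (redMap v) ((redMap w).comp (algebraMap (𝓞 k) (𝓞 K)))
      (j : AlgebraicClosure v.asIdeal.ResidueField →+* AlgebraicClosure w.asIdeal.ResidueField)
      ?_ W (two_le_pow w n.pos)
    ext y
    change j (algebraMap (𝓞 k) (AlgebraicClosure v.asIdeal.ResidueField) y) =
      algebraMap (𝓞 K) (AlgebraicClosure w.asIdeal.ResidueField) (algebraMap (𝓞 k) (𝓞 K) y)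
    rw [IsScalarTower.algebraMap_apply (𝓞 k) v.asIdeal.ResidueField
      (AlgebraicClosure v.asIdeal.ResidueField), AlgHom.commutes,
      IsScalarTower.algebraMap_apply (𝓞 K) w.asIdeal.ResidueField
      (AlgebraicClosure w.asIdeal.ResidueField)]
    change algebraMap w.asIdeal.ResidueField (AlgebraicClosure w.asIdeal.ResidueField)
      (i (algebraMap (𝓞 k) v.asIdeal.ResidueField y)) = _
    congr 1
    exact Ideal.ResidueField.map_algebraMap v.asIdeal w.asIdeal (algebraMap (𝓞 k) (𝓞 K)) rfl y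
  rw [wE, wE]
  by_cases h : W.Δ ∈ v.asIdeal
  · rw [if_pos (h1.mpr h)]
    exact (if_pos h).symm
  · rw [if_neg (fun h' => h (h1.mp h')), h2]
    have h3 : ((absNorm w.asIdeal : ℕ) : ℂ) ^ (n : ℕ) =
        (absNorm v.asIdeal : ℂ) ^ (w.asIdeal.inertiaDeg (𝓞 k) * (n : ℕ)) := by
      exact_mod_cast hQ
    rw [h3]
    exact (if_neg h).symm

end nf

end Pool.Agent.Run7.h508.BR
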