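import Mathlib
import Pool.Agent.Run7.h508.BR.Psum

/-!
# Dirichlet series over primes as functions of number fields
-/

set_option autoImplicit false
set_option linter.unusedSectionVars false

namespace Pool.Agent.Run7.h508.BR

open NumberField Ideal Pool.Agent.K4H74.ST Pool.Agent.K4H74.SC IsDedekindDomain Pool.Agent.R389
open scoped Pointwise Topology

section ser

variable {k : Type} [Field k] [NumberField k] (a : HeightOneSpectrum (𝓞 k) × ℕ+ → ℂ)

/-- the term of a prime power -/
noncomputable def derTerm (K : Type) [Field K] [NumberField K] [Algebra k K] (s : ℂ)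
    (x : HeightOneSpectrum (𝓞 K) × ℕ+) : ℂ :=
  a (idx k x) * (Real.log (absNorm x.1.asIdeal) : ℂ) /
    (absNorm x.1.asIdeal : ℂ) ^ (((x.2 : ℕ) : ℂ) * s)

/-- the series over the prime powers -/
noncomputable def Der (K : Type) [Field K] [NumberField K] [Algebra k K] (s : ℂ) : ℂ :=
  ∑' x : HeightOneSpectrum (𝓞 K) × ℕ+, derTerm a K s x

/-- the weights -/
noncomputable def wD (y : HeightOneSpectrum (𝓞 k) × ℕ+) : ℂ :=
  a y * ((y.2 : ℕ) : ℂ) * (Real.log (absNorm y.1.asIdeal) : ℂ)

lemma tm_wD (K : Type) [Field K] [NumberField K] [Algebra k K] (s : ℂ)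
    (x : HeightOneSpectrum (𝓞 K) × ℕ+) :
    tm (fun x => wD a (idx k x)) s x = derTerm a K s x := by
  have h1 := idx_pow (k := k) x
  have h2 : ((absNorm (idx k x).1.asIdeal : ℝ)) ^ ((idx k x).2 : ℕ) =
      (absNorm x.1.asIdeal : ℝ) ^ (x.2 : ℕ) := by exact_mod_cast h1
  rw [tm, wD, derTerm]
  have h6 : (((idx k x).2 : ℕ) : ℂ) * (Real.log (absNorm (idx k x).1.asIdeal) : ℂ) =
      ((x.2 : ℕ) : ℂ) * (Real.log (absNorm x.1.asIdeal) : ℂ) := by
    have h7 : (((idx k x).2 : ℕ) : ℝ) * Real.log (absNorm (idx k x).1.asIdeal) =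
      ((x.2 : ℕ) : ℝ) * Real.log (absNorm x.1.asIdeal) := by
      rw [← Real.log_pow, ← Real.log_pow, h2]
    exact_mod_cast congrArg (fun z : ℝ => (z : ℂ)) h7
  have hn : ((x.2 : ℕ) : ℂ) ≠ 0 := by exact_mod_cast x.2.pos.ne'
  rw [mul_assoc (a (idx k x)), h6]
  field_simp

lemma wD_bound {C : ℝ} (ha : ∀ y, ‖a y‖ ≤ C) {b : ℝ} (hb : 0 < b)
    (y : HeightOneSpectrum (𝓞 k) × ℕ+) :
    ‖wD a y‖ ≤ (C / b) * (absNorm y.1.asIdeal : ℝ) ^ (b * (y.2 : ℕ)) := by
  have hC : 0 ≤ C := (norm_nonneg _).trans (ha y)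
  have h2 : (2 : ℝ) ≤ absNorm y.1.asIdeal := by exact_mod_cast two_le_absNorm y.1
  have h0 : (0 : ℝ) < absNorm y.1.asIdeal := by linarith
  have hn : (0 : ℝ) ≤ ((y.2 : ℕ) : ℝ) := Nat.cast_nonneg _
  have hl : 0 ≤ Real.log (absNorm y.1.asIdeal) := Real.log_nonneg (by linarith)
  rw [wD, norm_mul, norm_mul, Complex.norm_natCast, Complex.norm_real, Real.norm_eq_abs,
    abs_of_nonneg hl]
  have h3 : ((y.2 : ℕ) : ℝ) * Real.log (absNorm y.1.asIdeal) ≤
      (absNorm y.1.asIdeal : ℝ) ^ (b * (y.2 : ℕ)) / b := by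
    rw [← Real.log_pow]
    have h4 := Real.log_le_rpow_div (pow_nonneg h0.le (y.2 : ℕ)) hb
    have h5 : ((absNorm y.1.asIdeal : ℝ) ^ (y.2 : ℕ)) ^ b =
        (absNorm y.1.asIdeal : ℝ) ^ (b * (y.2 : ℕ)) := by
      rw [← Real.rpow_natCast, ← Real.rpow_mul h0.le, mul_comm]
    rwa [h5] at h4
  calc ‖a y‖ * ((y.2 : ℕ) : ℝ) * Real.log (absNorm y.1.asIdeal)
      = ‖a y‖ * (((y.2 : ℕ) : ℝ) * Real.log (absNorm y.1.asIdeal)) := by ring
    _ ≤ C * ((absNorm y.1.asIdeal : ℝ) ^ (b * (y.2 : ℕ)) / b) :=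
        mul_le_mul (ha y) h3 (mul_nonneg hn hl) hC
    _ = _ := by ring

open Classical in
/-- the exponent -/
noncomputable def eb (s : ℂ) : ℝ := if 1 < s.re then (s.re - 1) / 2 else 1

lemma eb_pos (s : ℂ) : 0 < eb s := by
  rw [eb]
  split_ifs with h
  · linarith
  · norm_num

lemma eb_lt {s : ℂ} : eb s + 1 < s.re ↔ 1 < s.re := by
  rw [eb]
  split_ifs with h
  · constructor
    · intro _
      exact h
    · intro _
      linarith
  · constructor
    · intro h1
      linarith
    · intro h1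
      exact absurd h1 h

variable {C : ℝ} (ha : ∀ y, ‖a y‖ ≤ C)

/-- the value at `s` -/
def evs (s : ℂ) : (ℂ → ℂ) →+ ℂ where
  toFun := fun F => F s
  map_zero' := rfl
  map_add' := fun _ _ => rfl

/-- the series over the prime powers as a function of number fields -/
noncomputable def derFun : FieldFun k (ℂ → ℂ) :=
  FieldFun.piV fun s => (gfun (wD a) (wD_bound a ha (eb_pos s))).comp (evs s)

open Classical in
lemma derFun_f (K : Type) [Field K] [NumberField K] [Algebra k K] :
    (derFun a ha).f K = fun s => if 1 < s.re then Der a K s else 0 := by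
  funext s
  change (if eb s + 1 < s.re then Lam (wD a) K s else 0) = _
  by_cases h : 1 < s.re
  · rw [if_pos (eb_lt.mpr h), if_pos h, Lam, Der]
    exact tsum_congr fun x => tm_wD a K s x
  · rw [if_neg (fun h1 => h (eb_lt.mp h1)), if_neg h]

include ha in
lemma der_summable (K : Type) [Field K] [NumberField K] [Algebra k K] {s : ℂ} (hs : 1 < s.re) :
    Summable (derTerm a K s) := by
  have h2 := summable_g (K := K) (L := K) (fun _ => 1) (fun x => wD a (idx k x))
    (bound_idx_g (wD a) (wD_bound a ha (eb_pos s))) (eb_lt.mpr hs)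
  refine h2.congr fun x => ?_
  rw [← tm_wD, logTerm_one, tm, mul_one_div]

/-- the series over the primes -/
noncomputable def PrimeSer (K : Type) [Field K] [NumberField K] [Algebra k K] (s : ℂ) : ℂ :=
  ∑' w : HeightOneSpectrum (𝓞 K),
    a (idx k (w, 1)) * (Real.log (absNorm w.asIdeal) : ℂ) / (absNorm w.asIdeal : ℂ) ^ s

lemma log_tail2 {x : ℝ} (hx : 2 ≤ x) {n : ℕ} (hn : 2 ≤ n) :
    Real.log x * x ^ (-((n : ℝ) * (3 / 4)) : ℝ) ≤ (4 * x ^ (-(5 / 4) : ℝ)) * (rh ^ n / rh ^ 2) := by
  have hx0 : 0 < x := by linarith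
  have h1 := log_tail hx hn le_rfl
  have h2 : (x ^ n) ^ ((3 / 4) : ℝ) * x ^ (-((n : ℝ) * (3 / 4)) : ℝ) = 1 := by
    rw [← Real.rpow_natCast x, ← Real.rpow_mul hx0.le, ← Real.rpow_add hx0]
    have : (n : ℝ) * (3 / 4) + -((n : ℝ) * (3 / 4)) = 0 := by ring
    rw [this, Real.rpow_zero]
  have h3 : 0 ≤ x ^ (-((n : ℝ) * (3 / 4)) : ℝ) := Real.rpow_nonneg hx0.le _
  calc Real.log x * x ^ (-((n : ℝ) * (3 / 4)) : ℝ)
      ≤ (x ^ n) ^ ((3 / 4) : ℝ) * ((4 * x ^ (-(5 / 4) : ℝ)) * (rh ^ n / rh ^ 2)) *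
        x ^ (-((n : ℝ) * (3 / 4)) : ℝ) := mul_le_mul_of_nonneg_right h1 h3
    _ = ((x ^ n) ^ ((3 / 4) : ℝ) * x ^ (-((n : ℝ) * (3 / 4)) : ℝ)) *
        ((4 * x ^ (-(5 / 4) : ℝ)) * (rh ^ n / rh ^ 2)) := by ring
    _ = _ := by rw [h2, one_mul]

open Classical in
/-- the terms with exponent at least two -/
noncomputable def tl (K : Type) [Field K] [NumberField K] [Algebra k K]
    (x : HeightOneSpectrum (𝓞 K) × ℕ+) (s : ℂ) : ℂ := if x.2 = 1 then 0 else derTerm a K s x

include ha in
lemma tl_bound (K : Type) [Field K] [NumberField K] [Algebra k K]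
    (x : HeightOneSpectrum (𝓞 K) × ℕ+) {s : ℂ} (hs : 3 / 4 < s.re) :
    ‖tl a K x s‖ ≤ C * ((4 * (absNorm x.1.asIdeal : ℝ) ^ (-(5 / 4) : ℝ)) *
      (rh ^ (x.2 : ℕ) / rh ^ 2)) := by
  have hC0 : 0 ≤ C := (norm_nonneg _).trans (ha (idx k x))
  have hg0 : 0 ≤ (4 * (absNorm x.1.asIdeal : ℝ) ^ (-(5 / 4) : ℝ)) * (rh ^ (x.2 : ℕ) / rh ^ 2) :=
    mul_nonneg (mul_nonneg (by norm_num) (Real.rpow_nonneg (Nat.cast_nonneg _) _))
      (div_nonneg (pow_nonneg rh_pos.le _) (pow_nonneg rh_pos.le _))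
  rw [tl]
  by_cases hx : x.2 = 1
  · rw [if_pos hx, norm_zero]
    exact mul_nonneg hC0 hg0
  · rw [if_neg hx, derTerm, norm_div, norm_mul, Complex.norm_real, Real.norm_eq_abs]
    have h2 : (2 : ℝ) ≤ absNorm x.1.asIdeal := by exact_mod_cast two_le_absNorm x.1
    have h0 : (0 : ℝ) < absNorm x.1.asIdeal := by linarith
    have hn : 2 ≤ (x.2 : ℕ) := by
      have h3 := x.2.pos
      have h4 : (x.2 : ℕ) ≠ 1 := fun h => hx (PNat.eq h)
      omega
    have hl : 0 ≤ Real.log (absNorm x.1.asIdeal) := Real.log_nonneg (by linarith)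
    rw [abs_of_nonneg hl]
    have h5 : ‖(absNorm x.1.asIdeal : ℂ) ^ (((x.2 : ℕ) : ℂ) * s)‖
        = (absNorm x.1.asIdeal : ℝ) ^ ((x.2 : ℕ) * s.re) := by
      have h6 := Complex.norm_cpow_eq_rpow_re_of_pos h0 (((x.2 : ℕ) : ℂ) * s)
      have h7 : (((x.2 : ℕ) : ℂ) * s).re = (x.2 : ℕ) * s.re := by
        rw [Complex.mul_re, Complex.natCast_re, Complex.natCast_im, zero_mul, sub_zero]
      rw [h7] at h6
      exact_mod_cast h6
    rw [h5, div_eq_mul_inv, ← Real.rpow_neg h0.le]
    have h6 : (absNorm x.1.asIdeal : ℝ) ^ (-((x.2 : ℕ) * s.re)) ≤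
        (absNorm x.1.asIdeal : ℝ) ^ (-(((x.2 : ℕ) : ℝ) * (3 / 4))) := by
      refine Real.rpow_le_rpow_of_exponent_le (by linarith) ?_
      have : (0 : ℝ) ≤ ((x.2 : ℕ) : ℝ) := Nat.cast_nonneg _
      nlinarith
    have h7 := log_tail2 h2 hn
    calc ‖a (idx k x)‖ * Real.log (absNorm x.1.asIdeal) *
        (absNorm x.1.asIdeal : ℝ) ^ (-((x.2 : ℕ) * s.re))
        ≤ C * Real.log (absNorm x.1.asIdeal) *
        (absNorm x.1.asIdeal : ℝ) ^ (-(((x.2 : ℕ) : ℝ) * (3 / 4))) := by
          have := ha (idx k x)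
          gcongr
      _ = C * (Real.log (absNorm x.1.asIdeal) *
        (absNorm x.1.asIdeal : ℝ) ^ (-(((x.2 : ℕ) : ℝ) * (3 / 4)))) := by ring
      _ ≤ _ := mul_le_mul_of_nonneg_left h7 hC0

include ha in
/-- the series over the higher prime powers is analytic -/
theorem tl_analytic (K : Type) [Field K] [NumberField K] [Algebra k K] :
    AnalyticAt ℂ (fun s => ∑' x, tl a K x s) 1 := by
  have hU : IsOpen {s : ℂ | 3 / 4 < s.re} := isOpen_lt continuous_const Complex.continuous_re
  have h1 : DifferentiableOn ℂ (fun s => ∑' x, tl a K x s) {s : ℂ | 3 / 4 < s.re} := by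
    refine Complex.differentiableOn_tsum_of_summable_norm ((tail_summable K).mul_left C) ?_ hU
      fun x s hs => tl_bound a ha K x hs
    intro x
    by_cases hx : x.2 = 1
    · have : tl a K x = fun _ => 0 := by
        funext s
        rw [tl, if_pos hx]
      rw [this]
      exact differentiableOn_const 0
    · have : tl a K x = fun s => a (idx k x) * (Real.log (absNorm x.1.asIdeal) : ℂ) /
          (absNorm x.1.asIdeal : ℂ) ^ (((x.2 : ℕ) : ℂ) * s) := by
        funext s
        rw [tl, if_neg hx, derTerm]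
      rw [this]
      have hN : (absNorm x.1.asIdeal : ℂ) ≠ 0 := by
        have := two_le_absNorm x.1
        exact_mod_cast (by omega : absNorm x.1.asIdeal ≠ 0)
      have hd : Differentiable ℂ (fun s : ℂ => (absNorm x.1.asIdeal : ℂ) ^ (((x.2 : ℕ) : ℂ) * s)) :=
        (differentiable_const _).mul differentiable_id |>.const_cpow (Or.inl hN)
      refine ((differentiable_const _).div hd fun s => ?_).differentiableOn
      rw [Complex.cpow_def_of_ne_zero hN]
      exact Complex.exp_ne_zero _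
  exact h1.analyticAt (hU.mem_nhds (by
    change (3 / 4 : ℝ) < (1 : ℂ).re
    rw [Complex.one_re]
    norm_num))

include ha in
theorem der_sub (K : Type) [Field K] [NumberField K] [Algebra k K] {s : ℂ} (hs : 1 < s.re) :
    Der a K s = PrimeSer a K s + ∑' x, tl a K x s := by
  classical
  have hsm := der_summable a ha K hs
  let f1 : HeightOneSpectrum (𝓞 K) × ℕ+ → ℂ := fun x => if x.2 = 1 then derTerm a K s x else 0
  have hf1 : Summable f1 := by
    refine Summable.of_norm_bounded hsm.norm fun x => ?_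
    by_cases hx : x.2 = 1
    · simp only [f1, if_pos hx]
      exact le_rfl
    · simp only [f1, if_neg hx, norm_zero]
      exact norm_nonneg _
  have hf2 : Summable (fun x => tl a K x s) := by
    refine Summable.of_norm_bounded hsm.norm fun x => ?_
    by_cases hx : x.2 = 1
    · rw [tl, if_pos hx, norm_zero]
      exact norm_nonneg _
    · rw [tl, if_neg hx]
  have h1 : Der a K s = ∑' x, f1 x + ∑' x, tl a K x s := by
    rw [← hf1.tsum_add hf2, Der]
    refine tsum_congr fun x => ?_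
    by_cases hx : x.2 = 1
    · simp only [f1, tl, if_pos hx, add_zero]
    · simp only [f1, tl, if_neg hx, zero_add]
  have h2 : ∑' x, f1 x = PrimeSer a K s := by
    have hinj : Function.Injective (fun w : HeightOneSpectrum (𝓞 K) => (w, (1 : ℕ+))) :=
      fun w w' h => congrArg Prod.fst h
    have h3 := hinj.tsum_eq (f := f1) (by
      intro x hx
      rw [Function.mem_support] at hx
      refine ⟨x.1, ?_⟩
      have : x.2 = 1 := by
        by_contra hne
        exact hx (if_neg hne)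
      exact Prod.ext rfl this.symm)
    rw [← h3, PrimeSer]
    refine tsum_congr fun w => ?_
    simp only [f1, if_pos, derTerm, PNat.one_coe, Nat.cast_one, one_mul]
  rw [h1, h2]

end ser

section res

/-- `F` has a continuation near `1` with the residue `r`, and a pole of order at most one -/
def HasRes (F : ℂ → ℂ) (r : ℂ) : Prop :=
  ∃ H : ℂ → ℂ, AnalyticAt ℂ H 1 ∧ ∀ᶠ s in 𝓝 (1 : ℂ), 1 < s.re → F s = r / (s - 1) + H s

/-- the pairs of a function and its residue -/
noncomputable def rSub : Submodule ℚ ((ℂ → ℂ) × ℚ) where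
  carrier := {v | HasRes v.1 v.2}
  zero_mem' := ⟨fun _ => 0, analyticAt_const, Filter.Eventually.of_forall fun s _ => by simp⟩
  add_mem' := fun {v w} hv hw => by
    obtain ⟨H, h1, h2⟩ := hv
    obtain ⟨H', h1', h2'⟩ := hw
    refine ⟨fun s => H s + H' s, h1.add h1', ?_⟩
    filter_upwards [h2, h2'] with s e e' hs
    change v.1 s + w.1 s = _
    rw [e hs, e' hs]
    change _ = ((v.2 + w.2 : ℚ) : ℂ) / (s - 1) + _
    push_cast
    ring
  smul_mem' := fun c {v} hv => by
    obtain ⟨H, h1, h2⟩ := hv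
    refine ⟨fun s => (c : ℂ) * H s, analyticAt_const.mul h1, ?_⟩
    filter_upwards [h2] with s e hs
    change c • v.1 s = _
    rw [e hs, Rat.smul_def]
    change _ = ((c * v.2 : ℚ) : ℂ) / (s - 1) + _
    push_cast
    ring

lemma mem_rSub {v : (ℂ → ℂ) × ℚ} : v ∈ rSub ↔ HasRes v.1 v.2 := Iff.rfl

/-- the residue does not change if an analytic function is added -/
lemma HasRes.congr {F F' G : ℂ → ℂ} {r : ℂ} (hG : AnalyticAt ℂ G 1)
    (h : ∀ s : ℂ, 1 < s.re → F s = F' s + G s) : HasRes F r ↔ HasRes F' r := by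
  constructor
  · rintro ⟨H, h1, h2⟩
    refine ⟨fun s => H s - G s, h1.sub hG, ?_⟩
    filter_upwards [h2] with s e hs
    have h3 := h s hs
    rw [e hs] at h3
    linear_combination -h3
  · rintro ⟨H, h1, h2⟩
    refine ⟨fun s => H s + G s, h1.add hG, ?_⟩
    filter_upwards [h2] with s e hs
    rw [h s hs, e hs]
    ring

end res

section resfun

variable {k : Type} [Field k] [NumberField k] (a : HeightOneSpectrum (𝓞 k) × ℕ+ → ℂ)
  {C : ℝ} (ha : ∀ y, ‖a y‖ ≤ C) (D : RankFunctor k)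

/-- the series and the ranks as a function of number fields -/
noncomputable def resFun : FieldFun k (((ℂ → ℂ) × ℚ) ⧸ rSub) :=
  ((derFun a ha).pair D.toFun).comp (Submodule.mkQ rSub).toAddMonoidHom

open Classical in
lemma res_comb {ι : Type} [Fintype ι] (K : ι → Type) [∀ i, Field (K i)]
    [∀ i, NumberField (K i)] [∀ i, Algebra k (K i)] (t : ι → ℤ) :
    ∑ i, t i • (resFun a ha D).f (K i) = 0 ↔
    HasRes (fun s => ∑ i, t i * PrimeSer a (K i) s) (∑ i, t i * (D.rank (K i) : ℂ)) := by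
  have h1 : ∑ i, t i • (resFun a ha D).f (K i) = Submodule.mkQ rSub
      (∑ i, t i • (((fun s => if 1 < s.re then Der a (K i) s else 0), (D.rank (K i) : ℚ)) :
        (ℂ → ℂ) × ℚ)) := by
    rw [map_sum]
    refine Finset.sum_congr rfl fun i _ => ?_
    rw [map_zsmul]
    congr 1
    change (Submodule.mkQ rSub) ((derFun a ha).f (K i), (D.rank (K i) : ℚ)) = _
    rw [derFun_f]
  rw [h1, Submodule.mkQ_apply, Submodule.Quotient.mk_eq_zero, mem_rSub]
  have h3 : (((∑ i, t i • (((fun s => if 1 < s.re then Der a (K i) s else 0), (D.rank (K i) : ℚ)) :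
        (ℂ → ℂ) × ℚ)).2 : ℚ) : ℂ) = ∑ i, t i * (D.rank (K i) : ℂ) := by
    rw [Prod.snd_sum]
    push_cast
    refine Finset.sum_congr rfl fun i _ => ?_
    rw [Prod.smul_snd, zsmul_eq_mul]
    push_cast
    rfl
  rw [h3]
  have hG : AnalyticAt ℂ (fun s => ∑ i, (t i : ℂ) * ∑' x, tl a (K i) x s) 1 := by
    have h5 := Finset.analyticAt_sum (𝕜 := ℂ) (f := fun i s => (t i : ℂ) * ∑' x, tl a (K i) x s)
      (c := (1 : ℂ)) Finset.univ fun i _ => analyticAt_const.mul (tl_analytic a ha (K i))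
    have h6 : (∑ i, fun s => (t i : ℂ) * ∑' x, tl a (K i) x s) =
        fun s => ∑ i, (t i : ℂ) * ∑' x, tl a (K i) x s := by
      funext s
      rw [Finset.sum_apply]
    first
      | exact h5
      | (rw [← h6]; exact h5)
  refine HasRes.congr hG fun s hs => ?_
  rw [Prod.fst_sum, Finset.sum_apply, ← Finset.sum_add_distrib]
  refine Finset.sum_congr rfl fun i _ => ?_
  rw [Prod.smul_fst, Pi.smul_apply, zsmul_eq_mul, ← mul_add, ← der_sub a ha (K i) hs]
  simp only [if_pos hs]

lemma res_iff (K : Type) [Field K] [NumberField K] [Algebra k K] :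
    (resFun a ha D).f K = 0 ↔ HasRes (PrimeSer a K) (D.rank K : ℂ) := by
  have h := res_comb a ha D (fun _ : Fin 1 => K) (fun _ => 1)
  simp only [Fin.sum_univ_one, one_smul, Int.cast_one, one_mul] at h
  exact h

lemma res_pair (K L : Type) [Field K] [NumberField K] [Algebra k K]
    [Field L] [NumberField L] [Algebra k L] :
    (resFun a ha D).f K = (resFun a ha D).f L ↔
      HasRes (fun s => PrimeSer a L s - PrimeSer a K s) ((D.rank L : ℂ) - (D.rank K : ℂ)) := by
  let KK : Option (Fin 1) → Type := fun i => match i with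
    | none => L
    | some _ => K
  let _ : ∀ i, Field (KK i) := fun i => match i with
    | none => (inferInstance : Field L)
    | some _ => (inferInstance : Field K)
  have _ : ∀ i, NumberField (KK i) := fun i => match i with
    | none => (inferInstance : NumberField L)
    | some _ => (inferInstance : NumberField K)
  let _ : ∀ i, Algebra k (KK i) := fun i => match i with
    | none => (inferInstance : Algebra k L)
    | some _ => (inferInstance : Algebra k K)
  let t : Option (Fin 1) → ℤ := fun i => match i with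
    | none => 1
    | some _ => -1
  have h := res_comb a ha D KK t
  rw [Fintype.sum_option, Fintype.sum_option, Fin.sum_univ_one, Fin.sum_univ_one] at h
  have h1 : (fun s => ∑ i, (t i : ℂ) * PrimeSer a (KK i) s) =
      fun s => PrimeSer a L s - PrimeSer a K s := by
    funext T
    rw [Fintype.sum_option, Fin.sum_univ_one]
    change ((1 : ℤ) : ℂ) * PrimeSer a L T + ((-1 : ℤ) : ℂ) * PrimeSer a K T = _
    push_cast
    ring
  rw [h1] at h
  have h2 : ((t none : ℤ) : ℂ) * (D.rank (KK none) : ℂ) +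
      ((t (some 0) : ℤ) : ℂ) * (D.rank (KK (some 0)) : ℂ) = (D.rank L : ℂ) - (D.rank K : ℂ) := by
    change ((1 : ℤ) : ℂ) * (D.rank L : ℂ) + ((-1 : ℤ) : ℂ) * (D.rank K : ℂ) = _
    push_cast
    ring
  rw [h2] at h
  have h3 : t none • (resFun a ha D).f (KK none) + t (some 0) • (resFun a ha D).f (KK (some 0)) =
      (resFun a ha D).f L - (resFun a ha D).f K := by
    change (1 : ℤ) • (resFun a ha D).f L + (-1 : ℤ) • (resFun a ha D).f K = _
    rw [one_smul, neg_smul, one_smul, sub_eq_add_neg]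
  rw [h3, sub_eq_zero] at h
  exact eq_comm.trans h

lemma res_base (K₀ : Type) [Field K₀] [NumberField K₀] [Algebra k K₀] {ι : Type} [Fintype ι]
    (K : ι → Type) [∀ i, Field (K i)] [∀ i, NumberField (K i)] [∀ i, Algebra k (K i)] (t : ι → ℤ)
    (key : ∑ i, t i • ((resFun a ha D).f (K i) - (resFun a ha D).f K₀) = 0) :
    HasRes (fun s => ∑ i, t i * (PrimeSer a (K i) s - PrimeSer a K₀ s))
      (∑ i, t i * ((D.rank (K i) : ℂ) - (D.rank K₀ : ℂ))) := by
  let KK : Option ι → Type := fun i => match i with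
    | none => K₀
    | some i => K i
  let _ : ∀ i, Field (KK i) := fun i => match i with
    | none => (inferInstance : Field K₀)
    | some i => (inferInstance : Field (K i))
  have _ : ∀ i, NumberField (KK i) := fun i => match i with
    | none => (inferInstance : NumberField K₀)
    | some i => (inferInstance : NumberField (K i))
  let _ : ∀ i, Algebra k (KK i) := fun i => match i with
    | none => (inferInstance : Algebra k K₀)
    | some i => (inferInstance : Algebra k (K i))
  let t' : Option ι → ℤ := fun i => match i with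
    | none => -∑ i, t i
    | some i => t i
  have h1 := res_comb a ha D KK t'
  rw [Fintype.sum_option, Fintype.sum_option] at h1
  have h2 : t' none • (resFun a ha D).f (KK none) +
      ∑ i, t' (some i) • (resFun a ha D).f (KK (some i)) = 0 := by
    rw [← key]
    change (-∑ i, t i) • (resFun a ha D).f K₀ + ∑ i, t i • (resFun a ha D).f (K i) = _
    rw [neg_smul, Finset.sum_smul, ← Finset.sum_neg_distrib, ← Finset.sum_add_distrib]
    refine Finset.sum_congr rfl fun i _ => ?_
    rw [smul_sub]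
    abel
  have h3 := h1.mp h2
  have h4 : ((t' none : ℤ) : ℂ) * (D.rank (KK none) : ℂ) +
      ∑ i, ((t' (some i) : ℤ) : ℂ) * (D.rank (KK (some i)) : ℂ) =
      ∑ i, t i * ((D.rank (K i) : ℂ) - (D.rank K₀ : ℂ)) := by
    change ((-∑ i, t i : ℤ) : ℂ) * (D.rank K₀ : ℂ) + ∑ i, ((t i : ℤ) : ℂ) * (D.rank (K i) : ℂ) = _
    push_cast
    rw [neg_mul, Finset.sum_mul, ← Finset.sum_neg_distrib, ← Finset.sum_add_distrib]
    refine Finset.sum_congr rfl fun i _ => ?_
    ring
  rw [h4] at h3
  have h5 : (fun s => ∑ i, (t' i : ℂ) * PrimeSer a (KK i) s) =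
      fun s => ∑ i, t i * (PrimeSer a (K i) s - PrimeSer a K₀ s) := by
    funext T
    rw [Fintype.sum_option]
    change ((-∑ i, t i : ℤ) : ℂ) * PrimeSer a K₀ T + ∑ i, ((t i : ℤ) : ℂ) * PrimeSer a (K i) T = _
    push_cast
    rw [neg_mul, Finset.sum_mul, ← Finset.sum_neg_distrib, ← Finset.sum_add_distrib]
    refine Finset.sum_congr rfl fun i _ => ?_
    ring
  rw [h5] at h3
  exact h3

end resfun

end Pool.Agent.Run7.h508.BR
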