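import Mathlib
import Pool.Agent.Run7.h508.BR.DFF

/-!
# Stable subspaces of representations of the absolute Galois group
-/

set_option autoImplicit false
set_option linter.unusedSectionVars false

namespace Pool.Agent.Run7.h508.BR

open NumberField

section gt

variable {F : Type} [Field F] [CharZero F] {k : Type} [Field k] [NumberField k] {Ω : Type}
  [Field Ω] [Algebra k Ω] {V : Type} [AddCommGroup V]
  [Module F V] (ρ : Representation F (Ω ≃ₐ[k] Ω) V) (T : Submodule F V)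

/-- the vectors of `T` which are fixed by the automorphisms which fix the image of `j` -/
noncomputable def tfix {K : Type} [Field K] [Algebra k K] (j : K →ₐ[k] Ω) : Submodule F V where
  carrier := {v | v ∈ T ∧ ∀ σ : Ω ≃ₐ[k] Ω, (∀ x : K, σ (j x) = j x) → ρ σ v = v}
  zero_mem' := ⟨Submodule.zero_mem _, fun σ _ => map_zero _⟩
  add_mem' := fun {a b} ha hb => ⟨Submodule.add_mem _ ha.1 hb.1, fun σ h => by
    rw [map_add, ha.2 σ h, hb.2 σ h]⟩
  smul_mem' := fun q a ha => ⟨Submodule.smul_mem _ q ha.1, fun σ h => by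
    rw [map_smul, ha.2 σ h]⟩

lemma mem_tfix {K : Type} [Field K] [Algebra k K] {j : K →ₐ[k] Ω} {v : V} :
    v ∈ tfix ρ T j ↔ v ∈ T ∧ Fixed ρ j v := Iff.rfl

lemma tfix_mono {K L : Type} [Field K] [Field L] [Algebra k K] [Algebra k L] (f : K →ₐ[k] L)
    (j : L →ₐ[k] Ω) : tfix ρ T (j.comp f) ≤ tfix ρ T j :=
  fun _ hc => ⟨hc.1, fun σ hσ => hc.2 σ fun x => hσ (f x)⟩

/-- no growth in the unramified case -/
def TNoGrow (m : ℕ) : Prop :=
  ∀ (K L : Type) [Field K] [NumberField K] [Field L] [NumberField L] [Algebra k K] [Algebra K L]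
    [Algebra k L] [IsScalarTower k K L] [IsGalois K L], IsTotallyComplex K →
    (Module.finrank K L).Prime → UnrSplit m K L → ∀ (j : L →ₐ[k] Ω),
    tfix ρ T j ≤ tfix ρ T (j.comp (IsScalarTower.toAlgHom k K L))

/-- finite growth in the unramified case -/
def TFinGrow (m : ℕ) : Prop :=
  ∀ (K L : Type) [Field K] [NumberField K] [Field L] [NumberField L] [Algebra k K] [Algebra K L]
    [Algebra k L] [IsScalarTower k K L] [IsGalois K L], IsTotallyComplex K →
    (Module.finrank K L).Prime → UnrSplit m K L → ∀ (j : L →ₐ[k] Ω),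
    ∃ W : Submodule F V, W.FG ∧
      tfix ρ T j ≤ tfix ρ T (j.comp (IsScalarTower.toAlgHom k K L)) ⊔ W

variable {T} (hT : ∀ σ, ∀ v ∈ T, ρ σ v ∈ T)

/-- the representation on `T` -/
noncomputable def subRep : Representation F (Ω ≃ₐ[k] Ω) T where
  toFun := fun σ => (ρ σ).restrict (hT σ)
  map_one' := by
    ext v
    change ρ 1 v.1 = v.1
    rw [map_one]
    rfl
  map_mul' := fun σ τ => by
    ext v
    change ρ (σ * τ) v.1 = ρ σ (ρ τ v.1)
    rw [map_mul]
    rfl

lemma fixed_sub {K : Type} [Field K] [Algebra k K] (j : K →ₐ[k] Ω) (v : T) :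
    Fixed (subRep ρ hT) j v ↔ Fixed ρ j v.1 := by
  constructor
  · intro h σ hσ
    exact congrArg Subtype.val (h σ hσ)
  · intro h σ hσ
    exact Subtype.ext (h σ hσ)

variable [IsAlgClosed Ω] [Algebra.IsAlgebraic k Ω]

include hT in
theorem t_noGrow {m : ℕ} (hm : m ≠ 0) (h : TNoGrow ρ T m) (K L : Type) [Field K] [NumberField K]
    [Field L] [NumberField L] [Algebra k K] [Algebra k L] (hK : IsTotallyComplex K)
    (f : K →ₐ[k] L) (j : L →ₐ[k] Ω) : tfix ρ T j = tfix ρ T (j.comp f) := by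
  refine le_antisymm (fun v hv => ?_) (tfix_mono ρ T f j)
  have h1 : GNoGrow (subRep ρ hT) m := by
    intro K L _ _ _ _ _ _ _ _ _ hK hp hu j v hv
    rw [fixed_sub] at hv ⊢
    exact (h K L hK hp hu j ⟨v.2, hv⟩).2
  have h2 := gm_noGrow (subRep ρ hT) hm h1 K L hK f j ⟨v, hv.1⟩
    ((fixed_sub ρ hT j ⟨v, hv.1⟩).mpr hv.2)
  exact ⟨hv.1, (fixed_sub ρ hT _ ⟨v, hv.1⟩).mp h2⟩

include hT in
theorem t_vanish {m : ℕ} (hm : m ≠ 0) (hk : IsTotallyComplex k)
    (hd : ∀ v : V, ∃ (K : Type) (_ : Field K) (_ : NumberField K) (_ : Algebra k K)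
      (j : K →ₐ[k] Ω), Fixed ρ j v)
    (h0 : tfix ρ T (Algebra.ofId k Ω) = ⊥) (h : TNoGrow ρ T m) : T = ⊥ := by
  rw [eq_bot_iff]
  intro v hv
  obtain ⟨K, i1, i2, i3, j, hj⟩ := hd v
  have h1 : v ∈ tfix ρ T j := ⟨hv, hj⟩
  rw [t_noGrow ρ hT hm h k K hk (Algebra.ofId k K) j] at h1
  have h2 : j.comp (Algebra.ofId k K) = Algebra.ofId k Ω := Subsingleton.elim _ _
  rw [h2, h0] at h1
  exact h1

/-- the space of fixed vectors and the fixed space of the representation on `T` -/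
lemma map_sub {K : Type} [Field K] [Algebra k K] (j : K →ₐ[k] Ω) :
    (fixSub (subRep ρ hT) j).map T.subtype = tfix ρ T j := by
  ext c
  constructor
  · rintro ⟨v, hv, rfl⟩
    exact ⟨v.2, (fixed_sub ρ hT j v).mp hv⟩
  · rintro ⟨h1, h2⟩
    exact ⟨⟨c, h1⟩, (fixed_sub ρ hT j ⟨c, h1⟩).mpr h2, rfl⟩

lemma fg_sub {K : Type} [Field K] [Algebra k K] (j : K →ₐ[k] Ω) :
    (tfix ρ T j).FG ↔ FiniteDimensional F (fixSub (subRep ρ hT) j) := by
  rw [← map_sub ρ hT]
  constructor
  · intro h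
    exact Module.Finite.iff_fg.mpr
      (Submodule.fg_of_fg_map_injective _ Subtype.val_injective h)
  · intro h
    exact Submodule.FG.map _ (Module.Finite.iff_fg.mp h)

include hT in
theorem t_finite {m : ℕ} (hm : m ≠ 0) (h : TFinGrow ρ T m) (K L : Type) [Field K]
    [NumberField K] [Field L] [NumberField L] [Algebra k K] [Algebra k L]
    (hK : IsTotallyComplex K) (f : K →ₐ[k] L) (j : L →ₐ[k] Ω) (hfin : (tfix ρ T (j.comp f)).FG) :
    (tfix ρ T j).FG := by
  have h1 : GFinGrow (subRep ρ hT) m := by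
    intro K L _ _ _ _ _ _ _ _ _ hK hp hu j
    obtain ⟨W, hW, hle⟩ := h K L hK hp hu j
    refine ⟨(W ⊓ T).comap T.subtype, ?_, ?_⟩
    · refine Submodule.fg_of_fg_map_injective T.subtype Subtype.val_injective ?_
      rw [Submodule.map_comap_subtype, inf_comm, inf_assoc, inf_idem]
      exact Submodule.FG.of_le hW inf_le_left
    · intro v hv
      have h1 : v.1 ∈ tfix ρ T j := by
        rw [← map_sub ρ hT]
        exact ⟨v, hv, rfl⟩
      obtain ⟨a, ha, w, hw, hsum⟩ := Submodule.mem_sup.mp (hle h1)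
      have hwd : w ∈ T := by
        have h2 : w = v.1 - a := by rw [← hsum, add_sub_cancel_left]
        rw [h2]
        exact Submodule.sub_mem _ v.2 ha.1
      rw [← map_sub ρ hT] at ha
      obtain ⟨a', ha', rfl⟩ := ha
      exact Submodule.mem_sup.mpr ⟨a', ha', ⟨w, hwd⟩, ⟨hw, hwd⟩, Subtype.ext hsum⟩
  rw [fg_sub ρ hT] at hfin ⊢
  exact gm_finite _ hm h1 K L hK f j hfin

end gt

end Pool.Agent.Run7.h508.BR
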