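import Mathlib
import Pool.Agent.Run7.h508.BR.Cont

/-!
# Meromorphic continuation of powers to a set, with prescribed orders, as a `ℚ`-subspace
-/

set_option autoImplicit false
set_option linter.unusedSectionVars false

namespace Pool.Agent.Run7.h508.BR

open NumberField

/-- the exponential of `lam` on the half-plane `Re s > 2` has a meromorphic continuation to `U` of
order `d D(z)` at the points `z` of `Q` -/
def UCont (U Q : Set ℂ) (D : ℂ → ℤ) (lam : ℂ → ℂ) (d : ℤ) : Prop :=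
  ∃ Z : ℂ → ℂ, MeromorphicOn Z U ∧ (∀ s : ℂ, 2 < s.re → Z s = Complex.exp (lam s)) ∧
    ∀ z ∈ Q, meromorphicOrderAt Z z = ((d * D z : ℤ) : WithTop ℤ)

variable {U Q : Set ℂ} {D : ℂ → ℤ}

lemma UCont.zero : UCont U Q D 0 0 := by
  refine ⟨fun _ => 1, MeromorphicOn.const 1, fun s _ => by simp, fun z _ => ?_⟩
  have h1 : MeromorphicAt (fun _ : ℂ => (1 : ℂ)) z := MeromorphicAt.const 1 z
  rw [meromorphicOrderAt_eq_int_iff h1]
  exact ⟨fun _ => 1, analyticAt_const, one_ne_zero, by simp⟩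

lemma UCont.add (hQ : Q ⊆ U) {l l' : ℂ → ℂ} {r r' : ℤ} (h : UCont U Q D l r)
    (h' : UCont U Q D l' r') : UCont U Q D (l + l') (r + r') := by
  obtain ⟨Z, h1, h2, h3⟩ := h
  obtain ⟨Z', h1', h2', h3'⟩ := h'
  refine ⟨Z * Z', h1.mul h1', fun s hs => ?_, fun z hz => ?_⟩
  · rw [Pi.mul_apply, h2 s hs, h2' s hs, Pi.add_apply, Complex.exp_add]
  · rw [meromorphicOrderAt_mul (h1 z (hQ hz)) (h1' z (hQ hz)), h3 z hz, h3' z hz, add_mul]
    push_cast
    rfl

lemma UCont.neg {l : ℂ → ℂ} {r : ℤ} (h : UCont U Q D l r) : UCont U Q D (-l) (-r) := by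
  obtain ⟨Z, h1, h2, h3⟩ := h
  refine ⟨Z⁻¹, h1.inv, fun s hs => ?_, fun z hz => ?_⟩
  · rw [Pi.inv_apply, h2 s hs, Pi.neg_apply, Complex.exp_neg]
  · rw [meromorphicOrderAt_inv, h3 z hz, neg_mul]
    rfl

lemma UCont.nsmul (hQ : Q ⊆ U) {l : ℂ → ℂ} {r : ℤ} (h : UCont U Q D l r) (n : ℕ) :
    UCont U Q D (n • l) (n * r) := by
  induction n with
  | zero =>
    rw [zero_smul, Nat.cast_zero, zero_mul]
    exact UCont.zero
  | succ n ih =>
    have h1 := ih.add hQ h
    have h2 : (n + 1) • l = n • l + l := succ_nsmul l n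
    have h3 : ((n + 1 : ℕ) : ℤ) * r = n * r + r := by push_cast; ring
    rw [h2, h3]
    exact h1

lemma UCont.zsmul (hQ : Q ⊆ U) {l : ℂ → ℂ} {r : ℤ} (h : UCont U Q D l r) (n : ℤ) :
    UCont U Q D (n • l) (n * r) := by
  rcases Int.eq_nat_or_neg n with ⟨m, rfl | rfl⟩
  · have h1 := h.nsmul hQ m
    rwa [← natCast_zsmul] at h1
  · have h1 := (h.nsmul hQ m).neg
    rw [neg_smul, natCast_zsmul, neg_mul]
    exact h1

variable (U Q D) in
/-- some power has a meromorphic continuation -/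
def UWCont (lam : ℂ → ℂ) (r : ℚ) : Prop :=
  ∃ n : ℕ, 0 < n ∧ ∃ m : ℤ, (m : ℚ) = n * r ∧ UCont U Q D (n • lam) m

/-- the pairs with the property `UWCont` -/
def uSub (U Q : Set ℂ) (D : ℂ → ℤ) (hQ : Q ⊆ U) : Submodule ℚ ((ℂ → ℂ) × ℚ) where
  carrier := {v | UWCont U Q D v.1 v.2}
  zero_mem' := ⟨1, one_pos, 0, by simp, by
    rw [Prod.fst_zero, smul_zero]
    exact UCont.zero⟩
  add_mem' := by
    rintro ⟨l, r⟩ ⟨l', r'⟩ ⟨n, hn, m, hm, h⟩ ⟨n', hn', m', hm', h'⟩
    refine ⟨n * n', Nat.mul_pos hn hn', n' * m + n * m', ?_, ?_⟩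
    · push_cast
      rw [hm, hm']
      change (n' : ℚ) * (n * r) + n * (n' * r') = (n : ℚ) * n' * (r + r')
      ring
    · have h1 := (h.nsmul hQ n').add hQ (h'.nsmul hQ n)
      have h2 : (n * n') • (l + l') = n' • n • l + n • n' • l' := by
        rw [smul_add, mul_comm n n', mul_smul, mul_comm n' n, mul_smul]
      change UCont U Q D ((n * n') • (l + l')) _
      rw [h2]
      exact h1
  smul_mem' := by
    rintro q ⟨l, r⟩ ⟨n, hn, m, hm, h⟩
    refine ⟨n * q.den, Nat.mul_pos hn q.den_pos, q.num * m, ?_, ?_⟩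
    · push_cast
      rw [hm]
      change (q.num : ℚ) * (n * r) = (n : ℚ) * q.den * (q * r)
      have h1 : (q.den : ℚ) * q = q.num := by rw [mul_comm]; exact Rat.mul_den_eq_num q
      calc (q.num : ℚ) * (n * r) = (q.den * q) * (n * r) := by rw [h1]
        _ = _ := by ring
    · have h1 := h.zsmul hQ q.num
      have h2 : (n * q.den) • (q • l) = q.num • n • l := by
        have h3 : (q.den : ℚ) * q = q.num := by rw [mul_comm]; exact Rat.mul_den_eq_num q
        rw [← Int.cast_smul_eq_zsmul ℚ q.num, ← Nat.cast_smul_eq_nsmul ℚ (n * q.den),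
          ← Nat.cast_smul_eq_nsmul ℚ n, smul_smul, smul_smul, ← h3]
        congr 1
        push_cast
        ring
      change UCont U Q D ((n * q.den) • (q • l)) _
      rw [h2]
      exact h1

lemma mem_uSub (hQ : Q ⊆ U) {v : (ℂ → ℂ) × ℚ} : v ∈ uSub U Q D hQ ↔ UWCont U Q D v.1 v.2 :=
  Iff.rfl

/-- if the function itself has a meromorphic continuation, its order is `r D(z)` -/
theorem UWCont.order {lam : ℂ → ℂ} {r : ℤ} (h : UWCont U Q D lam r) (hQ : Q ⊆ U)
    (hU : IsPreconnected U) (hH : ∀ s : ℂ, 2 < s.re → s ∈ U) {Λ : ℂ → ℂ}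
    (hΛ : MeromorphicOn Λ U) (h1 : ∀ s : ℂ, 2 < s.re → Λ s = Complex.exp (lam s)) {z : ℂ}
    (hz : z ∈ Q) : meromorphicOrderAt Λ z = ((r * D z : ℤ) : WithTop ℤ) := by
  obtain ⟨n, hn, m, hm, Z, hZ, hZ1, hZ2⟩ := h
  have hm' : m = n * r := by exact_mod_cast hm
  have hpow : MeromorphicOn (Λ ^ n) U := hΛ.pow n
  let E : ℂ → ℂ := Λ ^ n - Z
  have hE : MeromorphicOn E U := hpow.sub hZ
  have h3 : meromorphicOrderAt E 3 = ⊤ := by
    rw [meromorphicOrderAt_eq_top_iff]
    have h4 : ∀ᶠ z in nhds (3 : ℂ), 2 < z.re := by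
      have h5 : IsOpen {z : ℂ | 2 < z.re} := isOpen_lt continuous_const Complex.continuous_re
      exact h5.mem_nhds (by norm_num)
    refine (h4.filter_mono nhdsWithin_le_nhds).mono fun z hz => ?_
    change Λ z ^ n - Z z = 0
    rw [h1 z hz, hZ1 z hz, ← Complex.exp_nat_mul, Pi.smul_apply, nsmul_eq_mul, sub_self]
  have h4 : meromorphicOrderAt E z = ⊤ := by
    by_contra hne
    exact (hE.meromorphicOrderAt_ne_top_of_isPreconnected hU (hQ hz)
      (hH 3 (by norm_num)) hne) h3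
  rw [meromorphicOrderAt_eq_top_iff] at h4
  have h5 : Λ ^ n =ᶠ[nhdsWithin z {z}ᶜ] Z := by
    filter_upwards [h4] with z hz
    exact sub_eq_zero.mp hz
  have h6 : meromorphicOrderAt (Λ ^ n) z = ((m * D z : ℤ) : WithTop ℤ) := by
    rw [meromorphicOrderAt_congr h5, hZ2 z hz]
  rw [meromorphicOrderAt_pow (hΛ z (hQ hz)), hm'] at h6
  cases h7 : meromorphicOrderAt Λ z with
  | top =>
    rw [h7] at h6
    exfalso
    have h8 : ((n : ℤ) : WithTop ℤ) * ⊤ = ⊤ := WithTop.mul_top (by exact_mod_cast hn.ne')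
    have h9 : (n : WithTop ℤ) * ⊤ = ⊤ := h8
    rw [h9] at h6
    exact WithTop.top_ne_coe h6
  | coe a =>
    rw [h7] at h6
    have h8 : (n : ℤ) * a = n * r * D z := by exact_mod_cast h6
    rw [mul_assoc] at h8
    have h9 : a = r * D z := mul_left_cancel₀ (by exact_mod_cast hn.ne') h8
    rw [h9]

/-- the degree as a function of number fields -/
noncomputable def degFun (k : Type) [Field k] [NumberField k] : FieldFun k ℚ where
  f := fun K _ _ _ => (Module.finrank k K : ℚ)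
  iso := fun K K' _ _ _ _ _ _ e => by rw [e.toLinearEquiv.finrank_eq]
  mean := fun N _ _ _ _ => by
    classical
    have hfin : FiniteDimensional k N := Module.Finite.of_restrictScalars_finite ℚ k N
    have := Fintype.ofFinite (N ≃ₐ[k] N)
    refine ⟨fun g => if g = 1 then (Module.finrank k N : ℚ) else 0, fun H => ?_⟩
    rw [tot_eq]
    have h1 : ∀ g : N ≃ₐ[k] N, (if g ∈ H then (if g = 1 then (Module.finrank k N : ℚ) else 0)
        else 0) = if g = 1 then (Module.finrank k N : ℚ) else 0 := by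
      intro g
      by_cases hg : g = 1
      · subst hg
        rw [if_pos H.one_mem]
      · rw [if_neg hg, ite_self]
    rw [Finset.sum_congr rfl fun g _ => h1 g, Finset.sum_ite_eq' Finset.univ 1, if_pos (Finset.mem_univ _)]
    have h2 : Module.finrank (IntermediateField.fixedField H) N = Nat.card H :=
      IntermediateField.finrank_fixedField_eq_card H
    have h3 := Module.finrank_mul_finrank k (IntermediateField.fixedField H) N
    change Nat.card H • (Module.finrank k (IntermediateField.fixedField H) : ℚ) = _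
    rw [← h2, nsmul_eq_mul, ← h3]
    push_cast
    ring

end Pool.Agent.Run7.h508.BR
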