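import Mathlib

/-!
# Roots of analytic functions without zeros
-/

set_option autoImplicit false
set_option linter.unusedSectionVars false

namespace Pool.Agent.Run7.h508.BR

open Filter Topology

lemma roots_finite {n : ℕ} (hn : 0 < n) : {x : ℂ | x ^ n = 1}.Finite := by
  have h1 : {x : ℂ | x ^ n = 1} ⊆ ((Polynomial.X ^ n - 1 : Polynomial ℂ).roots.toFinset : Set ℂ) := by
    intro x hx
    have hne : (Polynomial.X ^ n - 1 : Polynomial ℂ) ≠ 0 :=
      Polynomial.X_pow_sub_C_ne_zero (R := ℂ) hn 1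
    rw [Finset.mem_coe, Multiset.mem_toFinset, Polynomial.mem_roots hne]
    simpa [Polynomial.IsRoot, sub_eq_zero] using hx
  exact (Finset.finite_toSet _).subset h1

/-- a continuous root of an analytic function without zeros is analytic -/
lemma root_analytic {F Z : ℂ → ℂ} {z : ℂ} {n : ℕ} (hn : 0 < n) (hF : ContinuousAt F z)
    (hZ : AnalyticAt ℂ Z z) (h0 : Z z ≠ 0) (h : ∀ᶠ w in 𝓝 z, F w ^ n = Z w) :
    AnalyticAt ℂ F z := by
  have hzn : F z ^ n = Z z := h.self_of_nhds
  have hFz : F z ≠ 0 := by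
    intro h1
    rw [h1, zero_pow hn.ne'] at hzn
    exact h0 hzn.symm
  let R : ℂ → ℂ := fun w => F z * Complex.exp (Complex.log (Z w / Z z) / n)
  have hR : AnalyticAt ℂ R z := by
    have h1 : AnalyticAt ℂ (fun w => Z w / Z z) z := hZ.div analyticAt_const h0
    have h2 : AnalyticAt ℂ (fun w => Complex.log (Z w / Z z)) z := by
      refine h1.clog ?_
      rw [div_self h0]
      exact Complex.one_mem_slitPlane
    exact analyticAt_const.mul ((h2.div analyticAt_const (by exact_mod_cast hn.ne')).cexp)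
  have hRz : R z = F z := by
    change F z * Complex.exp (Complex.log (Z z / Z z) / n) = F z
    rw [div_self h0, Complex.log_one, zero_div, Complex.exp_zero, mul_one]
  have hRne : ∀ w, R w ≠ 0 := fun w => mul_ne_zero hFz (Complex.exp_ne_zero _)
  have hZne : ∀ᶠ w in 𝓝 z, Z w ≠ 0 := hZ.continuousAt.eventually_ne h0
  have hRn : ∀ᶠ w in 𝓝 z, R w ^ n = Z w := by
    filter_upwards [hZne] with w hw
    change (F z * Complex.exp (Complex.log (Z w / Z z) / n)) ^ n = Z w
    rw [mul_pow, hzn, ← Complex.exp_nat_mul, mul_div_cancel₀ _ (by exact_mod_cast hn.ne'),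
      Complex.exp_log (div_ne_zero hw h0), mul_div_cancel₀ _ h0]
  have hq : ContinuousAt (fun w => F w / R w) z := hF.div hR.continuousAt (hRne z)
  have hfin := (roots_finite hn).subset (Set.sdiff_subset (s := {x : ℂ | x ^ n = 1}) (t := {1}))
  have hopen : IsOpen ({x : ℂ | x ^ n = 1} \ {1})ᶜ := hfin.isClosed.isOpen_compl
  have h1 : ∀ᶠ w in 𝓝 z, F w / R w ∈ ({x : ℂ | x ^ n = 1} \ {1})ᶜ := by
    refine hq.eventually (hopen.mem_nhds ?_)
    change F z / R z ∈ _
    rw [hRz, div_self hFz]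
    exact fun hx => hx.2 rfl
  refine hR.congr ?_
  filter_upwards [h, hRn, h1] with w hw1 hw2 hw3
  have h2 : (F w / R w) ^ n = 1 := by
    rw [div_pow, hw1, ← hw2, div_self (pow_ne_zero _ (hRne w))]
  have h3 : F w / R w = 1 := by
    by_contra hne
    exact hw3 ⟨h2, hne⟩
  exact ((div_eq_one_iff_eq (hRne w)).mp h3).symm

/-- if a power of `exp l` has a continuation without zeros and poles to a simply connected domain,
then `exp l` has one -/
theorem exact_root {U : Set ℂ} (hU : IsOpen U) (hsc : IsSimplyConnected U)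
    (hH : ∀ s : ℂ, 2 < s.re → s ∈ U) {l : ℂ → ℂ} (hl : ContinuousOn l {s : ℂ | 2 < s.re}) {n : ℕ}
    (hn : 0 < n) {Z : ℂ → ℂ} (hZ : MeromorphicOn Z U)
    (hZ1 : ∀ s : ℂ, 2 < s.re → Z s = Complex.exp (n * l s))
    (hZ2 : ∀ z ∈ U, meromorphicOrderAt Z z = 0) :
    ∃ F : ℂ → ℂ, AnalyticOnNhd ℂ F U ∧ (∀ z ∈ U, F z ≠ 0) ∧
      ∀ s : ℂ, 2 < s.re → F s = Complex.exp (l s) := by
  let H : Set ℂ := {s : ℂ | 2 < s.re}
  have hHo : IsOpen H := isOpen_lt continuous_const Complex.continuous_re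
  let Z' := toMeromorphicNFOn Z U
  have hnf : MeromorphicNFOn Z' U := meromorphicNFOn_toMeromorphicNFOn Z U
  have hord : ∀ z ∈ U, meromorphicOrderAt Z' z = 0 := fun z hz => by
    rw [meromorphicOrderAt_toMeromorphicNFOn hZ hz, hZ2 z hz]
  have han : ∀ z ∈ U, AnalyticAt ℂ Z' z := fun z hz =>
    (hnf hz).meromorphicOrderAt_nonneg_iff_analyticAt.mp (hord z hz).ge
  have hne : ∀ z ∈ U, Z' z ≠ 0 := fun z hz =>
    (hnf hz).meromorphicOrderAt_eq_zero_iff.mp (hord z hz)
  have hZ' : ∀ s ∈ H, Z' s = Complex.exp (n * l s) := by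
    intro s hs
    have h1 : ContinuousAt (fun w => Complex.exp (n * l w)) s := by
      have h2 : ContinuousAt l s := (hl s hs).continuousAt (hHo.mem_nhds hs)
      exact (continuousAt_const.mul h2).cexp
    have h3 : Z' =ᶠ[𝓝[≠] s] fun w => Complex.exp (n * l w) := by
      filter_upwards [hZ.toMeromorphicNFOn_eq_self_on_nhdsNE (hH s hs),
        mem_nhdsWithin_of_mem_nhds (hHo.mem_nhds hs)] with w h4 h5
      exact h4.trans (hZ1 w h5)
    have h4 : Tendsto Z' (𝓝[≠] s) (𝓝 (Z' s)) :=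
      ((han s (hH s hs)).continuousAt).tendsto.mono_left nhdsWithin_le_nhds
    have h5 : Tendsto Z' (𝓝[≠] s) (𝓝 (Complex.exp (n * l s))) :=
      (h1.tendsto.mono_left nhdsWithin_le_nhds).congr' h3.symm
    exact tendsto_nhds_unique h4 h5
  obtain ⟨f, hfc, hf⟩ := Complex.exists_continuousOn_pow_eq hsc hU
    (g := Z') (fun z hz => (han z hz).continuousAt.continuousWithinAt) (by
      rintro ⟨z, hz, h1⟩
      exact hne z hz h1) hn.ne'
  have hmaps : Set.MapsTo (fun s => f s / Complex.exp (l s)) H {x : ℂ | x ^ n = 1} := by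
    intro s hs
    change (f s / Complex.exp (l s)) ^ n = 1
    rw [div_pow, hf, hZ' s hs, ← Complex.exp_nat_mul, div_self (Complex.exp_ne_zero _)]
  have hcont : ContinuousOn (fun s => f s / Complex.exp (l s)) H :=
    (hfc.mono fun s hs => hH s hs).div (hl.cexp) fun s _ => Complex.exp_ne_zero _
  have hconv : IsPreconnected H := (convex_halfSpace_re_gt 2).isPreconnected
  obtain ⟨c, hc, hc1⟩ := hconv.eqOn_const_of_mapsTo (roots_finite hn).isDiscrete hcont hmaps
    ⟨1, one_pow n⟩
  have hcn : c ^ n = 1 := hc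
  have hc0 : c ≠ 0 := by
    rintro rfl
    rw [zero_pow hn.ne'] at hcn
    exact zero_ne_one hcn
  refine ⟨fun s => f s / c, fun z hz => ?_, fun z hz => ?_, fun s hs => ?_⟩
  · refine root_analytic hn ?_ (han z hz) (hne z hz) (Eventually.of_forall fun w => ?_)
    · exact ((hfc z hz).continuousAt (hU.mem_nhds hz)).div_const c
    · rw [div_pow, hf, hcn, div_one]
  · refine div_ne_zero (fun h1 => ?_) hc0
    have h2 := hf z
    rw [h1, zero_pow hn.ne'] at h2
    exact hne z hz h2.symm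
  · have h1 : f s / Complex.exp (l s) = c := hc1 hs
    change f s / c = Complex.exp (l s)
    rw [div_eq_iff (Complex.exp_ne_zero _)] at h1
    rw [h1, mul_div_cancel_left₀ _ hc0]

end Pool.Agent.Run7.h508.BR
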