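import Mathlib
import Pool.Agent.Run7.h508.BR.LFun

/-!
# The logarithm of the L-function is continuous
-/

set_option autoImplicit false
set_option linter.unusedSectionVars false

namespace Pool.Agent.Run7.h508.BR

open NumberField Ideal Pool.Agent.K4H74.ST Pool.Agent.K4H74.SC IsDedekindDomain Pool.Agent.R389
open scoped Pointwise Topology

section lcont

variable {k : Type} [Field k] [NumberField k] (a : HeightOneSpectrum (𝓞 k) × ℕ+ → ℂ)

lemma norm_pow {K : Type} [Field K] [NumberField K] (x : HeightOneSpectrum (𝓞 K) × ℕ+) (t : ℂ) :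
    ‖(absNorm x.1.asIdeal : ℂ) ^ (((x.2 : ℕ) : ℂ) * t)‖
      = ((absNorm x.1.asIdeal : ℕ) : ℝ) ^ ((x.2 : ℕ) * t.re) := by
  have hN : (2 : ℝ) ≤ (absNorm x.1.asIdeal : ℕ) := by exact_mod_cast two_le_absNorm x.1
  have hN0 : (0 : ℝ) < (absNorm x.1.asIdeal : ℕ) := by linarith
  have h6 := Complex.norm_cpow_eq_rpow_re_of_pos hN0 (((x.2 : ℕ) : ℂ) * t)
  have h7 : (((x.2 : ℕ) : ℂ) * t).re = (x.2 : ℕ) * t.re := by
    rw [Complex.mul_re, Complex.natCast_re, Complex.natCast_im, zero_mul, sub_zero]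
  rw [h7] at h6
  exact_mod_cast h6

lemma norm_tm_le {K : Type} [Field K] [NumberField K] (b : HeightOneSpectrum (𝓞 K) × ℕ+ → ℂ)
    {s t : ℂ} (hst : t.re ≤ s.re) (x : HeightOneSpectrum (𝓞 K) × ℕ+) :
    ‖tm b s x‖ ≤ ‖tm b t x‖ := by
  have hN : (2 : ℝ) ≤ (absNorm x.1.asIdeal : ℕ) := by exact_mod_cast two_le_absNorm x.1
  have hN0 : (0 : ℝ) < (absNorm x.1.asIdeal : ℕ) := by linarith
  have hn1 : (0 : ℝ) < (x.2 : ℕ) := by exact_mod_cast x.2.pos
  rw [tm, tm, norm_div, norm_div, norm_mul, norm_mul, norm_pow, norm_pow, Complex.norm_natCast]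
  refine div_le_div_of_nonneg_left (norm_nonneg _) ?_ ?_
  · have := Real.rpow_pos_of_pos hN0 ((x.2 : ℕ) * t.re)
    positivity
  · refine mul_le_mul_of_nonneg_left ?_ hn1.le
    refine Real.rpow_le_rpow_of_exponent_le (by linarith) ?_
    exact mul_le_mul_of_nonneg_left hst hn1.le

lemma tm_summable {K : Type} [Field K] [NumberField K] (b : HeightOneSpectrum (𝓞 K) × ℕ+ → ℂ)
    (hb : ∀ x, ‖b x‖ ≤ (absNorm x.1.asIdeal : ℝ) ^ (x.2 : ℕ)) {s : ℂ} (hs : 2 < s.re) :
    Summable (tm b s) := by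
  have h1 := summable_w (K := K) (L := K) (fun _ => 1) b hb hs
  refine h1.congr fun x => ?_
  rw [logTerm_one, mul_one_div]
  rfl

theorem lam_continuousOn (ha : ∀ x, ‖a x‖ ≤ (absNorm x.1.asIdeal : ℝ) ^ (x.2 : ℕ)) (K : Type)
    [Field K] [NumberField K] [Algebra k K] : ContinuousOn (Lam a K) {s : ℂ | 2 < s.re} := by
  intro s₀ hs₀
  have hs₀' : 2 < s₀.re := hs₀
  obtain ⟨t, ht1, ht2⟩ := exists_between hs₀'
  have hopen : IsOpen {s : ℂ | t < s.re} := isOpen_lt continuous_const Complex.continuous_re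
  have h1 : ContinuousOn (Lam a K) {s : ℂ | t < s.re} := by
    have hs : Summable fun x => ‖tm (fun x : HeightOneSpectrum (𝓞 K) × ℕ+ => a (idx k x)) (t : ℂ) x‖ :=
      (tm_summable _ (bound_idx a ha) (by rw [Complex.ofReal_re]; exact ht1)).norm
    refine continuousOn_tsum (fun x => ?_) hs fun x s hx => ?_
    · have hN : (2 : ℝ) ≤ (absNorm x.1.asIdeal : ℕ) := by exact_mod_cast two_le_absNorm x.1
      have hN0 : (absNorm x.1.asIdeal : ℂ) ≠ 0 := by
        intro h
        have h2 : (absNorm x.1.asIdeal : ℕ) = 0 := by exact_mod_cast h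
        rw [h2] at hN
        norm_num at hN
      have hn1 : ((x.2 : ℕ) : ℂ) ≠ 0 := by exact_mod_cast x.2.pos.ne'
      unfold tm
      refine Continuous.continuousOn ?_
      refine continuous_const.div (continuous_const.mul ?_) fun s => ?_
      · exact (continuous_const.mul continuous_id).const_cpow (Or.inl hN0)
      · exact mul_ne_zero hn1 (by rw [Complex.cpow_def_of_ne_zero hN0]; exact Complex.exp_ne_zero _)
    · exact norm_tm_le _ (by rw [Complex.ofReal_re]; exact hx.le) x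
  exact (h1.continuousAt (hopen.mem_nhds ht2)).continuousWithinAt

end lcont

end Pool.Agent.Run7.h508.BR
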