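import Mathlib
import Pool.Agent.Run7.h508.BR.Base

/-!
# Meromorphic continuation of powers, with the order at a point, as a `ℚ`-subspace
-/

set_option autoImplicit false
set_option linter.unusedSectionVars false

namespace Pool.Agent.Run7.h508.BR

open NumberField

section ocont

variable {β : ℝ} {c : ℂ}

/-- the exponential of `lam` on the half-plane `Re s > β` has a meromorphic continuation to `ℂ` of
order `r` at `s = c` -/
def OCont (β : ℝ) (c : ℂ) (lam : ℂ → ℂ) (r : ℤ) : Prop :=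
  ∃ Z : ℂ → ℂ, MeromorphicOn Z Set.univ ∧ (∀ s : ℂ, β < s.re → Z s = Complex.exp (lam s)) ∧
    meromorphicOrderAt Z c = r

lemma OCont.zero : OCont β c 0 0 := by
  refine ⟨fun _ => 1, MeromorphicOn.const 1, fun s _ => by simp, ?_⟩
  have h1 : MeromorphicAt (fun _ : ℂ => (1 : ℂ)) c := MeromorphicAt.const 1 c
  rw [meromorphicOrderAt_eq_int_iff h1]
  exact ⟨fun _ => 1, analyticAt_const, one_ne_zero, by simp⟩

lemma OCont.add {l l' : ℂ → ℂ} {r r' : ℤ} (h : OCont β c l r) (h' : OCont β c l' r') :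
    OCont β c (l + l') (r + r') := by
  obtain ⟨Z, h1, h2, h3⟩ := h
  obtain ⟨Z', h1', h2', h3'⟩ := h'
  refine ⟨Z * Z', h1.mul h1', fun s hs => ?_, ?_⟩
  · rw [Pi.mul_apply, h2 s hs, h2' s hs, Pi.add_apply, Complex.exp_add]
  · rw [meromorphicOrderAt_mul (h1 c trivial) (h1' c trivial), h3, h3']
    push_cast
    rfl

lemma OCont.neg {l : ℂ → ℂ} {r : ℤ} (h : OCont β c l r) : OCont β c (-l) (-r) := by
  obtain ⟨Z, h1, h2, h3⟩ := h
  refine ⟨Z⁻¹, h1.inv, fun s hs => ?_, ?_⟩
  · rw [Pi.inv_apply, h2 s hs, Pi.neg_apply, Complex.exp_neg]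
  · rw [meromorphicOrderAt_inv, h3]
    rfl

lemma OCont.nsmul {l : ℂ → ℂ} {r : ℤ} (h : OCont β c l r) (n : ℕ) :
    OCont β c (n • l) (n * r) := by
  induction n with
  | zero =>
    rw [zero_smul, Nat.cast_zero, zero_mul]
    exact OCont.zero
  | succ n ih =>
    have h1 := ih.add h
    have h2 : (n + 1) • l = n • l + l := succ_nsmul l n
    have h3 : ((n + 1 : ℕ) : ℤ) * r = n * r + r := by push_cast; ring
    rw [h2, h3]
    exact h1

lemma OCont.zsmul {l : ℂ → ℂ} {r : ℤ} (h : OCont β c l r) (n : ℤ) :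
    OCont β c (n • l) (n * r) := by
  rcases Int.eq_nat_or_neg n with ⟨m, rfl | rfl⟩
  · have h1 := h.nsmul m
    rwa [← natCast_zsmul] at h1
  · have h1 := (h.nsmul m).neg
    rw [neg_smul, natCast_zsmul, neg_mul]
    exact h1

/-- some power has a meromorphic continuation, with order `r` at `s = c` -/
def OWCont (β : ℝ) (c : ℂ) (lam : ℂ → ℂ) (r : ℚ) : Prop :=
  ∃ n : ℕ, 0 < n ∧ ∃ m : ℤ, (m : ℚ) = n * r ∧ OCont β c (n • lam) m

variable (β c) in
/-- the pairs with the property `OWCont` -/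
def oSub : Submodule ℚ ((ℂ → ℂ) × ℚ) where
  carrier := {v | OWCont β c v.1 v.2}
  zero_mem' := ⟨1, one_pos, 0, by simp, by
    rw [Prod.fst_zero, smul_zero]
    exact OCont.zero⟩
  add_mem' := by
    rintro ⟨l, r⟩ ⟨l', r'⟩ ⟨n, hn, m, hm, h⟩ ⟨n', hn', m', hm', h'⟩
    refine ⟨n * n', Nat.mul_pos hn hn', n' * m + n * m', ?_, ?_⟩
    · push_cast
      rw [hm, hm']
      change (n' : ℚ) * (n * r) + n * (n' * r') = (n : ℚ) * n' * (r + r')
      ring
    · have h1 := (h.nsmul n').add (h'.nsmul n)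
      have h2 : (n * n') • (l + l') = n' • n • l + n • n' • l' := by
        rw [smul_add, mul_comm n n', mul_smul, mul_comm n' n, mul_smul]
      change OCont β c ((n * n') • (l + l')) _
      rw [h2]
      exact h1
  smul_mem' := by
    rintro q ⟨l, r⟩ ⟨n, hn, m, hm, h⟩
    refine ⟨n * q.den, Nat.mul_pos hn q.den_pos, q.num * m, ?_, ?_⟩
    · push_cast
      rw [hm]
      change (q.num : ℚ) * (n * r) = (n : ℚ) * q.den * (q * r)
      have h1 : (q.den : ℚ) * q = q.num := by rw [mul_comm]; exact Rat.mul_den_eq_num q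
      calc (q.num : ℚ) * (n * r) = (q.den * q) * (n * r) := by rw [h1]
        _ = _ := by ring
    · have h1 := h.zsmul q.num
      have h2 : (n * q.den) • (q • l) = q.num • n • l := by
        have h3 : (q.den : ℚ) * q = q.num := by rw [mul_comm]; exact Rat.mul_den_eq_num q
        rw [← Int.cast_smul_eq_zsmul ℚ q.num, ← Nat.cast_smul_eq_nsmul ℚ (n * q.den),
          ← Nat.cast_smul_eq_nsmul ℚ n, smul_smul, smul_smul, ← h3]
        congr 1
        push_cast
        ring
      change OCont β c ((n * q.den) • (q • l)) _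
      rw [h2]
      exact h1

lemma mem_oSub {v : (ℂ → ℂ) × ℚ} : v ∈ oSub β c ↔ OWCont β c v.1 v.2 := Iff.rfl

lemma OCont.weak {l : ℂ → ℂ} {r : ℤ} (h : OCont β c l r) : (l, (r : ℚ)) ∈ oSub β c :=
  ⟨1, one_pos, r, by simp, by rw [one_smul]; exact h⟩

/-- if the function itself has a meromorphic continuation, its order is `r` -/
theorem OWCont.order {lam : ℂ → ℂ} {r : ℤ} (h : OWCont β c lam r) {Λ : ℂ → ℂ}
    (hΛ : MeromorphicOn Λ Set.univ) (h1 : ∀ s : ℂ, β < s.re → Λ s = Complex.exp (lam s)) :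
    meromorphicOrderAt Λ c = r := by
  obtain ⟨n, hn, m, hm, Z, hZ, hZ1, hZ2⟩ := h
  have hm' : m = n * r := by exact_mod_cast hm
  have hpow : MeromorphicOn (Λ ^ n) Set.univ := hΛ.pow n
  let D : ℂ → ℂ := Λ ^ n - Z
  have hD : MeromorphicOn D Set.univ := hpow.sub hZ
  let s₀ : ℂ := ((β + 1 : ℝ) : ℂ)
  have hs₀ : β < s₀.re := by
    rw [Complex.ofReal_re]
    linarith
  have h3 : meromorphicOrderAt D s₀ = ⊤ := by
    rw [meromorphicOrderAt_eq_top_iff]
    have h4 : ∀ᶠ z in nhds s₀, β < z.re := by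
      have h5 : IsOpen {z : ℂ | β < z.re} := isOpen_lt continuous_const Complex.continuous_re
      exact h5.mem_nhds hs₀
    refine (h4.filter_mono nhdsWithin_le_nhds).mono fun z hz => ?_
    change Λ z ^ n - Z z = 0
    rw [h1 z hz, hZ1 z hz, ← Complex.exp_nat_mul, Pi.smul_apply, nsmul_eq_mul, sub_self]
  have h4 : meromorphicOrderAt D c = ⊤ := by
    by_contra hne
    exact (hD.meromorphicOrderAt_ne_top_of_isPreconnected isPreconnected_univ (Set.mem_univ c)
      (Set.mem_univ s₀) hne) h3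
  rw [meromorphicOrderAt_eq_top_iff] at h4
  have h5 : Λ ^ n =ᶠ[nhdsWithin c {c}ᶜ] Z := by
    filter_upwards [h4] with z hz
    exact sub_eq_zero.mp hz
  have h6 : meromorphicOrderAt (Λ ^ n) c = m := by
    rw [meromorphicOrderAt_congr h5, hZ2]
  rw [meromorphicOrderAt_pow (hΛ c trivial), hm'] at h6
  cases h7 : meromorphicOrderAt Λ c with
  | top =>
    rw [h7] at h6
    exfalso
    have h8 : ((n : ℤ) : WithTop ℤ) * ⊤ = ⊤ := WithTop.mul_top (by exact_mod_cast hn.ne')
    have h9 : (n : WithTop ℤ) * ⊤ = ⊤ := h8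
    rw [h9] at h6
    exact WithTop.top_ne_coe h6
  | coe a =>
    rw [h7] at h6
    have h8 : (n : ℤ) * a = n * r := by exact_mod_cast h6
    have h9 : a = r := mul_left_cancel₀ (by exact_mod_cast hn.ne') h8
    rw [h9]

/-- the order is unique -/
theorem oSub_zero {r : ℤ} (h : ((0 : ℂ → ℂ), (r : ℚ)) ∈ oSub β c) : r = 0 := by
  have h1 := OWCont.order (Λ := fun _ => 1) h (MeromorphicOn.const 1) (fun s _ => by simp)
  have h2 : meromorphicOrderAt (fun _ : ℂ => (1 : ℂ)) c = ((0 : ℤ) : WithTop ℤ) := by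
    have h1 : MeromorphicAt (fun _ : ℂ => (1 : ℂ)) c := MeromorphicAt.const 1 c
    rw [meromorphicOrderAt_eq_int_iff h1]
    exact ⟨fun _ => 1, analyticAt_const, one_ne_zero, by simp⟩
  rw [h2] at h1
  exact_mod_cast h1.symm

end ocont

end Pool.Agent.Run7.h508.BR
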