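import Mathlib
import Pool.Agent.Run7.h508.BR.LG
import Pool.Agent.Run7.h508.BR.ContU

/-!
# Values of powers of L-functions modulo a group, as a `ℚ`-subspace
-/

set_option autoImplicit false
set_option linter.unusedSectionVars false

namespace Pool.Agent.Run7.h508.BR

open NumberField

section val

variable {J : Type} [Fintype J]

/-- the exponential of `lam` has a meromorphic continuation, whose value at `c` is the product of
the `p j ^ e j`, up to a factor in `Γ` -/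
def VCont (β : ℝ) (c : ℂ) (Γ : Subgroup ℂˣ) (p : J → ℂˣ) (lam : ℂ → ℂ) (e : J → ℤ) : Prop :=
  ∃ Z : ℂ → ℂ, MeromorphicOn Z Set.univ ∧ (∀ s : ℂ, β < s.re → Z s = Complex.exp (lam s)) ∧
    AnalyticAt ℂ Z c ∧ ∃ γ ∈ Γ, Z c = ((γ * ∏ j, p j ^ e j : ℂˣ) : ℂ)

variable {β : ℝ} {c : ℂ} {Γ : Subgroup ℂˣ} {p : J → ℂˣ}

lemma VCont.zero : VCont β c Γ p 0 0 := by
  refine ⟨fun _ => 1, MeromorphicOn.const 1, fun s _ => by simp, analyticAt_const, 1, Γ.one_mem, ?_⟩
  simp

lemma VCont.add {l l' : ℂ → ℂ} {r r' : J → ℤ} (h : VCont β c Γ p l r)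
    (h' : VCont β c Γ p l' r') : VCont β c Γ p (l + l') (r + r') := by
  obtain ⟨Z, h1, h2, h3, γ, h4, h5⟩ := h
  obtain ⟨Z', h1', h2', h3', γ', h4', h5'⟩ := h'
  refine ⟨Z * Z', h1.mul h1', fun s hs => ?_, h3.mul h3', γ * γ', Γ.mul_mem h4 h4', ?_⟩
  · rw [Pi.mul_apply, h2 s hs, h2' s hs, Pi.add_apply, Complex.exp_add]
  · rw [Pi.mul_apply, h5, h5', ← Units.val_mul]
    congr 1
    rw [mul_mul_mul_comm, ← Finset.prod_mul_distrib]
    congr 1
    refine Finset.prod_congr rfl fun j _ => ?_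
    rw [Pi.add_apply, zpow_add]

lemma VCont.neg {l : ℂ → ℂ} {r : J → ℤ} (h : VCont β c Γ p l r) : VCont β c Γ p (-l) (-r) := by
  obtain ⟨Z, h1, h2, h3, γ, h4, h5⟩ := h
  refine ⟨Z⁻¹, h1.inv, fun s hs => ?_, h3.inv (by rw [h5]; exact Units.ne_zero _), γ⁻¹,
    Γ.inv_mem h4, ?_⟩
  · rw [Pi.inv_apply, h2 s hs, Pi.neg_apply, Complex.exp_neg]
  · rw [Pi.inv_apply, h5, ← Units.val_inv_eq_inv_val, mul_inv, ← Finset.prod_inv_distrib]
    congr 1
    congr 1
    refine Finset.prod_congr rfl fun j _ => ?_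
    rw [Pi.neg_apply, zpow_neg]

lemma VCont.nsmul {l : ℂ → ℂ} {r : J → ℤ} (h : VCont β c Γ p l r) (n : ℕ) :
    VCont β c Γ p (n • l) (n • r) := by
  induction n with
  | zero =>
    rw [zero_smul, zero_smul]
    exact VCont.zero
  | succ n ih =>
    have h1 := ih.add h
    rw [← succ_nsmul, ← succ_nsmul] at h1
    exact h1

lemma VCont.zsmul {l : ℂ → ℂ} {r : J → ℤ} (h : VCont β c Γ p l r) (n : ℤ) :
    VCont β c Γ p (n • l) (n • r) := by
  rcases Int.eq_nat_or_neg n with ⟨m, rfl | rfl⟩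
  · have h1 := h.nsmul m
    rw [natCast_zsmul, natCast_zsmul]
    exact h1
  · have h1 := (h.nsmul m).neg
    rw [neg_smul, natCast_zsmul, neg_smul, natCast_zsmul]
    exact h1

variable (β c Γ p) in
/-- some power has the property -/
def VWCont (lam : ℂ → ℂ) (r : J → ℚ) : Prop :=
  ∃ n : ℕ, 0 < n ∧ ∃ m : J → ℤ, (∀ j, (m j : ℚ) = n * r j) ∧ VCont β c Γ p (n • lam) m

/-- the pairs with the property `VWCont` -/
def vSub (β : ℝ) (c : ℂ) (Γ : Subgroup ℂˣ) (p : J → ℂˣ) : Submodule ℚ ((ℂ → ℂ) × (J → ℚ)) where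
  carrier := {v | VWCont β c Γ p v.1 v.2}
  zero_mem' := ⟨1, one_pos, 0, by simp, by
    rw [Prod.fst_zero, smul_zero]
    exact VCont.zero⟩
  add_mem' := by
    rintro ⟨l, r⟩ ⟨l', r'⟩ ⟨n, hn, m, hm, h⟩ ⟨n', hn', m', hm', h'⟩
    refine ⟨n * n', Nat.mul_pos hn hn', n' • m + n • m', fun j => ?_, ?_⟩
    · rw [Pi.add_apply, Pi.smul_apply, Pi.smul_apply, nsmul_eq_mul, nsmul_eq_mul]
      push_cast
      rw [hm, hm']
      change (n' : ℚ) * (n * r j) + n * (n' * r' j) = (n : ℚ) * n' * (r j + r' j)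
      ring
    · have h1 := (h.nsmul n').add (h'.nsmul n)
      have h2 : (n * n') • (l + l') = n' • n • l + n • n' • l' := by
        rw [smul_add, mul_comm n n', mul_smul, mul_comm n' n, mul_smul]
      change VCont β c Γ p ((n * n') • (l + l')) _
      rw [h2]
      exact h1
  smul_mem' := by
    rintro q ⟨l, r⟩ ⟨n, hn, m, hm, h⟩
    refine ⟨n * q.den, Nat.mul_pos hn q.den_pos, q.num • m, fun j => ?_, ?_⟩
    · rw [Pi.smul_apply, smul_eq_mul]
      push_cast
      rw [hm]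
      change (q.num : ℚ) * (n * r j) = (n : ℚ) * q.den * (q * r j)
      have h1 : (q.den : ℚ) * q = q.num := by rw [mul_comm]; exact Rat.mul_den_eq_num q
      calc (q.num : ℚ) * (n * r j) = (q.den * q) * (n * r j) := by rw [h1]
        _ = _ := by ring
    · have h1 := h.zsmul q.num
      have h2 : (n * q.den) • (q • l) = q.num • n • l := by
        have h3 : (q.den : ℚ) * q = q.num := by rw [mul_comm]; exact Rat.mul_den_eq_num q
        rw [← Int.cast_smul_eq_zsmul ℚ q.num, ← Nat.cast_smul_eq_nsmul ℚ (n * q.den),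
          ← Nat.cast_smul_eq_nsmul ℚ n, smul_smul, smul_smul, ← h3]
        congr 1
        push_cast
        ring
      change VCont β c Γ p ((n * q.den) • (q • l)) _
      rw [h2]
      exact h1

lemma mem_vSub {v : (ℂ → ℂ) × (J → ℚ)} : v ∈ vSub β c Γ p ↔ VWCont β c Γ p v.1 v.2 := Iff.rfl

/-- a continuation of the function itself has the value, up to powers -/
theorem VCont.value {l : ℂ → ℂ} {n : ℕ} {m : J → ℤ} (h : VCont β c Γ p (n • l) m) {Λ : ℂ → ℂ}
    (hΛ : MeromorphicOn Λ Set.univ) (hc : AnalyticAt ℂ Λ c)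
    (h1 : ∀ s : ℂ, β < s.re → Λ s = Complex.exp (l s)) :
    ∃ γ ∈ Γ, Λ c ^ n = ((γ * ∏ j, p j ^ m j : ℂˣ) : ℂ) := by
  obtain ⟨Z, hZ, hZ1, hZ2, γ, hγ, hZ3⟩ := h
  refine ⟨γ, hγ, ?_⟩
  have hpow : MeromorphicOn (Λ ^ n) Set.univ := hΛ.pow n
  let E : ℂ → ℂ := Λ ^ n - Z
  have hE : MeromorphicOn E Set.univ := hpow.sub hZ
  have hEc : AnalyticAt ℂ E c := (hc.pow n).sub hZ2
  let s₀ : ℂ := ((β + 1 : ℝ) : ℂ)
  have hs₀ : β < s₀.re := by
    rw [Complex.ofReal_re]
    linarith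
  have h3 : meromorphicOrderAt E s₀ = ⊤ := by
    rw [meromorphicOrderAt_eq_top_iff]
    have h4 : ∀ᶠ z in nhds s₀, β < z.re := by
      have h5 : IsOpen {z : ℂ | β < z.re} := isOpen_lt continuous_const Complex.continuous_re
      exact h5.mem_nhds hs₀
    refine (h4.filter_mono nhdsWithin_le_nhds).mono fun z hz => ?_
    change Λ z ^ n - Z z = 0
    rw [h1 z hz, hZ1 z hz, ← Complex.exp_nat_mul, Pi.smul_apply, nsmul_eq_mul, sub_self]
  have h4 : meromorphicOrderAt E c = ⊤ := by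
    by_contra hne
    exact (hE.meromorphicOrderAt_ne_top_of_isPreconnected isPreconnected_univ (Set.mem_univ c)
      (Set.mem_univ s₀) hne) h3
  rw [meromorphicOrderAt_eq_top_iff] at h4
  have h5 : Filter.Tendsto E (nhdsWithin c {c}ᶜ) (nhds (E c)) :=
    hEc.continuousAt.tendsto.mono_left nhdsWithin_le_nhds
  have h6 : Filter.Tendsto E (nhdsWithin c {c}ᶜ) (nhds 0) :=
    tendsto_const_nhds.congr' (h4.mono fun z hz => hz.symm)
  have h7 : E c = 0 := tendsto_nhds_unique h5 h6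
  have h8 : Λ c ^ n = Z c := sub_eq_zero.mp h7
  rw [h8, hZ3]

end val

section pi

variable {k : Type} [Field k] [NumberField k]

/-- a finite family of functions -/
noncomputable def FieldFun.pi {J : Type} (A : J → FieldFun k ℚ) : FieldFun k (J → ℚ) where
  f := fun K _ _ _ => fun j => (A j).f K
  iso := fun K K' _ _ _ _ _ _ e => by
    funext j
    rw [(A j).iso K K' e]
  mean := fun N _ _ _ _ => by
    classical
    have hfin : FiniteDimensional k N := Module.Finite.of_restrictScalars_finite ℚ k N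
    have := Fintype.ofFinite (N ≃ₐ[k] N)
    choose φ hφ using fun j => (A j).mean N
    refine ⟨fun g j => φ j g, fun H => ?_⟩
    rw [tot_eq]
    funext j
    have h1 := hφ j H
    rw [tot_eq] at h1
    rw [Finset.sum_apply]
    change Nat.card H • (A j).f (IntermediateField.fixedField H) = _
    rw [h1]
    refine Finset.sum_congr rfl fun g _ => ?_
    split_ifs <;> rfl

end pi

end Pool.Agent.Run7.h508.BR
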