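import Mathlib
import Pool.Agent.Run7.h508.BR.ContU

/-!
# Functional equations of powers, up to finitely many Euler factors, as a `ℚ`-subspace
-/

set_option autoImplicit false
set_option linter.unusedSectionVars false

namespace Pool.Agent.Run7.h508.BR

open NumberField

/-- the product of the factors `(1 - β q ^ (-s)) ^ e` -/
noncomputable def fac (L : List (ℂ × ℕ × ℤ)) (s : ℂ) : ℂ :=
  (L.map fun x => (1 - x.1 * (x.2.1 : ℂ) ^ (-s)) ^ x.2.2).prod

lemma fac_append (L L' : List (ℂ × ℕ × ℤ)) (s : ℂ) : fac (L ++ L') s = fac L s * fac L' s := by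
  rw [fac, List.map_append, List.prod_append]
  rfl

lemma fac_inv (L : List (ℂ × ℕ × ℤ)) (s : ℂ) :
    fac (L.map fun x => (x.1, x.2.1, -x.2.2)) s = (fac L s)⁻¹ := by
  induction L with
  | nil => simp [fac]
  | cons x L ih =>
    rw [List.map_cons]
    change (1 - x.1 * (x.2.1 : ℂ) ^ (-s)) ^ (-x.2.2) *
      fac (L.map fun x => (x.1, x.2.1, -x.2.2)) s =
      ((1 - x.1 * (x.2.1 : ℂ) ^ (-s)) ^ x.2.2 * fac L s)⁻¹
    rw [ih, mul_inv, zpow_neg]

/-- one side of the functional equation -/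
noncomputable def side (a : ℝ) (d : ℤ) (L : List (ℂ × ℕ × ℤ)) (Z : ℂ → ℂ) (s : ℂ) : ℂ :=
  Complex.exp (a * s) * Complex.Gamma s ^ d * fac L s * Z s

lemma side_add {a a' : ℝ} {d d' : ℤ} {L L' : List (ℂ × ℕ × ℤ)} {Z Z' : ℂ → ℂ} {s : ℂ}
    (hs : Complex.Gamma s ≠ 0) : side (a + a') (d + d') (L ++ L') (Z * Z') s =
      side a d L Z s * side a' d' L' Z' s := by
  rw [side, side, side, fac_append, zpow_add₀ hs, Pi.mul_apply]
  push_cast
  rw [add_mul, Complex.exp_add]
  ring

lemma side_neg {a : ℝ} {d : ℤ} {L : List (ℂ × ℕ × ℤ)} {Z : ℂ → ℂ} {s : ℂ} :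
    side (-a) (-d) (L.map fun x => (x.1, x.2.1, -x.2.2)) Z⁻¹ s = (side a d L Z s)⁻¹ := by
  rw [side, side, fac_inv, zpow_neg, Pi.inv_apply]
  push_cast
  rw [neg_mul, Complex.exp_neg, mul_inv, mul_inv, mul_inv]

/-- the zeros of the reciprocal of the gamma function -/
lemma gamma_ne : ∀ᶠ s in Filter.codiscrete ℂ, Complex.Gamma s ≠ 0 := by
  have h1 : AnalyticOnNhd ℂ (fun s => (Complex.Gamma s)⁻¹) Set.univ :=
    Complex.differentiable_one_div_Gamma.differentiableOn.analyticOnNhd isOpen_univ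
  have h2 := h1.preimage_zero_mem_codiscrete (x := 1) (by simp)
  refine Filter.mem_of_superset h2 fun s hs => ?_
  intro h
  apply hs
  change (Complex.Gamma s)⁻¹ = 0
  rw [h, inv_zero]

lemma gamma_ne' : ∀ᶠ s in Filter.codiscrete ℂ, Complex.Gamma (2 - s) ≠ 0 := by
  have h1 : AnalyticOnNhd ℂ (fun s => (Complex.Gamma (2 - s))⁻¹) Set.univ := by
    have h2 : Differentiable ℂ (fun s => (Complex.Gamma (2 - s))⁻¹) :=
      Complex.differentiable_one_div_Gamma.comp ((differentiable_const 2).sub differentiable_id)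
    exact h2.differentiableOn.analyticOnNhd isOpen_univ
  have h2 := h1.preimage_zero_mem_codiscrete (x := 1) (by norm_num)
  refine Filter.mem_of_superset h2 fun s hs => ?_
  intro h
  apply hs
  change (Complex.Gamma (2 - s))⁻¹ = 0
  rw [h, inv_zero]

/-- the exponential of `lam` on the half-plane `Re s > 2` has a meromorphic continuation to `ℂ`,
which satisfies a functional equation with `d` gamma factors, up to finitely many Euler factors -/
def FCont (P : ℕ → Prop) (lam : ℂ → ℂ) (d : ℤ) : Prop :=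
  ∃ Z : ℂ → ℂ, MeromorphicOn Z Set.univ ∧ (∀ s : ℂ, 2 < s.re → Z s = Complex.exp (lam s)) ∧
    ∃ (a : ℝ) (L : List (ℂ × ℕ × ℤ)), (∀ x ∈ L, P x.2.1) ∧
      ∀ᶠ s in Filter.codiscrete ℂ, side a d L Z s = side a d L Z (2 - s)

variable {P : ℕ → Prop}

lemma FCont.zero : FCont P 0 0 := by
  refine ⟨fun _ => 1, MeromorphicOn.const 1, fun s _ => by simp, 0, [], by simp, ?_⟩
  refine Filter.Eventually.of_forall fun s => ?_
  simp [side, fac]

lemma FCont.add {l l' : ℂ → ℂ} {r r' : ℤ} (h : FCont P l r) (h' : FCont P l' r') :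
    FCont P (l + l') (r + r') := by
  obtain ⟨Z, h1, h2, a, L, h3, h4⟩ := h
  obtain ⟨Z', h1', h2', a', L', h3', h4'⟩ := h'
  refine ⟨Z * Z', h1.mul h1', fun s hs => ?_, a + a', L ++ L', fun x hx => ?_, ?_⟩
  · rw [Pi.mul_apply, h2 s hs, h2' s hs, Pi.add_apply, Complex.exp_add]
  · rcases List.mem_append.mp hx with h | h
    · exact h3 x h
    · exact h3' x h
  · filter_upwards [h4, h4', gamma_ne, gamma_ne'] with s e1 e2 e3 e4
    rw [side_add e3, side_add e4, e1, e2]

lemma FCont.neg {l : ℂ → ℂ} {r : ℤ} (h : FCont P l r) : FCont P (-l) (-r) := by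
  obtain ⟨Z, h1, h2, a, L, h3, h4⟩ := h
  refine ⟨Z⁻¹, h1.inv, fun s hs => ?_, -a, L.map fun x => (x.1, x.2.1, -x.2.2), fun x hx => ?_, ?_⟩
  · rw [Pi.inv_apply, h2 s hs, Pi.neg_apply, Complex.exp_neg]
  · obtain ⟨y, hy, rfl⟩ := List.mem_map.mp hx
    exact h3 y hy
  · filter_upwards [h4] with s e1
    rw [side_neg, side_neg, e1]

lemma FCont.nsmul {l : ℂ → ℂ} {r : ℤ} (h : FCont P l r) (n : ℕ) : FCont P (n • l) (n * r) := by
  induction n with
  | zero =>
    rw [zero_smul, Nat.cast_zero, zero_mul]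
    exact FCont.zero
  | succ n ih =>
    have h1 := ih.add h
    have h2 : (n + 1) • l = n • l + l := succ_nsmul l n
    have h3 : ((n + 1 : ℕ) : ℤ) * r = n * r + r := by push_cast; ring
    rw [h2, h3]
    exact h1

lemma FCont.zsmul {l : ℂ → ℂ} {r : ℤ} (h : FCont P l r) (n : ℤ) : FCont P (n • l) (n * r) := by
  rcases Int.eq_nat_or_neg n with ⟨m, rfl | rfl⟩
  · have h1 := h.nsmul m
    rwa [← natCast_zsmul] at h1
  · have h1 := (h.nsmul m).neg
    rw [neg_smul, natCast_zsmul, neg_mul]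
    exact h1

variable (P) in
/-- some power has a functional equation -/
def FWCont (lam : ℂ → ℂ) (r : ℚ) : Prop :=
  ∃ n : ℕ, 0 < n ∧ ∃ m : ℤ, (m : ℚ) = n * r ∧ FCont P (n • lam) m

/-- the pairs with the property `FWCont` -/
def fSub (P : ℕ → Prop) : Submodule ℚ ((ℂ → ℂ) × ℚ) where
  carrier := {v | FWCont P v.1 v.2}
  zero_mem' := ⟨1, one_pos, 0, by simp, by
    rw [Prod.fst_zero, smul_zero]
    exact FCont.zero⟩
  add_mem' := by
    rintro ⟨l, r⟩ ⟨l', r'⟩ ⟨n, hn, m, hm, h⟩ ⟨n', hn', m', hm', h'⟩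
    refine ⟨n * n', Nat.mul_pos hn hn', n' * m + n * m', ?_, ?_⟩
    · push_cast
      rw [hm, hm']
      change (n' : ℚ) * (n * r) + n * (n' * r') = (n : ℚ) * n' * (r + r')
      ring
    · have h1 := (h.nsmul n').add (h'.nsmul n)
      have h2 : (n * n') • (l + l') = n' • n • l + n • n' • l' := by
        rw [smul_add, mul_comm n n', mul_smul, mul_comm n' n, mul_smul]
      change FCont P ((n * n') • (l + l')) _
      rw [h2]
      exact h1
  smul_mem' := by
    rintro q ⟨l, r⟩ ⟨n, hn, m, hm, h⟩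
    refine ⟨n * q.den, Nat.mul_pos hn q.den_pos, q.num * m, ?_, ?_⟩
    · push_cast
      rw [hm]
      change (q.num : ℚ) * (n * r) = (n : ℚ) * q.den * (q * r)
      have h1 : (q.den : ℚ) * q = q.num := by rw [mul_comm]; exact Rat.mul_den_eq_num q
      calc (q.num : ℚ) * (n * r) = (q.den * q) * (n * r) := by rw [h1]
        _ = _ := by ring
    · have h1 := h.zsmul q.num
      have h2 : (n * q.den) • (q • l) = q.num • n • l := by
        have h3 : (q.den : ℚ) * q = q.num := by rw [mul_comm]; exact Rat.mul_den_eq_num q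
        rw [← Int.cast_smul_eq_zsmul ℚ q.num, ← Nat.cast_smul_eq_nsmul ℚ (n * q.den),
          ← Nat.cast_smul_eq_nsmul ℚ n, smul_smul, smul_smul, ← h3]
        congr 1
        push_cast
        ring
      change FCont P ((n * q.den) • (q • l)) _
      rw [h2]
      exact h1

lemma mem_fSub {v : (ℂ → ℂ) × ℚ} : v ∈ fSub P ↔ FWCont P v.1 v.2 := Iff.rfl

end Pool.Agent.Run7.h508.BR
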