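import Mathlib
import Pool.Agent.Run7.h508.BR.LG

/-!
# Points of schemes of finite type with values in finite fields
-/

set_option autoImplicit false
set_option linter.unusedSectionVars false

namespace Pool.Agent.Run7.h508.BR

open AlgebraicGeometry CategoryTheory

/-- the number of the points of `X` over `R` with values in `F` -/
noncomputable def points {R : Type} [CommRing R] {X : Scheme.{0}} (f : X ⟶ Spec (.of R)) {F : Type}
    [Field F] (φ : R →+* F) : ℕ :=
  Nat.card {g : Spec (.of F) ⟶ X // g ≫ f = Spec.map (CommRingCat.ofHom φ)}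

lemma points_congr {R : Type} [CommRing R] {X : Scheme.{0}} (f : X ⟶ Spec (.of R)) {F F' : Type}
    [Field F] [Field F'] (e : F ≃+* F') (φ : R →+* F) (φ' : R →+* F')
    (h : (e : F →+* F').comp φ = φ') : points f φ = points f φ' := by
  have h' : (e.symm : F' →+* F).comp φ' = φ := by
    rw [← h, ← RingHom.comp_assoc]
    ext x
    simp
  refine Nat.card_congr
    { toFun := fun g => ⟨Spec.map (CommRingCat.ofHom (e : F →+* F')) ≫ g.1, ?_⟩
      invFun := fun g => ⟨Spec.map (CommRingCat.ofHom (e.symm : F' →+* F)) ≫ g.1, ?_⟩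
      left_inv := fun g => Subtype.ext ?_
      right_inv := fun g => Subtype.ext ?_ }
  · rw [Category.assoc, g.2, ← Spec.map_comp, ← CommRingCat.ofHom_comp, h]
  · rw [Category.assoc, g.2, ← Spec.map_comp, ← CommRingCat.ofHom_comp, h']
  · change Spec.map _ ≫ Spec.map _ ≫ g.1 = g.1
    rw [← Category.assoc, ← Spec.map_comp, ← CommRingCat.ofHom_comp]
    have : (e.symm : F' →+* F).comp (e : F →+* F') = RingHom.id F := by
      ext x
      simp
    rw [this, CommRingCat.ofHom_id, Spec.map_id, Category.id_comp]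
  · change Spec.map _ ≫ Spec.map _ ≫ g.1 = g.1
    rw [← Category.assoc, ← Spec.map_comp, ← CommRingCat.ofHom_comp]
    have : (e : F →+* F').comp (e.symm : F' →+* F) = RingHom.id F' := by
      ext x
      simp
    rw [this, CommRingCat.ofHom_id, Spec.map_id, Category.id_comp]

/-- homomorphisms from an algebra of finite type to a finite field -/
lemma hom_bound {R A : Type} [CommRing R] [CommRing A] (ψ : R →+* A) (h : ψ.FiniteType) :
    ∃ r : ℕ, ∀ (F : Type) [Field F] [Finite F] (φ : R →+* F),
      Finite {α : A →+* F // α.comp ψ = φ} ∧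
        Nat.card {α : A →+* F // α.comp ψ = φ} ≤ Nat.card F ^ r := by
  let _ := ψ.toAlgebra
  have h1 : Algebra.FiniteType R A := h
  obtain ⟨s, hs⟩ := h1.out
  refine ⟨s.card, fun F _ _ φ => ?_⟩
  let _ := φ.toAlgebra
  let ev : {α : A →+* F // α.comp ψ = φ} → (s → F) := fun α x => α.1 x
  have hinj : Function.Injective ev := by
    intro α β hab
    let α' : A →ₐ[R] F := { α.1 with commutes' := fun r => congrArg (fun t : R →+* F => t r) α.2 }
    let β' : A →ₐ[R] F := { β.1 with commutes' := fun r => congrArg (fun t : R →+* F => t r) β.2 }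
    have h2 : α' = β' := AlgHom.ext_of_adjoin_eq_top hs fun x hx => congrFun hab ⟨x, hx⟩
    apply Subtype.ext
    ext x
    exact congrArg (fun t : A →ₐ[R] F => t x) h2
  refine ⟨Finite.of_injective ev hinj, ?_⟩
  have h3 := Nat.card_le_card_of_injective ev hinj
  rw [Nat.card_fun] at h3
  have h4 : Nat.card s = s.card := by rw [Nat.card_eq_fintype_card, Fintype.card_coe]
  rw [h4] at h3
  exact h3

/-- **the number of points of a scheme of finite type** -/
theorem points_bound {R : Type} [CommRing R] {X : Scheme.{0}} (f : X ⟶ Spec (.of R))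
    [LocallyOfFiniteType f] [QuasiCompact f] :
    ∃ C r : ℕ, ∀ (F : Type) [Field F] [Finite F] (φ : R →+* F),
      points f φ ≤ C * Nat.card F ^ r := by
  classical
  have hX : CompactSpace X := QuasiCompact.compactSpace_of_compactSpace f
  let 𝒰 := X.affineCover.finiteSubcover
  have haff : ∀ i, IsAffine (𝒰.X i) := fun i => inferInstance
  let A : 𝒰.I₀ → CommRingCat := fun i => Γ(𝒰.X i, ⊤)
  let j : ∀ i, Spec (A i) ⟶ X := fun i => (𝒰.X i).isoSpec.inv ≫ 𝒰.f i
  let ψ : ∀ i, CommRingCat.of R ⟶ A i := fun i => Spec.preimage (j i ≫ f)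
  have hψ : ∀ i, Spec.map (ψ i) = j i ≫ f := fun i => Spec.map_preimage _
  have hft : ∀ i, (ψ i).hom.FiniteType := by
    intro i
    have h1 : LocallyOfFiniteType (Spec.map (ψ i)) := by
      rw [hψ]
      infer_instance
    exact (HasRingHomProperty.Spec_iff (P := @LocallyOfFiniteType)).mp h1
  choose r hr using fun i => hom_bound (ψ i).hom (hft i)
  have hfin : Finite 𝒰.I₀ := inferInstance
  have := Fintype.ofFinite 𝒰.I₀
  refine ⟨Fintype.card 𝒰.I₀, ∑ i, r i, fun F _ _ φ => ?_⟩
  let T := Σ i : 𝒰.I₀, {α : A i →+* F // α.comp (ψ i).hom = φ}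
  have hT : Finite T := by
    have : ∀ i, Finite {α : A i →+* F // α.comp (ψ i).hom = φ} := fun i => (hr i F φ).1
    infer_instance
  let G : T → {g : Spec (.of F) ⟶ X // g ≫ f = Spec.map (CommRingCat.ofHom φ)} := fun t =>
    ⟨Spec.map (CommRingCat.ofHom t.2.1) ≫ j t.1, by
      rw [Category.assoc, ← hψ, ← Spec.map_comp]
      congr 1
      ext x
      exact congrArg (fun u : R →+* F => u x) t.2.2⟩
  have hG : Function.Surjective G := by
    rintro ⟨g, hg⟩
    let pt : Spec (.of F) := (⊥ : PrimeSpectrum F)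
    obtain ⟨i, y, hy⟩ := 𝒰.exists_eq (g pt)
    have hsub : Set.range g ⊆ Set.range (𝒰.f i) := by
      rintro _ ⟨z, rfl⟩
      have hz : z = pt := Subsingleton.elim (α := PrimeSpectrum F) z pt
      rw [hz]
      exact ⟨y, hy⟩
    let l : Spec (.of F) ⟶ 𝒰.X i := IsOpenImmersion.lift (𝒰.f i) g hsub
    have hl : l ≫ 𝒰.f i = g := IsOpenImmersion.lift_fac _ _ _
    let a : A i ⟶ CommRingCat.of F := Spec.preimage (l ≫ (𝒰.X i).isoSpec.hom)
    have ha : Spec.map a = l ≫ (𝒰.X i).isoSpec.hom := Spec.map_preimage _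
    have h1 : Spec.map a ≫ j i = g := by
      rw [ha, Category.assoc, Iso.hom_inv_id_assoc, hl]
    have h2 : Spec.map (ψ i ≫ a) = Spec.map (CommRingCat.ofHom φ) := by
      rw [Spec.map_comp, hψ, ← Category.assoc, h1, hg]
    have h3 : ψ i ≫ a = CommRingCat.ofHom φ := Spec.map_injective h2
    refine ⟨⟨i, a.hom, ?_⟩, Subtype.ext ?_⟩
    · ext x
      exact congrArg (fun u : CommRingCat.of R ⟶ CommRingCat.of F => u.hom x) h3
    · exact h1
  calc points f φ ≤ Nat.card T := Nat.card_le_card_of_surjective G hG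
    _ = ∑ i, Nat.card {α : A i →+* F // α.comp (ψ i).hom = φ} := by
        have : ∀ i, Finite {α : A i →+* F // α.comp (ψ i).hom = φ} := fun i => (hr i F φ).1
        exact Nat.card_sigma
    _ ≤ ∑ i, Nat.card F ^ (∑ i, r i) := by
        refine Finset.sum_le_sum fun i _ => ((hr i F φ).2).trans ?_
        exact Nat.pow_le_pow_right Nat.card_pos (Finset.single_le_sum (fun _ _ => Nat.zero_le _)
          (Finset.mem_univ i))
    _ = Fintype.card 𝒰.I₀ * Nat.card F ^ (∑ i, r i) := by
        rw [Finset.sum_const, Finset.card_univ, smul_eq_mul]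

end Pool.Agent.Run7.h508.BR
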