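import Mathlib
import Pool.Agent.Run7.h508.BR.Pts

/-!
# Points over the extensions of the residue fields
-/

set_option autoImplicit false
set_option linter.unusedSectionVars false

namespace Pool.Agent.Run7.h508.BR

open AlgebraicGeometry CategoryTheory NumberField IsDedekindDomain Polynomial
open Pool.Agent.K4H74.SC

/-- the number of elements of a splitting field over a finite field -/
lemma card_splitting (κ : Type) [Field κ] [Finite κ] {n : ℕ} (hn : 0 < n) :
    Finite (X ^ (Nat.card κ ^ n) - X : κ[X]).SplittingField ∧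
      Nat.card (X ^ (Nat.card κ ^ n) - X : κ[X]).SplittingField = Nat.card κ ^ n := by
  obtain ⟨p, hp⟩ := CharP.exists κ
  have hpr : Fact p.Prime := ⟨CharP.char_is_prime κ p⟩
  have hn' : NeZero n := ⟨hn.ne'⟩
  let e := Polynomial.IsSplittingField.algEquiv (FiniteField.Extension κ p n)
    (X ^ (Nat.card κ ^ n) - X : κ[X])
  refine ⟨Finite.of_equiv _ e.toEquiv, ?_⟩
  rw [← Nat.card_congr e.toEquiv, FiniteField.natCard_extension]

section nf

attribute [-instance] IsLocalRing.ResidueField.algebraOfIsIntegral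

variable {K : Type} [Field K] [NumberField K]

lemma card_residue (w : HeightOneSpectrum (𝓞 K)) :
    Finite w.asIdeal.ResidueField ∧ Nat.card w.asIdeal.ResidueField = Ideal.absNorm w.asIdeal := by
  have hmax : w.asIdeal.IsMaximal := w.isPrime.isMaximal w.ne_bot
  have h1 := Ideal.bijective_algebraMap_quotient_residueField w.asIdeal
  let e := Equiv.ofBijective _ h1
  have hfin : Finite (𝓞 K ⧸ w.asIdeal) := Ideal.finiteQuotientOfFreeOfNeBot w.asIdeal w.ne_bot
  refine ⟨Finite.of_equiv _ e, ?_⟩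
  rw [← Nat.card_congr e, Ideal.absNorm_apply, Submodule.cardQuot_apply]

/-- the extension of degree `n` of the residue field -/
abbrev Fq (w : HeightOneSpectrum (𝓞 K)) (n : ℕ) : Type :=
  (X ^ (Ideal.absNorm w.asIdeal ^ n) - X : w.asIdeal.ResidueField[X]).SplittingField

lemma card_Fq (w : HeightOneSpectrum (𝓞 K)) {n : ℕ} (hn : 0 < n) :
    Finite (Fq w n) ∧ Nat.card (Fq w n) = Ideal.absNorm w.asIdeal ^ n := by
  obtain ⟨h1, h2⟩ := card_residue w
  have h3 := card_splitting w.asIdeal.ResidueField hn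
  rw [h2] at h3
  exact h3

/-- the reduction -/
noncomputable def redF {k : Type} [Field k] [NumberField k] [Algebra k K]
    (w : HeightOneSpectrum (𝓞 K)) (n : ℕ) : 𝓞 k →+* Fq w n :=
  (algebraMap (𝓞 K) (Fq w n)).comp (algebraMap (𝓞 k) (𝓞 K))

/-- **base change** -/
theorem points_base {k : Type} [Field k] [NumberField k] [Algebra k K] {Y : Scheme.{0}}
    (f : Y ⟶ Spec (.of (𝓞 k))) (w : HeightOneSpectrum (𝓞 K)) {n : ℕ} (hn : 0 < n) :
    points f (redF (k := k) w n) =
      points f (redF (k := k) (belowP k w) (w.asIdeal.inertiaDeg (𝓞 k) * n)) := by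
  let v : HeightOneSpectrum (𝓞 k) := belowP k w
  have hw := w.isPrime
  have hv := v.isPrime
  have hlies : w.asIdeal.LiesOver v.asIdeal := ⟨rfl⟩
  have hQ : Ideal.absNorm w.asIdeal ^ n =
      Ideal.absNorm v.asIdeal ^ (w.asIdeal.inertiaDeg (𝓞 k) * n) := by
    rw [pow_mul, Ideal.absNorm_pow_inertiaDeg v.asIdeal w.asIdeal]
  obtain ⟨hf, hc⟩ := card_Fq w hn
  obtain ⟨hfv, hcv⟩ := card_residue v
  let i : v.asIdeal.ResidueField →+* w.asIdeal.ResidueField :=
    Ideal.ResidueField.map v.asIdeal w.asIdeal (algebraMap (𝓞 k) (𝓞 K)) rfl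
  let i2 : v.asIdeal.ResidueField →+* Fq w n :=
    (algebraMap w.asIdeal.ResidueField (Fq w n)).comp i
  let _ : Algebra v.asIdeal.ResidueField (Fq w n) := i2.toAlgebra
  have := Fintype.ofFinite (Fq w n)
  have h1 : Polynomial.IsSplittingField v.asIdeal.ResidueField (Fq w n)
      (Polynomial.X ^ (Ideal.absNorm v.asIdeal ^ (w.asIdeal.inertiaDeg (𝓞 k) * n)) - Polynomial.X) := by
    have h2 := FiniteField.isSplittingField_sub (Fq w n) v.asIdeal.ResidueField
    rw [Fintype.card_eq_nat_card, hc.trans hQ] at h2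
    exact h2
  let e := Polynomial.IsSplittingField.algEquiv (Fq w n) (Polynomial.X ^ (Ideal.absNorm v.asIdeal ^
    (w.asIdeal.inertiaDeg (𝓞 k) * n)) - Polynomial.X : v.asIdeal.ResidueField[X])
  refine points_congr f (F' := Fq v (w.asIdeal.inertiaDeg (𝓞 k) * n)) e.toRingEquiv _ _ ?_
  ext y
  change e (algebraMap (𝓞 K) (Fq w n) (algebraMap (𝓞 k) (𝓞 K) y)) =
    algebraMap (𝓞 k) (Fq v (w.asIdeal.inertiaDeg (𝓞 k) * n)) y
  rw [IsScalarTower.algebraMap_apply (𝓞 K) w.asIdeal.ResidueField (Fq w n),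
    IsScalarTower.algebraMap_apply (𝓞 k) v.asIdeal.ResidueField
      (Fq v (w.asIdeal.inertiaDeg (𝓞 k) * n))]
  have h3 : algebraMap (𝓞 K) w.asIdeal.ResidueField (algebraMap (𝓞 k) (𝓞 K) y) =
      i (algebraMap (𝓞 k) v.asIdeal.ResidueField y) :=
    (Ideal.ResidueField.map_algebraMap v.asIdeal w.asIdeal (algebraMap (𝓞 k) (𝓞 K)) rfl y).symm
  rw [h3]
  have h4 : algebraMap w.asIdeal.ResidueField (Fq w n) (i (algebraMap (𝓞 k) v.asIdeal.ResidueField y)) =
      algebraMap v.asIdeal.ResidueField (Fq w n) (algebraMap (𝓞 k) v.asIdeal.ResidueField y) := rfl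
  rw [h4]
  exact e.commutes _

end nf

end Pool.Agent.Run7.h508.BR

namespace Pool.Agent.Run7.h508.BR

open AlgebraicGeometry CategoryTheory NumberField IsDedekindDomain
open Pool.Agent.K4H74.SC

section weights

variable {k : Type} [Field k] [NumberField k] {Y : Scheme.{0}} (f : Y ⟶ Spec (.of (𝓞 k)))

/-- the numbers of points as weights -/
noncomputable def pw (x : HeightOneSpectrum (𝓞 k) × ℕ+) : ℂ :=
  (points f (redF (k := k) x.1 (x.2 : ℕ)) : ℂ)

lemma pw_idx {K : Type} [Field K] [NumberField K] [Algebra k K]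
    (x : HeightOneSpectrum (𝓞 K) × ℕ+) :
    pw f (idx k x) = (points f (redF (k := k) x.1 (x.2 : ℕ)) : ℂ) := by
  rw [pw, points_base f x.1 x.2.pos]
  rfl

lemma pw_bound [LocallyOfFiniteType f] [QuasiCompact f] : ∃ (C : ℝ) (r : ℕ), ∀ b : ℝ, (r : ℝ) ≤ b →
    ∀ x, ‖pw f x‖ ≤ C * (Ideal.absNorm x.1.asIdeal : ℝ) ^ (b * (x.2 : ℕ)) := by
  obtain ⟨C, r, h⟩ := points_bound f
  refine ⟨C, r, fun b hb x => ?_⟩
  obtain ⟨h1, h2⟩ := card_Fq x.1 x.2.pos
  have h3 := h (Fq x.1 (x.2 : ℕ)) (redF (k := k) x.1 (x.2 : ℕ))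
  rw [h2] at h3
  have hN : (1 : ℝ) ≤ (Ideal.absNorm x.1.asIdeal : ℝ) := by
    have := two_le_absNorm x.1
    exact_mod_cast (by omega : 1 ≤ Ideal.absNorm x.1.asIdeal)
  rw [pw, Complex.norm_natCast]
  calc (points f (redF (k := k) x.1 (x.2 : ℕ)) : ℝ)
      ≤ C * ((Ideal.absNorm x.1.asIdeal : ℝ) ^ (x.2 : ℕ)) ^ r := by exact_mod_cast h3
    _ = C * (Ideal.absNorm x.1.asIdeal : ℝ) ^ (((r : ℝ) * (x.2 : ℕ) : ℝ)) := by
        rw [← pow_mul, mul_comm (x.2 : ℕ) r, ← Real.rpow_natCast]
        push_cast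
        rfl
    _ ≤ C * (Ideal.absNorm x.1.asIdeal : ℝ) ^ (b * (x.2 : ℕ)) := by
        refine mul_le_mul_of_nonneg_left ?_ (Nat.cast_nonneg _)
        refine Real.rpow_le_rpow_of_exponent_le hN ?_
        exact mul_le_mul_of_nonneg_right hb (Nat.cast_nonneg _)

end weights

end Pool.Agent.Run7.h508.BR

namespace Pool.Agent.Run7.h508.BR

open AlgebraicGeometry CategoryTheory NumberField IsDedekindDomain Polynomial
open Pool.Agent.K4H74.SC

section unique

attribute [-instance] IsLocalRing.ResidueField.algebraOfIsIntegral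

/-- the number of points does not depend on the choice of the field -/
theorem points_unique {k K : Type} [Field k] [NumberField k] [Field K] [NumberField K] [Algebra k K]
    {Y : Scheme.{0}} (f : Y ⟶ Spec (.of (𝓞 k))) (w : HeightOneSpectrum (𝓞 K)) {n : ℕ} (hn : 0 < n)
    (F : Type) [Field F] (φ : 𝓞 K →+* F) (hF : Nat.card F = Ideal.absNorm w.asIdeal ^ n)
    (hφ : RingHom.ker φ = w.asIdeal) :
    points f (φ.comp (algebraMap (𝓞 k) (𝓞 K))) = points f (redF (k := k) w n) := by
  have hmax : w.asIdeal.IsMaximal := w.isPrime.isMaximal w.ne_bot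
  have hpos : 0 < Nat.card F := by
    rw [hF]
    have := two_le_absNorm w
    positivity
  have hfin : Finite F := Nat.finite_of_card_ne_zero hpos.ne'
  obtain ⟨hfv, hcv⟩ := card_residue w
  let ι : w.asIdeal.ResidueField →+* F := Ideal.ResidueField.lift w.asIdeal φ (fun x hx => by
    rw [← hφ] at hx
    exact hx) (fun x hx => by
    change IsUnit (φ x)
    refine IsUnit.mk0 _ fun h => hx ?_
    have h2 : x ∈ RingHom.ker φ := h
    rw [hφ] at h2
    exact h2)
  have hι : ∀ x, ι (algebraMap (𝓞 K) w.asIdeal.ResidueField x) = φ x := fun x =>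
    Ideal.ResidueField.lift_algebraMap _ _ _ _ _
  let _ : Algebra w.asIdeal.ResidueField F := ι.toAlgebra
  have := Fintype.ofFinite F
  have h1 : Polynomial.IsSplittingField w.asIdeal.ResidueField F
      (Polynomial.X ^ (Ideal.absNorm w.asIdeal ^ n) - Polynomial.X) := by
    have h2 := FiniteField.isSplittingField_sub F w.asIdeal.ResidueField
    rw [Fintype.card_eq_nat_card, hF] at h2
    exact h2
  let e := Polynomial.IsSplittingField.algEquiv F (Polynomial.X ^ (Ideal.absNorm w.asIdeal ^ n) -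
    Polynomial.X : w.asIdeal.ResidueField[X])
  refine points_congr f (F' := Fq w n) e.toRingEquiv _ _ ?_
  ext y
  change e (φ (algebraMap (𝓞 k) (𝓞 K) y)) =
    algebraMap (𝓞 K) (Fq w n) (algebraMap (𝓞 k) (𝓞 K) y)
  rw [IsScalarTower.algebraMap_apply (𝓞 K) w.asIdeal.ResidueField (Fq w n), ← hι]
  exact e.commutes _

/-- the number of points as a supremum over all fields -/
theorem points_sSup {k K : Type} [Field k] [NumberField k] [Field K] [NumberField K] [Algebra k K]
    {Y : Scheme.{0}} (f : Y ⟶ Spec (.of (𝓞 k))) (w : HeightOneSpectrum (𝓞 K)) {n : ℕ}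
    (hn : 0 < n) : sSup {c : ℕ | ∃ (F : Type) (_ : Field F) (φ : 𝓞 K →+* F),
      Nat.card F = Ideal.absNorm w.asIdeal ^ n ∧ RingHom.ker φ = w.asIdeal ∧
        c = points f (φ.comp (algebraMap (𝓞 k) (𝓞 K)))} = points f (redF (k := k) w n) := by
  have h1 : {c : ℕ | ∃ (F : Type) (_ : Field F) (φ : 𝓞 K →+* F),
      Nat.card F = Ideal.absNorm w.asIdeal ^ n ∧ RingHom.ker φ = w.asIdeal ∧
        c = points f (φ.comp (algebraMap (𝓞 k) (𝓞 K)))} = {points f (redF (k := k) w n)} := by
    ext c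
    rw [Set.mem_singleton_iff]
    constructor
    · rintro ⟨F, i1, φ, h2, h3, rfl⟩
      exact points_unique f w hn F φ h2 h3
    · rintro rfl
      refine ⟨Fq w n, inferInstance, algebraMap (𝓞 K) (Fq w n), (card_Fq w hn).2, ?_, rfl⟩
      ext x
      rw [RingHom.mem_ker, IsScalarTower.algebraMap_apply (𝓞 K) w.asIdeal.ResidueField (Fq w n),
        map_eq_zero]
      exact Ideal.algebraMap_residueField_eq_zero
  rw [h1, csSup_singleton]

end unique

end Pool.Agent.Run7.h508.BR
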