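import Mathlib
import Pool.Agent.Run7.h508.BR.Tc

/-!
# The abelian version: functions which do not change in the unramified split extensions of prime
# degree inside abelian extensions of the base field
-/

set_option autoImplicit false
set_option linter.unusedSectionVars false

namespace Pool.Agent.Run7.h508.BR

open NumberField Ideal Pool.Agent.K4H74.ST Pool.Agent.K4H77.SL Pool.Agent.K4H34.NC

/-- the function does not change in the unramified split extensions `L/K` of prime degree of totally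
complex fields with `L/k` abelian -/
def NoChangeAb {k : Type} [Field k] [NumberField k] {V : Type} [AddCommGroup V] (A : FieldFun k V)
    (m : ℕ) : Prop :=
  ∀ (K L : Type) [Field K] [NumberField K] [Field L] [NumberField L] [Algebra k K] [Algebra K L]
    [Algebra k L] [IsScalarTower k K L] [IsGalois K L], IsAbelianGalois k L → IsTotallyComplex K →
    (Module.finrank K L).Prime → UnrSplit m K L → A.f K = A.f L

section urab

variable {k : Type} [Field k] [NumberField k]

lemma fixed_abelian {N : Type} [Field N] [NumberField N] [Algebra k N] [IsGalois k N]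
    (W : Subgroup (N ≃ₐ[k] N)) (h : ∀ g h : N ≃ₐ[k] N, g * h * g⁻¹ * h⁻¹ ∈ W) :
    IsAbelianGalois k (IntermediateField.fixedField W) := by
  have hfin : FiniteDimensional k N := Module.Finite.of_restrictScalars_finite ℚ k N
  have hn : W.Normal := by
    refine ⟨fun n hn g => ?_⟩
    have h1 := W.mul_mem (h g n) hn
    rwa [inv_mul_cancel_right] at h1
  have hG : IsGalois k (IntermediateField.fixedField W) :=
    IsGalois.of_fixedField_normal_subgroup W
  refine { is_comm := ⟨fun x y => ?_⟩ }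
  obtain ⟨a, rfl⟩ := AlgEquiv.restrictNormalHom_surjective (F := k)
    (K₁ := IntermediateField.fixedField W) N x
  obtain ⟨b, rfl⟩ := AlgEquiv.restrictNormalHom_surjective (F := k)
    (K₁ := IntermediateField.fixedField W) N y
  rw [← map_mul, ← map_mul]
  ext z
  have h1 := res_apply (L := IntermediateField.fixedField W) (a * b) z
  have h2 := res_apply (L := IntermediateField.fixedField W) (b * a) z
  change ((AlgEquiv.restrictNormalHom (IntermediateField.fixedField W) (a * b) z :
    IntermediateField.fixedField W) : N) = ((AlgEquiv.restrictNormalHom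
      (IntermediateField.fixedField W) (b * a) z : IntermediateField.fixedField W) : N)
  have h3 : (a * b) (z : N) = (b * a) (z : N) := by
    have h4 := (IntermediateField.mem_fixedField_iff W (z : N)).mp z.2 _ (h a⁻¹ b⁻¹)
    rw [inv_inv, inv_inv] at h4
    have h5 : (a * b) (z : N) = (b * a) ((a⁻¹ * b⁻¹ * a * b) (z : N)) := by
      change a (b (z : N)) = (b * a * (a⁻¹ * b⁻¹ * a * b)) (z : N)
      have h6 : b * a * (a⁻¹ * b⁻¹ * a * b) = a * b := by group
      rw [h6]
      rfl
    rw [h5, h4]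
  exact h1.trans (h3.trans h2.symm)

variable {V : Type} [AddCommGroup V] (A : FieldFun k V)

theorem ur_ab {m : ℕ} (hA : NoChangeAb A m) (N : Type) [Field N] [NumberField N] [Algebra k N]
    [IsGalois k N] (W W' : Subgroup (N ≃ₐ[k] N)) (hle : W' ≤ W) (hn : (W'.subgroupOf W).Normal)
    (hp : (W'.relIndex W).Prime) (hcc : ∀ c ∈ CC k N, c ∉ W)
    (hin : ∀ Q : Ideal (𝓞 N), Q.IsMaximal → ∀ u ∈ W, u ∈ inertia k Q → u ∈ W')
    (hab : ∀ g h : N ≃ₐ[k] N, g * h * g⁻¹ * h⁻¹ ∈ W')
    (hdec : ∀ Q : Ideal (𝓞 N), Q.IsMaximal → (m : 𝓞 N) ∈ Q → ∀ u ∈ W, u ∈ decomp k Q → u ∈ W') :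
    A.f (IntermediateField.fixedField W) = A.f (IntermediateField.fixedField W') := by
  classical
  have hfin : FiniteDimensional k N := Module.Finite.of_restrictScalars_finite ℚ k N
  let F := IntermediateField.fixedField W
  let ε : W ≃* (N ≃ₐ[F] N) := IntermediateField.subgroupEquivAlgEquiv W
  have hε : ∀ (w : W) (x : N), (ε w) x = (w : N ≃ₐ[k] N) x := fun w x => rfl
  have he : ∀ h : N ≃ₐ[F] N, (ε.symm h : N ≃ₐ[k] N) = h.restrictScalars k := by
    intro h
    obtain ⟨u, rfl⟩ := ε.surjective h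
    rw [MulEquiv.symm_apply_apply]
    ext x
    rfl
  let ρ : (N ≃ₐ[F] N) →* W ⧸ (W'.subgroupOf W) :=
    (QuotientGroup.mk' (W'.subgroupOf W)).comp ε.symm.toMonoidHom
  have hρs : Function.Surjective ρ :=
    (QuotientGroup.mk'_surjective _).comp ε.symm.surjective
  have hρ : ∀ h : N ≃ₐ[F] N, ρ h = 1 ↔ (ε.symm h : N ≃ₐ[k] N) ∈ W' := by
    intro h
    change ((ε.symm h : W) : W ⧸ (W'.subgroupOf W)) = 1 ↔ _
    rw [QuotientGroup.eq_one_iff]
    rfl
  let E : IntermediateField F N := IntermediateField.fixedField ρ.ker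
  have hE : IsGalois F E := IsGalois.of_fixedField_normal_subgroup ρ.ker
  have hFN : FiniteDimensional F N := Module.Finite.of_restrictScalars_finite ℚ F N
  let π : (N ≃ₐ[F] N) →* (E ≃ₐ[F] E) := AlgEquiv.restrictNormalHom E
  have hker : ∀ g : N ≃ₐ[F] N, ρ g = 1 → π g = 1 := by
    intro g h
    ext x
    have h2 := res_apply (L := E) g x
    change algebraMap E N (π g x) = _ at h2
    change ((π g x : E) : N) = (x : N)
    exact h2.trans (x.2 ⟨g, h⟩)
  have hgi : ∀ (h : N ≃ₐ[F] N) (x : 𝓞 N), gi (ε.symm h : N ≃ₐ[k] N) x = gi h x := by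
    intro h x
    apply RingOfIntegers.ext
    rw [he]
    rfl
  have h2 : ∀ x : N, x ∈ E ↔ x ∈ IntermediateField.fixedField W' := by
    intro x
    constructor
    · intro hx
      rw [IntermediateField.mem_fixedField_iff]
      intro g hg
      have h3 : ρ (ε ⟨g, hle hg⟩) = 1 := by
        rw [hρ, MulEquiv.symm_apply_apply]
        exact hg
      exact hx ⟨ε ⟨g, hle hg⟩, h3⟩
    · intro hx
      rw [IntermediateField.mem_fixedField_iff] at hx
      intro g
      have h3 := (hρ g).mp g.2
      have h4 := hx _ h3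
      rw [he] at h4
      exact h4
  let e : E ≃ₐ[k] IntermediateField.fixedField W' :=
    { toFun := fun x => ⟨(x : N), (h2 _).mp x.2⟩
      invFun := fun x => ⟨(x : N), (h2 _).mpr x.2⟩
      left_inv := fun x => rfl
      right_inv := fun x => rfl
      map_mul' := fun x y => rfl
      map_add' := fun x y => rfl
      commutes' := fun x => rfl }
  have hEab : IsAbelianGalois k E := by
    have := fixed_abelian W' hab
    exact IsAbelianGalois.of_algHom (e : E →ₐ[k] IntermediateField.fixedField W')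
  have h1 : A.f F = A.f E := by
    refine hA F E hEab (fixed_complex W hcc) ?_ ?_
    · have h2 : Module.finrank F E = W'.relIndex W := by
        have h3 := IntermediateField.finrank_eq_fixingSubgroup_index N E
        rw [IntermediateField.fixingSubgroup_fixedField, Subgroup.index_ker] at h3
        rw [h3, MonoidHom.range_eq_top.mpr hρs, Nat.card_congr Subgroup.topEquiv.toEquiv]
        rfl
      rw [h2]
      exact hp
    · intro P hP
      refine ⟨fun g hg => ?_, fun hm g hg => ?_⟩
      · obtain ⟨h, Q, hhg, hQ, hQP, hhQ⟩ := lift_inertia (L := N) hP hg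
        rw [← hhg]
        apply hker
        rw [hρ]
        refine hin Q hQ _ (ε.symm h).2 (fun x => ?_)
        rw [hgi]
        exact hhQ x
      · obtain ⟨h, Q, hhg, hQ, hQP, hhQ⟩ := lift_decomp (N := N) hP hg
        have hmQ : (m : 𝓞 N) ∈ Q := by
          have h1 : algebraMap (𝓞 E) (𝓞 N) (m : 𝓞 E) ∈ Q := by
            rw [← Ideal.mem_comap, hQP]
            exact hm
          rwa [map_natCast] at h1
        rw [← hhg]
        apply hker
        rw [hρ]
        refine hdec Q hQ hmQ _ (ε.symm h).2 (fun x => ?_)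
        rw [hgi]
        exact hhQ x
  rw [h1, A.iso _ _ e]

end urab

section lem3ab

variable {k : Type} [Field k] [NumberField k] {V : Type} [AddCommGroup V] [Module ℚ V]
  (A : FieldFun k V)

theorem lem3_ab {m : ℕ} (hm : m ≠ 0) (hA : NoChangeAb A m) (N : Type) [Field N] [NumberField N]
    [Algebra k N] [IsAbelianGalois k N] (H : Subgroup (N ≃ₐ[k] N)) (hcc : ∀ c ∈ CC k N, c ∉ H) (l : ℕ)
    [hl : Fact l.Prime] (lam : H →* Multiplicative (ZMod l)) (hs : Function.Surjective lam) :
    A.f (IntermediateField.fixedField H) =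
      A.f (IntermediateField.fixedField (lam.ker.map H.subtype)) := by
  classical
  obtain ⟨r0, hr0, hram0⟩ := exists_ram k N
  obtain ⟨M1, i1, i2, i3, i4, i5, i6, τ1, hτ1, hd1⟩ := aux_char k N l (m * r0)
    (mul_ne_zero hm hr0)
  obtain ⟨r1, hr1, hram1⟩ := exists_ram k M1
  obtain ⟨M, j1, j2, j3, j4, j5, j6, τ2, hτ2, hd2⟩ := aux_char k M1 l (m * r0 * r1)
    (mul_ne_zero (mul_ne_zero hm hr0) hr1)
  let iNM : N →+* M := (algebraMap M1 M).comp (algebraMap N M1)
  let _ : Algebra N M := iNM.toAlgebra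
  have hNM : ∀ x, algebraMap N M x = algebraMap M1 M (algebraMap N M1 x) := fun x => rfl
  have hkNM : IsScalarTower k N M := by
    refine IsScalarTower.of_algebraMap_eq fun x => ?_
    rw [hNM, ← IsScalarTower.algebraMap_apply k N M1, ← IsScalarTower.algebraMap_apply k M1 M]
  have hfin : FiniteDimensional k M := Module.Finite.of_restrictScalars_finite ℚ k M
  let res : (M ≃ₐ[k] M) →* (N ≃ₐ[k] N) := AlgEquiv.restrictNormalHom N
  let res1 : (M ≃ₐ[k] M) →* (M1 ≃ₐ[k] M1) := AlgEquiv.restrictNormalHom M1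
  have hres : ∀ g : M ≃ₐ[k] M, AlgEquiv.restrictNormalHom N (res1 g) = res g := by
    intro g
    ext x
    apply (algebraMap N M).injective
    rw [res_apply, hNM, hNM]
    have h1 := res_apply (L := N) (res1 g) x
    change algebraMap M1 M (algebraMap N M1 (AlgEquiv.restrictNormalHom N (res1 g) x)) = _
    rw [h1, res_apply]
  let Ĥ : Subgroup (M ≃ₐ[k] M) := H.comap res
  have habel : ∀ a b : N ≃ₐ[k] N, a * b = b * a := fun a b =>
    (IsAbelianGalois.toIsMulCommutative (K := k) (L := N)).is_comm.comm a b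
  let Λ : Ĥ →* Multiplicative (Fin 3 → ZMod l) := MonoidHom.mk'
    (fun g => Multiplicative.ofAdd ![(lam ⟨res g, g.2⟩).toAdd, (τ1 (res1 g)).toAdd, (τ2 g).toAdd])
    (fun a b => by
      apply Multiplicative.toAdd.injective
      funext i
      have h1 : lam ⟨res ((a * b : Ĥ) : M ≃ₐ[k] M), (a * b).2⟩ =
          lam ⟨res a, a.2⟩ * lam ⟨res b, b.2⟩ := by
        rw [← map_mul]
        congr 1
        apply Subtype.ext
        exact map_mul res _ _
      have h2 : τ1 (res1 ((a * b : Ĥ) : M ≃ₐ[k] M)) = τ1 (res1 a) * τ1 (res1 b) := by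
        rw [← map_mul, ← map_mul]
        rfl
      have h3 : τ2 ((a * b : Ĥ) : M ≃ₐ[k] M) = τ2 a * τ2 b := by
        rw [← map_mul]
        rfl
      rw [h1, h2, h3]
      fin_cases i <;> rfl)
  have hΛ0 : ∀ g, (Λ g).toAdd 0 = (lam ⟨res g, g.2⟩).toAdd := fun g => rfl
  have hΛ1 : ∀ g, (Λ g).toAdd 1 = (τ1 (res1 g)).toAdd := fun g => rfl
  have hΛ2 : ∀ g, (Λ g).toAdd 2 = (τ2 g).toAdd := fun g => rfl
  have hΛ : Function.Surjective Λ := by
    intro a
    obtain ⟨h, hh⟩ := hs (Multiplicative.ofAdd (a.toAdd 0))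
    obtain ⟨g1, hg1, hg1'⟩ := hτ1 (h : N ≃ₐ[k] N) (Multiplicative.ofAdd (a.toAdd 1))
    obtain ⟨g, hg, hg'⟩ := hτ2 g1 (Multiplicative.ofAdd (a.toAdd 2))
    have h1 : res g = h := by
      rw [← hres]
      change AlgEquiv.restrictNormalHom N (AlgEquiv.restrictNormalHom M1 g) = h
      rw [hg, hg1]
    have h2 : g ∈ Ĥ := by
      change res g ∈ H
      rw [h1]
      exact h.2
    refine ⟨⟨g, h2⟩, ?_⟩
    apply Multiplicative.toAdd.injective
    funext i
    have h3 : lam ⟨res g, h2⟩ = Multiplicative.ofAdd (a.toAdd 0) := by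
      rw [← hh]
      congr 1
      exact Subtype.ext h1
    have h4 : τ1 (res1 g) = Multiplicative.ofAdd (a.toAdd 1) := by
      rw [← hg1', ← hg]
    fin_cases i
    · change (Λ ⟨g, h2⟩).toAdd 0 = a.toAdd 0
      rw [hΛ0, h3]
      rfl
    · change (Λ ⟨g, h2⟩).toAdd 1 = a.toAdd 1
      rw [hΛ1, h4]
      rfl
    · change (Λ ⟨g, h2⟩).toAdd 2 = a.toAdd 2
      rw [hΛ2, hg']
      rfl
  -- decomposition elements above `m`
  have hdecA : ∀ Q : Ideal (𝓞 M), Q.IsMaximal → (m : 𝓞 M) ∈ Q → ∀ u (hu : u ∈ Ĥ),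
      u ∈ decomp k Q → Axis (Λ ⟨u, hu⟩).toAdd := by
    intro Q hQ hmQ u hu hd
    have h1 : ((m * r0 * r1 : ℕ) : 𝓞 M) ∈ Q := by
      rw [Nat.cast_mul, Nat.cast_mul, mul_assoc]
      exact Q.mul_mem_right _ hmQ
    have h2 : ((m * r0 : ℕ) : 𝓞 M1) ∈ Q.comap (algebraMap (𝓞 M1) (𝓞 M)) := by
      rw [natCast_comap, Nat.cast_mul]
      exact Q.mul_mem_right _ hmQ
    have hQ1 : (Q.comap (algebraMap (𝓞 M1) (𝓞 M))).IsMaximal :=
      Ideal.isMaximal_comap_of_isIntegral_of_isMaximal Q
    have h3 : τ2 u = 1 := hd2 Q hQ h1 u hd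
    have h4 : τ1 (res1 u) = 1 := by
      refine hd1 _ hQ1 h2 _ fun x => ?_
      rw [Ideal.mem_comap, Ideal.mem_comap]
      have h5 : algebraMap (𝓞 M1) (𝓞 M) (gi (res1 u) x) = gi u (algebraMap (𝓞 M1) (𝓞 M) x) := by
        apply RingOfIntegers.ext
        exact res_apply u (x : M1)
      rw [h5]
      exact hd _
    refine ⟨0, fun j hj => ?_⟩
    fin_cases j
    · exact absurd rfl hj
    · change (τ1 (res1 u)).toAdd = 0
      rw [h4]
      rfl
    · change (τ2 u).toAdd = 0
      rw [h3]
      rfl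
  -- inertia elements
  have hinA : ∀ Q : Ideal (𝓞 M), Q.IsMaximal → ∀ u (hu : u ∈ Ĥ),
      u ∈ inertia k Q → Axis (Λ ⟨u, hu⟩).toAdd := by
    intro Q hQ u hu hin
    have hQ1 : (Q.comap (algebraMap (𝓞 M1) (𝓞 M))).IsMaximal :=
      Ideal.isMaximal_comap_of_isIntegral_of_isMaximal Q
    have h0 : res1 u ∈ inertia k (Q.comap (algebraMap (𝓞 M1) (𝓞 M))) := res_inertia hin
    by_cases h1 : ((m * r0 * r1 : ℕ) : 𝓞 M) ∈ Q
    · have h3 : τ2 u = 1 := hd2 Q hQ h1 u (inertia_sub Q hin)
      by_cases h2 : ((m * r0 : ℕ) : 𝓞 M) ∈ Q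
      · have h4 : τ1 (res1 u) = 1 :=
          hd1 _ hQ1 (natCast_comap.mpr h2) _ (inertia_sub _ h0)
        refine ⟨0, fun j hj => ?_⟩
        fin_cases j
        · exact absurd rfl hj
        · change (τ1 (res1 u)).toAdd = 0
          rw [h4]
          rfl
        · change (τ2 u).toAdd = 0
          rw [h3]
          rfl
      · have h4 : res u = 1 := by
          by_contra hne
          apply h2
          have h5 := hram0 _ ⟨res u, res_inertia hin, hne⟩
          rw [natCast_comap] at h5
          rw [Nat.cast_mul]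
          exact Q.mul_mem_left _ h5
        refine ⟨1, fun j hj => ?_⟩
        fin_cases j
        · change (lam ⟨res u, hu⟩).toAdd = 0
          have h5 : (⟨res u, hu⟩ : H) = 1 := Subtype.ext h4
          rw [h5, map_one]
          rfl
        · exact absurd rfl hj
        · change (τ2 u).toAdd = 0
          rw [h3]
          rfl
    · have h4 : res1 u = 1 := by
        by_contra hne
        apply h1
        have h5 := hram1 _ ⟨res1 u, h0, hne⟩
        rw [natCast_comap] at h5
        rw [Nat.cast_mul]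
        exact Q.mul_mem_left _ h5
      have h5 : res u = 1 := by rw [← hres, h4, map_one]
      refine ⟨2, fun j hj => ?_⟩
      fin_cases j
      · change (lam ⟨res u, hu⟩).toAdd = 0
        have h6 : (⟨res u, hu⟩ : H) = 1 := Subtype.ext h5
        rw [h6, map_one]
        rfl
      · change (τ1 (res1 u)).toAdd = 0
        rw [h4, map_one]
        rfl
      · exact absurd rfl hj
  -- commutators
  have hcomm : ∀ (W' : AddSubgroup (Fin 3 → ZMod l)) (g h : M ≃ₐ[k] M),
      g * h * g⁻¹ * h⁻¹ ∈ pre Λ W' := by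
    intro W' g h
    have h1 : res (g * h * g⁻¹ * h⁻¹) = 1 := by
      rw [map_mul, map_mul, map_mul, map_inv, map_inv, habel (res g) (res h)]
      group
    have h2 : g * h * g⁻¹ * h⁻¹ ∈ Ĥ := by
      change res (g * h * g⁻¹ * h⁻¹) ∈ H
      rw [h1]
      exact H.one_mem
    refine mem_pre.mpr ⟨h2, ?_⟩
    have h3 : (Λ ⟨g * h * g⁻¹ * h⁻¹, h2⟩).toAdd = 0 := by
      funext i
      fin_cases i
      · change (lam ⟨res (g * h * g⁻¹ * h⁻¹), h2⟩).toAdd = 0
        have h5 : (⟨res (g * h * g⁻¹ * h⁻¹), h2⟩ : H) = 1 := Subtype.ext h1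
        rw [h5, map_one]
        rfl
      · change (τ1 (res1 (g * h * g⁻¹ * h⁻¹))).toAdd = 0
        have h5 : τ1 (res1 (g * h * g⁻¹ * h⁻¹)) = 1 := by
          rw [map_mul, map_mul, map_mul, map_inv, map_inv, map_mul, map_mul, map_mul, map_inv,
            map_inv, mul_comm (τ1 (res1 g))]
          group
        rw [h5]
        rfl
      · change (τ2 (g * h * g⁻¹ * h⁻¹)).toAdd = 0
        have h5 : τ2 (g * h * g⁻¹ * h⁻¹) = 1 := by
          rw [map_mul, map_mul, map_mul, map_inv, map_inv, mul_comm (τ2 g)]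
          group
        rw [h5]
        rfl
    rw [h3]
    exact W'.zero_mem
  obtain ⟨φ, hφ⟩ := A.mean M
  obtain ⟨ψ, hψ⟩ := pre_mean hφ hΛ
  have key := a3 (fun W => A.f (IntermediateField.fixedField (pre Λ W))) ψ hψ (fun W' W hle hrel hax => by
    symm
    refine ur_ab A hA M (pre Λ W) (pre Λ W') ?_ (pre_normal W' W) ?_ ?_ ?_ (hcomm W') ?_
    · intro g hg
      obtain ⟨h1, h2⟩ := mem_pre.mp hg
      exact mem_pre.mpr ⟨h1, hle h2⟩
    · rw [pre_relIndex hΛ, hrel]
      exact hl.out
    · intro c hc hcW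
      obtain ⟨h1, h2⟩ := mem_pre.mp hcW
      exact hcc _ (CC_res hc) h1
    · intro Q hQ u hu hin
      obtain ⟨h1, h2⟩ := mem_pre.mp hu
      exact mem_pre.mpr ⟨h1, hax _ h2 (hinA Q hQ u h1 hin)⟩
    · intro Q hQ hmQ u hu hin
      obtain ⟨h1, h2⟩ := mem_pre.mp hu
      exact mem_pre.mpr ⟨h1, hax _ h2 (hdecA Q hQ hmQ u h1 hin)⟩)
    ⊤ (Pi.evalAddMonoidHom (fun _ : Fin 3 => ZMod l) 0).ker
  have h1 : pre Λ ⊤ = H.comap (AlgEquiv.restrictNormalHom N : (M ≃ₐ[k] M) →* (N ≃ₐ[k] N)) := by
    ext g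
    rw [mem_pre]
    exact ⟨fun ⟨h, _⟩ => h, fun h => ⟨h, AddSubgroup.mem_top _⟩⟩
  have h2 : pre Λ (Pi.evalAddMonoidHom (fun _ : Fin 3 => ZMod l) 0).ker =
      (lam.ker.map H.subtype).comap
        (AlgEquiv.restrictNormalHom N : (M ≃ₐ[k] M) →* (N ≃ₐ[k] N)) := by
    ext g
    rw [mem_pre]
    constructor
    · rintro ⟨h, h3⟩
      refine ⟨⟨res g, h⟩, ?_, rfl⟩
      have h4 : (lam ⟨res g, h⟩).toAdd = 0 := h3
      exact Multiplicative.toAdd.injective h4
    · rintro ⟨x, hx, hxg⟩
      have h3 : res g ∈ H := by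
        have h4 : (x : N ≃ₐ[k] N) = res g := hxg
        rw [← h4]
        exact x.2
      refine ⟨h3, ?_⟩
      change (lam ⟨res g, h3⟩).toAdd = 0
      have h5 : (⟨res g, h3⟩ : H) = x := Subtype.ext hxg.symm
      rw [h5]
      have h6 : lam x = 1 := hx
      rw [h6]
      rfl
  have key2 : A.f (IntermediateField.fixedField (pre Λ ⊤)) =
    A.f (IntermediateField.fixedField
      (pre Λ (Pi.evalAddMonoidHom (fun _ : Fin 3 => ZMod l) 0).ker)) := key
  rw [h1, h2, f_comap, f_comap] at key2
  exact key2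

theorem cyc_all_ab {m : ℕ} (hm : m ≠ 0) (hA : NoChangeAb A m) (N : Type) [Field N] [NumberField N]
    [Algebra k N] [IsAbelianGalois k N] (H : Subgroup (N ≃ₐ[k] N)) (hcc : ∀ c ∈ CC k N, c ∉ H)
    (hH : IsCyclic H) :
    A.f (IntermediateField.fixedField H) = A.f (IntermediateField.fixedField
      (⊥ : Subgroup (N ≃ₐ[k] N))) := by
  have hfin : FiniteDimensional k N := Module.Finite.of_restrictScalars_finite ℚ k N
  induction hn : Nat.card H using Nat.strong_induction_on generalizing H with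
  | _ n ih =>
    by_cases h1 : Nat.card H = 1
    · rw [Subgroup.card_eq_one.mp h1]
    · obtain ⟨l, hl, lam, hlam⟩ := exists_prime_quot h1
      rw [lem3_ab A hm hA N H hcc l lam hlam]
      have h2 : Nat.card lam.ker * l = Nat.card H := by
        have h3 := Subgroup.card_mul_index lam.ker
        rw [Subgroup.index_ker, MonoidHom.range_eq_top.mpr hlam,
          Nat.card_congr Subgroup.topEquiv.toEquiv, Nat.card_congr Multiplicative.toAdd,
          Nat.card_zmod] at h3
        exact h3
      have h4 : Nat.card (lam.ker.map H.subtype) = Nat.card lam.ker :=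
        Nat.card_congr (lam.ker.equivMapOfInjective _ H.subtype_injective).toEquiv.symm
      have hle : lam.ker.map H.subtype ≤ H := Subgroup.map_subtype_le _
      refine ih _ ?_ _ (fun c hc h => hcc c hc (hle h)) ?_ rfl
      · rw [← hn, h4, ← h2]
        have := hl.out.two_le
        have : 0 < Nat.card lam.ker := Nat.card_pos
        nlinarith
      · exact (lam.ker.equivMapOfInjective _ H.subtype_injective).isCyclic.mp inferInstance

theorem noCC_all_ab {m : ℕ} (hm : m ≠ 0) (hA : NoChangeAb A m) (N : Type) [Field N] [NumberField N]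
    [Algebra k N] [IsAbelianGalois k N] (H : Subgroup (N ≃ₐ[k] N)) (hcc : ∀ c ∈ CC k N, c ∉ H) :
    A.f (IntermediateField.fixedField H) = A.f (IntermediateField.fixedField
      (⊥ : Subgroup (N ≃ₐ[k] N))) := by
  classical
  have hfin : FiniteDimensional k N := Module.Finite.of_restrictScalars_finite ℚ k N
  have := Fintype.ofFinite (N ≃ₐ[k] N)
  obtain ⟨φ, h1, h2, h3⟩ := exists_norm A N
  let a := A.f (IntermediateField.fixedField (⊥ : Subgroup (N ≃ₐ[k] N)))
  have h4 : ∀ g ∈ H, φ g = a := by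
    intro g hg
    refine mean_val h1 h3 g fun C hC => ?_
    have hle : C ≤ H := hC.trans (Subgroup.zpowers_le.mpr hg)
    refine cyc_all_ab A hm hA N C (fun c hc h => hcc c hc (hle h)) ?_
    have h5 : IsCyclic (Subgroup.zpowers g) := inferInstance
    exact isCyclic_of_injective (Subgroup.inclusion hC) (Subgroup.inclusion_injective hC)
  have h5 := h1 H
  rw [tot_eq] at h5
  have h6 : ∀ g, (if g ∈ H then φ g else 0) = (if g ∈ H then 1 else 0 : ℕ) • a := by
    intro g
    by_cases hg : g ∈ H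
    · rw [if_pos hg, if_pos hg, one_smul, h4 g hg]
    · rw [if_neg hg, if_neg hg, zero_smul]
  simp only [h6] at h5
  rw [← Finset.sum_smul] at h5
  have h7 : (∑ g : (N ≃ₐ[k] N), if g ∈ H then 1 else 0) = Nat.card H := by
    rw [Nat.card_eq_fintype_card, Fintype.card_subtype, Finset.card_filter]
  rw [h7] at h5
  exact smul_inj Nat.card_pos.ne' h5

/-- **The function is constant on the totally complex abelian extensions.** -/
theorem abelian_const {m : ℕ} (hm : m ≠ 0) (hA : NoChangeAb A m) (hk : IsTotallyComplex k)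
    (N : Type) [Field N] [NumberField N] [Algebra k N] [IsAbelianGalois k N] : A.f N = A.f k := by
  have hfin : FiniteDimensional k N := Module.Finite.of_restrictScalars_finite ℚ k N
  have h1 := noCC_all_ab A hm hA N ⊤ (fun c hc _ => by
    obtain ⟨φ, hφ⟩ := hc
    have h2 : ComplexEmbedding.IsReal (φ.comp (algebraMap k N)) := by
      ext x
      have h3 := hφ.eq (algebraMap k N x)
      rw [c.commutes] at h3
      change star (φ (algebraMap k N x)) = φ (algebraMap k N x)
      exact h3.symm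
    have h3 : (InfinitePlace.mk (φ.comp (algebraMap k N))).IsReal := ⟨_, h2, rfl⟩
    exact absurd (hk.isComplex _) (InfinitePlace.not_isComplex_iff_isReal.mpr h3))
  have h4 : IntermediateField.fixedField (⊥ : Subgroup (N ≃ₐ[k] N)) = ⊤ := by
    rw [eq_top_iff]
    intro x _
    rw [IntermediateField.mem_fixedField_iff]
    intro g hg
    rw [Subgroup.mem_bot.mp hg]
    rfl
  rw [InfiniteGalois.fixedField_bot, h4] at h1
  have h2 : A.f (⊤ : IntermediateField k N) = A.f N :=
    A.iso _ _ IntermediateField.topEquiv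
  have h3 : A.f (⊥ : IntermediateField k N) = A.f k :=
    A.iso _ _ (IntermediateField.botEquiv k N)
  rw [← h2, ← h3]
  exact h1.symm

end lem3ab

end Pool.Agent.Run7.h508.BR
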