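import Mathlib
import Pool.Agent.Run7.h508.BR.Leo

/-!
# The kernel of the partial Leopoldt map as a function of number fields
-/

set_option autoImplicit false
set_option linter.unusedSectionVars false

namespace Pool.Agent.Run7.h508.BR

open NumberField TensorProduct Pool.Agent.W289.SL

section sleo

variable {p : ℕ} [Fact p.Prime] {L : ℂ_[p] → ℂ_[p]} (hL : IsIwasawaLog p L)
  {k : Type} [Field k] [NumberField k] (S : Set (k →+* ℂ_[p]))

/-- the kernel of the partial Leopoldt map -/
noncomputable def slker (K : Type) [Field K] [NumberField K] [Algebra k K] :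
    Submodule ℂ_[p] (UM p K) :=
  ⨅ σ : {σ : K →+* ℂ_[p] // σ.comp (algebraMap k K) ∈ S}, LinearMap.ker (logLin hL σ.1)

lemma mem_slker {K : Type} [Field K] [NumberField K] [Algebra k K] {x : UM p K} :
    x ∈ slker hL S K ↔ ∀ σ : K →+* ℂ_[p], σ.comp (algebraMap k K) ∈ S → logLin hL σ x = 0 := by
  rw [slker, Submodule.mem_iInf]
  constructor
  · intro h σ hσ
    exact h ⟨σ, hσ⟩
  · rintro h ⟨σ, hσ⟩
    exact h σ hσ

lemma sinc_mem {K H : Type} [Field K] [NumberField K] [Algebra k K] [Field H] [NumberField H]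
    [Algebra k H] [Algebra K H] [IsScalarTower k K H] {x : UM p K} (hx : x ∈ slker hL S K) :
    incLin p K H x ∈ slker hL S H := by
  rw [mem_slker] at hx ⊢
  intro σ hσ
  rw [logLin_inc]
  refine hx _ ?_
  rw [RingHom.comp_assoc, ← IsScalarTower.algebraMap_eq k K H]
  exact hσ

/-- the dimension of the kernel of the partial Leopoldt map -/
noncomputable def sleo (K : Type) [Field K] [NumberField K] [Algebra k K] : ℕ :=
  Module.finrank ℂ_[p] (slker hL S K)

lemma sleo_mono (K H : Type) [Field K] [NumberField K] [Algebra k K] [Field H] [NumberField H]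
    [Algebra k H] [Algebra K H] [IsScalarTower k K H] : sleo hL S K ≤ sleo hL S H := by
  let f : slker hL S K →ₗ[ℂ_[p]] slker hL S H :=
    ((incLin p K H).comp (slker hL S K).subtype).codRestrict _ fun x => sinc_mem hL S x.2
  refine LinearMap.finrank_le_finrank_of_injective (f := f) ?_
  intro a b hab
  apply Subtype.ext
  apply incLin_inj (H := H)
  exact congrArg Subtype.val hab

lemma sleo_iso (K H : Type) [Field K] [NumberField K] [Algebra k K] [Field H] [NumberField H]
    [Algebra k H] (e : K ≃ₐ[k] H) : sleo hL S K = sleo hL S H := by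
  apply le_antisymm
  · let _ : Algebra K H := (e : K →+* H).toAlgebra
    have : IsScalarTower k K H := IsScalarTower.of_algebraMap_eq fun x => (e.commutes x).symm
    exact sleo_mono hL S K H
  · let _ : Algebra H K := (e.symm : H →+* K).toAlgebra
    have : IsScalarTower k H K := IsScalarTower.of_algebraMap_eq fun x => (e.symm.commutes x).symm
    exact sleo_mono hL S H K

section gal

variable (N : Type) [Field N] [NumberField N] [Algebra k N]

/-- the action on the kernel -/
noncomputable def slact (g : N ≃ₐ[k] N) : slker hL S N →ₗ[ℂ_[p]] slker hL S N :=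
  (actLin p (g : N →+* N)).restrict fun x hx => by
    rw [mem_slker] at hx ⊢
    intro σ hσ
    rw [logLin_act]
    refine hx _ ?_
    rw [RingHom.comp_assoc]
    have h1 : (g : N →+* N).comp (algebraMap k N) = algebraMap k N := by
      ext x
      exact g.commutes x
    rw [h1]
    exact hσ

lemma slact_mul (g h : N ≃ₐ[k] N) (v : slker hL S N) :
    slact hL S N (g * h) v = slact hL S N g (slact hL S N h v) := by
  apply Subtype.ext
  exact act_comp (g : N →+* N) (h : N →+* N) (v : UM p N)

lemma sleo_fixed [IsGalois k N] (H : Subgroup (N ≃ₐ[k] N)) :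
    sleo hL S (IntermediateField.fixedField H) = Module.finrank ℂ_[p] (fixS (slact hL S N) H) := by
  have hfin : FiniteDimensional k N := Module.Finite.of_restrictScalars_finite ℚ k N
  let F := IntermediateField.fixedField H
  have hFN : FiniteDimensional F N := Module.Finite.of_restrictScalars_finite ℚ F N
  have hres : ∀ g : N ≃ₐ[F] N, g.restrictScalars k ∈ H := by
    intro g
    have h1 : g.restrictScalars k ∈ F.fixingSubgroup := by
      rw [IntermediateField.mem_fixingSubgroup_iff]
      intro x hx
      exact g.commutes ⟨x, hx⟩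
    rwa [IntermediateField.fixingSubgroup_fixedField] at h1
  let f : slker hL S F →ₗ[ℂ_[p]] fixS (slact hL S N) H :=
    LinearMap.codRestrict _ (((incLin p F N).comp (slker hL S F).subtype).codRestrict (slker hL S N)
      fun x => sinc_mem hL S x.2) (fun x h hh => by
        apply Subtype.ext
        change actLin p (h : N →+* N) (incLin p F N (x : UM p F)) = incLin p F N (x : UM p F)
        induction (x : UM p F) using TensorProduct.induction_on with
        | zero => simp
        | tmul c u =>
          rw [incLin_tmul, actLin_tmul]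
          congr 1
          apply Additive.toMul.injective
          apply Units.ext
          apply RingOfIntegers.ext
          rw [unitHom_apply, unitInc_apply]
          exact (IntermediateField.mem_fixedField_iff H _).mp
            (((Additive.toMul u : (𝓞 F)ˣ) : 𝓞 F) : F).2 h hh
        | add a b ha hb => rw [map_add, map_add, ha, hb])
  have hbij : Function.Bijective f := by
    constructor
    · intro a b hab
      apply Subtype.ext
      apply incLin_inj (H := N)
      exact congrArg (fun z : fixS (slact hL S N) H => ((z : slker hL S N) : UM p N)) hab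
    · intro y
      have hy : ∀ g : N ≃ₐ[F] N, actLin p (g : N →+* N) ((y : slker hL S N) : UM p N) =
          ((y : slker hL S N) : UM p N) := by
        intro g
        exact congrArg Subtype.val (y.2 _ (hres g))
      have hc : (Nat.card (N ≃ₐ[F] N) : ℂ_[p]) ≠ 0 := by exact_mod_cast Nat.card_pos.ne'
      let x : UM p F := (Nat.card (N ≃ₐ[F] N) : ℂ_[p])⁻¹ • nrmLin p F N ((y : slker hL S N) : UM p N)
      have hx : incLin p F N x = ((y : slker hL S N) : UM p N) := by
        change incLin p F N (_ • _) = _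
        rw [map_smul, inc_nrmLin, Finset.sum_congr rfl fun g _ => hy g, Finset.sum_const,
          Finset.card_univ, ← Nat.card_eq_fintype_card, ← Nat.cast_smul_eq_nsmul ℂ_[p], smul_smul,
          inv_mul_cancel₀ hc, one_smul]
      have hx2 : x ∈ slker hL S F := by
        rw [mem_slker]
        intro τ hτ
        let _ : Algebra F ℂ_[p] := τ.toAlgebra
        let σ : N →ₐ[F] ℂ_[p] := IsAlgClosed.lift
        have h1 : (σ : N →+* ℂ_[p]).comp (algebraMap F N) = τ := by
          ext z
          exact σ.commutes z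
        rw [← h1, ← logLin_inc, hx]
        refine (mem_slker hL S).mp (y : slker hL S N).2 _ ?_
        have h3 : (σ : N →+* ℂ_[p]).comp (algebraMap k N) = τ.comp (algebraMap k F) := by
          rw [← h1]
          rfl
        rw [h3]
        exact hτ
      refine ⟨⟨x, hx2⟩, ?_⟩
      apply Subtype.ext
      apply Subtype.ext
      exact hx
  exact (LinearEquiv.ofBijective f hbij).finrank_eq

end gal

/-- the dimension of the kernel as a function of number fields -/
noncomputable def sleoFun : FieldFun k ℂ_[p] where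
  f := fun K _ _ _ => (sleo hL S K : ℂ_[p])
  iso := fun K K' _ _ _ _ _ _ e => by rw [sleo_iso hL S K K' e]
  mean := fun N _ _ _ _ => by
    classical
    have hfin : FiniteDimensional k N := Module.Finite.of_restrictScalars_finite ℚ k N
    refine ⟨fun g => LinearMap.trace ℂ_[p] _ (slact hL S N g), fun H => ?_⟩
    have h1 := dim_mean (slact hL S N) (slact_mul hL S N) H
    change Nat.card H • (sleo hL S (IntermediateField.fixedField H) : ℂ_[p]) = _
    rw [sleo_fixed hL S N H]
    exact h1

lemma slker_eq_bot {K : Type} [Field K] [NumberField K] [Algebra k K] (h : sleo hL S K = 0) :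
    slker hL S K = ⊥ := by
  rw [sleo] at h
  exact Submodule.finrank_eq_zero.mp h

end sleo

section eig

/-- eigenvectors of finite abelian groups -/
lemma exists_eigen {G : Type} [CommGroup G] [Finite G] {Ω : Type} [Field Ω] [CharZero Ω]
    [IsAlgClosed Ω] {X : Type} [AddCommGroup X] [Module Ω X] (ρ : G → X →ₗ[Ω] X)
    (hρ : ∀ g h v, ρ (g * h) v = ρ g (ρ h v)) (h1 : ∀ v, ρ 1 v = v) {x : X} (hx : x ≠ 0) :
    ∃ (χ : G →* Ωˣ) (y : X), y ≠ 0 ∧ ∀ g, ρ g y = ((χ g : Ωˣ) : Ω) • y := by
  classical
  have := Fintype.ofFinite G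
  have hne : NeZero (Monoid.exponent G) := ⟨Monoid.exponent_ne_zero_of_finite⟩
  have hroots : HasEnoughRootsOfUnity Ω (Monoid.exponent G) := inferInstance
  obtain ⟨ε⟩ := CommGroup.monoidHom_mulEquiv_of_hasEnoughRootsOfUnity G Ω
  have hfin : Finite (G →* Ωˣ) := Finite.of_equiv G ε.symm.toEquiv
  have := Fintype.ofFinite (G →* Ωˣ)
  let e : (G →* Ωˣ) → X := fun χ => ∑ g : G, (((χ g)⁻¹ : Ωˣ) : Ω) • ρ g x
  have hsum : ∑ χ : G →* Ωˣ, e χ = (Fintype.card (G →* Ωˣ) : Ω) • x := by
    change ∑ χ : G →* Ωˣ, ∑ g : G, (((χ g)⁻¹ : Ωˣ) : Ω) • ρ g x = _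
    rw [Finset.sum_comm]
    simp only [← Finset.sum_smul]
    rw [Finset.sum_eq_single 1]
    · simp only [map_one, inv_one, Units.val_one]
      rw [Finset.sum_const, Finset.card_univ, nsmul_eq_mul, mul_one, h1]
    · intro g _ hg
      obtain ⟨φ, hφ⟩ := CommGroup.exists_apply_ne_one_of_hasEnoughRootsOfUnity G Ω
        (inv_ne_one.mpr hg)
      have h2 : ∑ χ : G →* Ωˣ, (((χ g)⁻¹ : Ωˣ) : Ω) =
          ((φ g⁻¹ : Ωˣ) : Ω) * ∑ χ : G →* Ωˣ, (((χ g)⁻¹ : Ωˣ) : Ω) := by
        rw [Finset.mul_sum]
        refine Fintype.sum_equiv (Equiv.mulLeft φ⁻¹) _ _ fun χ => ?_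
        rw [← Units.val_mul]
        congr 1
        change (χ g)⁻¹ = φ g⁻¹ * ((φ⁻¹ * χ) g)⁻¹
        rw [MonoidHom.mul_apply, MonoidHom.inv_apply, map_inv, mul_inv, inv_inv,
          inv_mul_cancel_left]
      have h3 : (((φ g⁻¹ : Ωˣ) : Ω) - 1) * ∑ χ : G →* Ωˣ, (((χ g)⁻¹ : Ωˣ) : Ω) = 0 := by
        rw [sub_mul, one_mul, ← h2, sub_self]
      rcases mul_eq_zero.mp h3 with h4 | h4
      · exfalso
        apply hφ
        apply Units.ext
        rw [Units.val_one]
        exact sub_eq_zero.mp h4
      · rw [h4, zero_smul]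
    · intro h
      exact absurd (Finset.mem_univ _) h
  have hcard : (Fintype.card (G →* Ωˣ) : Ω) ≠ 0 := Nat.cast_ne_zero.mpr Fintype.card_ne_zero
  have hne2 : ∑ χ : G →* Ωˣ, e χ ≠ 0 := by
    rw [hsum]
    exact smul_ne_zero hcard hx
  obtain ⟨χ, -, hχ⟩ := Finset.exists_ne_zero_of_sum_ne_zero hne2
  refine ⟨χ, e χ, hχ, fun g => ?_⟩
  change ρ g (∑ h : G, (((χ h)⁻¹ : Ωˣ) : Ω) • ρ h x) = _ • ∑ h : G, (((χ h)⁻¹ : Ωˣ) : Ω) • ρ h x
  rw [map_sum, Finset.smul_sum]
  refine Fintype.sum_equiv (Equiv.mulLeft g) _ _ fun h => ?_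
  change _ = _ • (((χ (g * h))⁻¹ : Ωˣ) : Ω) • ρ (g * h) x
  rw [map_smul, hρ, smul_smul, ← Units.val_mul, map_mul, mul_inv, ← mul_assoc, mul_inv_cancel,
    one_mul]

end eig

end Pool.Agent.Run7.h508.BR
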